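import Mathlib
import Pool.Agent.R528.RM.Sp5

set_option autoImplicit false
set_option linter.unusedSectionVars false
set_option linter.unusedVariables false

/-! # Two-sided windows around the squares -/

open MeasureTheory Filter Set
open scoped ENNReal Topology

namespace Pool.Agent.R291.RMW

open Pool.Agent.R528.RM

variable {Ω : Type} {m0 : MeasurableSpace Ω} {μ : Measure Ω} [IsProbabilityMeasure μ]
  {ℱ : Filtration ℕ m0} {A : ℕ → Set Ω}

/-- `⌊u log² j⌋` -/
noncomputable def flq (u : ℝ) (j : ℕ) : ℕ := ⌊u * Real.log j ^ 2⌋₊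

/-- the start of the two-sided window -/
noncomputable def TT2 (u : ℝ) (j : ℕ) : ℕ := j ^ 2 - (flq u j + 1)

/-- the length of the two-sided window -/
noncomputable def hh2 (u v : ℝ) (j : ℕ) : ℕ := flq u j + 1 + flq v j

lemma flq_small {u : ℝ} (hu : 0 ≤ u) {c : ℝ} (hc : 0 < c) : ∀ᶠ j : ℕ in atTop, (flq u j : ℝ) ≤ c * j := by
  have h3 := (Real.isLittleO_pow_log_id_atTop (n := 2)).def (show (0 : ℝ) < c / (u + 1) by positivity)
  have h4 : ∀ᶠ x : ℝ in atTop, u * Real.log x ^ 2 ≤ c * x := by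
    filter_upwards [h3, eventually_ge_atTop 1] with x h3 h6
    rw [Real.norm_of_nonneg (by positivity), id, Real.norm_of_nonneg (by linarith)] at h3
    have h7 : u * Real.log x ^ 2 ≤ (u + 1) * Real.log x ^ 2 := by nlinarith [sq_nonneg (Real.log x)]
    have h8 : (u + 1) * Real.log x ^ 2 ≤ (u + 1) * (c / (u + 1) * x) := mul_le_mul_of_nonneg_left h3 (by positivity)
    have h9 : (u + 1) * (c / (u + 1) * x) = c * x := by field_simp
    linarith
  filter_upwards [tendsto_natCast_atTop_atTop.eventually h4] with j hj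
  exact (Nat.floor_le (by positivity)).trans hj

lemma flq_ratio {u : ℝ} (hu : 0 ≤ u) : Tendsto (fun j : ℕ => (flq u j : ℝ) / Real.log j ^ 2) atTop (𝓝 u) :=
  (tendsto_nat_floor_mul_div_atTop hu).comp ((tendsto_pow_atTop (n := 2) two_ne_zero).comp tendsto_log)

lemma spar_tri {u v : ℝ} (hu : 0 ≤ u) (hv : 0 ≤ v) : Spar (TT2 u) (hh2 u v) ((u + v) / 2) := by
  have hs : ∀ᶠ j : ℕ in atTop, (8 * (flq u j + 1) ≤ j ∧ 8 * (flq v j + 1) ≤ j) ∧ 8 ≤ j := by
    filter_upwards [flq_small hu (show (0 : ℝ) < 1 / 16 by norm_num), flq_small hv (show (0 : ℝ) < 1 / 16 by norm_num),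
      eventually_ge_atTop 16] with j h1 h2 h3
    have h3' : (16 : ℝ) ≤ j := by exact_mod_cast h3
    refine ⟨⟨?_, ?_⟩, by omega⟩
    · have : ((8 * (flq u j + 1) : ℕ) : ℝ) ≤ j := by push_cast; linarith
      exact_mod_cast this
    · have : ((8 * (flq v j + 1) : ℕ) : ℝ) ≤ j := by push_cast; linarith
      exact_mod_cast this
  have hs' := (tendsto_add_atTop_nat 1).eventually hs
  have hTge : ∀ᶠ j : ℕ in atTop, ((j : ℝ) ^ 2) / 2 ≤ TT2 u j ∧ (TT2 u j : ℝ) ≤ 2 * (j : ℝ) ^ 2 ∧ hh2 u v j ≤ TT2 u j := by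
    filter_upwards [hs] with j ⟨⟨h1, h2⟩, h3⟩
    have h4 : j * 8 ≤ j ^ 2 := by nlinarith
    have h5 : flq u j + 1 ≤ j ^ 2 := by omega
    have hc : (TT2 u j : ℝ) = (j : ℝ) ^ 2 - (flq u j + 1) := by
      unfold TT2
      rw [Nat.cast_sub h5]
      push_cast
      ring
    have h1' : (8 : ℝ) * (flq u j + 1) ≤ j := by exact_mod_cast h1
    have h3' : (8 : ℝ) ≤ j := by exact_mod_cast h3
    refine ⟨?_, ?_, ?_⟩
    · rw [hc]; nlinarith
    · rw [hc]; nlinarith [Nat.cast_nonneg (α := ℝ) (flq u j)]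
    · unfold TT2 hh2; omega
  have hlogr : Tendsto (fun j : ℕ => Real.log (TT2 u j) / Real.log j) atTop (𝓝 2) := by
    have h2 : Tendsto (fun n : ℕ => Real.log 2 / Real.log n) atTop (𝓝 0) := tendsto_log.const_div_atTop _
    have hlo : Tendsto (fun n : ℕ => 2 - Real.log 2 / Real.log n) atTop (𝓝 (2 - 0)) := h2.const_sub 2
    have hup : Tendsto (fun n : ℕ => 2 + Real.log 2 / Real.log n) atTop (𝓝 (2 + 0)) := h2.const_add 2
    rw [sub_zero] at hlo
    rw [add_zero] at hup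
    refine tendsto_of_tendsto_of_tendsto_of_le_of_le' hlo hup ?_ ?_
    · filter_upwards [hTge, tendsto_log.eventually_gt_atTop 0, eventually_gt_atTop 0] with j ⟨g1, g2, _⟩ g3 g4
      have hj : (0 : ℝ) < j := by exact_mod_cast g4
      rw [le_div_iff₀ g3, sub_mul, div_mul_cancel₀ _ g3.ne']
      have e : Real.log ((j : ℝ) ^ 2 / 2) = 2 * Real.log j - Real.log 2 := by
        rw [Real.log_div (by positivity) (by norm_num), Real.log_pow]
        norm_num
      rw [← e]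
      exact Real.log_le_log (by positivity) g1
    · filter_upwards [hTge, tendsto_log.eventually_gt_atTop 0, eventually_gt_atTop 0] with j ⟨g1, g2, _⟩ g3 g4
      have hj : (0 : ℝ) < j := by exact_mod_cast g4
      rw [div_le_iff₀ g3, add_mul, div_mul_cancel₀ _ g3.ne']
      have e : Real.log (2 * (j : ℝ) ^ 2) = 2 * Real.log j + Real.log 2 := by
        rw [Real.log_mul (by norm_num) (by positivity), Real.log_pow]
        push_cast
        ring
      rw [← e]
      have : (0 : ℝ) < TT2 u j := lt_of_lt_of_le (by positivity) g1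
      exact Real.log_le_log this g2
  have hbig : Tendsto (fun j => Real.log (TT2 u j : ℝ)) atTop atTop := by
    have h1 := hlogr.pos_mul_atTop two_pos tendsto_log
    refine h1.congr' ?_
    filter_upwards [tendsto_log.eventually_gt_atTop 0] with n hn
    exact div_mul_cancel₀ _ hn.ne'
  refine ⟨?_, hbig, ratio_of_le hbig (hTge.mono fun j hj => hj.2.2), ?_⟩
  · filter_upwards [hs, hs'] with j ⟨⟨h1, h2⟩, h3⟩ ⟨⟨h4, h5⟩, h6⟩
    have e : (j + 1) ^ 2 = j ^ 2 + 2 * j + 1 := by ring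
    have h7 : j * 8 ≤ j ^ 2 := by nlinarith
    unfold TT2 hh2
    omega
  · have h1 : Tendsto (fun j : ℕ => (hh2 u v j : ℝ) / Real.log j ^ 2) atTop (𝓝 (u + v)) := by
      have h2 : Tendsto (fun j : ℕ => (1 : ℝ) / Real.log j ^ 2) atTop (𝓝 0) :=
        ((tendsto_pow_atTop (n := 2) two_ne_zero).comp tendsto_log).const_div_atTop 1
      have h3 := ((flq_ratio hu).add h2).add (flq_ratio hv)
      rw [add_zero] at h3
      refine h3.congr fun j => ?_
      unfold hh2
      push_cast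
      ring
    have h2 := h1.div hlogr (by norm_num)
    refine h2.congr' ?_
    filter_upwards [tendsto_log.eventually_gt_atTop 0, hbig.eventually_gt_atTop 0] with j hj hj2
    simp only [Pi.div_apply]
    field_simp

/-- **all two-sided positions occur** -/
theorem tri_io (hA : ∀ n, MeasurableSet[ℱ n] (A n)) {W : ℕ} (hW : 0 < W)
    (hd : ∀ᵐ ω ∂μ, ∀ ε : ℝ, 0 < ε → ∀ᶠ n : ℕ in atTop, |dens μ ℱ A n ω - rhoW W (n + 1)| ≤ ε * rhoW W (n + 1))
    {u v ε : ℝ} (hu : 0 < u) (hv : 0 < v) (hε : 0 < ε) (huv : u + v + 2 * ε < 2) :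
    ∀ᵐ ω ∂μ, ∃ᶠ j : ℕ in atTop, cnt A (TT2 u j) (hh2 u v j) ω = 0 ∧ cnt A (TT2 (u + ε) j) (hh2 (u + ε) v j) ω ≠ 0 ∧
      cnt A (TT2 u j) (hh2 u (v + ε) j) ω ≠ 0 := by
  set β : ℝ := (u + v) / 2 with hβ
  have hβ0 : 0 < β := by positivity
  have hsp := spar_tri hu.le hv.le
  have hsp1 : Spar (TT2 (u + ε)) (hh2 (u + ε) v) (β + ε / 2) := by
    have := spar_tri (u := u + ε) (v := v) (by linarith) hv.le
    rwa [show (u + ε + v) / 2 = β + ε / 2 by rw [hβ]; ring] at this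
  have hsp2 : Spar (TT2 u) (hh2 u (v + ε)) (β + ε / 2) := by
    have := spar_tri (u := u) (v := v + ε) hu.le (by linarith)
    rwa [show (u + (v + ε)) / 2 = β + ε / 2 by rw [hβ]; ring] at this
  have hβε : β + ε < 1 := by rw [hβ]; linarith
  filter_upwards [emp_dense (μ := μ) (ℱ := ℱ) hA hW hd hsp (γ := β + ε / 16) hβ0 (by linarith) (by linarith),
    emp_upper (μ := μ) (ℱ := ℱ) hA hW hd hsp1 (γ := 1 - β - ε / 4) (by linarith) (by linarith) (by linarith),
    emp_upper (μ := μ) (ℱ := ℱ) hA hW hd hsp2 (γ := 1 - β - ε / 4) (by linarith) (by linarith) (by linarith)] with ω h1 h2 h3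
  have h4 := emp_lower (A := A) (γ := β + ε / 16) (ε := ε / 16) (by linarith) (by linarith) (by linarith) h1
  intro hcon
  obtain ⟨j₀, hj₀⟩ := eventually_atTop.1 hcon
  have hle : ∀ J, emp A (TT2 u) (hh2 u v) J ω ≤ j₀ + (emp A (TT2 (u + ε)) (hh2 (u + ε) v) J ω + emp A (TT2 u) (hh2 u (v + ε)) J ω) := by
    intro J
    unfold emp
    have hsub : (Finset.range (J + 1)).filter (fun j => cnt A (TT2 u j) (hh2 u v j) ω = 0) ⊆ Finset.range j₀ ∪
        ((Finset.range (J + 1)).filter (fun j => cnt A (TT2 (u + ε) j) (hh2 (u + ε) v j) ω = 0) ∪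
        (Finset.range (J + 1)).filter (fun j => cnt A (TT2 u j) (hh2 u (v + ε) j) ω = 0)) := by
      intro j hj
      obtain ⟨g1, g2⟩ := Finset.mem_filter.1 hj
      by_cases h : j < j₀
      · exact Finset.mem_union_left _ (Finset.mem_range.2 h)
      · apply Finset.mem_union_right
        have g3 := hj₀ j (by omega)
        by_cases h5 : cnt A (TT2 (u + ε) j) (hh2 (u + ε) v j) ω = 0
        · exact Finset.mem_union_left _ (Finset.mem_filter.2 ⟨g1, h5⟩)
        · by_cases h6 : cnt A (TT2 u j) (hh2 u (v + ε) j) ω = 0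
          · exact Finset.mem_union_right _ (Finset.mem_filter.2 ⟨g1, h6⟩)
          · exact absurd ⟨g2, h5, h6⟩ g3
    refine (Finset.card_le_card hsub).trans ((Finset.card_union_le _ _).trans ?_)
    rw [Finset.card_range]
    exact Nat.add_le_add_left (Finset.card_union_le _ _) _
  obtain ⟨J, g1, g2, g3, g4, g5⟩ := (h4.and (h2.and (h3.and ((ev_pow (a := 1 - β - ε / 4) (b := 1 - β - ε / 8) (by linarith) (j₀ + 3)).and
    (eventually_ge_atTop 3))))).exists
  have hJ : (1 : ℝ) ≤ J := by exact_mod_cast (by omega : 1 ≤ J)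
  have h5 : (emp A (TT2 u) (hh2 u v) J ω : ℝ) ≤ j₀ + (emp A (TT2 (u + ε)) (hh2 (u + ε) v) J ω + emp A (TT2 u) (hh2 u (v + ε)) J ω) := by
    exact_mod_cast hle J
  rw [show 1 - (β + ε / 16) - ε / 16 = 1 - β - ε / 8 by ring] at g1
  have h6 : 1 ≤ (J : ℝ) ^ (1 - β - ε / 4) := Real.one_le_rpow hJ (by linarith)
  have h7 : 1 ≤ Real.log (J : ℝ) := by
    have e1 : (3 : ℝ) ≤ J := by exact_mod_cast g5
    have e2 : Real.exp 1 ≤ J := by
      have := Real.exp_one_lt_d9
      linarith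
    rwa [Real.le_log_iff_exp_le (by linarith)]
  have h8 : ((j₀ : ℝ) + 3) * 1 * (J : ℝ) ^ (1 - β - ε / 4) ≤ ((j₀ : ℝ) + 3) * (Real.log J + 1) * (J : ℝ) ^ (1 - β - ε / 4) := by
    apply mul_le_mul_of_nonneg_right _ (by linarith)
    apply mul_le_mul_of_nonneg_left (by linarith) (by positivity)
  have h9 : (j₀ : ℝ) * 1 ≤ j₀ * (J : ℝ) ^ (1 - β - ε / 4) := mul_le_mul_of_nonneg_left h6 (Nat.cast_nonneg _)
  linarith

/-- **larger windows contain at least two members** -/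
theorem tri_ev (hA : ∀ n, MeasurableSet[ℱ n] (A n)) {W : ℕ} (hW : 0 < W)
    (hd : ∀ᵐ ω ∂μ, ∀ ε : ℝ, 0 < ε → ∀ᶠ n : ℕ in atTop, |dens μ ℱ A n ω - rhoW W (n + 1)| ≤ ε * rhoW W (n + 1))
    {u v : ℝ} (hu : 0 ≤ u) (hv : 0 ≤ v) (huv : 2 < u + v) :
    ∀ᵐ ω ∂μ, ∀ᶠ j : ℕ in atTop, 2 ≤ cnt A (TT2 u j) (hh2 u v j) ω := by
  have hsp := spar_tri hu hv
  have hβ : 1 < (u + v) / 2 := by linarith
  obtain ⟨a, b, ha, hIa, hb0, hb1, hIb⟩ := II_roots hβ
  filter_upwards [spar_final (μ := μ) (ℱ := ℱ) hA hW hd hsp (by linarith) ha hIa hb0.le hb1 (Or.inr ⟨hb0, hIb⟩)] with ω hω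
  have h1 := (hω (b / 2) (by linarith)).2.2.1
  filter_upwards [h1, ev_log (4 / b)] with j g1 g2
  rw [div_le_iff₀ hb0] at g2
  have h3 : 0 ≤ b * Real.log (j : ℝ) := by nlinarith
  have : (1 : ℝ) < cnt A (TT2 u j) (hh2 u v j) ω := by nlinarith
  exact_mod_cast this

end Pool.Agent.R291.RMW
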