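import Mathlib
import Pool.Agent.R528.RM.Sp5
import Pool.Agent.R528.RM.Sp6

set_option autoImplicit false
set_option linter.unusedSectionVars false
set_option linter.unusedVariables false

/-! # Extreme gaps in short intervals -/

open MeasureTheory Filter Set
open scoped ENNReal Topology

namespace Pool.Agent.R291.RMW

open Pool.Agent.R528.RM

variable {Ω : Type} {m0 : MeasurableSpace Ω} {μ : Measure Ω} [IsProbabilityMeasure μ]
  {ℱ : Filtration ℕ m0} {A : ℕ → Set Ω}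

/-- the probability of an empty window -/
lemma empty_prob (hA : ∀ n, MeasurableSet[ℱ n] (A n)) {W : ℕ} (hW : 0 < W) {δ : ℝ} (hδ0 : 0 < δ) (hδ1 : δ ≤ 1 / 4)
    {y h : ℕ} (hy : (W : ℝ) / Nat.totient W ≤ Real.log y) (hy1 : 1 ≤ y) :
    μ.real ({ω | cnt A y h ω = 0} \ WV (VB μ ℱ A (lp W δ) (up W δ)) y h) ≤
      Real.exp (-((1 - δ - δ * (1 + δ)) * (((h : ℝ) - 2 * W) / Real.log ((y + h : ℕ) : ℝ)))) := by
  have hl1 : ∀ n, lp W δ n ≤ 1 := by
    intro n
    have h1 := rhoW_le W n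
    have h2 := rhoW_nonneg W n
    unfold Pool.Agent.R528.RM.lp
    nlinarith only [h1, h2, hδ0, hδ1]
  have hu0 : ∀ n, 0 ≤ up W δ n := fun n => le_min zero_le_one (mul_nonneg (by linarith) (rhoW_nonneg W n))
  have h2 := cnt_tail_prof (μ := μ) (ℱ := ℱ) hA hl1 hu0 (κ := 0) hδ0 ({0} : Set ℕ) (by
    intro k hk
    have : k = 0 := hk
    rw [this, Real.rpow_zero, pow_zero]) y h
  rw [zero_mul, neg_zero, Real.exp_zero, one_mul] at h2
  refine (le_trans (measureReal_mono (fun ω hω => hω) (measure_ne_top _ _)) h2).trans ?_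
  apply Real.exp_le_exp.2
  have g4 := (rho_cls1 (W := W) (q := 1) (a := 0) (s := y) (t := y + h) hW one_pos (zero_mem_admW W) (by omega) hy hy1).1
  rw [adm_oneW, ← sum_rhoW_eq] at g4
  have h4 : ∑ i ∈ Finset.range h, (δ * up W δ (y + 1 + i) - lp W δ (y + 1 + i)) ≤
      -((1 - δ - δ * (1 + δ)) * ∑ i ∈ Finset.range h, rhoW W (y + 1 + i)) := by
    rw [Finset.mul_sum, ← Finset.sum_neg_distrib]
    apply Finset.sum_le_sum
    intro i _
    have g1 : up W δ (y + 1 + i) ≤ (1 + δ) * rhoW W (y + 1 + i) := min_le_right _ _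
    have g2 := mul_le_mul_of_nonneg_left g1 hδ0.le
    unfold Pool.Agent.R528.RM.lp
    linarith
  refine h4.trans ?_
  have h5 : 0 ≤ 1 - δ - δ * (1 + δ) := by nlinarith
  have h6 : ((h : ℝ) - 2 * W) / Real.log ((y + h : ℕ) : ℝ) ≤ ∑ i ∈ Finset.range h, rhoW W (y + 1 + i) := by
    refine le_trans (le_of_eq ?_) g4
    push_cast
    ring
  have := mul_le_mul_of_nonneg_left h6 h5
  linarith

/-- **few long gaps near the powers of two** -/
theorem short_upper (hA : ∀ n, MeasurableSet[ℱ n] (A n)) {W : ℕ} (hW : 0 < W)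
    (hd : ∀ᵐ ω ∂μ, ∀ ε : ℝ, 0 < ε → ∀ᶠ n : ℕ in atTop, |dens μ ℱ A n ω - rhoW W (n + 1)| ≤ ε * rhoW W (n + 1))
    {γ c : ℝ} (hγ0 : 0 < γ) (hγ1 : γ ≤ 1) (hγc : γ < c) :
    ∀ᵐ ω ∂μ, ∀ᶠ j : ℕ in atTop, ∀ y : ℕ, 2 ^ j < y → (y : ℝ) ≤ (2 : ℝ) ^ j + ((2 : ℝ) ^ j) ^ γ →
      cnt A y ⌊c * (j * Real.log 2) ^ 2⌋₊ ω ≠ 0 := by
  have hc0 : 0 < c := by linarith
  have hl2 : 0 < Real.log 2 := Real.log_pos (by norm_num)
  obtain ⟨δ, hδ0, hδ1, hδ⟩ : ∃ δ : ℝ, 0 < δ ∧ δ ≤ 1 / 4 ∧ (γ + c) / 2 < (1 - δ - δ * (1 + δ)) * c := by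
    refine ⟨min (1 / 4) ((c - γ) / (8 * c)), lt_min (by norm_num) (div_pos (by linarith) (by positivity)), min_le_left _ _, ?_⟩
    set δ := min (1 / 4) ((c - γ) / (8 * c)) with hδ
    have h0 : 0 < δ := lt_min (by norm_num) (div_pos (by linarith) (by positivity))
    have h1 : δ ≤ 1 / 4 := min_le_left _ _
    have h2 : δ ≤ (c - γ) / (8 * c) := min_le_right _ _
    rw [le_div_iff₀ (by positivity)] at h2
    have h3 : δ * δ ≤ δ * (1 / 4) := mul_le_mul_of_nonneg_left h1 h0.le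
    have h4 : (1 - δ - δ * (1 + δ)) * c ≥ (1 - 3 * δ) * c := by
      apply mul_le_mul_of_nonneg_right _ hc0.le
      nlinarith
    nlinarith
  set c₁ : ℝ := (γ + c) / 2 with hc₁
  set h : ℕ → ℕ := fun j => ⌊c * (j * Real.log 2) ^ 2⌋₊ with hh
  set Y : ℕ → Finset ℕ := fun j => Finset.Ioc (2 ^ j) (2 ^ j + ⌊((2 : ℝ) ^ j) ^ γ⌋₊) with hY
  set E : ℕ → Set Ω := fun j => ⋃ y ∈ Y j, ({ω | cnt A y (h j) ω = 0} \ WV (VB μ ℱ A (lp W δ) (up W δ)) y (h j)) with hE
  -- the exponent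
  have hexp : Tendsto (fun j : ℕ => (1 - δ - δ * (1 + δ)) * (((c * (j * Real.log 2) ^ 2 - 1) - 2 * W) / (j * Real.log 2 + 2)) / (j * Real.log 2))
      atTop (𝓝 ((1 - δ - δ * (1 + δ)) * c)) := by
    have hx : Tendsto (fun j : ℕ => (j : ℝ) * Real.log 2) atTop atTop := tendsto_natCast_atTop_atTop.atTop_mul_const hl2
    have hr : Tendsto (fun x : ℝ => (1 - δ - δ * (1 + δ)) * (((c * x ^ 2 - 1) - 2 * W) / (x + 2)) / x) atTop (𝓝 ((1 - δ - δ * (1 + δ)) * c)) := by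
      have k1 : Tendsto (fun x : ℝ => (1 + 2 * (W : ℝ)) / x ^ 2) atTop (𝓝 0) := (tendsto_pow_atTop two_ne_zero).const_div_atTop _
      have k2 : Tendsto (fun x : ℝ => (2 : ℝ) / x) atTop (𝓝 0) := tendsto_id.const_div_atTop _
      have k3 := ((k1.const_sub c).div (k2.const_add 1) (by norm_num)).const_mul (1 - δ - δ * (1 + δ))
      rw [sub_zero, add_zero, div_one] at k3
      refine k3.congr' ?_
      filter_upwards [eventually_gt_atTop 0] with x hx
      simp only [Pi.div_apply]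
      field_simp
      ring
    exact hr.comp hx
  have hprob : ∀ᶠ j : ℕ in atTop, μ.real (E j) ≤ 2 * Real.exp (-((c₁ - γ) * Real.log 2)) ^ j := by
    have hhs : ∀ᶠ j : ℕ in atTop, (h j : ℝ) ≤ 2 ^ j := by
      have h1 : Tendsto (fun j : ℕ => c * Real.log 2 ^ 2 * ((j : ℝ) ^ 2 / 2 ^ j)) atTop (𝓝 (c * Real.log 2 ^ 2 * 0)) :=
        (tendsto_pow_const_div_const_pow_of_one_lt 2 (by norm_num : (1 : ℝ) < 2)).const_mul _
      rw [mul_zero] at h1
      filter_upwards [h1.eventually (eventually_lt_nhds (show (0 : ℝ) < 1 by norm_num))] with j hj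
      have hp : (0 : ℝ) < 2 ^ j := by positivity
      refine (Nat.floor_le (by positivity)).trans ?_
      rw [← mul_div_assoc, div_lt_iff₀ hp] at hj
      nlinarith
    have hlogj : ∀ᶠ j : ℕ in atTop, (W : ℝ) / Nat.totient W ≤ j * Real.log 2 :=
      (tendsto_natCast_atTop_atTop.atTop_mul_const hl2).eventually_ge_atTop _
    have hWj : ∀ᶠ j : ℕ in atTop, 1 + 2 * (W : ℝ) ≤ c * (j * Real.log 2) ^ 2 := by
      have : Tendsto (fun j : ℕ => c * ((j : ℝ) * Real.log 2) ^ 2) atTop atTop :=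
        ((tendsto_pow_atTop two_ne_zero).comp (tendsto_natCast_atTop_atTop.atTop_mul_const hl2)).const_mul_atTop hc0
      exact this.eventually_ge_atTop _
    filter_upwards [hexp.eventually (eventually_gt_nhds hδ), hhs, hlogj, eventually_ge_atTop 1, hWj] with j g1 g2 g3 g4 g5
    have hj : (1 : ℝ) ≤ j := by exact_mod_cast g4
    have hp : (0 : ℝ) < 2 ^ j := by positivity
    have hp1 : (1 : ℝ) ≤ 2 ^ j := one_le_pow₀ (by norm_num)
    have hℓ : 0 < (j : ℝ) * Real.log 2 := by positivity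
    rw [lt_div_iff₀ hℓ] at g1
    have hlog2j : Real.log ((2 : ℝ) ^ j) = j * Real.log 2 := Real.log_pow _ _
    have hγle : ((2 : ℝ) ^ j) ^ γ ≤ 2 ^ j := by
      calc ((2 : ℝ) ^ j) ^ γ ≤ ((2 : ℝ) ^ j) ^ (1 : ℝ) := Real.rpow_le_rpow_of_exponent_le hp1 hγ1
        _ = 2 ^ j := Real.rpow_one _
    have hone : ∀ y ∈ Y j, μ.real ({ω | cnt A y (h j) ω = 0} \ WV (VB μ ℱ A (lp W δ) (up W δ)) y (h j)) ≤ Real.exp (-(c₁ * (j * Real.log 2))) := by
      intro y hy
      obtain ⟨y1, y2⟩ := Finset.mem_Ioc.1 hy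
      have y1' : (2 : ℝ) ^ j < y := by exact_mod_cast y1
      have y2' : (y : ℝ) ≤ 2 ^ j + 2 ^ j := by
        have e1 : (y : ℝ) ≤ 2 ^ j + (⌊((2 : ℝ) ^ j) ^ γ⌋₊ : ℕ) := by exact_mod_cast y2
        have e2 : ((⌊((2 : ℝ) ^ j) ^ γ⌋₊ : ℕ) : ℝ) ≤ ((2 : ℝ) ^ j) ^ γ := Nat.floor_le (by positivity)
        linarith
      have hly : (j : ℝ) * Real.log 2 ≤ Real.log y := by
        rw [← hlog2j]
        exact Real.log_le_log hp y1'.le
      refine (empty_prob hA hW hδ0 hδ1 (g3.trans hly) (by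
        have : (1 : ℝ) ≤ y := by linarith
        exact_mod_cast this)).trans ?_
      apply Real.exp_le_exp.2
      apply neg_le_neg
      refine g1.le.trans ?_
      apply mul_le_mul_of_nonneg_left _ (by nlinarith)
      have hh1 : c * (j * Real.log 2) ^ 2 - 1 ≤ h j := (Nat.sub_one_lt_floor _).le
      have hlyh : Real.log ((y + h j : ℕ) : ℝ) ≤ j * Real.log 2 + 2 := by
        have e1 : ((y + h j : ℕ) : ℝ) ≤ 4 * 2 ^ j := by push_cast; linarith
        have e2 := Real.log_le_log (by push_cast; have : (0 : ℝ) ≤ h j := Nat.cast_nonneg _; linarith) e1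
        rw [Real.log_mul (by norm_num) (by positivity), hlog2j, show (4 : ℝ) = 2 ^ 2 by norm_num, Real.log_pow] at e2
        have := Real.log_two_lt_d9
        push_cast at e2
        push_cast
        linarith
      have hlyh0 : 0 < Real.log ((y + h j : ℕ) : ℝ) := by
        apply Real.log_pos
        have : (1 : ℝ) < y := by linarith
        push_cast
        have : (0 : ℝ) ≤ h j := Nat.cast_nonneg _
        linarith
      apply div_le_div₀ (by linarith) (by linarith) hlyh0 hlyh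
    have hcardY : ((Y j).card : ℝ) ≤ 2 * ((2 : ℝ) ^ j) ^ γ := by
      rw [hY, Nat.card_Ioc, Nat.add_sub_cancel_left]
      have e2 : ((⌊((2 : ℝ) ^ j) ^ γ⌋₊ : ℕ) : ℝ) ≤ ((2 : ℝ) ^ j) ^ γ := Nat.floor_le (by positivity)
      have e3 : 0 ≤ ((2 : ℝ) ^ j) ^ γ := by positivity
      linarith
    refine (measureReal_biUnion_finset_le _ _).trans ((Finset.sum_le_sum hone).trans ?_)
    rw [Finset.sum_const, nsmul_eq_mul]
    have e4 : ((2 : ℝ) ^ j) ^ γ = Real.exp (γ * (j * Real.log 2)) := by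
      rw [Real.rpow_def_of_pos hp, hlog2j]
      congr 1
      ring
    calc ((Y j).card : ℝ) * Real.exp (-(c₁ * (j * Real.log 2))) ≤ 2 * ((2 : ℝ) ^ j) ^ γ * Real.exp (-(c₁ * (j * Real.log 2))) :=
          mul_le_mul_of_nonneg_right hcardY (Real.exp_pos _).le
      _ = 2 * Real.exp (-((c₁ - γ) * Real.log 2)) ^ j := by
          rw [e4, mul_assoc, ← Real.exp_add, ← Real.exp_nat_mul]
          congr 2
          ring
  have hsum : Summable (fun j : ℕ => 2 * Real.exp (-((c₁ - γ) * Real.log 2)) ^ j) := by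
    apply Summable.mul_left
    apply summable_geometric_of_lt_one (Real.exp_pos _).le
    rw [Real.exp_lt_one_iff]
    have : 0 < (c₁ - γ) * Real.log 2 := mul_pos (by rw [hc₁]; linarith) hl2
    linarith
  have h01 : ∀ᵐ ω ∂μ, ∀ n, 0 ≤ dens μ ℱ A n ω ∧ dens μ ℱ A n ω ≤ 1 := ae_all_iff.2 fun n => dens01 hA n
  filter_upwards [bc_real (μ := μ) hsum hprob, hd, h01] with ω hω hdω h01ω
  obtain ⟨N, hN⟩ := dens_two hdω hδ0
  have h2j : Tendsto (fun j : ℕ => 2 ^ j) atTop atTop := tendsto_pow_atTop_atTop_of_one_lt (by norm_num)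
  filter_upwards [hω, h2j.eventually_ge_atTop N] with j g1 g2 y hy1 hy2 hcon
  apply g1
  have hyY : y ∈ Y j := by
    rw [hY, Finset.mem_Ioc]
    refine ⟨hy1, ?_⟩
    have e1 : ((y - 2 ^ j : ℕ) : ℝ) ≤ ((2 : ℝ) ^ j) ^ γ := by
      rw [Nat.cast_sub hy1.le]
      push_cast
      linarith
    have e2 : y - 2 ^ j ≤ ⌊((2 : ℝ) ^ j) ^ γ⌋₊ := Nat.le_floor e1
    omega
  refine mem_biUnion (Finset.mem_coe.2 hyY) ⟨hcon, ?_⟩
  rintro ⟨m, hm1, hm2, hm3⟩
  apply hm3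
  have hN' := hN N le_rfl
  exact ⟨hN'.2 m (by omega), le_min (h01ω m).2 (hN'.1 m (by omega))⟩

end Pool.Agent.R291.RMW
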