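import Mathlib
import Pool.Agent.R291.RMW.T2

set_option autoImplicit false
set_option linter.unusedSectionVars false
set_option linter.unusedVariables false

/-! # Long gaps in all short intervals -/

open MeasureTheory Filter Set
open scoped ENNReal Topology

namespace Pool.Agent.R291.RMW

open Pool.Agent.R528.RM

variable {Ω : Type} {m0 : MeasurableSpace Ω} {μ : Measure Ω} [IsProbabilityMeasure μ]
  {ℱ : Filtration ℕ m0} {A : ℕ → Set Ω}

/-- the starting points `⌊j log² j⌋` -/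
noncomputable def Tq (j : ℕ) : ℕ := ⌊(j : ℝ) * Real.log j ^ 2⌋₊

lemma logsq_le (C : ℝ) {ε : ℝ} (hε : 0 < ε) : ∀ᶠ j : ℕ in atTop, C * Real.log (j : ℝ) ^ 2 ≤ ε * j := by
  have h3 := (Real.isLittleO_pow_log_id_atTop (n := 2)).def (show (0 : ℝ) < ε / (|C| + 1) by positivity)
  have h4 : ∀ᶠ x : ℝ in atTop, C * Real.log x ^ 2 ≤ ε * x := by
    filter_upwards [h3, eventually_ge_atTop 1] with x h3 h6
    rw [Real.norm_of_nonneg (by positivity), id, Real.norm_of_nonneg (by linarith)] at h3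
    have h7 : C * Real.log x ^ 2 ≤ (|C| + 1) * Real.log x ^ 2 := by
      apply mul_le_mul_of_nonneg_right _ (by positivity)
      linarith [le_abs_self C]
    have h8 : (|C| + 1) * Real.log x ^ 2 ≤ (|C| + 1) * (ε / (|C| + 1) * x) := mul_le_mul_of_nonneg_left h3 (by positivity)
    have h9 : (|C| + 1) * (ε / (|C| + 1) * x) = ε * x := by field_simp
    linarith
  exact tendsto_natCast_atTop_atTop.eventually h4

/-- increments -/
lemma f_incr {J m : ℕ} (hJ : 3 ≤ J) (hm : m ≤ J) :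
    ((J + m : ℕ) : ℝ) * Real.log ((J + m : ℕ) : ℝ) ^ 2 ≤ J * Real.log J ^ 2 + 3 * m * Real.log (2 * J) ^ 2 := by
  have hJ' : (3 : ℝ) ≤ J := by exact_mod_cast hJ
  have hJp : (0 : ℝ) < J := by linarith
  have hm' : (m : ℝ) ≤ J := by exact_mod_cast hm
  have hm0 : (0 : ℝ) ≤ m := Nat.cast_nonneg _
  push_cast
  have h1 : Real.log ((J : ℝ) + m) ≤ Real.log (2 * J) := Real.log_le_log (by linarith) (by linarith)
  have h2 : Real.log (J : ℝ) ≤ Real.log ((J : ℝ) + m) := Real.log_le_log hJp (by linarith)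
  have h0 : 1 ≤ Real.log (J : ℝ) := by
    have := Real.exp_one_lt_d9
    rw [Real.le_log_iff_exp_le hJp]
    linarith
  have h3 : Real.log ((J : ℝ) + m) - Real.log J ≤ m / J := by
    rw [← Real.log_div (by linarith) hJp.ne']
    have := Real.log_le_sub_one_of_pos (show 0 < ((J : ℝ) + m) / J by positivity)
    refine this.trans (le_of_eq ?_)
    field_simp
    ring
  set a := Real.log ((J : ℝ) + m)
  set b := Real.log (J : ℝ)
  set c := Real.log (2 * (J : ℝ))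
  have h4 : a ^ 2 - b ^ 2 ≤ m / J * (2 * c) := by
    have : a ^ 2 - b ^ 2 = (a - b) * (a + b) := by ring
    rw [this]
    exact mul_le_mul h3 (by linarith) (by linarith) (by positivity)
  have h5 : (J : ℝ) * (a ^ 2 - b ^ 2) ≤ m * (2 * c) := by
    have := mul_le_mul_of_nonneg_left h4 hJp.le
    have e : (J : ℝ) * (m / J * (2 * c)) = m * (2 * c) := by field_simp
    linarith
  have h6 : (m : ℝ) * a ^ 2 ≤ m * c ^ 2 := mul_le_mul_of_nonneg_left (pow_le_pow_left₀ (by linarith) h1 2) hm0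
  have h7 : (m : ℝ) * (2 * c) ≤ m * (2 * c ^ 2) := mul_le_mul_of_nonneg_left (by nlinarith) hm0
  nlinarith

lemma Tq_step : ∀ᶠ j : ℕ in atTop, (Tq j : ℝ) + Real.log j ^ 2 ≤ Tq (j + 1) + 1 := by
  filter_upwards [eventually_ge_atTop 3] with j hj
  have hj' : (3 : ℝ) ≤ j := by exact_mod_cast hj
  have h1 : (Tq j : ℝ) ≤ j * Real.log j ^ 2 := Nat.floor_le (by positivity)
  have h2 : ((j + 1 : ℕ) : ℝ) * Real.log ((j + 1 : ℕ) : ℝ) ^ 2 < Tq (j + 1) + 1 := Nat.lt_floor_add_one _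
  have h3 : Real.log (j : ℝ) ≤ Real.log ((j + 1 : ℕ) : ℝ) := Real.log_le_log (by linarith) (by push_cast; linarith)
  have h4 : 0 ≤ Real.log (j : ℝ) := Real.log_natCast_nonneg j
  have h5 : Real.log (j : ℝ) ^ 2 ≤ Real.log ((j + 1 : ℕ) : ℝ) ^ 2 := pow_le_pow_left₀ h4 h3 2
  push_cast at h2 h5 ⊢
  nlinarith

lemma spar_q {c : ℝ} (hc0 : 0 < c) (hc1 : c < 1) : Spar Tq (fun j => ⌊c * Real.log j ^ 2⌋₊) c := by
  have hTj : ∀ᶠ j : ℕ in atTop, (j : ℝ) ≤ Tq j ∧ (Tq j : ℝ) ≤ j * Real.log j ^ 2 := by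
    filter_upwards [ev_log 2, eventually_ge_atTop 3] with j h1 h2
    have hj' : (3 : ℝ) ≤ j := by exact_mod_cast h2
    have h3 : (j : ℝ) * Real.log j ^ 2 < Tq j + 1 := Nat.lt_floor_add_one _
    have h4 : (4 : ℝ) ≤ Real.log (j : ℝ) ^ 2 := by nlinarith
    have h5 : (j : ℝ) * 4 ≤ j * Real.log (j : ℝ) ^ 2 := mul_le_mul_of_nonneg_left h4 (by linarith)
    exact ⟨by linarith, Nat.floor_le (by positivity)⟩
  have hbig : Tendsto (fun j => Real.log (Tq j : ℝ)) atTop atTop := by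
    refine tendsto_atTop_mono' _ ?_ tendsto_log
    filter_upwards [hTj, eventually_gt_atTop 0] with j h1 h2
    exact Real.log_le_log (by exact_mod_cast h2) h1.1
  have hlogr : Tendsto (fun j : ℕ => Real.log (Tq j) / Real.log j) atTop (𝓝 1) := by
    have h2 : Tendsto (fun n : ℕ => 1 + 2 * (Real.log (Real.log n) / Real.log n)) atTop (𝓝 (1 + 2 * 0)) := by
      have h3 : Tendsto (fun x : ℝ => Real.log x / x) atTop (𝓝 0) := Real.isLittleO_log_id_atTop.tendsto_div_nhds_zero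
      exact ((h3.comp tendsto_log).const_mul 2).const_add 1
    rw [mul_zero, add_zero] at h2
    refine tendsto_of_tendsto_of_tendsto_of_le_of_le' tendsto_const_nhds h2 ?_ ?_
    · filter_upwards [hTj, tendsto_log.eventually_gt_atTop 0, eventually_gt_atTop 0] with j h1 h2 h3
      rw [le_div_iff₀ h2, one_mul]
      exact Real.log_le_log (by exact_mod_cast h3) h1.1
    · filter_upwards [hTj, tendsto_log.eventually_gt_atTop 0, eventually_gt_atTop 0] with j h1 h2 h3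
      have hj : (0 : ℝ) < j := by exact_mod_cast h3
      rw [div_le_iff₀ h2]
      have e : (1 + 2 * (Real.log (Real.log j) / Real.log j)) * Real.log j = Real.log (j * Real.log j ^ 2) := by
        rw [Real.log_mul hj.ne' (by positivity), Real.log_pow]
        push_cast
        field_simp
      rw [e]
      exact Real.log_le_log (lt_of_lt_of_le hj h1.1) h1.2
  refine ⟨?_, hbig, ?_, ?_⟩
  · filter_upwards [Tq_step, ev_log (1 / (1 - c)), ev_log 1] with j h1 h2 h3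
    have h4 : ((⌊c * Real.log (j : ℝ) ^ 2⌋₊ : ℕ) : ℝ) ≤ c * Real.log j ^ 2 := Nat.floor_le (by positivity)
    rw [div_le_iff₀ (by linarith)] at h2
    have h5 : (1 : ℝ) ≤ (1 - c) * Real.log (j : ℝ) ^ 2 := by nlinarith
    have : ((Tq j + ⌊c * Real.log (j : ℝ) ^ 2⌋₊ : ℕ) : ℝ) ≤ Tq (j + 1) := by push_cast; linarith
    exact_mod_cast this
  · apply ratio_of_le hbig
    filter_upwards [hTj, logsq_le c one_pos] with j h1 h2
    have h4 : ((⌊c * Real.log (j : ℝ) ^ 2⌋₊ : ℕ) : ℝ) ≤ c * Real.log j ^ 2 := Nat.floor_le (by positivity)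
    have : ((⌊c * Real.log (j : ℝ) ^ 2⌋₊ : ℕ) : ℝ) ≤ Tq j := by linarith [h1.1]
    exact_mod_cast this
  · have h1 : Tendsto (fun j : ℕ => ((⌊c * Real.log j ^ 2⌋₊ : ℕ) : ℝ) / Real.log j ^ 2) atTop (𝓝 c) :=
      (tendsto_nat_floor_mul_div_atTop hc0.le).comp ((tendsto_pow_atTop (n := 2) two_ne_zero).comp tendsto_log)
    have h2 := h1.div hlogr one_ne_zero
    rw [div_one] at h2
    refine h2.congr' ?_
    filter_upwards [tendsto_log.eventually_gt_atTop 0, hbig.eventually_gt_atTop 0] with j hj hj2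
    simp only [Pi.div_apply]
    field_simp

/-- **long gaps in all short intervals** -/
theorem short_lower (hA : ∀ n, MeasurableSet[ℱ n] (A n)) {W : ℕ} (hW : 0 < W)
    (hd : ∀ᵐ ω ∂μ, ∀ ε : ℝ, 0 < ε → ∀ᶠ n : ℕ in atTop, |dens μ ℱ A n ω - rhoW W (n + 1)| ≤ ε * rhoW W (n + 1))
    {γ c : ℝ} (hc0 : 0 < c) (hγc : c < γ) (hγ1 : γ < 1) :
    ∀ᵐ ω ∂μ, ∀ᶠ x : ℕ in atTop, ∃ y : ℕ, (x : ℝ) + 4 * Real.log x ^ 2 ≤ y ∧ (y : ℝ) + 4 * Real.log x ^ 2 ≤ x + (x : ℝ) ^ γ ∧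
      ∀ m, y < m → (m : ℝ) ≤ y + c * Real.log x ^ 2 → ω ∉ A m := by
  set c' : ℝ := (2 * c + γ) / 3 with hc'
  set γ' : ℝ := (c + 2 * γ) / 3 with hγ'
  have k1 : c < c' := by rw [hc']; linarith
  have k2 : c' < γ' := by rw [hc', hγ']; linarith
  have k3 : γ' < γ := by rw [hγ']; linarith
  set γ'' : ℝ := (γ' + γ) / 2 with hγ''
  have k4 : γ' < γ'' := by rw [hγ'']; linarith
  have k5 : γ'' < γ := by rw [hγ'']; linarith
  have k0 : 0 < γ' := by linarith
  filter_upwards [emp_dense (μ := μ) (ℱ := ℱ) hA hW hd (spar_q (c := c') (by linarith) (by linarith)) (γ := γ') (by linarith) k2 (by linarith)] with ω hω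
  obtain ⟨J₀, hJ₀⟩ := eventually_atTop.1 ((hω.and (eventually_ge_atTop 4)).and (ev_pow (a := γ') (b := 1) (by linarith) 3))
  -- the comparison of the logarithms
  have hcmp : ∀ᶠ x : ℕ in atTop, ∀ j : ℕ, (x : ℝ) ≤ j * Real.log x ^ 2 → c * Real.log (x : ℝ) ^ 2 + 1 ≤ c' * Real.log (j : ℝ) ^ 2 := by
    have h1 : Tendsto (fun t : ℝ => c' * (1 - 2 * (Real.log t / t)) ^ 2 - 1 / t ^ 2) atTop (𝓝 (c' * (1 - 2 * 0) ^ 2 - 0)) := by
      have h3 : Tendsto (fun x : ℝ => Real.log x / x) atTop (𝓝 0) := Real.isLittleO_log_id_atTop.tendsto_div_nhds_zero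
      exact ((((h3.const_mul 2).const_sub 1).pow 2).const_mul c').sub ((tendsto_pow_atTop two_ne_zero).const_div_atTop 1)
    have e : c' * (1 - 2 * 0) ^ 2 - 0 = c' := by ring
    rw [e] at h1
    have h2 := (h1.comp tendsto_log).eventually (eventually_gt_nhds k1)
    have h5 : Tendsto (fun x : ℝ => Real.log x / x) atTop (𝓝 0) := Real.isLittleO_log_id_atTop.tendsto_div_nhds_zero
    have h6 := (h5.comp tendsto_log).eventually (eventually_lt_nhds (show (0 : ℝ) < 1 / 2 by norm_num))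
    filter_upwards [h2, h6, ev_log 1, eventually_ge_atTop 3] with x g1 g2 g3 g4 j hj
    have hx : (0 : ℝ) < x := by exact_mod_cast (by omega : 0 < x)
    simp only [Function.comp] at g1 g2
    set L := Real.log (x : ℝ) with hL
    have hL0 : 0 < L := by linarith
    have hjp : (0 : ℝ) < j := by
      by_contra hcon
      have : (j : ℝ) * L ^ 2 ≤ 0 := mul_nonpos_of_nonpos_of_nonneg (not_lt.1 hcon) (by positivity)
      linarith
    have h7 := Real.log_le_log hx hj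
    rw [Real.log_mul hjp.ne' (by positivity), Real.log_pow] at h7
    push_cast at h7
    have h8 : L * (1 - 2 * (Real.log L / L)) ≤ Real.log (j : ℝ) := by
      have : L * (1 - 2 * (Real.log L / L)) = L - 2 * Real.log L := by field_simp
      rw [this]
      linarith
    have h9 : 0 ≤ L * (1 - 2 * (Real.log L / L)) := mul_nonneg hL0.le (by linarith)
    have h10 : (L * (1 - 2 * (Real.log L / L))) ^ 2 ≤ Real.log (j : ℝ) ^ 2 := pow_le_pow_left₀ h9 h8 2
    have h11 := mul_le_mul_of_nonneg_left h10 (show 0 ≤ c' by linarith)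
    have h12 : c * L ^ 2 < (c' * (1 - 2 * (Real.log L / L)) ^ 2 - 1 / L ^ 2) * L ^ 2 := mul_lt_mul_of_pos_right g1 (by positivity)
    have h13 : (c' * (1 - 2 * (Real.log L / L)) ^ 2 - 1 / L ^ 2) * L ^ 2 = c' * (L * (1 - 2 * (Real.log L / L))) ^ 2 - 1 := by
      have : L ≠ 0 := hL0.ne'
      field_simp
    linarith
  filter_upwards [hcmp, logsq_le 5 (show (0 : ℝ) < 1 by norm_num), ev_log 3, eventually_ge_atTop 4, ev_pow k4 1, ev_pow k5 60,
    logsq_le ((J₀ : ℝ) + 2) (show (0 : ℝ) < 1 / 2 by norm_num)]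
    with x g1 g2 g3 g4 g5 g6 g7
  have hx4 : (4 : ℝ) ≤ x := by exact_mod_cast g4
  have hxp : (0 : ℝ) < x := by linarith
  set L := Real.log (x : ℝ) with hL
  have hL0 : 0 < L := by linarith
  have hL9 : 9 ≤ L ^ 2 := by nlinarith
  have hTx : (x : ℝ) + 4 * L ^ 2 ≤ Tq x := by
    have h3 : (x : ℝ) * L ^ 2 < Tq x + 1 := Nat.lt_floor_add_one _
    have h4 : (x : ℝ) * 9 ≤ x * L ^ 2 := mul_le_mul_of_nonneg_left hL9 hxp.le
    linarith
  -- the first starting point beyond `x + 4 L²`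
  have hex : ∃ J, (x : ℝ) + 4 * L ^ 2 ≤ Tq J := ⟨x, hTx⟩
  classical
  set J := Nat.find hex with hJ
  have hJ1 : (x : ℝ) + 4 * L ^ 2 ≤ Tq J := Nat.find_spec hex
  have hJx : J ≤ x := Nat.find_min' hex hTx
  have hTle : ∀ j : ℕ, (Tq j : ℝ) ≤ j * Real.log j ^ 2 := fun j => Nat.floor_le (by positivity)
  have hxJ : (x : ℝ) ≤ J * L ^ 2 := by
    have h1 : (x : ℝ) ≤ J * Real.log J ^ 2 := by
      have := hTle J
      linarith
    refine h1.trans ?_
    apply mul_le_mul_of_nonneg_left _ (Nat.cast_nonneg _)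
    apply pow_le_pow_left₀ (Real.log_natCast_nonneg _)
    rcases Nat.eq_zero_or_pos J with h0 | h0
    · rw [h0, Nat.cast_zero, Real.log_zero]
      exact hL0.le
    · exact Real.log_le_log (by exact_mod_cast h0) (by exact_mod_cast hJx)
  have hJJ : J₀ + 2 ≤ J := by
    by_contra hcon
    have h2 : (J : ℝ) ≤ J₀ + 2 := by exact_mod_cast (by omega : J ≤ J₀ + 2)
    have h3 : (x : ℝ) ≤ (J₀ + 2) * L ^ 2 := hxJ.trans (mul_le_mul_of_nonneg_right h2 (by positivity))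
    linarith
  obtain ⟨⟨⟨j, j1, j2, j3⟩, j4⟩, j5⟩ := hJ₀ J (by omega)
  obtain ⟨J', hJ'⟩ : ∃ J', J = J' + 1 := ⟨J - 1, by omega⟩
  have hJ'3 : 3 ≤ J' := by omega
  have hJ'lt : (Tq J' : ℝ) < x + 4 * L ^ 2 := by
    have := Nat.find_min hex (show J' < Nat.find hex by omega)
    exact not_le.1 this
  have hJR : (4 : ℝ) ≤ J := by exact_mod_cast j4
  have hJp1 : 1 ≤ (J : ℝ) ^ γ' := Real.one_le_rpow (by linarith) k0.le
  have hceil : ((⌈(J : ℝ) ^ γ'⌉₊ : ℕ) : ℝ) ≤ (J : ℝ) ^ γ' + 1 := (Nat.ceil_lt_add_one (by positivity)).le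
  have hlJ : 0 ≤ Real.log (J : ℝ) := Real.log_natCast_nonneg J
  have hceilJ : ⌈(J : ℝ) ^ γ'⌉₊ + 1 ≤ J := by
    rw [Real.rpow_one] at j5
    have h1 : 3 * 1 * (J : ℝ) ^ γ' ≤ 3 * (Real.log J + 1) * (J : ℝ) ^ γ' := by
      apply mul_le_mul_of_nonneg_right _ (by positivity)
      linarith
    have : ((⌈(J : ℝ) ^ γ'⌉₊ + 1 : ℕ) : ℝ) ≤ J := by push_cast; linarith
    exact_mod_cast this
  obtain ⟨m, hm⟩ : ∃ m, j = J' + m := ⟨j - J', by omega⟩
  have hmle : m ≤ ⌈(J : ℝ) ^ γ'⌉₊ := by omega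
  have hincr := f_incr hJ'3 (show m ≤ J' by omega)
  rw [← hm] at hincr
  have hTlt : (J' : ℝ) * Real.log J' ^ 2 < Tq J' + 1 := Nat.lt_floor_add_one _
  have hxγ : (J : ℝ) ^ γ' ≤ (x : ℝ) ^ γ' := Real.rpow_le_rpow (Nat.cast_nonneg _) (by exact_mod_cast hJx) k0.le
  have hxγ1 : 1 ≤ (x : ℝ) ^ γ' := hJp1.trans hxγ
  have hmR : (m : ℝ) ≤ 2 * (x : ℝ) ^ γ' := by
    have : (m : ℝ) ≤ (⌈(J : ℝ) ^ γ'⌉₊ : ℕ) := by exact_mod_cast hmle
    linarith
  have hJ'x : (J' : ℝ) ≤ x := by exact_mod_cast (by omega : J' ≤ x)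
  have hJ'p : (3 : ℝ) ≤ J' := by exact_mod_cast hJ'3
  have hlog2 : Real.log (2 * (J' : ℝ)) ≤ 2 * L := by
    have h1 := Real.log_le_log (show (0 : ℝ) < 2 * J' by linarith) (show 2 * (J' : ℝ) ≤ x * x by nlinarith)
    rw [Real.log_mul hxp.ne' hxp.ne'] at h1
    linarith
  have hlog20 : 0 ≤ Real.log (2 * (J' : ℝ)) := Real.log_nonneg (by linarith)
  have hsq : Real.log (2 * (J' : ℝ)) ^ 2 ≤ 4 * L ^ 2 := by nlinarith
  have hprod : (m : ℝ) * Real.log (2 * (J' : ℝ)) ^ 2 ≤ 2 * (x : ℝ) ^ γ' * (4 * L ^ 2) :=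
    mul_le_mul hmR hsq (by positivity) (by positivity)
  have hL2γ : L ^ 2 * (x : ℝ) ^ γ' * 60 ≤ (x : ℝ) ^ γ := by
    have e1 : (L + 1) * (1 * (L + 1) * (x : ℝ) ^ γ') ≤ (L + 1) * (x : ℝ) ^ γ'' := mul_le_mul_of_nonneg_left g5 (by linarith)
    have e2 : L ^ 2 * (x : ℝ) ^ γ' ≤ (L + 1) * (1 * (L + 1) * (x : ℝ) ^ γ') := by
      have : L ^ 2 ≤ (L + 1) * (L + 1) := by nlinarith
      have := mul_le_mul_of_nonneg_right this (show 0 ≤ (x : ℝ) ^ γ' by positivity)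
      linarith
    linarith
  have hL2 : L ^ 2 ≤ L ^ 2 * (x : ℝ) ^ γ' := by
    have := mul_le_mul_of_nonneg_left hxγ1 (show 0 ≤ L ^ 2 by positivity)
    linarith
  refine ⟨Tq j, ?_, ?_, ?_⟩
  · refine hJ1.trans ?_
    have : Tq J ≤ Tq j := by
      unfold Tq
      apply Nat.floor_mono
      have h1 : (J : ℝ) ≤ j := by exact_mod_cast j1
      apply mul_le_mul h1 _ (by positivity) (Nat.cast_nonneg _)
      exact pow_le_pow_left₀ hlJ (Real.log_le_log (by linarith) h1) 2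
    exact_mod_cast this
  · have h1 := hTle j
    have h2 : (1 : ℝ) ≤ L ^ 2 := by linarith
    clear_value L J
    linarith only [h1, h2, hincr, hTlt, hJ'lt, hprod, hL2γ, hL2]
  · intro k hk1 hk2 hk3
    have h1 : (x : ℝ) ≤ j * L ^ 2 := by
      refine hxJ.trans (mul_le_mul_of_nonneg_right ?_ (by positivity))
      exact_mod_cast j1
    have h2 := g1 j h1
    have h3 : c' * Real.log (j : ℝ) ^ 2 < ((⌊c' * Real.log (j : ℝ) ^ 2⌋₊ : ℕ) : ℝ) + 1 := Nat.lt_floor_add_one _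
    have h4 : k ≤ Tq j + ⌊c' * Real.log (j : ℝ) ^ 2⌋₊ := by
      have : (k : ℝ) ≤ ((Tq j + ⌊c' * Real.log (j : ℝ) ^ 2⌋₊ : ℕ) : ℝ) := by push_cast; linarith
      exact_mod_cast this
    rw [cnt_eq_ncard, Set.ncard_eq_zero ((Set.finite_Iic (Tq j + ⌊c' * Real.log (j : ℝ) ^ 2⌋₊)).subset fun _ ha => ha.2.2)] at j3
    have : k ∈ {a : ℕ | ω ∈ A a ∧ Tq j < a ∧ a ≤ Tq j + ⌊c' * Real.log (j : ℝ) ^ 2⌋₊} := ⟨hk3, hk1, h4⟩
    rw [j3] at this
    exact this

end Pool.Agent.R291.RMW
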