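import Mathlib
import Pool.Agent.R291.RMW.T3

set_option autoImplicit false
set_option linter.unusedSectionVars false
set_option linter.unusedVariables false

/-! # Consecutive elements of a random set -/

open MeasureTheory Filter Set
open scoped ENNReal Topology

namespace Pool.Agent.R291.RMW

open Pool.Agent.R528.RM

variable {Ω : Type} {m0 : MeasurableSpace Ω} {μ : Measure Ω} [IsProbabilityMeasure μ]
  {ℱ : Filtration ℕ m0} {A : ℕ → Set Ω}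

/-- `q < q'` are consecutive elements of `S` -/
def Cons (S : Set ℕ) (q q' : ℕ) : Prop := q ∈ S ∧ q' ∈ S ∧ q < q' ∧ ∀ m, q < m → m < q' → m ∉ S

/-- the gap containing `y` -/
lemma cons_around {S : Set ℕ} {a y b : ℕ} (h1 : ∃ m ∈ S, a < m ∧ m ≤ y) (h2 : ∃ m ∈ S, y < m) :
    ∃ q q', Cons S q q' ∧ a < q ∧ q ≤ y ∧ y < q' := by
  classical
  obtain ⟨m, hm, hm1, hm2⟩ := h1
  set F := (Finset.Ioc a y).filter (· ∈ S) with hF
  have hne : F.Nonempty := ⟨m, Finset.mem_filter.2 ⟨Finset.mem_Ioc.2 ⟨hm1, hm2⟩, hm⟩⟩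
  have hq := F.max'_mem hne
  obtain ⟨k1, k2⟩ := Finset.mem_filter.1 hq
  obtain ⟨k3, k4⟩ := Finset.mem_Ioc.1 k1
  have hex : ∃ m, m ∈ S ∧ y < m := by
    obtain ⟨m, hm, hm'⟩ := h2
    exact ⟨m, hm, hm'⟩
  obtain ⟨l1, l2⟩ := Nat.find_spec hex
  refine ⟨F.max' hne, Nat.find hex, ⟨k2, l1, by omega, fun n hn1 hn2 hn => ?_⟩, k3, k4, l2⟩
  by_cases h : n ≤ y
  · have : n ∈ F := Finset.mem_filter.2 ⟨Finset.mem_Ioc.2 ⟨by omega, h⟩, hn⟩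
    have := F.le_max' n this
    omega
  · exact Nat.find_min hex hn2 ⟨hn, by omega⟩

/-- an element of a nonempty window -/
lemma mem_of_cnt {ω : Ω} {y h : ℕ} (hc : cnt A y h ω ≠ 0) : ∃ m, ω ∈ A m ∧ y < m ∧ m ≤ y + h := by
  by_contra hcon
  push Not at hcon
  apply hc
  rw [cnt_eq_ncard, Set.ncard_eq_zero ((Set.finite_Iic (y + h)).subset fun _ ha => ha.2.2)]
  ext a
  simp only [mem_ofPred_eq, mem_empty_iff_false, iff_false]
  rintro ⟨a1, a2, a3⟩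
  have := hcon a a1 a2
  omega

lemma cons_le {ω : Ω} {q q' h : ℕ} (hq : Cons {k | ω ∈ A k} q q') (hc : cnt A q h ω ≠ 0) : q' ≤ q + h := by
  obtain ⟨m, m1, m2, m3⟩ := mem_of_cnt hc
  by_contra hcon
  exact hq.2.2.2 m m2 (by omega) m1

/-- **the general upper bound for the gaps** -/
theorem cons_upper (hA : ∀ n, MeasurableSet[ℱ n] (A n)) {W : ℕ} (hW : 0 < W)
    (hd : ∀ᵐ ω ∂μ, ∀ ε : ℝ, 0 < ε → ∀ᶠ n : ℕ in atTop, |dens μ ℱ A n ω - rhoW W (n + 1)| ≤ ε * rhoW W (n + 1)) :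
    ∀ᵐ ω ∂μ, ∀ c : ℝ, 1 < c → ∀ᶠ q : ℕ in atTop, (∃ m, ω ∈ A m ∧ q < m ∧ (m : ℝ) ≤ q + c * Real.log q ^ 2) ∧
      ∀ q', Cons {k | ω ∈ A k} q q' → (q' : ℝ) ≤ q + c * Real.log q ^ 2 := by
  have h1 : ∀ᵐ ω ∂μ, ∀ k : ℕ, ∀ᶠ y : ℕ in atTop, cnt A y ⌊(1 + 1 / ((k : ℝ) + 1)) * Real.log y ^ 2⌋₊ ω ≠ 0 := by
    refine ae_all_iff.2 fun k => ?_
    obtain ⟨κ, hκ, h⟩ := many_in_window (μ := μ) (ℱ := ℱ) hA hW hd (c := 1 + 1 / ((k : ℝ) + 1)) (by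
      have : (0 : ℝ) < 1 / ((k : ℝ) + 1) := by positivity
      linarith)
    filter_upwards [h] with ω hω
    filter_upwards [hω, ev_log 1] with y g1 g2 hcon
    rw [hcon] at g1
    have : 0 < κ * Real.log (y : ℝ) := by
      have : 0 < Real.log (y : ℝ) := by linarith
      positivity
    push_cast at g1
    linarith
  filter_upwards [h1] with ω hω c hc
  obtain ⟨k, hk⟩ := exists_nat_gt (1 / (c - 1))
  have hk1 : 1 + 1 / ((k : ℝ) + 1) ≤ c := by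
    rw [div_lt_iff₀ (by linarith)] at hk
    have : 1 / ((k : ℝ) + 1) ≤ c - 1 := by
      rw [div_le_iff₀ (by positivity)]
      nlinarith
    linarith
  filter_upwards [hω k] with q hq
  have h2 : ((⌊(1 + 1 / ((k : ℝ) + 1)) * Real.log (q : ℝ) ^ 2⌋₊ : ℕ) : ℝ) ≤ c * Real.log q ^ 2 :=
    (Nat.floor_le (by positivity)).trans (mul_le_mul_of_nonneg_right hk1 (by positivity))
  constructor
  · obtain ⟨m, m1, m2, m3⟩ := mem_of_cnt hq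
    refine ⟨m, m1, m2, ?_⟩
    have : (m : ℝ) ≤ q + (⌊(1 + 1 / ((k : ℝ) + 1)) * Real.log (q : ℝ) ^ 2⌋₊ : ℕ) := by exact_mod_cast m3
    linarith
  · intro q' hq'
    have h3 := cons_le hq' hq
    have : (q' : ℝ) ≤ q + (⌊(1 + 1 / ((k : ℝ) + 1)) * Real.log (q : ℝ) ^ 2⌋₊ : ℕ) := by exact_mod_cast h3
    linarith

/-- **long gaps between consecutive elements in all short intervals** -/
theorem cons_lower (hA : ∀ n, MeasurableSet[ℱ n] (A n)) {W : ℕ} (hW : 0 < W)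
    (hd : ∀ᵐ ω ∂μ, ∀ ε : ℝ, 0 < ε → ∀ᶠ n : ℕ in atTop, |dens μ ℱ A n ω - rhoW W (n + 1)| ≤ ε * rhoW W (n + 1))
    {γ c : ℝ} (hc0 : 0 < c) (hγc : c < γ) (hγ1 : γ < 1) :
    ∀ᵐ ω ∂μ, ∀ᶠ x : ℕ in atTop, ∃ q q' : ℕ, Cons {k | ω ∈ A k} q q' ∧ x < q ∧ (q' : ℝ) ≤ x + (x : ℝ) ^ γ ∧
      c * Real.log x ^ 2 < (q' : ℝ) - q := by
  filter_upwards [short_lower (μ := μ) (ℱ := ℱ) hA hW hd hc0 hγc hγ1, cons_upper (μ := μ) (ℱ := ℱ) hA hW hd] with ω h1 h2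
  obtain ⟨n₀, hn₀⟩ := eventually_atTop.1 (h2 2 (by norm_num))
  filter_upwards [h1, eventually_ge_atTop n₀, ev_log 3, eventually_ge_atTop 1] with x ⟨y, y1, y2, y3⟩ g2 g3 g4
  have hx1 : (1 : ℝ) ≤ x := by exact_mod_cast g4
  set L := Real.log (x : ℝ) with hL
  obtain ⟨⟨m, m1, m2, m3⟩, _⟩ := hn₀ x g2
  have hxy : x ≤ y := by
    have : (x : ℝ) ≤ y := by nlinarith
    exact_mod_cast this
  have hmy : m ≤ y := by
    have : (m : ℝ) ≤ y := by nlinarith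
    exact_mod_cast this
  obtain ⟨⟨m', m1', m2', m3'⟩, _⟩ := hn₀ y (g2.trans hxy)
  obtain ⟨q, q', hq, hq1, hq2, hq3⟩ := cons_around (S := {k | ω ∈ A k}) (a := x) (y := y) (b := 0) ⟨m, m1, m2, hmy⟩ ⟨m', m1', m2'⟩
  have hγx : (x : ℝ) ^ γ ≤ x := by
    calc (x : ℝ) ^ γ ≤ (x : ℝ) ^ (1 : ℝ) := Real.rpow_le_rpow_of_exponent_le hx1 hγ1.le
      _ = x := Real.rpow_one _
  have hq2' : (q : ℝ) ≤ y := by exact_mod_cast hq2
  have hq1' : (x : ℝ) < q := by exact_mod_cast hq1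
  have hlq : Real.log (q : ℝ) ≤ L + 1 := by
    have h5 : (q : ℝ) ≤ 2 * x := by nlinarith
    have h6 := Real.log_le_log (by linarith) h5
    rw [Real.log_mul (by norm_num) (by linarith)] at h6
    have := Real.log_two_lt_d9
    linarith
  have hlq0 : 0 ≤ Real.log (q : ℝ) := Real.log_natCast_nonneg q
  have h7 : (q' : ℝ) ≤ q + 2 * Real.log q ^ 2 := (hn₀ q (by omega)).2 q' hq
  have h8 : Real.log (q : ℝ) ^ 2 ≤ (L + 1) ^ 2 := pow_le_pow_left₀ hlq0 hlq 2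
  refine ⟨q, q', hq, hq1, ?_, ?_⟩
  · nlinarith
  · by_contra hcon
    push Not at hcon
    have h9 : (q' : ℝ) ≤ y + c * L ^ 2 := by linarith
    exact y3 q' hq3 h9 hq.2.1

/-! ### square roots -/

lemma sqrt_upper {q q' : ℕ} (hq : 0 < q) (h : q < q') : √(q' : ℝ) - √(q : ℝ) ≤ ((q' : ℝ) - q) / (2 * √(q : ℝ)) := by
  have hq' : (0 : ℝ) < q := by exact_mod_cast hq
  have h' : (q : ℝ) < q' := by exact_mod_cast h
  have h1 : 0 < √(q : ℝ) := Real.sqrt_pos.2 hq'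
  have h2 : √(q : ℝ) ≤ √(q' : ℝ) := Real.sqrt_le_sqrt h'.le
  rw [le_div_iff₀ (by positivity)]
  have h3 := Real.mul_self_sqrt hq'.le
  have h4 := Real.mul_self_sqrt (show (0 : ℝ) ≤ q' by linarith)
  nlinarith

lemma sqrt_lower {q q' : ℕ} {η : ℝ} (hη : 0 ≤ η) (hq : 0 < q) (h : q < q') (h2 : (q' : ℝ) ≤ (1 + η) * q) :
    ((q' : ℝ) - q) / (2 * √(q : ℝ)) ≤ (1 + η) * (√(q' : ℝ) - √(q : ℝ)) := by
  have hq' : (0 : ℝ) < q := by exact_mod_cast hq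
  have h' : (q : ℝ) < q' := by exact_mod_cast h
  have h1 : 0 < √(q : ℝ) := Real.sqrt_pos.2 hq'
  have h3 : √(q : ℝ) ≤ √(q' : ℝ) := Real.sqrt_le_sqrt h'.le
  have h4 : √(q' : ℝ) ≤ (1 + η) * √(q : ℝ) := by
    rw [Real.sqrt_le_left (by positivity), mul_pow, Real.sq_sqrt hq'.le]
    refine h2.trans ?_
    apply mul_le_mul_of_nonneg_right _ hq'.le
    nlinarith
  rw [div_le_iff₀ (by positivity)]
  have h5 := Real.mul_self_sqrt hq'.le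
  have h6 := Real.mul_self_sqrt (show (0 : ℝ) ≤ q' by linarith)
  have h7 : (q' : ℝ) - q = (√(q' : ℝ) - √(q : ℝ)) * (√(q' : ℝ) + √(q : ℝ)) := by nlinarith
  rw [h7]
  have h8 : √(q' : ℝ) + √(q : ℝ) ≤ (1 + η) * (2 * √(q : ℝ)) := by nlinarith
  have := mul_le_mul_of_nonneg_left h8 (show 0 ≤ √(q' : ℝ) - √(q : ℝ) by linarith)
  linarith

end Pool.Agent.R291.RMW
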