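import Mathlib
import Pool.Agent.R528.RM.EH6

set_option autoImplicit false
set_option linter.unusedSectionVars false
set_option linter.unusedVariables false

/-!
# The law of the extreme deviations over arbitrary windows

In an adapted random set with conditional densities close to a fixed sieved profile, the centered
counts of a sequence of finite sets `R n`, whose means `v n` satisfy `v n / log n → ∞`, are at most
`(1 + o(1)) √(2 v n log n)`; if the sets are pairwise disjoint and `v n` has polynomial size, then this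
bound is attained infinitely often.
-/

open MeasureTheory Filter Set
open scoped ENNReal Topology

namespace Pool.Agent.R291.RMW

open Pool.Agent.R528.RM

variable {Ω : Type} {m0 : MeasurableSpace Ω} {μ : Measure Ω} [IsProbabilityMeasure μ]
  {ℱ : Filtration ℕ m0} {A : ℕ → Set Ω}

/-- the mean of the set `R` -/
noncomputable def vR (W : ℕ) (R : Finset ℕ) : ℝ := ∑ n ∈ R, rhoW W n

lemma vR_nonneg (W : ℕ) (R : Finset ℕ) : 0 ≤ vR W R := Finset.sum_nonneg fun n _ => rhoW_nonneg W n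

/-- the windows move to infinity and have large means -/
structure Win (W : ℕ) (R : ℕ → Finset ℕ) : Prop where
  far : ∀ N : ℕ, ∀ᶠ n : ℕ in atTop, ∀ m ∈ R n, N < m
  big : Tendsto (fun n : ℕ => vR W (R n) / Real.log n) atTop atTop

/-- good starting points -/
lemma exists_start (W : ℕ) {δ d₀ : ℝ} (hδ : 0 < δ) (hd₀ : 0 < d₀) (N : ℕ) :
    ∃ N₀ : ℕ, N ≤ N₀ ∧ ∀ m, N₀ ≤ m → (1 + δ) * rhoW W (m + 1) ≤ d₀ := by
  have g4 : ∀ᶠ m : ℕ in atTop, (1 + δ) * rhoW W (m + 1) ≤ d₀ := by
    have hc : 0 < d₀ / (1 + δ) := by positivity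
    filter_upwards [ev_log (((W : ℝ) / Nat.totient W) / (d₀ / (1 + δ))), eventually_gt_atTop 1] with m h1 h2
    have hm : (1 : ℝ) < m := by exact_mod_cast h2
    have h3 : Real.log m ≤ Real.log ((m + 1 : ℕ) : ℝ) := Real.log_le_log (by linarith only [hm]) (by push_cast; linarith only)
    have hlm : 0 < Real.log ((m + 1 : ℕ) : ℝ) := (Real.log_pos hm).trans_le h3
    have h4 : rhoW W (m + 1) ≤ d₀ / (1 + δ) := by
      unfold rhoW
      split_ifs
      · refine (min_le_right _ _).trans ?_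
        rw [div_le_iff₀ hlm]
        rw [div_le_iff₀ hc] at h1
        have := mul_le_mul_of_nonneg_left h3 hc.le
        linarith only [this, h1]
      · exact hc.le
    rw [le_div_iff₀ (by positivity)] at h4
    linarith only [h4]
  obtain ⟨m₀, hm₀⟩ := eventually_atTop.1 g4
  exact ⟨max N m₀, le_max_left _ _, fun m hm => hm₀ m ((le_max_right _ _).trans hm)⟩

/-- the top of a finite set -/
noncomputable def topR (R : Finset ℕ) : ℕ := R.sup id

lemma le_topR {R : Finset ℕ} {m : ℕ} (h : m ∈ R) : m ≤ topR R := Finset.le_sup (f := id) h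

/-- **the upper bound** -/
theorem win_upper (hA : ∀ n, MeasurableSet[ℱ n] (A n)) {W : ℕ}
    (hd : ∀ᵐ ω ∂μ, ∀ ε : ℝ, 0 < ε → ∀ᶠ n : ℕ in atTop, |dens μ ℱ A n ω - rhoW W (n + 1)| ≤ ε * rhoW W (n + 1))
    {R : ℕ → Finset ℕ} (hR : Win W R) {η : ℝ} (hη0 : 0 < η) (hη1 : η ≤ 1) :
    ∀ᵐ ω ∂μ, ∀ᶠ n : ℕ in atTop, |CS μ ℱ A (R n) ω| < (1 + η) * √(2 * Real.log n * vR W (R n)) := by
  classical
  set δ : ℝ := η / 3 with hδ
  have hδ0 : 0 < δ := by positivity
  have hδ1 : δ ≤ 1 := by linarith only [hδ, hη1]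
  have hδη : (1 + δ) ^ 2 ≤ 1 + η := by rw [hδ]; nlinarith only [hη0, hη1]
  choose N₀ hN1 hN2 using fun N => exists_start W hδ0 (show (0 : ℝ) < 1 / 8 by norm_num) N
  -- the tail for every start
  have htail : ∀ N : ℕ, ∀ᵐ ω ∂μ, ∀ᶠ n : ℕ in atTop,
      ω ∉ {ω | (1 + η) * √(2 * Real.log n * vR W (R n)) ≤ |SR μ ℱ A (rhoW W) δ (R n) (N₀ N) (topR (R n)) ω|} := by
    intro N
    apply bc_real (c := fun n : ℕ => 2 * (n : ℝ) ^ (-(1 + η))) ((summable_pow_nat (by linarith)).mul_left 2)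
    filter_upwards [hR.big.eventually_ge_atTop (2 / δ ^ 2), ev_log 1, eventually_gt_atTop 1] with n h1 h2 h3
    have hn : (1 : ℝ) < n := by exact_mod_cast h3
    have hnp : (0 : ℝ) < n := by linarith only [hn]
    have hln : 0 < Real.log (n : ℝ) := Real.log_pos hn
    set v : ℝ := vR W (R n) with hv
    have hv1 : 2 / δ ^ 2 * Real.log n ≤ v := by rwa [le_div_iff₀ hln] at h1
    have hv0 : 0 < v := lt_of_lt_of_le (by positivity) hv1
    set θ : ℝ := √(2 * Real.log n / v) with hθ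
    have hθ0 : 0 < θ := Real.sqrt_pos.2 (by positivity)
    have hθδ : θ ≤ δ := by
      rw [hθ, Real.sqrt_le_left hδ0.le, div_le_iff₀ hv0]
      have := mul_le_mul_of_nonneg_left hv1 (show 0 ≤ δ ^ 2 by positivity)
      have e : δ ^ 2 * (2 / δ ^ 2 * Real.log n) = 2 * Real.log n := by field_simp
      linarith only [this, e]
    have hθ1 : θ ≤ 1 := hθδ.trans hδ1
    have hθ2 : θ ^ 2 * v = 2 * Real.log n := by
      rw [hθ, Real.sq_sqrt (by positivity)]
      exact div_mul_cancel₀ _ hv0.ne'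
    have hθv : θ * v = √(2 * Real.log n * v) := by
      have e2 : θ * v = √(2 * Real.log n / v * v ^ 2) := by
        rw [Real.sqrt_mul (by positivity), Real.sqrt_sq hv0.le]
      rw [e2]
      congr 1
      field_simp
    set Y : ℝ := 2 * (1 + η) * Real.log n with hY
    have hYe : Y = θ * ((1 + η) * (θ * v)) := by
      rw [hY]
      linear_combination -(1 + η) * hθ2
    have hexpb : ∀ t : ℝ, |t| = θ → Real.exp (-Y + t ^ 2 / 2 * (1 + |t|) * ((1 + δ) * ∑ m ∈ R n, rhoW W m)) ≤ (n : ℝ) ^ (-(1 + η)) := by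
      intro t ht
      rw [Real.rpow_def_of_pos hnp]
      apply Real.exp_le_exp.2
      have e1 : t ^ 2 = θ ^ 2 := by rw [← sq_abs, ht]
      rw [e1, ht]
      have e2 : θ ^ 2 / 2 * (1 + θ) * ((1 + δ) * v) ≤ θ ^ 2 / 2 * (1 + δ) * ((1 + δ) * v) := by
        apply mul_le_mul_of_nonneg_right _ (by positivity)
        apply mul_le_mul_of_nonneg_left _ (by positivity)
        linarith only [hθδ]
      have e3 : θ ^ 2 / 2 * (1 + δ) * ((1 + δ) * v) = (1 + δ) ^ 2 * Real.log n := by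
        linear_combination ((1 + δ) ^ 2 / 2) * hθ2
      have e4 : (1 + δ) ^ 2 * Real.log n ≤ (1 + η) * Real.log n := mul_le_mul_of_nonneg_right hδη (by positivity)
      have e5 : ∑ m ∈ R n, rhoW W m = v := rfl
      rw [hY, e5]
      linarith only [e2, e3, e4]
    have t1 := SR_tail (μ := μ) (ℱ := ℱ) (A := A) (N := N₀ N) hA (rhoW_nonneg W) hδ0.le hδ1 (hN2 N) (θ := θ)
      (by rw [abs_of_pos hθ0]; exact hθ1) (R n) (topR (R n)) Y
    have t2 := SR_tail (μ := μ) (ℱ := ℱ) (A := A) (N := N₀ N) hA (rhoW_nonneg W) hδ0.le hδ1 (hN2 N) (θ := -θ)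
      (by rw [abs_neg, abs_of_pos hθ0]; exact hθ1) (R n) (topR (R n)) Y
    have hsub : {ω | (1 + η) * √(2 * Real.log n * v) ≤ |SR μ ℱ A (rhoW W) δ (R n) (N₀ N) (topR (R n)) ω|} ⊆
        {ω | Y ≤ θ * SR μ ℱ A (rhoW W) δ (R n) (N₀ N) (topR (R n)) ω} ∪
        {ω | Y ≤ (-θ) * SR μ ℱ A (rhoW W) δ (R n) (N₀ N) (topR (R n)) ω} := by
      intro ω hω
      have g1 : (1 + η) * √(2 * Real.log n * v) ≤ |SR μ ℱ A (rhoW W) δ (R n) (N₀ N) (topR (R n)) ω| := hω
      rw [← hθv] at g1
      rcases le_abs.1 g1 with h | h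
      · left
        show Y ≤ _
        rw [hYe]
        exact mul_le_mul_of_nonneg_left h hθ0.le
      · right
        show Y ≤ _
        rw [hYe]
        have := mul_le_mul_of_nonneg_left h hθ0.le
        linarith only [this]
    refine (measureReal_mono hsub (measure_ne_top _ _)).trans ((measureReal_union_le _ _).trans ?_)
    have u1 := t1.trans (hexpb θ (abs_of_pos hθ0))
    have u2 := t2.trans (hexpb (-θ) (by rw [abs_neg, abs_of_pos hθ0]))
    linarith only [u1, u2]
  filter_upwards [ae_all_iff.2 htail, hd] with ω h1 h2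
  obtain ⟨N, hN⟩ := dens_two h2 hδ0
  have hGs : ∀ M, ω ∈ Gs μ ℱ A (rhoW W) δ (N₀ N) (N₀ N + M) := by
    intro M m hm _
    exact ⟨(hN _ (hN1 N)).2 m hm, (hN _ (hN1 N)).1 m hm⟩
  filter_upwards [h1 N, hR.far (N₀ N)] with n g1 g2
  have g3 : SR μ ℱ A (rhoW W) δ (R n) (N₀ N) (topR (R n)) ω = CS μ ℱ A (R n) ω :=
    SR_CS (fun m hm => ⟨g2 m hm, by have := le_topR hm; omega⟩) (hGs _)
  have g4 : ¬ ((1 + η) * √(2 * Real.log n * vR W (R n)) ≤ |SR μ ℱ A (rhoW W) δ (R n) (N₀ N) (topR (R n)) ω|) := g1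
  rw [g3] at g4
  exact not_le.1 g4

/-- pigeonhole: many windows with nearly the same mean -/
lemma many_same {W : ℕ} {R : ℕ → Finset ℕ} (hR : Win W R) {K : ℝ} (hK : ∀ᶠ n : ℕ in atTop, vR W (R n) ≤ (n : ℝ) ^ K)
    {δ : ℝ} (hδ0 : 0 < δ) (hδ1 : δ < 1) :
    ∃ C : ℝ, 0 < C ∧ ∀ᶠ j : ℕ in atTop, ∃ I : Finset ℕ, I ⊆ Finset.Ioc (2 ^ j) (2 ^ (j + 1)) ∧ ∃ v : ℝ,
      (2 : ℝ) ^ j ≤ C * (j + 1) * I.card ∧ (∀ i ∈ I, (1 - δ) * v ≤ vR W (R i) ∧ vR W (R i) ≤ v) := by
  classical
  set r : ℝ := (1 - δ)⁻¹ with hr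
  have h1δ : 0 < 1 - δ := by linarith only [hδ1]
  have hr1 : 1 < r := by
    rw [hr]
    exact (one_lt_inv₀ h1δ).2 (by linarith only [hδ0])
  have hr0 : 0 < r := by linarith only [hr1]
  have hlr : 0 < Real.log r := Real.log_pos hr1
  have hl2 : 0 < Real.log 2 := Real.log_pos (by norm_num)
  set K' : ℝ := max K 0 with hK'
  have hK'0 : 0 ≤ K' := le_max_right _ _
  set B : ℝ := K' * Real.log 2 / Real.log r with hB
  have hB0 : 0 ≤ B := by positivity
  refine ⟨B + 2, by positivity, ?_⟩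
  have h2j : Tendsto (fun j : ℕ => 2 ^ j) atTop atTop := tendsto_pow_atTop_atTop_of_one_lt (by norm_num)
  obtain ⟨n₀, hn₀⟩ := eventually_atTop.1 ((hK.and (hR.big.eventually_ge_atTop 1)).and (ev_log 1))
  filter_upwards [h2j.eventually_ge_atTop (n₀ + 1)] with j hj
  set S : Finset ℕ := Finset.Ioc (2 ^ j) (2 ^ (j + 1)) with hS
  set T : ℕ := ⌊B * (j + 1)⌋₊ + 1 with hT
  set f : ℕ → ℕ := fun n => ⌊Real.log (vR W (R n)) / Real.log r⌋₊ with hf
  have hprop : ∀ n ∈ S, 1 ≤ vR W (R n) ∧ vR W (R n) ≤ (n : ℝ) ^ K' := by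
    intro n hn
    obtain ⟨g1, g2⟩ := Finset.mem_Ioc.1 hn
    obtain ⟨⟨k1, k2⟩, k3⟩ := hn₀ n (by omega)
    have hn1 : (1 : ℝ) ≤ n := by exact_mod_cast (by omega : 1 ≤ n)
    have hl : 0 < Real.log (n : ℝ) := by linarith only [k3]
    constructor
    · rw [le_div_iff₀ hl] at k2
      linarith only [k2, k3]
    · exact k1.trans (Real.rpow_le_rpow_of_exponent_le hn1 (le_max_left _ _))
  have hmaps : ∀ n ∈ S, f n ∈ Finset.range T := by
    intro n hn
    obtain ⟨g1, g2⟩ := hprop n hn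
    obtain ⟨g3, g4⟩ := Finset.mem_Ioc.1 hn
    rw [Finset.mem_range, hT, Nat.lt_succ_iff]
    apply Nat.floor_mono
    have hn1 : (1 : ℝ) ≤ n := by exact_mod_cast (by omega : 1 ≤ n)
    have hnp : (0 : ℝ) < n := by linarith only [hn1]
    have e1 : Real.log (vR W (R n)) ≤ K' * Real.log n := by
      rw [← Real.log_rpow hnp]
      exact Real.log_le_log (by linarith only [g1]) g2
    have e2 : Real.log (n : ℝ) ≤ (j + 1) * Real.log 2 := by
      have : Real.log (n : ℝ) ≤ Real.log ((2 ^ (j + 1) : ℕ) : ℝ) := Real.log_le_log hnp (by exact_mod_cast g4)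
      push_cast at this
      rw [Real.log_pow] at this
      push_cast at this
      exact this
    rw [div_le_iff₀ hlr, hB]
    have e3 : K' * Real.log 2 / Real.log r * (j + 1) * Real.log r = K' * ((j + 1) * Real.log 2) := by
      field_simp
    rw [e3]
    exact e1.trans (mul_le_mul_of_nonneg_left e2 hK'0)
  have hcardS : S.card = 2 ^ j := by
    rw [hS, Nat.card_Ioc, pow_succ]
    omega
  have hTpos : (0 : ℝ) < T := by rw [hT]; positivity
  obtain ⟨k, hk, hk2⟩ := Finset.exists_le_card_fiber_of_nsmul_le_card_of_maps_to (s := S) (t := Finset.range T) (f := f)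
    (b := (2 : ℝ) ^ j / T) hmaps ⟨0, Finset.mem_range.2 (by omega)⟩ (by
      rw [Finset.card_range, nsmul_eq_mul, hcardS]
      push_cast
      rw [mul_div_cancel₀ _ hTpos.ne'])
  refine ⟨S.filter (fun n => f n = k), Finset.filter_subset _ _, r ^ (k + 1), ?_, ?_⟩
  · rw [div_le_iff₀ hTpos] at hk2
    refine hk2.trans ?_
    rw [mul_comm]
    apply mul_le_mul_of_nonneg_right _ (Nat.cast_nonneg _)
    rw [hT]
    push_cast
    have := Nat.floor_le (show 0 ≤ B * ((j : ℝ) + 1) by positivity)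
    have hj0 : (0 : ℝ) ≤ j := Nat.cast_nonneg _
    linarith only [this, hj0]
  · intro i hi
    obtain ⟨g1, g2⟩ := Finset.mem_filter.1 hi
    obtain ⟨g3, _⟩ := hprop i g1
    have hvp : 0 < vR W (R i) := by linarith only [g3]
    have hl0 : 0 ≤ Real.log (vR W (R i)) := Real.log_nonneg g3
    have g4 : (k : ℝ) ≤ Real.log (vR W (R i)) / Real.log r := by
      rw [← g2]
      exact Nat.floor_le (by positivity)
    have g5 : Real.log (vR W (R i)) / Real.log r < k + 1 := by
      rw [← g2]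
      exact Nat.lt_floor_add_one _
    rw [le_div_iff₀ hlr] at g4
    rw [div_lt_iff₀ hlr] at g5
    constructor
    · have e1 : (1 - δ) * r ^ (k + 1) = r ^ k := by
        rw [pow_succ, hr]
        field_simp
      rw [e1]
      have e2 : r ^ k = Real.exp (k * Real.log r) := by
        rw [← Real.log_pow, Real.exp_log (by positivity)]
      rw [e2, ← Real.exp_log hvp]
      exact Real.exp_le_exp.2 g4
    · have e2 : r ^ (k + 1) = Real.exp ((k + 1) * Real.log r) := by
        have : ((k : ℝ) + 1) * Real.log r = Real.log (r ^ (k + 1)) := by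
          rw [Real.log_pow]
          push_cast
          ring
        rw [this, Real.exp_log (by positivity)]
      rw [e2, ← Real.exp_log hvp]
      exact (Real.exp_lt_exp.2 g5).le

end Pool.Agent.R291.RMW
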