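import Mathlib
import Pool.Agent.R291.RMW.W1

set_option autoImplicit false
set_option linter.unusedSectionVars false
set_option linter.unusedVariables false

/-! # The law of the extreme deviations over arbitrary windows: the lower bound -/

open MeasureTheory Filter Set
open scoped ENNReal Topology

namespace Pool.Agent.R291.RMW

open Pool.Agent.R528.RM

variable {Ω : Type} {m0 : MeasurableSpace Ω} {μ : Measure Ω} [IsProbabilityMeasure μ]
  {ℱ : Filtration ℕ m0} {A : ℕ → Set Ω}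

/-- the common top of the windows of a dyadic block -/
noncomputable def topB (R : ℕ → Finset ℕ) (j : ℕ) : ℕ := (Finset.Ioc (2 ^ j) (2 ^ (j + 1))).sup (fun i => topR (R i))

lemma le_topB {R : ℕ → Finset ℕ} {j i m : ℕ} (hi : i ∈ Finset.Ioc (2 ^ j) (2 ^ (j + 1))) (h : m ∈ R i) : m ≤ topB R j :=
  (le_topR h).trans (Finset.le_sup (f := fun i => topR (R i)) hi)

/-- no large deviation in a dyadic block -/
def Bad (μ : Measure Ω) (ℱ : Filtration ℕ m0) (A : ℕ → Set Ω) (W : ℕ) (R : ℕ → Finset ℕ) (η δ : ℝ) (N j : ℕ) : Set Ω :=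
  {ω | ∀ i ∈ Finset.Ioc (2 ^ j) (2 ^ (j + 1)), SR μ ℱ A (rhoW W) δ (R i) N (topB R j) ω <
    (1 - 4 * η) * √(2 * Real.log i * vR W (R i))} ∩ Gs μ ℱ A (rhoW W) δ N (N + topB R j)

theorem Bad_le (hA : ∀ n, MeasurableSet[ℱ n] (A n)) {W : ℕ}
    {R : ℕ → Finset ℕ} (hR : Win W R) (hdisj : ∃ n₀, ∀ m n, n₀ ≤ m → m < n → Disjoint (R m) (R n))
    {K : ℝ} (hK : ∀ᶠ n : ℕ in atTop, vR W (R n) ≤ (n : ℝ) ^ K)
    {η : ℝ} (hη0 : 0 < η) (hη1 : η ≤ 1 / 10) {N : ℕ}
    (hsm : ∀ m, N ≤ m → (1 + η / 8) * rhoW W (m + 1) ≤ (η / 8) ^ 2 / 8) :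
    ∃ C : ℝ, 0 < C ∧ ∀ᶠ j : ℕ in atTop, μ.real (Bad μ ℱ A W R η (η / 8) N j) ≤
      8 * C * (((j + 1 : ℕ) : ℝ) ^ 1 * Real.exp (-(η * Real.log 2)) ^ (j + 1)) +
        10 * Real.exp (-(η / 8 * η * (1 - 3 * η) * Real.log 2)) ^ (j + 1) := by
  classical
  set δ : ℝ := η / 8 with hδ
  have hδ0 : 0 < δ := by positivity
  have hδ1 : δ < 1 := by linarith only [hδ, hη1]
  have hd8 : δ ^ 2 / 8 ≤ 1 / 8 := by nlinarith only [hδ0, hδ1]
  have hη8 : η = 8 * δ := by rw [hδ]; ring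
  have hδ2 : δ ^ 2 ≤ δ := by nlinarith only [hδ0, hδ1]
  have hδ20 : 0 < δ ^ 2 := by positivity
  have hδ3 : δ ^ 3 ≤ δ := by nlinarith only [hδ0, hδ1, hδ2, hδ20]
  have hpar1 : (1 + δ) ^ 2 * (1 + δ) ≤ 1 + η := by
    have e1 : (1 + δ) ^ 2 * (1 + δ) = 1 + 3 * δ + 3 * δ ^ 2 + δ ^ 3 := by ring
    rw [e1]
    linarith only [hδ2, hδ3, hη8, hδ0]
  have hpar2 : 1 - η / 2 ≤ (1 - δ) * (1 - δ) ^ 2 := by
    have e1 : (1 - δ) * (1 - δ) ^ 2 = 1 - 3 * δ + 3 * δ ^ 2 - δ ^ 3 := by ring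
    rw [e1]
    linarith only [hδ2, hδ3, hη8, hδ0, hδ20]
  obtain ⟨n₀, hn₀⟩ := hdisj
  obtain ⟨C, hC0, hC⟩ := many_same hR hK hδ0 hδ1
  refine ⟨C, hC0, ?_⟩
  have h2j : Tendsto (fun j : ℕ => 2 ^ j) atTop atTop := tendsto_pow_atTop_atTop_of_one_lt (by norm_num)
  have hl2 : 0 < Real.log 2 := Real.log_pos (by norm_num)
  obtain ⟨n₁, hn₁⟩ := eventually_atTop.1 ((hR.big.eventually_ge_atTop (256 / δ ^ 4)).and (hR.far N))
  filter_upwards [hC, h2j.eventually_ge_atTop (n₀ + 1), h2j.eventually_ge_atTop (n₁ + 1), eventually_ge_atTop 1] with j ⟨I, hI1, v, hI2, hI3⟩ h3 h4 h5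
  have hj1 : (1 : ℝ) ≤ j := by exact_mod_cast h5
  set S : Finset ℕ := Finset.Ioc (2 ^ j) (2 ^ (j + 1)) with hS
  have hcard : (0 : ℝ) < I.card := by
    by_contra hcon
    have : (I.card : ℝ) = 0 := le_antisymm (not_lt.1 hcon) (Nat.cast_nonneg _)
    rw [this, mul_zero] at hI2
    have : (0 : ℝ) < 2 ^ j := by positivity
    linarith only [this, hI2]
  have hIne : I.Nonempty := Finset.card_pos.1 (by exact_mod_cast hcard)
  set L : ℝ := (j + 1) * Real.log 2 with hL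
  have hL0 : 0 < L := by positivity
  have hlog : ∀ i ∈ S, L / 2 ≤ Real.log (i : ℝ) ∧ Real.log (i : ℝ) ≤ L := by
    intro i hi
    obtain ⟨g1, g2⟩ := Finset.mem_Ioc.1 hi
    have hi0 : (0 : ℝ) < i := by exact_mod_cast (by omega : 0 < i)
    constructor
    · have e1 : Real.log ((2 ^ j : ℕ) : ℝ) ≤ Real.log i := Real.log_le_log (by positivity) (by exact_mod_cast g1.le)
      push_cast at e1
      rw [Real.log_pow] at e1
      have e2 : L / 2 ≤ j * Real.log 2 := by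
        rw [hL]
        nlinarith only [hj1, hl2]
      exact e2.trans e1
    · have e1 : Real.log (i : ℝ) ≤ Real.log ((2 ^ (j + 1) : ℕ) : ℝ) := Real.log_le_log hi0 (by exact_mod_cast g2)
      push_cast at e1
      rw [Real.log_pow] at e1
      push_cast at e1
      exact e1
  have hvge : 128 / δ ^ 4 * L ≤ v := by
    obtain ⟨i, hi⟩ := hIne
    have hiS := hI1 hi
    obtain ⟨g1, g2⟩ := hlog i hiS
    have g3 := (hn₁ i (by have := (Finset.mem_Ioc.1 hiS).1; omega)).1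
    have hli : 0 < Real.log (i : ℝ) := by linarith only [g1, hL0]
    rw [le_div_iff₀ hli] at g3
    refine le_trans ?_ (g3.trans (hI3 i hi).2)
    have : 256 / δ ^ 4 * (L / 2) ≤ 256 / δ ^ 4 * Real.log i := mul_le_mul_of_nonneg_left g1 (by positivity)
    refine le_trans (le_of_eq ?_) this
    ring
  have hv0 : 0 < v := lt_of_lt_of_le (by positivity) hvge
  have h3η : 0 < 1 - 3 * η := by linarith only [hη1]
  set Λ : ℝ := (1 - 3 * η) * L with hΛ
  have hΛ0 : 0 < Λ := by positivity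
  have hΛL : Λ ≤ L := by nlinarith only [hη0, hL0, hΛ]
  set θ : ℝ := √(2 * Λ / v) with hθ
  have hθ0 : 0 < θ := Real.sqrt_pos.2 (by positivity)
  have hθle : θ ≤ δ ^ 2 / 8 := by
    rw [hθ, Real.sqrt_le_left (by positivity), div_le_iff₀ hv0]
    have e1 := mul_le_mul_of_nonneg_left hvge (show 0 ≤ (δ ^ 2 / 8) ^ 2 by positivity)
    have e2 : (δ ^ 2 / 8) ^ 2 * (128 / δ ^ 4 * L) = 2 * L := by
      field_simp
      ring
    linarith only [e1, e2, hΛL]
  have hθ2 : θ ^ 2 * v = 2 * Λ := by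
    rw [hθ, Real.sq_sqrt (by positivity)]
    exact div_mul_cancel₀ _ hv0.ne'
  have hθ2' : θ ^ 2 * v / 2 = Λ := by linarith only [hθ2]
  have key := fam_max (μ := μ) (ℱ := ℱ) (A := A) (N := N) (ι := ℕ) hA (rhoW_nonneg W) hδ0.le hδ1.le hsm hd8 hθ0 hδ0 hδ1.le
    (by linarith only [hθle]) hη0 hpar1 hpar2 I hIne R (topB R j)
    (fun i hi n hn => ⟨(hn₁ i (by have := (Finset.mem_Ioc.1 (hI1 hi)).1; omega)).2 n hn, by
      have := le_topB (hI1 hi) hn
      omega⟩) (o₁ := 0) (by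
        intro i hi k hk hik
        have g1 := (Finset.mem_Ioc.1 (hI1 hi)).1
        have g2 := (Finset.mem_Ioc.1 (hI1 hk)).1
        have : Disjoint (R i) (R k) := by
          rcases Nat.lt_or_gt_of_ne hik with h | h
          · exact hn₀ i k (by omega) h
          · exact (hn₀ k i (by omega) h).symm
        rw [Finset.disjoint_iff_inter_eq_empty.1 this, Finset.sum_empty]) hI3
  rw [hθ2', mul_zero, mul_zero, Real.exp_zero, sub_self, mul_zero, add_zero] at key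
  have hthr : (1 - 4 * η) * √(2 * L * v) ≤ (1 - η) * θ * v := by
    have e1 : θ * v = √(2 * Λ * v) := by
      have e2 : θ * v = √(2 * Λ / v * v ^ 2) := by
        rw [Real.sqrt_mul (by positivity), Real.sqrt_sq hv0.le]
      rw [e2]
      congr 1
      rw [sq, ← mul_assoc, div_mul_cancel₀ _ hv0.ne']
    have e2 : (1 - 3 * η) * √(2 * L * v) ≤ √(2 * Λ * v) := by
      apply Real.le_sqrt_of_sq_le
      rw [mul_pow, Real.sq_sqrt (by positivity)]
      have : (1 - 3 * η) ^ 2 ≤ 1 - 3 * η := by nlinarith only [hη0, h3η]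
      calc (1 - 3 * η) ^ 2 * (2 * L * v) ≤ (1 - 3 * η) * (2 * L * v) := mul_le_mul_of_nonneg_right this (by positivity)
        _ = 2 * Λ * v := by rw [hΛ]; ring
    have e3 : 0 ≤ √(2 * L * v) := Real.sqrt_nonneg _
    have e4 : (1 - 4 * η) ≤ (1 - η) * (1 - 3 * η) := by nlinarith only [hη0]
    have e5 := mul_le_mul_of_nonneg_right e4 e3
    have e6 := mul_le_mul_of_nonneg_left e2 (show 0 ≤ 1 - η by linarith only [hη1])
    rw [mul_assoc (1 - η) θ v, e1]
    linarith only [e5, e6]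
  refine (measureReal_mono (s₂ := {ω | ∀ i ∈ I, SR μ ℱ A (rhoW W) δ (R i) N (topB R j) ω < (1 - η) * θ * v} ∩
    Gs μ ℱ A (rhoW W) δ N (N + topB R j)) ?_ (measure_ne_top _ _)).trans (key.trans ?_)
  · rintro ω ⟨g1, g2⟩
    refine ⟨fun i hi => ?_, g2⟩
    have g3 := g1 i (hI1 hi)
    refine lt_of_lt_of_le g3 (le_trans ?_ hthr)
    apply mul_le_mul_of_nonneg_left _ (by linarith only [hη1])
    apply Real.sqrt_le_sqrt
    apply mul_le_mul _ (hI3 i hi).2 (vR_nonneg _ _) (by positivity)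
    linarith only [(hlog i (hI1 hi)).2]
  · have f1 : Real.exp ((1 + 2 * η) * Λ) ≤ 2 ^ (j + 1) * Real.exp (-(η * Real.log 2)) ^ (j + 1) := by
      have e1 : (2 : ℝ) ^ (j + 1) = Real.exp L := by
        rw [hL, ← Real.exp_log (show (0 : ℝ) < 2 ^ (j + 1) by positivity), Real.log_pow]
        push_cast
        ring_nf
      rw [e1, ← Real.exp_nat_mul, ← Real.exp_add]
      apply Real.exp_le_exp.2
      have : (1 + 2 * η) * (1 - 3 * η) ≤ 1 - η := by nlinarith only [hη0]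
      have := mul_le_mul_of_nonneg_right this hL0.le
      rw [hΛ]
      push_cast
      rw [hL] at this ⊢
      linarith only [this]
    have f2 : Real.exp (-(δ * η * Λ)) = Real.exp (-(δ * η * (1 - 3 * η) * Real.log 2)) ^ (j + 1) := by
      rw [← Real.exp_nat_mul]
      congr 1
      rw [hΛ, hL]
      push_cast
      ring
    have f3 : 4 * Real.exp ((1 + 2 * η) * Λ) / I.card ≤ 8 * C * (((j + 1 : ℕ) : ℝ) ^ 1 * Real.exp (-(η * Real.log 2)) ^ (j + 1)) := by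
      rw [div_le_iff₀ hcard]
      have e0 : (0 : ℝ) < Real.exp (-(η * Real.log 2)) ^ (j + 1) := pow_pos (Real.exp_pos _) _
      have e1 : 4 * Real.exp ((1 + 2 * η) * Λ) ≤ 4 * (2 ^ (j + 1) * Real.exp (-(η * Real.log 2)) ^ (j + 1)) := by linarith only [f1]
      refine e1.trans ?_
      have e2 := mul_le_mul_of_nonneg_right hI2 (show 0 ≤ 8 * Real.exp (-(η * Real.log 2)) ^ (j + 1) by positivity)
      have e3 : (4 : ℝ) * (2 ^ (j + 1) * Real.exp (-(η * Real.log 2)) ^ (j + 1)) = 2 ^ j * (8 * Real.exp (-(η * Real.log 2)) ^ (j + 1)) := by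
        rw [pow_succ (2 : ℝ) j]; ring
      rw [e3]
      refine e2.trans (le_of_eq ?_)
      push_cast
      ring
    rw [f2]
    linarith only [f3]

/-- **the lower bound**: every large dyadic block contains a large deviation -/
theorem win_lower (hA : ∀ n, MeasurableSet[ℱ n] (A n)) {W : ℕ}
    (hd : ∀ᵐ ω ∂μ, ∀ ε : ℝ, 0 < ε → ∀ᶠ n : ℕ in atTop, |dens μ ℱ A n ω - rhoW W (n + 1)| ≤ ε * rhoW W (n + 1))
    {R : ℕ → Finset ℕ} (hR : Win W R) (hdisj : ∃ n₀, ∀ m n, n₀ ≤ m → m < n → Disjoint (R m) (R n))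
    {K : ℝ} (hK : ∀ᶠ n : ℕ in atTop, vR W (R n) ≤ (n : ℝ) ^ K)
    {η : ℝ} (hη0 : 0 < η) (hη1 : η ≤ 1 / 10) :
    ∀ᵐ ω ∂μ, ∀ᶠ j : ℕ in atTop, ∃ i : ℕ, i ∈ Finset.Ioc (2 ^ j) (2 ^ (j + 1)) ∧
      (1 - 4 * η) * √(2 * Real.log i * vR W (R i)) ≤ CS μ ℱ A (R i) ω := by
  classical
  have hδ0 : 0 < η / 8 := by positivity
  choose N₀ hN1 hN2 using fun N => exists_start W hδ0 (show (0 : ℝ) < (η / 8) ^ 2 / 8 by positivity) N
  have hl2 : 0 < Real.log 2 := Real.log_pos (by norm_num)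
  have hsumm : ∀ C : ℝ, Summable (fun j : ℕ => 8 * C * (((j + 1 : ℕ) : ℝ) ^ 1 * Real.exp (-(η * Real.log 2)) ^ (j + 1)) +
        10 * Real.exp (-(η / 8 * η * (1 - 3 * η) * Real.log 2)) ^ (j + 1)) := by
    intro C
    apply Summable.add
    · apply Summable.mul_left
      have h1 : Summable (fun n : ℕ => (n : ℝ) ^ 1 * Real.exp (-(η * Real.log 2)) ^ n) := by
        apply summable_pow_mul_geometric_of_norm_lt_one 1
        rw [Real.norm_eq_abs, abs_of_pos (Real.exp_pos _), Real.exp_lt_one_iff]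
        have : 0 < η * Real.log 2 := by positivity
        linarith only [this]
      exact (summable_nat_add_iff 1).2 h1
    · apply Summable.mul_left
      have h1 : Summable (fun n : ℕ => Real.exp (-(η / 8 * η * (1 - 3 * η) * Real.log 2)) ^ n) := by
        apply summable_geometric_of_lt_one (Real.exp_pos _).le
        rw [Real.exp_lt_one_iff]
        have h3η : 0 < 1 - 3 * η := by linarith only [hη1]
        have : 0 < η / 8 * η * (1 - 3 * η) * Real.log 2 := by positivity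
        linarith only [this]
      exact (summable_nat_add_iff 1).2 h1
  have hbc : ∀ N : ℕ, ∀ᵐ ω ∂μ, ∀ᶠ j : ℕ in atTop, ω ∉ Bad μ ℱ A W R η (η / 8) (N₀ N) j := by
    intro N
    obtain ⟨C, _, hC⟩ := Bad_le (μ := μ) (ℱ := ℱ) hA hR hdisj hK hη0 hη1 (hN2 N)
    exact bc_real (μ := μ) (hsumm C) hC
  filter_upwards [ae_all_iff.2 hbc, hd] with ω h1 h2
  obtain ⟨N, hN⟩ := dens_two h2 hδ0
  have hGs : ∀ M, ω ∈ Gs μ ℱ A (rhoW W) (η / 8) (N₀ N) (N₀ N + M) := by
    intro M m hm _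
    exact ⟨(hN _ (hN1 N)).2 m hm, (hN _ (hN1 N)).1 m hm⟩
  have h2j : Tendsto (fun j : ℕ => 2 ^ j) atTop atTop := tendsto_pow_atTop_atTop_of_one_lt (by norm_num)
  obtain ⟨n₁, hn₁⟩ := eventually_atTop.1 (hR.far (N₀ N))
  filter_upwards [h1 N, h2j.eventually_ge_atTop n₁] with j g1 g2
  by_contra hcon
  push Not at hcon
  apply g1
  refine ⟨fun i hi => ?_, hGs _⟩
  have g3 := (Finset.mem_Ioc.1 hi).1
  have g4 : SR μ ℱ A (rhoW W) (η / 8) (R i) (N₀ N) (topB R j) ω = CS μ ℱ A (R i) ω :=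
    SR_CS (fun m hm => ⟨hn₁ i (by omega) m hm, by have := le_topB hi hm; omega⟩) (hGs _)
  rw [g4]
  exact hcon i hi

end Pool.Agent.R291.RMW
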