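import Mathlib
import Pool.Agent.R291.RMW.W3

set_option autoImplicit false
set_option linter.unusedSectionVars false
set_option linter.unusedVariables false

/-! # Counts in windows `(a n, b n]` -/

open MeasureTheory Filter Set
open scoped ENNReal Topology

namespace Pool.Agent.R291.RMW

open Pool.Agent.R528.RM

variable {Ω : Type} {m0 : MeasurableSpace Ω} {μ : Measure Ω} [IsProbabilityMeasure μ]
  {ℱ : Filtration ℕ m0} {A : ℕ → Set Ω}

lemma wd_L_pos {a b : ℕ → ℕ} {κ : ℝ} (h : Wd a b κ) : ∀ᶠ n : ℕ in atTop, 0 < (b n : ℝ) - a n := by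
  filter_upwards [h.long.eventually_gt_atTop 0] with n g4
  by_contra hcon
  have : ((b n : ℝ) - a n) / Real.log n ^ 2 ≤ 0 := div_nonpos_of_nonpos_of_nonneg (not_lt.1 hcon) (by positivity)
  linarith

/-- the law of large numbers in the windows -/
theorem wd_count (hA : ∀ n, MeasurableSet[ℱ n] (A n)) {W : ℕ} (hW : 0 < W)
    (hd : ∀ᵐ ω ∂μ, ∀ ε : ℝ, 0 < ε → ∀ᶠ n : ℕ in atTop, |dens μ ℱ A n ω - rhoW W (n + 1)| ≤ ε * rhoW W (n + 1))
    {a b : ℕ → ℕ} {κ : ℝ} (h : Wd a b κ) :
    ∀ᵐ ω ∂μ, Tendsto (fun n => Ncl A (Finset.Ioc (a n) (b n)) ω / (((b n : ℝ) - a n) / (κ * Real.log n))) atTop (𝓝 1) := by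
  have hκ := h.pos
  have hlim := vR_lim hW h
  have hDpos : ∀ᶠ n : ℕ in atTop, 0 < ((b n : ℝ) - a n) / (κ * Real.log n) := by
    filter_upwards [wd_L_pos h, tendsto_log.eventually_gt_atTop 0] with n g1 g2
    positivity
  filter_upwards [wd_law (μ := μ) (ℱ := ℱ) hA hW hd h, hd] with ω h1 h2
  have hz : Tendsto (fun n => (VS μ ℱ A (Finset.Ioc (a n) (b n)) ω - vR W (Finset.Ioc (a n) (b n))) /
      (((b n : ℝ) - a n) / (κ * Real.log n))) atTop (𝓝 0) := by
    rw [Metric.tendsto_nhds]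
    intro ε hε
    obtain ⟨n₀, hn₀⟩ := eventually_atTop.1 (h2 (ε / 4) (by positivity))
    filter_upwards [(a_top h).eventually_ge_atTop n₀, hlim.eventually (eventually_lt_nhds (show (1 : ℝ) < 2 by norm_num)), hDpos] with n g1 g2 g3
    rw [div_lt_iff₀ g3] at g2
    rw [Real.dist_eq, sub_zero, abs_div, abs_of_pos g3, div_lt_iff₀ g3]
    have g4 : |VS μ ℱ A (Finset.Ioc (a n) (b n)) ω - vR W (Finset.Ioc (a n) (b n))| ≤ ε / 4 * vR W (Finset.Ioc (a n) (b n)) := by
      unfold VS vR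
      rw [← Finset.sum_sub_distrib, Finset.mul_sum]
      refine (Finset.abs_sum_le_sum_abs _ _).trans (Finset.sum_le_sum fun m hm => ?_)
      have g5 := (Finset.mem_Ioc.1 hm).1
      have g6 := hn₀ (m - 1) (by omega)
      rwa [show m - 1 + 1 = m by omega] at g6
    have g5 : ε / 4 * vR W (Finset.Ioc (a n) (b n)) ≤ ε / 4 * (2 * (((b n : ℝ) - a n) / (κ * Real.log n))) :=
      mul_le_mul_of_nonneg_left g2.le (by positivity)
    have g6 : 0 < ε * (((b n : ℝ) - a n) / (κ * Real.log n)) := by positivity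
    linarith only [g4, g5, g6]
  have hc : Tendsto (fun n => CS μ ℱ A (Finset.Ioc (a n) (b n)) ω / (((b n : ℝ) - a n) / (κ * Real.log n))) atTop (𝓝 0) := by
    have hb : Tendsto (fun n : ℕ => √(8 * κ / (((b n : ℝ) - a n) / Real.log n ^ 2))) atTop (𝓝 0) := by
      have := (h.long.const_div_atTop (8 * κ)).sqrt
      rwa [Real.sqrt_zero] at this
    refine squeeze_zero_norm' ?_ hb
    filter_upwards [(h1 1 one_pos).1, wd_L_pos h, tendsto_log.eventually_gt_atTop 0] with n g1 g2 g3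
    have g4 : 0 < ((b n : ℝ) - a n) / (κ * Real.log n) := by positivity
    rw [Real.norm_eq_abs, abs_div, abs_of_pos g4]
    refine (div_le_div_of_nonneg_right g1 g4.le).trans ?_
    apply Real.le_sqrt_of_sq_le
    rw [div_pow, mul_pow, Real.sq_sqrt (by positivity)]
    apply le_of_eq
    field_simp
    ring
  have h3 := (hc.add hz).add hlim
  rw [zero_add, zero_add] at h3
  refine h3.congr fun n => ?_
  rw [CS_eq]
  ring

lemma Ncl_eq (s : Finset ℕ) (ω : Ω) : Ncl A s ω = (Set.ncard {m : ℕ | m ∈ {k | ω ∈ A k} ∧ m ∈ s} : ℝ) := by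
  classical
  have h1 : {m : ℕ | m ∈ {k | ω ∈ A k} ∧ m ∈ s} = ((s.filter (fun m => ω ∈ A m) : Finset ℕ) : Set ℕ) := by
    ext m
    simp only [mem_ofPred_eq, Finset.coe_filter]
    tauto
  rw [h1, Set.ncard_coe_finset, Finset.card_filter]
  unfold Ncl
  push_cast
  refine Finset.sum_congr rfl fun m _ => ?_
  unfold In
  rw [Set.indicator_apply]

/-- logarithms of comparable sequences -/
lemma log_ratio_of_close {a : ℕ → ℕ} {s : ℕ → ℝ} {κ : ℝ} (hs : Tendsto (fun n : ℕ => Real.log (s n) / Real.log n) atTop (𝓝 κ))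
    (h : ∀ᶠ n : ℕ in atTop, 0 < s n ∧ s n / 2 ≤ a n ∧ (a n : ℝ) ≤ 2 * s n) :
    Tendsto (fun n : ℕ => Real.log (a n) / Real.log n) atTop (𝓝 κ) := by
  have h2 : Tendsto (fun n : ℕ => Real.log 2 / Real.log n) atTop (𝓝 0) := tendsto_log.const_div_atTop _
  have hlo := hs.sub h2
  have hup := hs.add h2
  rw [sub_zero] at hlo
  rw [add_zero] at hup
  refine tendsto_of_tendsto_of_tendsto_of_le_of_le' hlo hup ?_ ?_
  · filter_upwards [h, tendsto_log.eventually_gt_atTop 0] with n ⟨g1, g2, g3⟩ g4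
    rw [← sub_div]
    apply div_le_div_of_nonneg_right _ g4.le
    rw [← Real.log_div g1.ne' (by norm_num)]
    exact Real.log_le_log (by positivity) g2
  · filter_upwards [h, tendsto_log.eventually_gt_atTop 0] with n ⟨g1, g2, g3⟩ g4
    rw [← add_div]
    apply div_le_div_of_nonneg_right _ g4.le
    rw [← Real.log_mul g1.ne' (by norm_num)]
    have : (0 : ℝ) < a n := lt_of_lt_of_le (by positivity) g2
    exact Real.log_le_log this (by linarith)

lemma log_pow_ratio (k : ℕ) : Tendsto (fun n : ℕ => Real.log ((n : ℝ) ^ k) / Real.log n) atTop (𝓝 k) := by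
  refine (tendsto_const_nhds (x := (k : ℝ))).congr' ?_
  filter_upwards [tendsto_log.eventually_gt_atTop 0] with n hn
  rw [Real.log_pow]
  field_simp

lemma lin_log_top {c : ℝ} (hc : 0 < c) : Tendsto (fun n : ℕ => c * (n : ℝ) / Real.log n ^ 2) atTop atTop := by
  have h1 : Tendsto (fun n : ℕ => (n : ℝ) / Real.log n ^ 2) atTop atTop := by
    have h2 : Tendsto (fun x : ℝ => x / Real.log x ^ 2) atTop atTop := by
      have h3 := (Real.isLittleO_pow_log_id_atTop (n := 2)).tendsto_div_nhds_zero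
      have h4 : ∀ᶠ x : ℝ in atTop, 0 < Real.log x ^ 2 / id x := by
        filter_upwards [eventually_gt_atTop 1] with x hx
        have := Real.log_pos hx
        have : 0 < x := by linarith
        simp only [id]
        positivity
      have h5 := (tendsto_inv_nhdsGT_zero (𝕜 := ℝ)).comp (tendsto_nhdsWithin_iff.2 ⟨h3, h4⟩)
      refine h5.congr fun x => ?_
      simp only [Function.comp, id]
      rw [inv_div]
    exact h2.comp tendsto_natCast_atTop_atTop
  refine (h1.const_mul_atTop hc).congr fun n => ?_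
  ring

end Pool.Agent.R291.RMW
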