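import Mathlib
import Pool.Agent.R291.RMW.W4

set_option autoImplicit false
set_option linter.unusedSectionVars false
set_option linter.unusedVariables false

/-! # Uniform upper bounds over small families of windows -/

open MeasureTheory Filter Set
open scoped ENNReal Topology

namespace Pool.Agent.R291.RMW

open Pool.Agent.R528.RM

variable {Ω : Type} {m0 : MeasurableSpace Ω} {μ : Measure Ω} [IsProbabilityMeasure μ]
  {ℱ : Filtration ℕ m0} {A : ℕ → Set Ω}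

/-- the tail bound for one window -/
lemma sr_tail2 (hA : ∀ n, MeasurableSet[ℱ n] (A n)) {W : ℕ} {δ η : ℝ} (hδ0 : 0 < δ) (hδ1 : δ ≤ 1) (hη0 : 0 < η)
    (hδη : (1 + δ) ^ 2 ≤ 1 + η) {N : ℕ} (hsm : ∀ m, N ≤ m → (1 + δ) * rhoW W (m + 1) ≤ 1 / 8)
    (R : Finset ℕ) (M : ℕ) {L : ℝ} (hL : 0 < L) (hv1 : 2 / δ ^ 2 * L ≤ vR W R) :
    μ.real {ω | (1 + η) * √(2 * L * vR W R) ≤ |SR μ ℱ A (rhoW W) δ R N M ω|} ≤ 2 * Real.exp (-((1 + η) * L)) := by
  set v : ℝ := vR W R with hv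
  have hv0 : 0 < v := lt_of_lt_of_le (by positivity) hv1
  set θ : ℝ := √(2 * L / v) with hθ
  have hθ0 : 0 < θ := Real.sqrt_pos.2 (by positivity)
  have hθδ : θ ≤ δ := by
    rw [hθ, Real.sqrt_le_left hδ0.le, div_le_iff₀ hv0]
    have := mul_le_mul_of_nonneg_left hv1 (show 0 ≤ δ ^ 2 by positivity)
    have e : δ ^ 2 * (2 / δ ^ 2 * L) = 2 * L := by field_simp
    linarith only [this, e]
  have hθ1 : θ ≤ 1 := hθδ.trans hδ1
  have hθ2 : θ ^ 2 * v = 2 * L := by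
    rw [hθ, Real.sq_sqrt (by positivity)]
    exact div_mul_cancel₀ _ hv0.ne'
  have hθv : θ * v = √(2 * L * v) := by
    have e2 : θ * v = √(2 * L / v * v ^ 2) := by
      rw [Real.sqrt_mul (by positivity), Real.sqrt_sq hv0.le]
    rw [e2]
    congr 1
    field_simp
  set Y : ℝ := 2 * (1 + η) * L with hY
  have hYe : Y = θ * ((1 + η) * (θ * v)) := by
    rw [hY]
    linear_combination -(1 + η) * hθ2
  have hexpb : ∀ t : ℝ, |t| = θ → Real.exp (-Y + t ^ 2 / 2 * (1 + |t|) * ((1 + δ) * ∑ m ∈ R, rhoW W m)) ≤ Real.exp (-((1 + η) * L)) := by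
    intro t ht
    apply Real.exp_le_exp.2
    have e1 : t ^ 2 = θ ^ 2 := by rw [← sq_abs, ht]
    rw [e1, ht]
    have e2 : θ ^ 2 / 2 * (1 + θ) * ((1 + δ) * v) ≤ θ ^ 2 / 2 * (1 + δ) * ((1 + δ) * v) := by
      apply mul_le_mul_of_nonneg_right _ (by positivity)
      apply mul_le_mul_of_nonneg_left _ (by positivity)
      linarith only [hθδ]
    have e3 : θ ^ 2 / 2 * (1 + δ) * ((1 + δ) * v) = (1 + δ) ^ 2 * L := by
      linear_combination ((1 + δ) ^ 2 / 2) * hθ2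
    have e4 : (1 + δ) ^ 2 * L ≤ (1 + η) * L := mul_le_mul_of_nonneg_right hδη (by positivity)
    have e5 : ∑ m ∈ R, rhoW W m = v := rfl
    rw [hY, e5]
    linarith only [e2, e3, e4]
  have t1 := SR_tail (μ := μ) (ℱ := ℱ) (A := A) (N := N) hA (rhoW_nonneg W) hδ0.le hδ1 hsm (θ := θ)
    (by rw [abs_of_pos hθ0]; exact hθ1) R M Y
  have t2 := SR_tail (μ := μ) (ℱ := ℱ) (A := A) (N := N) hA (rhoW_nonneg W) hδ0.le hδ1 hsm (θ := -θ)
    (by rw [abs_neg, abs_of_pos hθ0]; exact hθ1) R M Y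
  have hsub : {ω | (1 + η) * √(2 * L * v) ≤ |SR μ ℱ A (rhoW W) δ R N M ω|} ⊆
      {ω | Y ≤ θ * SR μ ℱ A (rhoW W) δ R N M ω} ∪ {ω | Y ≤ (-θ) * SR μ ℱ A (rhoW W) δ R N M ω} := by
    intro ω hω
    have g1 : (1 + η) * √(2 * L * v) ≤ |SR μ ℱ A (rhoW W) δ R N M ω| := hω
    rw [← hθv] at g1
    rcases le_abs.1 g1 with h | h
    · left
      show Y ≤ _
      rw [hYe]
      exact mul_le_mul_of_nonneg_left h hθ0.le
    · right
      show Y ≤ _
      rw [hYe]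
      have := mul_le_mul_of_nonneg_left h hθ0.le
      linarith only [this]
  refine (measureReal_mono hsub (measure_ne_top _ _)).trans ((measureReal_union_le _ _).trans ?_)
  have u1 := t1.trans (hexpb θ (abs_of_pos hθ0))
  have u2 := t2.trans (hexpb (-θ) (by rw [abs_neg, abs_of_pos hθ0]))
  linarith only [u1, u2]

/-- small families of windows -/
structure Fam (W : ℕ) (R : ℕ → ℕ → Finset ℕ) (G : ℕ → ℕ) : Prop where
  far : ∀ N : ℕ, ∀ᶠ n : ℕ in atTop, ∀ g < G n, ∀ m ∈ R n g, N < m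
  big : ∀ C : ℝ, ∀ᶠ n : ℕ in atTop, ∀ g < G n, C * Real.log n ≤ vR W (R n g)
  small : ∀ ε : ℝ, 0 < ε → ∀ᶠ n : ℕ in atTop, (G n : ℝ) ≤ (n : ℝ) ^ ε

/-- **the uniform upper bound** -/
theorem fam_upper (hA : ∀ n, MeasurableSet[ℱ n] (A n)) {W : ℕ}
    (hd : ∀ᵐ ω ∂μ, ∀ ε : ℝ, 0 < ε → ∀ᶠ n : ℕ in atTop, |dens μ ℱ A n ω - rhoW W (n + 1)| ≤ ε * rhoW W (n + 1))
    {R : ℕ → ℕ → Finset ℕ} {G : ℕ → ℕ} (hR : Fam W R G) {η : ℝ} (hη0 : 0 < η) (hη1 : η ≤ 1) :
    ∀ᵐ ω ∂μ, ∀ᶠ n : ℕ in atTop, ∀ g < G n, |CS μ ℱ A (R n g) ω| < (1 + η) * √(2 * Real.log n * vR W (R n g)) := by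
  classical
  set δ : ℝ := η / 3 with hδ
  have hδ0 : 0 < δ := by positivity
  have hδ1 : δ ≤ 1 := by linarith only [hδ, hη1]
  have hδη : (1 + δ) ^ 2 ≤ 1 + η := by rw [hδ]; nlinarith only [hη0, hη1]
  choose N₀ hN1 hN2 using fun N => exists_start W hδ0 (show (0 : ℝ) < 1 / 8 by norm_num) N
  have htail : ∀ N : ℕ, ∀ᵐ ω ∂μ, ∀ᶠ n : ℕ in atTop,
      ω ∉ ⋃ g ∈ Finset.range (G n), {ω | (1 + η) * √(2 * Real.log n * vR W (R n g)) ≤ |SR μ ℱ A (rhoW W) δ (R n g) (N₀ N) (topR (R n g)) ω|} := by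
    intro N
    apply bc_real (c := fun n : ℕ => 2 * (n : ℝ) ^ (-(1 + η / 2))) ((summable_pow_nat (by linarith)).mul_left 2)
    filter_upwards [hR.big (2 / δ ^ 2), ev_log 1, eventually_gt_atTop 1, hR.small (η / 2) (by positivity)] with n h1 h2 h3 h4
    have hn : (1 : ℝ) < n := by exact_mod_cast h3
    have hnp : (0 : ℝ) < n := by linarith only [hn]
    have hln : 0 < Real.log (n : ℝ) := Real.log_pos hn
    refine (measureReal_biUnion_finset_le _ _).trans ?_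
    have h5 : ∀ g ∈ Finset.range (G n), μ.real {ω | (1 + η) * √(2 * Real.log n * vR W (R n g)) ≤ |SR μ ℱ A (rhoW W) δ (R n g) (N₀ N) (topR (R n g)) ω|} ≤
        2 * (n : ℝ) ^ (-(1 + η)) := by
      intro g hg
      have := sr_tail2 (μ := μ) (ℱ := ℱ) hA hδ0 hδ1 hη0 hδη (hN2 N) (R n g) (topR (R n g)) hln (h1 g (Finset.mem_range.1 hg))
      refine this.trans (le_of_eq ?_)
      rw [Real.rpow_def_of_pos hnp]
      congr 2
      ring
    refine (Finset.sum_le_sum h5).trans ?_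
    rw [Finset.sum_const, Finset.card_range, nsmul_eq_mul]
    have h6 : (G n : ℝ) * (2 * (n : ℝ) ^ (-(1 + η))) ≤ (n : ℝ) ^ (η / 2) * (2 * (n : ℝ) ^ (-(1 + η))) :=
      mul_le_mul_of_nonneg_right h4 (by positivity)
    refine h6.trans (le_of_eq ?_)
    have h7 : (n : ℝ) ^ (-(1 + η / 2)) = (n : ℝ) ^ (η / 2) * (n : ℝ) ^ (-(1 + η)) := by
      rw [← Real.rpow_add hnp]
      congr 1
      ring
    rw [h7]
    ring
  filter_upwards [ae_all_iff.2 htail, hd] with ω h1 h2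
  obtain ⟨N, hN⟩ := dens_two h2 hδ0
  have hGs : ∀ M, ω ∈ Gs μ ℱ A (rhoW W) δ (N₀ N) (N₀ N + M) := by
    intro M m hm _
    exact ⟨(hN _ (hN1 N)).2 m hm, (hN _ (hN1 N)).1 m hm⟩
  filter_upwards [h1 N, hR.far (N₀ N)] with n g1 g2 g hg
  have g3 : SR μ ℱ A (rhoW W) δ (R n g) (N₀ N) (topR (R n g)) ω = CS μ ℱ A (R n g) ω :=
    SR_CS (fun m hm => ⟨g2 g hg m hm, by have := le_topR hm; omega⟩) (hGs _)
  by_contra hcon
  push Not at hcon
  apply g1
  refine mem_biUnion (Finset.mem_coe.2 (Finset.mem_range.2 hg)) ?_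
  show (1 + η) * √(2 * Real.log n * vR W (R n g)) ≤ |SR μ ℱ A (rhoW W) δ (R n g) (N₀ N) (topR (R n g)) ω|
  rw [g3]
  exact hcon

/-! ### windows between squares -/

/-- the integers strictly between `s²` and `t²` -/
def sqw (s t : ℕ) : Finset ℕ := Finset.Ioc (s ^ 2) (t ^ 2 - 1)

/-- the means of the windows between nearby squares -/
lemma sqw_mean {W : ℕ} (hW : 0 < W) (K : ℕ) {ε : ℝ} (hε0 : 0 < ε) (hε1 : ε ≤ 1) :
    ∀ᶠ s : ℕ in atTop, ∀ t : ℕ, s < t → (t : ℝ) ≤ s + Real.log s ^ K →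
      (1 - ε) * (((t : ℝ) ^ 2 - (s : ℝ) ^ 2) / (2 * Real.log s)) ≤ vR W (sqw s t) ∧
      vR W (sqw s t) ≤ (1 + ε) * (((t : ℝ) ^ 2 - (s : ℝ) ^ 2) / (2 * Real.log s)) := by
  have h1 : ∀ᶠ s : ℕ in atTop, Real.log (s : ℝ) ^ K ≤ s := by
    have h3 := (Real.isLittleO_pow_log_id_atTop (n := K)).def (show (0 : ℝ) < 1 by norm_num)
    have h4 : ∀ᶠ x : ℝ in atTop, Real.log x ^ K ≤ x := by
      filter_upwards [h3, eventually_ge_atTop 1] with x h3 h6
      rw [Real.norm_of_nonneg (by have := Real.log_nonneg h6; positivity), id, Real.norm_of_nonneg (by linarith)] at h3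
      linarith
    exact tendsto_natCast_atTop_atTop.eventually h4
  have hW' : (1 : ℝ) ≤ W := by exact_mod_cast hW
  filter_upwards [h1, ev_log (4 / ε), ev_log ((W : ℝ) / Nat.totient W), eventually_ge_atTop (⌈8 * (W : ℝ) / ε⌉₊ + 4)] with s g1 g2 g3 g4 t hst ht
  have hs : 8 * (W : ℝ) / ε ≤ s := by
    have := Nat.le_ceil (8 * (W : ℝ) / ε)
    have : ((⌈8 * (W : ℝ) / ε⌉₊ + 4 : ℕ) : ℝ) ≤ s := by exact_mod_cast g4
    push_cast at this
    linarith
  have hs4 : 4 ≤ s := by omega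
  have hs4' : (4 : ℝ) ≤ s := by exact_mod_cast hs4
  have hsp : (0 : ℝ) < s := by linarith
  have hst' : (s : ℝ) + 1 ≤ t := by exact_mod_cast hst
  have hts : (t : ℝ) ≤ 2 * s := by linarith
  have hls : 0 < Real.log (s : ℝ) := lt_of_lt_of_le (by positivity) g2
  have hle : s ^ 2 ≤ t ^ 2 - 1 := by
    have : (s + 1) ^ 2 ≤ t ^ 2 := Nat.pow_le_pow_left (by omega) 2
    have e : (s + 1) ^ 2 = s ^ 2 + 2 * s + 1 := by ring
    omega
  have ht1 : 1 ≤ t ^ 2 := by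
    have : 1 ≤ t := by omega
    nlinarith
  have hcast : ((t ^ 2 - 1 : ℕ) : ℝ) = (t : ℝ) ^ 2 - 1 := by
    rw [Nat.cast_sub ht1]
    push_cast
    ring
  have hlogs : Real.log ((s ^ 2 : ℕ) : ℝ) = 2 * Real.log s := by
    push_cast
    rw [Real.log_pow]
    norm_num
  have k := rho_cls1 (W := W) (q := 1) (a := 0) (s := s ^ 2) (t := t ^ 2 - 1) hW one_pos (zero_mem_adm_one W) hle (by
    rw [hlogs]; linarith) (by nlinarith)
  rw [adm_one, ← vR_cls, hlogs, hcast] at k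
  push_cast at k
  have hD : 2 * (s : ℝ) + 1 ≤ (t : ℝ) ^ 2 - (s : ℝ) ^ 2 := by nlinarith
  set D : ℝ := (t : ℝ) ^ 2 - (s : ℝ) ^ 2 with hDd
  have hDp : 0 < D := by linarith
  rw [div_le_iff₀ hε0] at hs
  have hWD : 2 * (W : ℝ) + 1 ≤ ε / 2 * D := by nlinarith
  unfold sqw
  constructor
  · refine le_trans ?_ k.1
    have hlt : Real.log ((t : ℝ) ^ 2 - 1) ≤ 2 * Real.log s + 2 := by
      have e1 : Real.log ((t : ℝ) ^ 2 - 1) ≤ Real.log ((2 * (s : ℝ)) ^ 2) := by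
        apply Real.log_le_log
        · nlinarith
        · nlinarith
      rw [Real.log_pow, Real.log_mul (by norm_num) hsp.ne'] at e1
      have := Real.log_two_lt_d9
      push_cast at e1
      linarith
    have hlt0 : 0 < Real.log ((t : ℝ) ^ 2 - 1) := Real.log_pos (by nlinarith)
    rw [mul_div_assoc', div_le_div_iff₀ (by positivity) (by positivity), one_mul]
    have e2 : (1 - ε) * D * Real.log ((t : ℝ) ^ 2 - 1) ≤ (1 - ε) * D * (2 * Real.log s + 2) :=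
      mul_le_mul_of_nonneg_left hlt (mul_nonneg (by linarith) hDp.le)
    have e3 : (D - ε / 2 * D) * (2 * Real.log s) ≤ ((t : ℝ) ^ 2 - 1 - (s : ℝ) ^ 2 - 2 * (1 * W)) * (2 * Real.log s) := by
      apply mul_le_mul_of_nonneg_right _ (by positivity)
      rw [hDd] at hWD ⊢
      linarith
    rw [div_le_iff₀ hε0] at g2
    have e4 : (1 - ε) * D * 2 ≤ ε / 2 * D * (2 * Real.log s) := by
      have f1 := mul_le_mul_of_nonneg_right g2 hDp.le
      nlinarith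
    nlinarith
  · refine k.2.trans ?_
    rw [one_mul, one_mul, mul_div_assoc']
    apply div_le_div_of_nonneg_right _ (by positivity)
    rw [hDd] at hWD ⊢
    linarith

/-- the family of the windows between nearby squares -/
lemma sqw_fam {W : ℕ} (hW : 0 < W) (K : ℕ) : Fam W (fun s g => sqw s (s + g + 1)) (fun s => ⌊Real.log s ^ K⌋₊) := by
  have hmean := sqw_mean hW K (show (0 : ℝ) < 1 / 2 by norm_num) (by norm_num)
  have hgt : ∀ s g : ℕ, g < ⌊Real.log (s : ℝ) ^ K⌋₊ → ((s + g + 1 : ℕ) : ℝ) ≤ s + Real.log s ^ K := by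
    intro s g hg
    have h1 : ((g + 1 : ℕ) : ℝ) ≤ Real.log (s : ℝ) ^ K := by
      have h0 : 0 ≤ Real.log (s : ℝ) ^ K := by
        have := Real.log_natCast_nonneg s
        positivity
      exact (Nat.le_floor_iff h0).1 hg
    push_cast at h1 ⊢
    linarith
  refine ⟨fun N => ?_, fun C => ?_, fun ε hε => ?_⟩
  · filter_upwards [eventually_ge_atTop (N + 1)] with s hs g hg m hm
    have := (Finset.mem_Ioc.1 hm).1
    nlinarith
  · have h1 : ∀ᶠ s : ℕ in atTop, 4 * C * Real.log (s : ℝ) ^ 2 ≤ s := by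
      have := (lin_log_top (one_pos)).eventually_ge_atTop (4 * C)
      filter_upwards [this, ev_log 1] with s h1 h2
      rw [le_div_iff₀ (by positivity)] at h1
      linarith
    filter_upwards [hmean, h1, ev_log 1, eventually_ge_atTop 1] with s g1 g2 g3 g4 g hg
    have k1 := (g1 (s + g + 1) (by omega) (hgt s g hg)).1
    refine le_trans ?_ k1
    have hs1 : (1 : ℝ) ≤ s := by exact_mod_cast g4
    have hl : 0 < Real.log (s : ℝ) := by linarith
    have hD : 2 * (s : ℝ) ≤ ((s + g + 1 : ℕ) : ℝ) ^ 2 - (s : ℝ) ^ 2 := by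
      push_cast
      have : (0 : ℝ) ≤ g := Nat.cast_nonneg _
      nlinarith
    have e1 : (1 - 1 / 2 : ℝ) * (2 * s / (2 * Real.log s)) ≤ (1 - 1 / 2) * ((((s + g + 1 : ℕ) : ℝ) ^ 2 - (s : ℝ) ^ 2) / (2 * Real.log s)) := by
      apply mul_le_mul_of_nonneg_left _ (by norm_num)
      exact div_le_div_of_nonneg_right hD (by positivity)
    refine le_trans ?_ e1
    have e2 : (1 - 1 / 2 : ℝ) * (2 * s / (2 * Real.log s)) = s / (2 * Real.log s) := by
      field_simp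
      ring
    rw [e2, le_div_iff₀ (by positivity)]
    nlinarith
  · have h3 := (isLittleO_log_rpow_rpow_atTop (K : ℝ) hε).def (show (0 : ℝ) < 1 by norm_num)
    have h4 : ∀ᶠ x : ℝ in atTop, Real.log x ^ K ≤ x ^ ε := by
      filter_upwards [h3, eventually_ge_atTop 1] with x h3 h6
      have := Real.log_nonneg h6
      rw [Real.rpow_natCast, Real.norm_of_nonneg (by positivity), Real.norm_of_nonneg (by positivity)] at h3
      linarith
    filter_upwards [tendsto_natCast_atTop_atTop.eventually h4] with s hs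
    have h0 : 0 ≤ Real.log (s : ℝ) ^ K := by
      have := Real.log_natCast_nonneg s
      positivity
    exact (Nat.floor_le h0).trans hs

/-- **the uniform upper bound between nearby squares** -/
theorem sq_upper (hA : ∀ n, MeasurableSet[ℱ n] (A n)) {W : ℕ} (hW : 0 < W)
    (hd : ∀ᵐ ω ∂μ, ∀ ε : ℝ, 0 < ε → ∀ᶠ n : ℕ in atTop, |dens μ ℱ A n ω - rhoW W (n + 1)| ≤ ε * rhoW W (n + 1)) (K : ℕ) :
    ∀ᵐ ω ∂μ, ∀ ε : ℝ, 0 < ε → ∀ᶠ s : ℕ in atTop, ∀ t : ℕ, s < t → (t : ℝ) ≤ s + Real.log s ^ K →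
      |CS μ ℱ A (sqw s t) ω| ≤ (1 + ε) * √((t : ℝ) ^ 2 - (s : ℝ) ^ 2) := by
  have hup : ∀ k : ℕ, ∀ᵐ ω ∂μ, ∀ᶠ s : ℕ in atTop, ∀ g < ⌊Real.log (s : ℝ) ^ K⌋₊,
      |CS μ ℱ A (sqw s (s + g + 1)) ω| < (1 + 1 / ((k : ℝ) + 1)) * √(2 * Real.log s * vR W (sqw s (s + g + 1))) :=
    fun k => fam_upper (μ := μ) (ℱ := ℱ) hA hd (sqw_fam hW K) (by positivity) (by
      rw [div_le_one (by positivity)]
      have : (0 : ℝ) ≤ k := Nat.cast_nonneg _
      linarith)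
  filter_upwards [ae_all_iff.2 hup] with ω h1 ε hε
  set η : ℝ := min (ε / 4) 1 with hη
  have hη0 : 0 < η := lt_min (by positivity) one_pos
  have hη1 : η ≤ 1 := min_le_right _ _
  have hηε : 4 * η ≤ ε := by
    have : η ≤ ε / 4 := min_le_left _ _
    linarith
  obtain ⟨k, hk⟩ := exists_nat_gt (1 / η)
  have hk1 : 1 / ((k : ℝ) + 1) ≤ η := by
    rw [div_le_iff₀ (by positivity)]
    rw [div_lt_iff₀ hη0] at hk
    nlinarith only [hk, hη0]
  filter_upwards [h1 k, sqw_mean hW K hη0 hη1, ev_log 1] with s g1 g2 g3 t hst ht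
  have hs0 : 0 ≤ Real.log (s : ℝ) ^ K := by positivity
  have hg : t - s - 1 < ⌊Real.log (s : ℝ) ^ K⌋₊ := by
    apply (Nat.le_floor_iff hs0).2
    have : ((t - s - 1 + 1 : ℕ) : ℝ) = (t : ℝ) - s := by
      rw [show t - s - 1 + 1 = t - s by omega, Nat.cast_sub hst.le]
    show ((t - s - 1 + 1 : ℕ) : ℝ) ≤ _
    rw [this]
    linarith
  have k1 := g1 (t - s - 1) hg
  rw [show s + (t - s - 1) + 1 = t by omega] at k1
  refine k1.le.trans ?_
  have hD : 0 ≤ (t : ℝ) ^ 2 - (s : ℝ) ^ 2 := by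
    have : (s : ℝ) ≤ t := by exact_mod_cast hst.le
    have : (0 : ℝ) ≤ s := Nat.cast_nonneg _
    nlinarith
  have hl : 0 < Real.log (s : ℝ) := by linarith
  have e1 : √(2 * Real.log s * vR W (sqw s t)) ≤ (1 + η) * √((t : ℝ) ^ 2 - (s : ℝ) ^ 2) := by
    rw [Real.sqrt_le_left (by positivity), mul_pow, Real.sq_sqrt hD]
    have e2 := mul_le_mul_of_nonneg_left (g2 t hst ht).2 (show 0 ≤ 2 * Real.log (s : ℝ) by positivity)
    have e3 : 2 * Real.log s * ((1 + η) * (((t : ℝ) ^ 2 - (s : ℝ) ^ 2) / (2 * Real.log s))) = (1 + η) * ((t : ℝ) ^ 2 - (s : ℝ) ^ 2) := by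
      field_simp
    rw [e3] at e2
    refine e2.trans ?_
    apply mul_le_mul_of_nonneg_right _ hD
    nlinarith
  calc (1 + 1 / ((k : ℝ) + 1)) * √(2 * Real.log s * vR W (sqw s t)) ≤ (1 + η) * ((1 + η) * √((t : ℝ) ^ 2 - (s : ℝ) ^ 2)) :=
        mul_le_mul (by linarith only [hk1]) e1 (Real.sqrt_nonneg _) (by linarith only [hη0])
    _ = ((1 + η) * (1 + η)) * √((t : ℝ) ^ 2 - (s : ℝ) ^ 2) := by ring
    _ ≤ (1 + ε) * √((t : ℝ) ^ 2 - (s : ℝ) ^ 2) := by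
        apply mul_le_mul_of_nonneg_right _ (Real.sqrt_nonneg _)
        nlinarith only [hη0, hη1, hηε]

end Pool.Agent.R291.RMW
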