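import Mathlib
import Pool.Agent.R291.RMW.W5
import Pool.Agent.R528.RM.Final

set_option autoImplicit false
set_option linter.unusedSectionVars false
set_option linter.unusedVariables false

/-! # Uniform law of large numbers in all windows of length at least `log³` -/

open MeasureTheory Filter Set
open scoped ENNReal Topology

namespace Pool.Agent.R291.RMW

open Pool.Agent.R528.RM

variable {Ω : Type} {m0 : MeasurableSpace Ω} {μ : Measure Ω} [IsProbabilityMeasure μ]
  {ℱ : Filtration ℕ m0} {A : ℕ → Set Ω}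

/-- the means of all long windows -/
lemma long_mean {W : ℕ} (hW : 0 < W) {ε : ℝ} (hε0 : 0 < ε) (hε1 : ε ≤ 1) :
    ∀ᶠ n : ℕ in atTop, ∀ H : ℕ, Real.log n ^ 3 ≤ H → H ≤ n →
      (1 - ε) * (H / Real.log n) ≤ vR W (Finset.Ioc n (n + H)) ∧ vR W (Finset.Ioc n (n + H)) ≤ (1 + ε) * (H / Real.log n) := by
  have hW' : (1 : ℝ) ≤ W := by exact_mod_cast hW
  filter_upwards [ev_log ((W : ℝ) / Nat.totient W), ev_log (8 * W / ε), eventually_ge_atTop 3] with n g1 g2 g3 H h1 h2
  have hn : (3 : ℝ) ≤ n := by exact_mod_cast g3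
  have hH : (H : ℝ) ≤ n := by exact_mod_cast h2
  set L := Real.log (n : ℝ) with hL
  have hL8 : 8 ≤ L := by
    refine le_trans ?_ g2
    rw [le_div_iff₀ hε0]
    nlinarith
  have hL0 : 0 < L := by linarith
  have hHL : 8 * (W : ℝ) / ε ≤ H := by
    refine g2.trans (le_trans ?_ h1)
    nlinarith [sq_nonneg L]
  rw [div_le_iff₀ hε0] at hHL g2
  have k := rho_cls1 (W := W) (q := 1) (a := 0) (s := n) (t := n + H) hW one_pos (zero_mem_adm_one W) (by omega) g1 (by omega)
  rw [adm_one, ← vR_cls] at k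
  push_cast at k
  have e0 : (n : ℝ) + H - n = H := by ring
  rw [e0, one_mul, one_mul, one_mul] at k
  have hl2 : Real.log ((n : ℝ) + H) ≤ L + 1 := by
    have := Real.log_le_log (by positivity) (show (n : ℝ) + H ≤ 2 * n by linarith)
    rw [Real.log_mul (by norm_num) (by positivity)] at this
    have := Real.log_two_lt_d9
    linarith
  have hl3 : 0 < Real.log ((n : ℝ) + H) := Real.log_pos (by have : (0 : ℝ) ≤ H := Nat.cast_nonneg _; linarith)
  have hH0 : (0 : ℝ) ≤ H := Nat.cast_nonneg _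
  constructor
  · refine le_trans ?_ k.1
    rw [mul_div_assoc', div_le_div_iff₀ hL0 hl3]
    have e1 : (1 - ε) * H * Real.log ((n : ℝ) + H) ≤ (1 - ε) * H * (L + 1) :=
      mul_le_mul_of_nonneg_left hl2 (mul_nonneg (by linarith) hH0)
    have e2 : (1 - ε / 4) * H * L ≤ (H - 2 * W) * L := by
      apply mul_le_mul_of_nonneg_right _ hL0.le
      linarith
    have e3 : (1 - ε) * H * (L + 1) ≤ (1 - ε / 4) * H * L := by
      have e4 : (H : ℝ) ≤ ε / 8 * (H * L) := by nlinarith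
      nlinarith
    linarith
  · refine k.2.trans ?_
    rw [mul_div_assoc']
    apply div_le_div_of_nonneg_right _ hL0.le
    linarith

/-- the centered counts of all long windows -/
theorem long_upper (hA : ∀ n, MeasurableSet[ℱ n] (A n)) {W : ℕ} (hW : 0 < W)
    (hd : ∀ᵐ ω ∂μ, ∀ ε : ℝ, 0 < ε → ∀ᶠ n : ℕ in atTop, |dens μ ℱ A n ω - rhoW W (n + 1)| ≤ ε * rhoW W (n + 1)) :
    ∀ᵐ ω ∂μ, ∀ᶠ n : ℕ in atTop, ∀ H : ℕ, Real.log n ^ 3 ≤ H → H ≤ n →
      |CS μ ℱ A (Finset.Ioc n (n + H)) ω| < (1 + 1) * √(2 * (3 * Real.log n) * vR W (Finset.Ioc n (n + H))) := by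
  classical
  have hδ0 : (0 : ℝ) < 1 / 3 := by norm_num
  choose N₀ hN1 hN2 using fun N => exists_start W hδ0 (show (0 : ℝ) < 1 / 8 by norm_num) N
  have hmean := long_mean hW (show (0 : ℝ) < 1 / 2 by norm_num) (by norm_num)
  have htail : ∀ N : ℕ, ∀ᵐ ω ∂μ, ∀ᶠ n : ℕ in atTop,
      ω ∉ ⋃ H ∈ (Finset.range (n + 1)).filter (fun H : ℕ => Real.log n ^ 3 ≤ H),
        {ω | (1 + 1) * √(2 * (3 * Real.log n) * vR W (Finset.Ioc n (n + H))) ≤ |SR μ ℱ A (rhoW W) (1 / 3) (Finset.Ioc n (n + H)) (N₀ N) (n + H) ω|} := by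
    intro N
    apply bc_real (c := fun n : ℕ => 4 * (n : ℝ) ^ (-5 : ℝ)) ((summable_pow_nat (by norm_num)).mul_left 4)
    filter_upwards [hmean, ev_log 110, eventually_gt_atTop 1] with n h1 h2 h3
    have hn : (1 : ℝ) < n := by exact_mod_cast h3
    have hnp : (0 : ℝ) < n := by linarith only [hn]
    have hln : 0 < Real.log (n : ℝ) := Real.log_pos hn
    refine (measureReal_biUnion_finset_le _ _).trans ?_
    have h5 : ∀ H ∈ (Finset.range (n + 1)).filter (fun H : ℕ => Real.log n ^ 3 ≤ H),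
        μ.real {ω | (1 + 1) * √(2 * (3 * Real.log n) * vR W (Finset.Ioc n (n + H))) ≤ |SR μ ℱ A (rhoW W) (1 / 3) (Finset.Ioc n (n + H)) (N₀ N) (n + H) ω|} ≤
        2 * (n : ℝ) ^ (-6 : ℝ) := by
      intro H hH
      obtain ⟨a1, a2⟩ := Finset.mem_filter.1 hH
      have a3 := Finset.mem_range.1 a1
      have a4 := (h1 H a2 (by omega)).1
      have := sr_tail2 (μ := μ) (ℱ := ℱ) hA hδ0 (by norm_num) one_pos (by norm_num) (hN2 N) (Finset.Ioc n (n + H)) (n + H)
        (show 0 < 3 * Real.log (n : ℝ) by positivity) (by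
          refine le_trans ?_ a4
          have e1 : Real.log (n : ℝ) ^ 2 ≤ (H : ℝ) / Real.log n := by
            rw [le_div_iff₀ hln]
            refine le_trans (le_of_eq ?_) a2
            ring
          nlinarith)
      refine this.trans (le_of_eq ?_)
      rw [Real.rpow_def_of_pos hnp]
      congr 2
      ring
    refine (Finset.sum_le_sum h5).trans ?_
    rw [Finset.sum_const, nsmul_eq_mul]
    have h6 : ((((Finset.range (n + 1)).filter (fun H : ℕ => Real.log n ^ 3 ≤ H)).card : ℕ) : ℝ) ≤ 2 * n := by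
      have e1 := Finset.card_filter_le (Finset.range (n + 1)) (fun H : ℕ => Real.log n ^ 3 ≤ H)
      rw [Finset.card_range] at e1
      have e2 : ((((Finset.range (n + 1)).filter (fun H : ℕ => Real.log n ^ 3 ≤ H)).card : ℕ) : ℝ) ≤ ((n + 1 : ℕ) : ℝ) := by exact_mod_cast e1
      push_cast at e2
      linarith
    have h7 : (n : ℝ) ^ (-5 : ℝ) = n * (n : ℝ) ^ (-6 : ℝ) := by
      have := Real.rpow_add hnp 1 (-6)
      rw [Real.rpow_one] at this
      rw [← this]
      norm_num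
    rw [h7]
    have h8 : 0 ≤ (n : ℝ) ^ (-6 : ℝ) := by positivity
    have := mul_le_mul_of_nonneg_right h6 (show 0 ≤ 2 * (n : ℝ) ^ (-6 : ℝ) by positivity)
    linarith
  filter_upwards [ae_all_iff.2 htail, hd] with ω h1 h2
  obtain ⟨N, hN⟩ := dens_two h2 hδ0
  have hGs : ∀ M, ω ∈ Gs μ ℱ A (rhoW W) (1 / 3) (N₀ N) (N₀ N + M) := by
    intro M m hm _
    exact ⟨(hN _ (hN1 N)).2 m hm, (hN _ (hN1 N)).1 m hm⟩
  filter_upwards [h1 N, eventually_ge_atTop (N₀ N)] with n g1 g2 H hH hHn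
  have g3 : SR μ ℱ A (rhoW W) (1 / 3) (Finset.Ioc n (n + H)) (N₀ N) (n + H) ω = CS μ ℱ A (Finset.Ioc n (n + H)) ω :=
    SR_CS (fun m hm => by have := Finset.mem_Ioc.1 hm; omega) (hGs _)
  by_contra hcon
  push Not at hcon
  apply g1
  refine mem_biUnion (Finset.mem_coe.2 (Finset.mem_filter.2 ⟨Finset.mem_range.2 (show H < n + 1 by omega), hH⟩)) ?_
  show (1 + 1) * √(2 * (3 * Real.log n) * vR W (Finset.Ioc n (n + H))) ≤ |SR μ ℱ A (rhoW W) (1 / 3) (Finset.Ioc n (n + H)) (N₀ N) (n + H) ω|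
  rw [g3]
  exact hcon

/-- **the uniform law of large numbers** -/
theorem long_count (hA : ∀ n, MeasurableSet[ℱ n] (A n)) {W : ℕ} (hW : 0 < W)
    (hd : ∀ᵐ ω ∂μ, ∀ ε : ℝ, 0 < ε → ∀ᶠ n : ℕ in atTop, |dens μ ℱ A n ω - rhoW W (n + 1)| ≤ ε * rhoW W (n + 1)) :
    ∀ᵐ ω ∂μ, ∀ ε : ℝ, 0 < ε → ∀ᶠ n : ℕ in atTop, ∀ H : ℕ, Real.log n ^ 3 ≤ H → H ≤ n →
      |Ncl A (Finset.Ioc n (n + H)) ω - H / Real.log n| ≤ ε * (H / Real.log n) := by
  filter_upwards [long_upper (μ := μ) (ℱ := ℱ) hA hW hd, hd] with ω h1 h2 ε hε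
  set η : ℝ := min (ε / 4) 1 with hη
  have hη0 : 0 < η := lt_min (by positivity) one_pos
  have hη1 : η ≤ 1 := min_le_right _ _
  have hηε : 4 * η ≤ ε := by
    have : η ≤ ε / 4 := min_le_left _ _
    linarith
  obtain ⟨n₀, hn₀⟩ := eventually_atTop.1 (h2 η hη0)
  filter_upwards [h1, long_mean hW hη0 hη1, ev_log (48 / η ^ 2), ev_log 1, eventually_ge_atTop n₀] with n g1 g2 g3 g4 g5 H hH hHn
  set L := Real.log (n : ℝ) with hL
  have hL0 : 0 < L := by linarith
  obtain ⟨k1, k2⟩ := g2 H hH hHn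
  set E : ℝ := H / L with hE
  have hEL : L ^ 2 ≤ E := by
    rw [hE, le_div_iff₀ hL0]
    refine le_trans (le_of_eq ?_) hH
    ring
  have hE0 : 0 < E := lt_of_lt_of_le (by positivity) hEL
  have hVS : |VS μ ℱ A (Finset.Ioc n (n + H)) ω - vR W (Finset.Ioc n (n + H))| ≤ η * vR W (Finset.Ioc n (n + H)) := by
    unfold VS vR
    rw [← Finset.sum_sub_distrib, Finset.mul_sum]
    refine (Finset.abs_sum_le_sum_abs _ _).trans (Finset.sum_le_sum fun m hm => ?_)
    have g6 := (Finset.mem_Ioc.1 hm).1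
    have g8 := hn₀ (m - 1) (by omega)
    rwa [show m - 1 + 1 = m by omega] at g8
  have hCS : |CS μ ℱ A (Finset.Ioc n (n + H)) ω| ≤ η * E := by
    refine (g1 H hH hHn).le.trans ?_
    have e1 : √(2 * (3 * L) * vR W (Finset.Ioc n (n + H))) ≤ η / 2 * E := by
      rw [Real.sqrt_le_left (by positivity)]
      have e2 : 2 * (3 * L) * vR W (Finset.Ioc n (n + H)) ≤ 2 * (3 * L) * (2 * E) := by
        apply mul_le_mul_of_nonneg_left _ (by positivity)
        refine k2.trans ?_
        apply mul_le_mul_of_nonneg_right _ hE0.le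
        linarith
      refine e2.trans ?_
      have e3 : 12 * L ≤ η ^ 2 / 4 * E := by
        have e4 : 48 / η ^ 2 * L ≤ E := by
          refine le_trans ?_ hEL
          nlinarith
        have := mul_le_mul_of_nonneg_left e4 (show 0 ≤ η ^ 2 / 4 by positivity)
        have e : η ^ 2 / 4 * (48 / η ^ 2 * L) = 12 * L := by
          field_simp
          norm_num
        linarith
      have := mul_le_mul_of_nonneg_right e3 hE0.le
      nlinarith
    linarith
  have h6 : Ncl A (Finset.Ioc n (n + H)) ω = CS μ ℱ A (Finset.Ioc n (n + H)) ω + VS μ ℱ A (Finset.Ioc n (n + H)) ω := by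
    rw [CS_eq]
    ring
  have h7 : η * vR W (Finset.Ioc n (n + H)) ≤ η * (2 * E) := by
    apply mul_le_mul_of_nonneg_left _ hη0.le
    refine k2.trans ?_
    apply mul_le_mul_of_nonneg_right _ hE0.le
    linarith
  rw [h6]
  have a1 := abs_le.1 hCS
  have a2 := abs_le.1 hVS
  have a3 : 4 * (η * E) ≤ ε * E := by nlinarith
  rw [abs_le]
  constructor
  · nlinarith [a1.1, a2.1]
  · nlinarith [a1.2, a2.2]

/-- the windows `(⌊√n⌋, n]` -/
lemma root_win {W : ℕ} (hW : 0 < W) : Win W (fun n => Finset.Ioc (Nat.sqrt n) n) ∧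
    Tendsto (fun n : ℕ => vR W (Finset.Ioc (Nat.sqrt n) n) / (n / Real.log n)) atTop (𝓝 1) := by
  have hW' : (1 : ℝ) ≤ W := by exact_mod_cast hW
  have hsq : Tendsto Nat.sqrt atTop atTop := by
    refine tendsto_atTop.2 fun N => ?_
    filter_upwards [eventually_ge_atTop (N * N)] with n hn
    exact Nat.le_sqrt.2 hn
  obtain ⟨N₁, _, hN1, hN⟩ := exists_N₁ W 0
  have hlim : Tendsto (fun n : ℕ => vR W (Finset.Ioc (Nat.sqrt n) n) / (n / Real.log n)) atTop (𝓝 1) := by
    rw [Metric.tendsto_nhds]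
    intro ε hε
    set η : ℝ := min (ε / 4) 1 with hη
    have hη0 : 0 < η := lt_min (by positivity) one_pos
    have hη1 : η ≤ 1 := min_le_right _ _
    have hηε : 4 * η ≤ ε := by
      have : η ≤ ε / 4 := min_le_left _ _
      linarith
    have hroot : ∀ᶠ n : ℕ in atTop, (Nat.sqrt n : ℝ) + 2 * W ≤ η * n := by
      have h1 := ev_pow (a := 1 / 2) (b := 1) (by norm_num) ((2 * W + 1) / η)
      filter_upwards [h1, ev_log 0, eventually_ge_atTop 1] with n g1 g2 g3
      have hn : (1 : ℝ) ≤ n := by exact_mod_cast g3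
      rw [Real.rpow_one, ← Real.sqrt_eq_rpow] at g1
      have h2 : (Nat.sqrt n : ℝ) ≤ √(n : ℝ) := Real.nat_sqrt_le_real_sqrt
      have h3 : 1 ≤ √(n : ℝ) := Real.one_le_sqrt.2 hn
      have h4 : (2 * (W : ℝ) + 1) / η * 1 * √(n : ℝ) ≤ (2 * W + 1) / η * (Real.log n + 1) * √(n : ℝ) := by
        apply mul_le_mul_of_nonneg_right _ (by positivity)
        apply mul_le_mul_of_nonneg_left (by linarith) (by positivity)
      have h5 : (2 * (W : ℝ) + 1) / η * √(n : ℝ) ≤ n := by linarith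
      rw [div_mul_eq_mul_div, div_le_iff₀ hη0] at h5
      nlinarith
    filter_upwards [v_bounds hW (show (0 : ℝ) < 1 by norm_num) hη0 hη1 N₁ hN hN1, hroot, hsq.eventually_ge_atTop N₁, ev_log 1,
      eventually_ge_atTop 1] with n g1 g2 g3 g4 g5
    have hn : (1 : ℝ) ≤ n := by exact_mod_cast g5
    have hL0 : 0 < Real.log (n : ℝ) := by linarith
    have hE : 0 < (n : ℝ) / Real.log n := by positivity
    have hsn : Nat.sqrt n ≤ n := Nat.sqrt_le_self n
    have k1 := rho_cls1 (W := W) (q := 1) (a := 0) (s := Nat.sqrt n) (t := n) hW one_pos (zero_mem_adm_one W) hsn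
      (hN.trans (Real.log_le_log (by exact_mod_cast hN1) (by exact_mod_cast g3))) (hN1.trans g3)
    rw [adm_one, ← vR_cls] at k1
    push_cast at k1
    have k2 := (g1 1 le_rfl (by rw [Real.rpow_zero]; norm_num) 0 (zero_mem_adm_one W)).2
    unfold vx at k2
    rw [adm_one, ← vR_cls] at k2
    push_cast at k2
    rw [one_mul] at k2
    have k3 : vR W (Finset.Ioc (Nat.sqrt n) n) ≤ vR W (Finset.Ioc N₁ n) := by
      unfold vR
      apply Finset.sum_le_sum_of_subset_of_nonneg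
      · intro m hm
        have := Finset.mem_Ioc.1 hm
        exact Finset.mem_Ioc.2 ⟨by omega, this.2⟩
      · exact fun m _ _ => rhoW_nonneg W m
    rw [Real.dist_eq, abs_lt]
    constructor
    · rw [lt_sub_iff_add_lt, lt_div_iff₀ hE]
      have e1 : (1 - η) * (n / Real.log n) ≤ vR W (Finset.Ioc (Nat.sqrt n) n) := by
        refine le_trans ?_ k1.1
        rw [one_mul, one_mul, mul_div_assoc']
        apply div_le_div_of_nonneg_right _ hL0.le
        linarith
      nlinarith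
    · rw [sub_lt_iff_lt_add, div_lt_iff₀ hE]
      have e1 : vR W (Finset.Ioc N₁ n) ≤ (1 + η) * (n / Real.log n) := by
        refine k2.trans (le_of_eq ?_)
        ring
      nlinarith
  refine ⟨⟨fun N => ?_, ?_⟩, hlim⟩
  · filter_upwards [hsq.eventually_ge_atTop N] with n hn m hm
    have := (Finset.mem_Ioc.1 hm).1
    omega
  · have h1 := hlim.pos_mul_atTop one_pos (lin_log_top one_pos)
    refine h1.congr' ?_
    filter_upwards [tendsto_log.eventually_gt_atTop 0, eventually_gt_atTop 0] with n g1 g2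
    have hn : (0 : ℝ) < n := by exact_mod_cast g2
    field_simp

/-- **the number of all members** -/
theorem total_count (hA : ∀ n, MeasurableSet[ℱ n] (A n)) {W : ℕ} (hW : 0 < W)
    (hd : ∀ᵐ ω ∂μ, ∀ ε : ℝ, 0 < ε → ∀ᶠ n : ℕ in atTop, |dens μ ℱ A n ω - rhoW W (n + 1)| ≤ ε * rhoW W (n + 1)) :
    ∀ᵐ ω ∂μ, Tendsto (fun n : ℕ => Ncl A (Finset.Ioc 0 n) ω / (n / Real.log n)) atTop (𝓝 1) := by
  obtain ⟨hwin, hlim⟩ := root_win hW
  filter_upwards [win_upper (μ := μ) (ℱ := ℱ) hA hd hwin one_pos le_rfl, hd] with ω h1 h2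
  have hDpos : ∀ᶠ n : ℕ in atTop, 0 < (n : ℝ) / Real.log n := by
    filter_upwards [tendsto_log.eventually_gt_atTop 0, eventually_gt_atTop 0] with n g1 g2
    have hn : (0 : ℝ) < n := by exact_mod_cast g2
    positivity
  have hsq : Tendsto Nat.sqrt atTop atTop := by
    refine tendsto_atTop.2 fun N => ?_
    filter_upwards [eventually_ge_atTop (N * N)] with n hn
    exact Nat.le_sqrt.2 hn
  have hz : Tendsto (fun n => (VS μ ℱ A (Finset.Ioc (Nat.sqrt n) n) ω - vR W (Finset.Ioc (Nat.sqrt n) n)) / ((n : ℝ) / Real.log n)) atTop (𝓝 0) := by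
    rw [Metric.tendsto_nhds]
    intro ε hε
    obtain ⟨n₀, hn₀⟩ := eventually_atTop.1 (h2 (ε / 4) (by positivity))
    filter_upwards [hsq.eventually_ge_atTop n₀, hlim.eventually (eventually_lt_nhds (show (1 : ℝ) < 2 by norm_num)), hDpos] with n g1 g2 g3
    rw [div_lt_iff₀ g3] at g2
    rw [Real.dist_eq, sub_zero, abs_div, abs_of_pos g3, div_lt_iff₀ g3]
    have g4 : |VS μ ℱ A (Finset.Ioc (Nat.sqrt n) n) ω - vR W (Finset.Ioc (Nat.sqrt n) n)| ≤ ε / 4 * vR W (Finset.Ioc (Nat.sqrt n) n) := by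
      unfold VS vR
      rw [← Finset.sum_sub_distrib, Finset.mul_sum]
      refine (Finset.abs_sum_le_sum_abs _ _).trans (Finset.sum_le_sum fun m hm => ?_)
      have g5 := (Finset.mem_Ioc.1 hm).1
      have g6 := hn₀ (m - 1) (by omega)
      rwa [show m - 1 + 1 = m by omega] at g6
    have g5 : ε / 4 * vR W (Finset.Ioc (Nat.sqrt n) n) ≤ ε / 4 * (2 * ((n : ℝ) / Real.log n)) :=
      mul_le_mul_of_nonneg_left g2.le (by positivity)
    have g6 : 0 < ε * ((n : ℝ) / Real.log n) := by positivity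
    linarith only [g4, g5, g6]
  have hc : Tendsto (fun n => CS μ ℱ A (Finset.Ioc (Nat.sqrt n) n) ω / ((n : ℝ) / Real.log n)) atTop (𝓝 0) := by
    have hb : Tendsto (fun n : ℕ => √(16 * (Real.log (n : ℝ) ^ 2 / n))) atTop (𝓝 0) := by
      have h3 : Tendsto (fun n : ℕ => Real.log (n : ℝ) ^ 2 / n) atTop (𝓝 0) := by
        have := ((lin_log_top one_pos)).inv_tendsto_atTop
        refine this.congr fun n => ?_
        simp only [Pi.inv_apply]
        rw [inv_div, one_mul]
      have := (h3.const_mul 16).sqrt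
      rwa [mul_zero, Real.sqrt_zero] at this
    refine squeeze_zero_norm' ?_ hb
    filter_upwards [h1, hDpos, tendsto_log.eventually_gt_atTop 0, hlim.eventually (eventually_lt_nhds (show (1 : ℝ) < 2 by norm_num)),
      eventually_gt_atTop 0] with n g1 g2 g3 g4 g5
    have hn : (0 : ℝ) < n := by exact_mod_cast g5
    rw [Real.norm_eq_abs, abs_div, abs_of_pos g2]
    refine (div_le_div_of_nonneg_right g1.le g2.le).trans ?_
    rw [div_lt_iff₀ g2] at g4
    apply Real.le_sqrt_of_sq_le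
    have hv0 : 0 ≤ vR W (Finset.Ioc (Nat.sqrt n) n) := vR_nonneg _ _
    rw [div_pow, mul_pow, Real.sq_sqrt (by positivity)]
    rw [div_le_iff₀ (by positivity)]
    have e1 : (1 + 1 : ℝ) ^ 2 * (2 * Real.log n * vR W (Finset.Ioc (Nat.sqrt n) n)) ≤ (1 + 1) ^ 2 * (2 * Real.log n * (2 * (n / Real.log n))) := by
      apply mul_le_mul_of_nonneg_left _ (by positivity)
      exact mul_le_mul_of_nonneg_left g4.le (by positivity)
    refine e1.trans (le_of_eq ?_)
    field_simp
    ring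
  have hsmall : Tendsto (fun n : ℕ => Ncl A (Finset.Ioc 0 (Nat.sqrt n)) ω / ((n : ℝ) / Real.log n)) atTop (𝓝 0) := by
    have hb : Tendsto (fun n : ℕ => √((Real.log (n : ℝ) ^ 2 / n))) atTop (𝓝 0) := by
      have h3 : Tendsto (fun n : ℕ => Real.log (n : ℝ) ^ 2 / n) atTop (𝓝 0) := by
        have := ((lin_log_top one_pos)).inv_tendsto_atTop
        refine this.congr fun n => ?_
        simp only [Pi.inv_apply]
        rw [inv_div, one_mul]
      have := h3.sqrt
      rwa [Real.sqrt_zero] at this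
    refine squeeze_zero_norm' ?_ hb
    filter_upwards [hDpos, tendsto_log.eventually_gt_atTop 0, eventually_gt_atTop 0] with n g2 g3 g5
    have hn : (0 : ℝ) < n := by exact_mod_cast g5
    have e0 : 0 ≤ Ncl A (Finset.Ioc 0 (Nat.sqrt n)) ω := Finset.sum_nonneg fun m _ => In_nonneg _ _
    have e1 : Ncl A (Finset.Ioc 0 (Nat.sqrt n)) ω ≤ √(n : ℝ) := by
      unfold Ncl
      refine (Finset.sum_le_sum fun m _ => In_le (A := A) m ω).trans ?_
      rw [Finset.sum_const, nsmul_eq_mul, mul_one, Nat.card_Ioc, Nat.sub_zero]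
      exact Real.nat_sqrt_le_real_sqrt
    rw [Real.norm_eq_abs, abs_div, abs_of_pos g2, abs_of_nonneg e0]
    refine (div_le_div_of_nonneg_right e1 g2.le).trans ?_
    apply Real.le_sqrt_of_sq_le
    rw [div_pow, Real.sq_sqrt hn.le]
    apply le_of_eq
    field_simp
  have h3 := ((hc.add hz).add hlim).add hsmall
  rw [zero_add, zero_add, add_zero] at h3
  refine h3.congr fun n => ?_
  have e1 : Ncl A (Finset.Ioc 0 n) ω = Ncl A (Finset.Ioc 0 (Nat.sqrt n)) ω + Ncl A (Finset.Ioc (Nat.sqrt n) n) ω := by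
    unfold Ncl
    rw [← Finset.sum_union]
    · congr 1
      ext m
      have := Nat.sqrt_le_self n
      simp only [Finset.mem_union, Finset.mem_Ioc]
      omega
    · rw [Finset.disjoint_left]
      intro m hm hm'
      have := Finset.mem_Ioc.1 hm
      have := Finset.mem_Ioc.1 hm'
      omega
  rw [e1, CS_eq]
  ring

end Pool.Agent.R291.RMW
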