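import Mathlib
import Pool.Agent.R291.RMW.U1

set_option autoImplicit false
set_option linter.unusedSectionVars false
set_option linter.unusedVariables false

/-! # Square roots of the members number `n` and `n + k` -/

open MeasureTheory Filter Set
open scoped ENNReal Topology

namespace Pool.Agent.R291.RMW

open Pool.Agent.R528.RM

open Classical in
/-- the number of elements of `S` in `(a, b]` -/
noncomputable def NN (S : Set ℕ) (a b : ℕ) : ℝ := (Nat.count (· ∈ S) (b + 1) : ℝ) - Nat.count (· ∈ S) (a + 1)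

lemma Ncl_NN {Ω : Type} {A : ℕ → Set Ω} {ω : Ω} {a b : ℕ} (h : a ≤ b) :
    Ncl A (Finset.Ioc a b) ω = NN {k | ω ∈ A k} a b := by
  classical
  have h1 : Ncl A (Finset.Ioc a b) ω = (((Finset.Ioc a b).filter (fun m => ω ∈ A m)).card : ℝ) := by
    rw [Finset.card_filter]
    unfold Ncl
    push_cast
    refine Finset.sum_congr rfl fun m _ => ?_
    unfold In
    rw [Set.indicator_apply]
  rw [h1]
  unfold NN
  rw [Nat.count_eq_card_filter_range, Nat.count_eq_card_filter_range, eq_sub_iff_add_eq, ← Nat.cast_add, add_comm]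
  have h2 : (Finset.range (b + 1)).filter (· ∈ {k | ω ∈ A k}) =
      (Finset.range (a + 1)).filter (· ∈ {k | ω ∈ A k}) ∪ (Finset.Ioc a b).filter (fun m => ω ∈ A m) := by
    ext m
    simp only [Finset.mem_filter, Finset.mem_range, Finset.mem_union, Finset.mem_Ioc, mem_ofPred_eq]
    constructor
    · rintro ⟨g1, g2⟩
      by_cases h3 : m < a + 1
      · exact Or.inl ⟨h3, g2⟩
      · exact Or.inr ⟨by omega, g2⟩
    · rintro (⟨g1, g2⟩ | ⟨g1, g2⟩)
      · exact ⟨by omega, g2⟩
      · exact ⟨by omega, g2⟩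
  rw [h2, Finset.card_union_of_disjoint]
  rw [Finset.disjoint_left]
  intro m g1 g2
  have := Finset.mem_range.1 (Finset.mem_filter.1 g1).1
  have := Finset.mem_Ioc.1 (Finset.mem_filter.1 g2).1
  omega

variable {S : Set ℕ}

lemma count_nth' (hS : S.Infinite) (n : ℕ) [DecidablePred (· ∈ S)] : Nat.count (· ∈ S) (pn S n + 1) = n + 1 :=
  Nat.count_nth_succ_of_infinite (p := (· ∈ S)) hS n

lemma nth_le_of (hS : S.Infinite) {n k H : ℕ} (h : (k : ℝ) ≤ NN S (pn S n) (pn S n + H)) : pn S (n + k) ≤ pn S n + H := by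
  classical
  unfold NN at h
  rw [count_nth' hS n] at h
  have h1 : n + k + 1 ≤ Nat.count (· ∈ S) (pn S n + H + 1) := by
    have : ((n + k + 1 : ℕ) : ℝ) ≤ (Nat.count (· ∈ S) (pn S n + H + 1) : ℝ) := by
      push_cast at h ⊢
      linarith
    exact_mod_cast this
  have h3 : n + k < Nat.count (· ∈ S) (pn S n + H + 1) := by omega
  have h2 : Nat.nth (· ∈ S) (n + k) < pn S n + H + 1 := Nat.nth_lt_of_lt_count (p := (· ∈ S)) h3
  exact Nat.lt_succ_iff.1 h2

lemma lt_nth_of (hS : S.Infinite) {n k H : ℕ} (h : NN S (pn S n) (pn S n + H) < k) : pn S n + H + 1 ≤ pn S (n + k) := by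
  classical
  unfold NN at h
  rw [count_nth' hS n] at h
  have h1 : Nat.count (· ∈ S) (pn S n + H + 1) < n + 1 + k := by
    have : (Nat.count (· ∈ S) (pn S n + H + 1) : ℝ) < ((n + 1 + k : ℕ) : ℝ) := by
      push_cast at h ⊢
      linarith
    exact_mod_cast this
  have h3 : Nat.count (· ∈ S) (pn S n + H + 1) ≤ n + k := by omega
  exact (Nat.count_le_iff_le_nth (p := (· ∈ S)) hS).1 h3

/-- cubes of logarithms against square roots -/
lemma ev_cube {c : ℝ} (hc : 0 < c) : ∀ᶠ y : ℕ in atTop, Real.log (y : ℝ) ^ 3 + 1 ≤ c * √(y : ℝ) := by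
  have h3 := (isLittleO_log_rpow_rpow_atTop (3 : ℝ) (show (0 : ℝ) < 1 / 2 by norm_num)).def (show (0 : ℝ) < c / 2 by positivity)
  have h4 : ∀ᶠ x : ℝ in atTop, Real.log x ^ 3 + 1 ≤ c * √x := by
    filter_upwards [h3, eventually_ge_atTop 1, Real.tendsto_sqrt_atTop.eventually_ge_atTop (2 / c)] with x h3 h6 h7
    have := Real.log_nonneg h6
    rw [show (3 : ℝ) = ((3 : ℕ) : ℝ) by norm_num, Real.rpow_natCast, Real.norm_of_nonneg (by positivity), Real.norm_of_nonneg (by positivity),
      ← Real.sqrt_eq_rpow] at h3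
    rw [div_le_iff₀ hc] at h7
    linarith
  exact tendsto_natCast_atTop_atTop.eventually h4

lemma sqrt_low {s w z : ℝ} (hs : 0 < s) (hw : 0 ≤ w) (hz : s * s + 2 * s * w ≤ z) : w - w ^ 2 / (2 * s) ≤ √z - s := by
  have e4 : 2 * s * (w ^ 2 / (2 * s)) = w ^ 2 := by field_simp
  have e5 : 0 ≤ w ^ 2 / (2 * s) := by positivity
  generalize w ^ 2 / (2 * s) = c at e4 e5
  rcases le_or_gt (w - c) 0 with h | h
  · have h1 : s ≤ √z := by
      apply Real.le_sqrt_of_sq_le
      have : 0 ≤ 2 * s * w := by positivity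
      rw [sq]
      linarith only [this, hz]
    linarith only [h1, h]
  · have h1 : s + (w - c) ≤ √z := by
      apply Real.le_sqrt_of_sq_le
      have e6 : (w - c) * (w - c) ≤ w * w := mul_self_le_mul_self h.le (by linarith only [e5])
      have e7 : (s + (w - c)) ^ 2 = s * s + 2 * s * w - 2 * s * c + (w - c) * (w - c) := by ring
      rw [e7, e4]
      have e8 : w ^ 2 = w * w := sq w
      linarith only [e6, e8, hz]
    linarith only [h1]

lemma sqrt_up {s z : ℝ} (hs : 0 < s) (hsz : s ≤ √z) (hzz : √z * √z = z) : √z - s ≤ (z - s * s) / (2 * s) := by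
  rw [le_div_iff₀ (by positivity)]
  have h1 : 0 ≤ (√z - s) * (√z - s) := mul_self_nonneg _
  have h2 : z - s * s - (√z - s) * (2 * s) = (√z - s) * (√z - s) := by
    have : (√z - s) * (√z - s) = √z * √z - 2 * s * √z + s * s := by ring
    rw [this, hzz]
    ring
  linarith only [h1, h2]

/-- **the uniform estimate** -/
theorem stepB (hS : S.Infinite)
    (H1 : ∀ ε : ℝ, 0 < ε → ∀ᶠ n : ℕ in atTop, ∀ H : ℕ, Real.log n ^ 3 ≤ H → H ≤ n →
      |NN S n (n + H) - H / Real.log n| ≤ ε * (H / Real.log n)) {ε M : ℝ} (hε : 0 < ε) (hM : 0 < M) :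
    ∀ᶠ n : ℕ in atTop, ∀ k : ℕ, (k : ℝ) * Real.log (pn S n) / √(pn S n : ℝ) ≤ M →
      |√(pn S (n + k) : ℝ) - √(pn S n : ℝ) - (k : ℝ) * Real.log (pn S n) / √(pn S n : ℝ) / 2| ≤ ε := by
  set η : ℝ := min (ε / (8 * (M + 1))) (1 / 4) with hη
  have hη0 : 0 < η := lt_min (by positivity) (by norm_num)
  have hη1 : η ≤ 1 / 4 := min_le_right _ _
  have hηM : 8 * (η * M) ≤ ε := by
    have h1 : η ≤ ε / (8 * (M + 1)) := min_le_left _ _
    rw [le_div_iff₀ (by positivity)] at h1
    nlinarith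
  have hev : ∀ᶠ y : ℕ in atTop, (∀ H : ℕ, Real.log y ^ 3 ≤ H → H ≤ y → |NN S y (y + H) - H / Real.log y| ≤ η * (H / Real.log y)) ∧
      Real.log (y : ℝ) ^ 3 + 1 ≤ ε / 2 * √(y : ℝ) ∧ M ^ 2 ≤ ε * √(y : ℝ) ∧ 3 ≤ Real.log (y : ℝ) ∧
      Real.log (y : ℝ) ^ 3 + 1 ≤ √(y : ℝ) ∧ 2 * M + 2 ≤ √(y : ℝ) ∧ 1 ≤ y := by
    have hs : Tendsto (fun y : ℕ => √(y : ℝ)) atTop atTop := Real.tendsto_sqrt_atTop.comp tendsto_natCast_atTop_atTop
    filter_upwards [H1 η hη0, ev_cube (show 0 < ε / 2 by positivity), hs.eventually_ge_atTop (M ^ 2 / ε), ev_log 3, ev_cube one_pos,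
      hs.eventually_ge_atTop (2 * M + 2), eventually_ge_atTop 1] with y g1 g2 g3 g4 g5 g6 g7
    rw [div_le_iff₀ hε] at g3
    rw [one_mul] at g5
    exact ⟨g1, g2, by linarith, g4, g5, g6, g7⟩
  filter_upwards [(tendsto_nth hS).eventually hev] with n ⟨g1, g2, g3, g4, g5, g6, g7⟩ k hk
  set y := pn S n with hy
  set z := pn S (n + k) with hz
  set L := Real.log (y : ℝ) with hL
  have hL0 : 0 < L := by linarith
  have hy1 : (1 : ℝ) ≤ y := by exact_mod_cast g7
  have hyp : (0 : ℝ) < y := by linarith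
  set s := √(y : ℝ) with hs
  have hs0 : 0 < s := Real.sqrt_pos.2 hyp
  have hss : s * s = y := Real.mul_self_sqrt hyp.le
  have hk0 : (0 : ℝ) ≤ k := Nat.cast_nonneg _
  set Z := (k : ℝ) * L / s with hZ
  have hZ0 : 0 ≤ Z := by positivity
  have hZs : Z * s = k * L := by rw [hZ]; field_simp
  have hkL : (k : ℝ) * L ≤ M * s := by rw [← hZs]; exact mul_le_mul_of_nonneg_right hk hs0.le
  have hyz : (y : ℝ) ≤ z := by exact_mod_cast (nth_mono hS).monotone (Nat.le_add_right n k)
  have hsz : s ≤ √(z : ℝ) := Real.sqrt_le_sqrt hyz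
  have hzz : √(z : ℝ) * √(z : ℝ) = z := Real.mul_self_sqrt (by linarith)
  rw [abs_le]
  constructor
  · -- lower bound
    set H₂ : ℕ := ⌊(1 - 2 * η) * (k * L)⌋₊ with hH₂
    have hkL0 : 0 ≤ (k : ℝ) * L := by positivity
    have h12 : 0 ≤ (1 - 2 * η) * (k * L) := mul_nonneg (by linarith) hkL0
    have hH₂le : (H₂ : ℝ) ≤ (1 - 2 * η) * (k * L) := Nat.floor_le h12
    have hH₂ge : (1 - 2 * η) * (k * L) < H₂ + 1 := Nat.lt_floor_add_one _
    rcases le_or_gt (L ^ 3) H₂ with hc | hc
    · have hkp : (0 : ℝ) < k := by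
        rcases hk0.lt_or_eq with h | h
        · exact h
        · exfalso
          rw [← h] at hH₂le
          have : (0 : ℝ) < L ^ 3 := by positivity
          linarith
      have hHy : H₂ ≤ y := by
        have : (H₂ : ℝ) ≤ y := by
          rw [← hss]
          have e1 : (1 - 2 * η) * (k * L) ≤ 1 * (k * L) := mul_le_mul_of_nonneg_right (by linarith only [hη0]) hkL0
          have e2 : M * s ≤ s * s := mul_le_mul_of_nonneg_right (by linarith only [g6, hM]) hs0.le
          linarith only [e1, e2, hH₂le, hkL]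
        exact_mod_cast this
      have h1 := (abs_le.1 (g1 H₂ hc hHy)).2
      have h2 : NN S y (y + H₂) < k := by
        have e1 : (H₂ : ℝ) / L ≤ (1 - 2 * η) * k := by
          rw [div_le_iff₀ hL0]
          linarith
        have e2 : (1 + η) * ((H₂ : ℝ) / L) ≤ (1 + η) * ((1 - 2 * η) * k) := mul_le_mul_of_nonneg_left e1 (by linarith)
        have e3 : (1 + η) * ((1 - 2 * η) * k) < k := by
          have e4 : (1 + η) * ((1 - 2 * η) * k) = k - (η * k + 2 * (η * η * k)) := by ring
          have e5 : 0 < η * k := mul_pos hη0 hkp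
          have e6 : 0 < η * η * k := mul_pos (mul_pos hη0 hη0) hkp
          rw [e4]
          linarith only [e5, e6]
        have e7 : (1 + η) * ((H₂ : ℝ) / L) = (H₂ : ℝ) / L + η * ((H₂ : ℝ) / L) := by ring
        linarith only [h1, e2, e3, e7]
      have h3 := lt_nth_of hS h2
      have h4 : (y : ℝ) + (1 - 2 * η) * (k * L) ≤ z := by
        have : ((y + H₂ + 1 : ℕ) : ℝ) ≤ z := by exact_mod_cast h3
        push_cast at this
        linarith
      set w : ℝ := (1 - 2 * η) * (k * L) / (2 * s) with hw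
      have hws : 2 * s * w = (1 - 2 * η) * (k * L) := by rw [hw]; field_simp
      have hw0 : 0 ≤ w := by positivity
      have hwZ : w = (1 - 2 * η) * (Z / 2) := by
        rw [hw, ← hZs]
        field_simp
      have hwM : w ≤ M := by
        rw [hwZ]
        have e1 : (1 - 2 * η) * (Z / 2) ≤ 1 * (Z / 2) := mul_le_mul_of_nonneg_right (by linarith only [hη0]) (by linarith only [hZ0])
        linarith only [e1, hk, hM, hZ0]
      have h5 : w - w ^ 2 / (2 * s) ≤ √(z : ℝ) - s := by
        apply sqrt_low hs0 hw0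
        rw [hss, hws]
        exact h4
      have h6 : w ^ 2 / (2 * s) ≤ ε / 2 := by
        rw [div_le_iff₀ (by positivity)]
        have e1 : w ^ 2 ≤ M ^ 2 := pow_le_pow_left₀ hw0 hwM 2
        have e2 : ε / 2 * (2 * s) = ε * s := by ring
        linarith only [e1, e2, g3]
      have h7 : Z / 2 - ε / 8 ≤ w := by
        rw [hwZ]
        have e1 : η * Z ≤ η * M := mul_le_mul_of_nonneg_left hk hη0.le
        have e2 : (1 - 2 * η) * (Z / 2) = Z / 2 - η * Z := by ring
        rw [e2]
        linarith only [e1, hηM]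
      linarith
    · have h1 : Z / 2 ≤ ε / 2 := by
        have e1 : (1 / 2 : ℝ) * (k * L) ≤ (1 - 2 * η) * (k * L) := mul_le_mul_of_nonneg_right (by linarith) hkL0
        have e2 : (k : ℝ) * L ≤ 2 * (ε / 2 * s) := by linarith
        rw [← hZs] at e2
        have : Z ≤ ε := le_of_mul_le_mul_right (by linarith) hs0
        linarith
      linarith
  · -- upper bound
    set H₁ : ℕ := ⌈L ^ 3 + (1 + 2 * η) * (k * L)⌉₊ with hH₁
    have hkL0 : 0 ≤ (k : ℝ) * L := by positivity
    have hH₁ge : L ^ 3 + (1 + 2 * η) * (k * L) ≤ H₁ := Nat.le_ceil _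
    have hH₁le : (H₁ : ℝ) ≤ L ^ 3 + (1 + 2 * η) * (k * L) + 1 := (Nat.ceil_lt_add_one (by positivity)).le
    have h1 : L ^ 3 ≤ H₁ := by
      have : 0 ≤ (1 + 2 * η) * (k * L) := by positivity
      linarith
    have hHy : H₁ ≤ y := by
      have : (H₁ : ℝ) ≤ y := by
        rw [← hss]
        have e1 : (1 + 2 * η) * (k * L) ≤ (3 / 2) * (M * s) :=
          mul_le_mul (by linarith only [hη1]) hkL hkL0 (by norm_num)
        have e2 : (2 * M + 2) * s ≤ s * s := mul_le_mul_of_nonneg_right g6 hs0.le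
        have e3 : 0 ≤ M * s := by positivity
        have e4 : (2 * M + 2) * s = 2 * (M * s) + 2 * s := by ring
        linarith only [e1, e2, e3, e4, g5, hH₁le, hs0]
      exact_mod_cast this
    have h2 := (abs_le.1 (g1 H₁ h1 hHy)).1
    have h3 : (k : ℝ) ≤ NN S y (y + H₁) := by
      have e1 : (1 + 2 * η) * k ≤ (H₁ : ℝ) / L := by
        rw [le_div_iff₀ hL0]
        have : 0 ≤ L ^ 3 := by positivity
        linarith
      have e2 : (1 - η) * ((1 + 2 * η) * k) ≤ (1 - η) * ((H₁ : ℝ) / L) := mul_le_mul_of_nonneg_left e1 (by linarith)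
      have e3 : (k : ℝ) ≤ (1 - η) * ((1 + 2 * η) * k) := by
        have e4 : (1 - η) * ((1 + 2 * η) * k) = k + (1 - 2 * η) * (η * k) := by ring
        have e5 : 0 ≤ (1 - 2 * η) * (η * k) := mul_nonneg (by linarith only [hη1]) (mul_nonneg hη0.le hk0)
        rw [e4]
        linarith only [e5]
      have e7 : (1 - η) * ((H₁ : ℝ) / L) = (H₁ : ℝ) / L - η * ((H₁ : ℝ) / L) := by ring
      linarith only [h2, e2, e3, e7]
    have h4 := nth_le_of hS h3
    have h5 : (z : ℝ) - y ≤ H₁ := by
      have : (z : ℝ) ≤ ((y + H₁ : ℕ) : ℝ) := by exact_mod_cast h4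
      push_cast at this
      linarith
    have h6 : √(z : ℝ) - s ≤ ((z : ℝ) - y) / (2 * s) := by
      have := sqrt_up hs0 hsz hzz
      rwa [hss] at this
    have h7 : ((z : ℝ) - y) / (2 * s) ≤ Z / 2 + ε / 2 := by
      rw [div_le_iff₀ (by positivity)]
      have e1 : (Z / 2 + ε / 2) * (2 * s) = Z * s + ε * s := by ring
      rw [e1, hZs]
      have e2 : η * (k * L) ≤ η * (M * s) := mul_le_mul_of_nonneg_left hkL hη0.le
      have e3 : η * (M * s) = η * M * s := by ring
      have e4 : 8 * (η * M) * s ≤ ε * s := mul_le_mul_of_nonneg_right hηM hs0.le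
      have e5 : 8 * (η * M) * s = 8 * (η * M * s) := by ring
      have e6 : (1 + 2 * η) * (k * L) = k * L + 2 * (η * (k * L)) := by ring
      have e7 : 2 * (ε / 2 * s) = ε * s := by ring
      have e8 : 0 ≤ ε * s := by positivity
      linarith only [h5, hH₁le, g2, e2, e3, e4, e5, e6, e7, e8]
    linarith only [h6, h7, hε]

/-- **the law of the differences of square roots** -/
theorem sqrt_law (hS : S.Infinite)
    (H1 : ∀ ε : ℝ, 0 < ε → ∀ᶠ n : ℕ in atTop, ∀ H : ℕ, Real.log n ^ 3 ≤ H → H ≤ n →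
      |NN S n (n + H) - H / Real.log n| ≤ ε * (H / Real.log n))
    (H2 : Tendsto (fun n : ℕ => NN S 0 n / (n / Real.log n)) atTop (𝓝 1)) (k : ℕ → ℕ) {l : ℝ} (hl : 0 ≤ l) :
    Tendsto (fun n => √(pn S (n + k n) : ℝ) - √(pn S n : ℝ)) atTop (𝓝 l) ↔
      Tendsto (fun n : ℕ => (k n : ℝ) * √(Real.log n / n)) atTop (𝓝 (2 * l)) := by
  classical
  have hp := tendsto_nth hS
  have hLp : Tendsto (fun n => Real.log (pn S n : ℝ)) atTop atTop := tendsto_log.comp hp
  have hpR : Tendsto (fun n => (pn S n : ℝ)) atTop atTop := tendsto_natCast_atTop_atTop.comp hp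
  -- `n L / x → 1`
  have hq : Tendsto (fun n => (pn S n : ℝ) / Real.log (pn S n)) atTop atTop := by
    have h1 := (lin_log_top one_pos).comp hp
    refine tendsto_atTop_mono' _ ?_ h1
    filter_upwards [hLp.eventually_ge_atTop 1] with n hn
    simp only [Function.comp]
    rw [one_mul]
    apply div_le_div_of_nonneg_left (Nat.cast_nonneg _) (by linarith)
    nlinarith
  have hn1 : Tendsto (fun n : ℕ => (n : ℝ) / ((pn S n : ℝ) / Real.log (pn S n))) atTop (𝓝 1) := by
    have h1 := H2.comp hp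
    have h2 : Tendsto (fun n : ℕ => (1 : ℝ) / ((pn S n : ℝ) / Real.log (pn S n))) atTop (𝓝 0) := hq.const_div_atTop 1
    have h3 : Tendsto (fun n : ℕ => NN S 0 (pn S n) / ((pn S n : ℝ) / Real.log (pn S n)) - 1 / ((pn S n : ℝ) / Real.log (pn S n))) atTop (𝓝 1) := by
      have := h1.sub h2
      rwa [sub_zero] at this
    have h4 : Tendsto (fun n : ℕ => NN S 0 (pn S n) / ((pn S n : ℝ) / Real.log (pn S n)) + 1 / ((pn S n : ℝ) / Real.log (pn S n))) atTop (𝓝 1) := by
      have := h1.add h2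
      rwa [add_zero] at this
    have hNN : ∀ n, NN S 0 (pn S n) - 1 ≤ n ∧ (n : ℝ) ≤ NN S 0 (pn S n) + 1 := by
      intro n
      unfold NN
      rw [count_nth' hS n]
      have h5 : Nat.count (· ∈ S) (0 + 1) ≤ 1 := Nat.count_le (p := (· ∈ S))
      have h6 : (Nat.count (· ∈ S) (0 + 1) : ℝ) ≤ 1 := by exact_mod_cast h5
      have h7 : (0 : ℝ) ≤ Nat.count (· ∈ S) (0 + 1) := Nat.cast_nonneg _
      push_cast
      constructor <;> linarith
    refine tendsto_of_tendsto_of_tendsto_of_le_of_le' h3 h4 ?_ ?_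
    · filter_upwards [hq.eventually_gt_atTop 0] with n hn
      rw [← sub_div]
      exact div_le_div_of_nonneg_right (hNN n).1 hn.le
    · filter_upwards [hq.eventually_gt_atTop 0] with n hn
      rw [← add_div]
      exact div_le_div_of_nonneg_right (hNN n).2 hn.le
  -- `L / log n → 1`
  have hL1 : Tendsto (fun n : ℕ => Real.log n / Real.log (pn S n)) atTop (𝓝 1) := by
    have h1 : Tendsto (fun n : ℕ => Real.log ((n : ℝ) / ((pn S n : ℝ) / Real.log (pn S n)))) atTop (𝓝 0) := by
      have := (Real.continuousAt_log (one_ne_zero)).tendsto.comp hn1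
      rwa [Real.log_one] at this
    have h2 : Tendsto (fun n : ℕ => Real.log ((n : ℝ) / ((pn S n : ℝ) / Real.log (pn S n))) / Real.log (pn S n)) atTop (𝓝 0) :=
      h1.div_atTop hLp
    have h3 : Tendsto (fun n : ℕ => Real.log (Real.log (pn S n)) / Real.log (pn S n)) atTop (𝓝 0) := by
      have h4 : Tendsto (fun x : ℝ => Real.log x / x) atTop (𝓝 0) := Real.isLittleO_log_id_atTop.tendsto_div_nhds_zero
      exact h4.comp hLp
    have h5 := (h2.add (h3.const_sub 1))
    rw [sub_zero, zero_add] at h5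
    refine h5.congr' ?_
    filter_upwards [hLp.eventually_gt_atTop 0, hpR.eventually_gt_atTop 0, eventually_gt_atTop 0] with n g1 g2 g3
    have hn : (0 : ℝ) < n := by exact_mod_cast g3
    rw [Real.log_div hn.ne' (by positivity), Real.log_div g2.ne' g1.ne']
    field_simp
    ring
  -- the ratio of the normalisations
  have hr : Tendsto (fun n : ℕ => (Real.log (pn S n) / √(pn S n : ℝ)) / √(Real.log n / n)) atTop (𝓝 1) := by
    have h1 := (hn1.div hL1 one_ne_zero).sqrt
    rw [div_one, Real.sqrt_one] at h1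
    refine h1.congr' ?_
    filter_upwards [hLp.eventually_gt_atTop 0, hpR.eventually_gt_atTop 0, eventually_gt_atTop 0, tendsto_log.eventually_gt_atTop 0] with n g1 g2 g3 g4
    have hn : (0 : ℝ) < n := by exact_mod_cast g3
    have e1 : Real.log (pn S n) / √(pn S n : ℝ) = √(Real.log (pn S n) ^ 2 / (pn S n : ℝ)) := by
      rw [Real.sqrt_div (by positivity), Real.sqrt_sq g1.le]
    rw [e1, ← Real.sqrt_div (by positivity)]
    congr 1
    simp only [Pi.div_apply]
    field_simp
  have hZK : Tendsto (fun n : ℕ => (k n : ℝ) * √(Real.log n / n)) atTop (𝓝 (2 * l)) ↔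
      Tendsto (fun n : ℕ => (k n : ℝ) * Real.log (pn S n) / √(pn S n : ℝ)) atTop (𝓝 (2 * l)) := by
    have hpos : ∀ᶠ n : ℕ in atTop, 0 < √(Real.log n / n) ∧ 0 < Real.log (pn S n) / √(pn S n : ℝ) := by
      filter_upwards [hLp.eventually_gt_atTop 0, hpR.eventually_gt_atTop 0, eventually_gt_atTop 0, tendsto_log.eventually_gt_atTop 0] with n g1 g2 g3 g4
      have hn : (0 : ℝ) < n := by exact_mod_cast g3
      exact ⟨Real.sqrt_pos.2 (by positivity), div_pos g1 (Real.sqrt_pos.2 g2)⟩
    constructor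
    · intro h
      have := h.mul hr
      rw [mul_one] at this
      refine this.congr' ?_
      filter_upwards [hpos] with n ⟨g1, g2⟩
      have g1' := g1.ne'
      rw [mul_assoc, mul_div_assoc (k n : ℝ)]
      congr 1
      rw [mul_div_cancel₀ _ g1']
    · intro h
      have := h.div hr one_ne_zero
      rw [div_one] at this
      refine this.congr' ?_
      filter_upwards [hpos] with n ⟨g1, g2⟩
      simp only [Pi.div_apply]
      set a := √(Real.log (n : ℝ) / n)
      set b := Real.log (pn S n : ℝ) / √(pn S n : ℝ)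
      have e : (k n : ℝ) * Real.log (pn S n : ℝ) / √(pn S n : ℝ) = k n * b := mul_div_assoc _ _ _
      rw [e]
      have g1' := g1.ne'
      have g2' := g2.ne'
      field_simp
  rw [hZK]
  constructor
  · intro h
    set M : ℝ := 2 * l + 6 with hM
    have hM0 : 0 < M := by positivity
    have hLs : ∀ᶠ n : ℕ in atTop, Real.log (pn S n) / √(pn S n : ℝ) ≤ 1 := by
      filter_upwards [hp.eventually (ev_cube one_pos), hLp.eventually_ge_atTop 1, hpR.eventually_gt_atTop 0] with n g1 g2 g3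
      rw [div_le_one (Real.sqrt_pos.2 g3)]
      rw [one_mul] at g1
      have : Real.log (pn S n : ℝ) ≤ Real.log (pn S n : ℝ) ^ 3 := by
        exact le_self_pow₀ g2 (by norm_num)
      linarith
    have hle : ∀ᶠ n : ℕ in atTop, (k n : ℝ) * Real.log (pn S n) / √(pn S n : ℝ) ≤ M := by
      filter_upwards [stepB hS H1 (ε := 1 / 2) (by norm_num) hM0, h.eventually (eventually_lt_nhds (show l < l + 1 by linarith)), hLs,
        hLp.eventually_gt_atTop 0, hpR.eventually_gt_atTop 0] with n g1 g2 g3 g4 g5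
      by_contra hcon
      push Not at hcon
      have hs0 : 0 < √(pn S n : ℝ) := Real.sqrt_pos.2 g5
      set t : ℝ := Real.log (pn S n) / √(pn S n : ℝ) with ht
      have ht0 : 0 < t := by positivity
      have e0 : (k n : ℝ) * Real.log (pn S n) / √(pn S n : ℝ) = k n * t := mul_div_assoc _ _ _
      rw [e0] at hcon
      set k' : ℕ := ⌊M / t⌋₊ with hk'
      have e1 : (k' : ℝ) ≤ M / t := Nat.floor_le (by positivity)
      have e2 : M / t < k' + 1 := Nat.lt_floor_add_one _
      rw [le_div_iff₀ ht0] at e1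
      rw [div_lt_iff₀ ht0] at e2
      have e3 : k' ≤ k n := by
        have : (k' : ℝ) < k n := lt_of_mul_lt_mul_right (by linarith) ht0.le
        exact_mod_cast this.le
      have e4 : (k' : ℝ) * Real.log (pn S n) / √(pn S n : ℝ) = k' * t := mul_div_assoc _ _ _
      have e5 := (abs_le.1 (g1 k' (by rw [e4]; exact e1))).1
      rw [e4] at e5
      have e6 : √(pn S (n + k') : ℝ) ≤ √(pn S (n + k n) : ℝ) := by
        apply Real.sqrt_le_sqrt
        exact_mod_cast (nth_mono hS).monotone (by omega : n + k' ≤ n + k n)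
      nlinarith
    rw [Metric.tendsto_nhds]
    intro ε hε
    filter_upwards [stepB hS H1 (ε := ε / 8) (by positivity) hM0, hle, (Metric.tendsto_nhds.1 h) (ε / 4) (by positivity)] with n g1 g2 g3
    have g4 := g1 (k n) g2
    rw [Real.dist_eq] at g3 ⊢
    rw [abs_lt] at g3 ⊢
    rw [abs_le] at g4
    constructor <;> linarith [g3.1, g3.2, g4.1, g4.2]
  · intro h
    have hle := h.eventually (eventually_lt_nhds (show 2 * l < 2 * l + 1 by linarith))
    rw [Metric.tendsto_nhds]
    intro ε hε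
    filter_upwards [stepB hS H1 (ε := ε / 8) (M := 2 * l + 1) (by positivity) (by positivity), hle, (Metric.tendsto_nhds.1 h) (ε / 4) (by positivity)] with n g1 g2 g3
    have g4 := g1 (k n) g2.le
    rw [Real.dist_eq] at g3 ⊢
    rw [abs_lt] at g3 ⊢
    rw [abs_le] at g4
    constructor <;> linarith [g3.1, g3.2, g4.1, g4.2]

end Pool.Agent.R291.RMW
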