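import Mathlib
import Pool.Agent.R291.RMW.T4
import Pool.Agent.R291.RMW.W1

set_option autoImplicit false
set_option linter.unusedSectionVars false
set_option linter.unusedVariables false

/-! # Clusters of long gaps in short intervals -/

open MeasureTheory Filter Set
open scoped ENNReal Topology

namespace Pool.Agent.R291.RMW

open Pool.Agent.R528.RM

variable {Ω : Type} {m0 : MeasurableSpace Ω} {μ : Measure Ω} [IsProbabilityMeasure μ]
  {ℱ : Filtration ℕ m0} {A : ℕ → Set Ω}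

open Classical in
/-- the restriction of the random set to `R` -/
noncomputable def rA (A : ℕ → Set Ω) (R : Finset ℕ) (k : ℕ) : Set Ω := if k ∈ R then A k else ∅

lemma rA_meas (hA : ∀ n, MeasurableSet[ℱ n] (A n)) (R : Finset ℕ) (n : ℕ) : MeasurableSet[ℱ n] (rA A R n) := by
  unfold rA
  split_ifs
  · exact hA n
  · exact @MeasurableSet.empty _ (ℱ n)

lemma dens_rA (R : Finset ℕ) (n : ℕ) (ω : Ω) :
    dens μ ℱ (rA A R) n ω = if n + 1 ∈ R then dens μ ℱ A n ω else 0 := by
  unfold Pool.Agent.R528.RM.dens rA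
  split_ifs with h
  · rfl
  · simp only [Set.indicator_empty]
    rw [show (fun _ : Ω => (0 : ℝ)) = 0 from rfl, condExp_zero]
    rfl

/-- **the probability that no element of `R` is chosen** -/
lemma set_empty_prob (hA : ∀ n, MeasurableSet[ℱ n] (A n)) {W : ℕ} {δ : ℝ} (hδ0 : 0 < δ) (hδ1 : δ ≤ 1 / 4)
    {y h : ℕ} {R : Finset ℕ} (hR : R ⊆ Finset.Ioc y (y + h)) :
    μ.real ({ω | ∀ m ∈ R, ω ∉ A m} \ WV (VB μ ℱ A (lp W δ) (up W δ)) y h) ≤
      Real.exp (-((1 - δ - δ * (1 + δ)) * vR W R)) := by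
  classical
  set l : ℕ → ℝ := fun n => if n ∈ R then lp W δ n else 0 with hl
  set u : ℕ → ℝ := fun n => if n ∈ R then up W δ n else 0 with hu
  have hl1 : ∀ n, l n ≤ 1 := by
    intro n
    simp only [hl]
    split_ifs
    · have h1 := rhoW_le W n
      have h2 := rhoW_nonneg W n
      unfold Pool.Agent.R528.RM.lp
      nlinarith only [h1, h2, hδ0, hδ1]
    · exact zero_le_one
  have hu0 : ∀ n, 0 ≤ u n := by
    intro n
    simp only [hu]
    split_ifs
    · exact le_min zero_le_one (mul_nonneg (by linarith) (rhoW_nonneg W n))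
    · exact le_rfl
  have h2 := cnt_tail_prof (μ := μ) (ℱ := ℱ) (rA_meas hA R) hl1 hu0 (κ := 0) hδ0 ({0} : Set ℕ) (by
    intro k hk
    have : k = 0 := hk
    rw [this, Real.rpow_zero, pow_zero]) y h
  rw [zero_mul, neg_zero, Real.exp_zero, one_mul] at h2
  refine (le_trans (measureReal_mono ?_ (measure_ne_top _ _)) h2).trans ?_
  · rintro ω ⟨w1, w2⟩
    refine ⟨?_, ?_⟩
    · show cnt (rA A R) y h ω = 0
      unfold cnt
      apply Finset.sum_eq_zero
      intro r _
      rw [if_neg]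
      unfold rA
      split_ifs with h3
      · exact w1 _ h3
      · exact notMem_empty ω
    · rintro ⟨n, n1, n2, n3⟩
      apply w2
      refine ⟨n, n1, n2, ?_⟩
      unfold Pool.Agent.R528.RM.VB at n3 ⊢
      simp only [mem_ofPred_eq] at n3 ⊢
      rw [dens_rA] at n3
      simp only [hl, hu] at n3
      by_cases h3 : n + 1 ∈ R
      · rwa [if_pos h3, if_pos h3, if_pos h3] at n3
      · rw [if_neg h3, if_neg h3, if_neg h3] at n3
        exact absurd ⟨le_rfl, le_rfl⟩ n3
  · apply Real.exp_le_exp.2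
    have h4 : ∑ i ∈ Finset.range h, (δ * u (y + 1 + i) - l (y + 1 + i)) = ∑ m ∈ R, (δ * up W δ m - lp W δ m) := by
      have e1 : ∑ i ∈ Finset.range h, (δ * u (y + 1 + i) - l (y + 1 + i)) =
          ∑ m ∈ Finset.Ioc y (y + h), (if m ∈ R then δ * up W δ m - lp W δ m else 0) := by
        have e2 : Finset.Ioc y (y + h) = (Finset.range h).image (fun i => y + 1 + i) := by
          ext m
          simp only [Finset.mem_Ioc, Finset.mem_image, Finset.mem_range]
          constructor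
          · rintro ⟨a1, a2⟩
            exact ⟨m - (y + 1), by omega, by omega⟩
          · rintro ⟨i, i1, rfl⟩
            omega
        rw [e2, Finset.sum_image (by intro a _ b _ hab; simpa using hab)]
        refine Finset.sum_congr rfl fun i _ => ?_
        simp only [hl, hu]
        split_ifs <;> ring
      rw [e1, ← Finset.sum_filter]
      congr 1
      ext m
      simp only [Finset.mem_filter]
      exact ⟨fun h => h.2, fun h => ⟨hR h, h⟩⟩
    rw [h4]
    unfold vR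
    rw [Finset.mul_sum, ← Finset.sum_neg_distrib]
    apply Finset.sum_le_sum
    intro m _
    have g1 : up W δ m ≤ (1 + δ) * rhoW W m := min_le_right _ _
    have g2 := mul_le_mul_of_nonneg_left g1 hδ0.le
    unfold Pool.Agent.R528.RM.lp
    linarith only [g1, g2]

/-- the mean of a window -/
lemma vR_win {W : ℕ} (hW : 0 < W) {y h : ℕ} (hy : (W : ℝ) / Nat.totient W ≤ Real.log y) (hy1 : 1 ≤ y) :
    ((h : ℝ) - 2 * W) / Real.log ((y + h : ℕ) : ℝ) ≤ vR W (Finset.Ioc y (y + h)) := by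
  have g4 := (rho_cls1 (W := W) (q := 1) (a := 0) (s := y) (t := y + h) hW one_pos (zero_mem_admW W) (by omega) hy hy1).1
  rw [adm_oneW, ← sum_rhoW_eq] at g4
  have e1 : vR W (Finset.Ioc y (y + h)) = ∑ i ∈ Finset.range h, rhoW W (y + 1 + i) := by
    unfold vR
    have e2 : Finset.Ioc y (y + h) = (Finset.range h).image (fun i => y + 1 + i) := by
      ext m
      simp only [Finset.mem_Ioc, Finset.mem_image, Finset.mem_range]
      constructor
      · rintro ⟨a1, a2⟩
        exact ⟨m - (y + 1), by omega, by omega⟩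
      · rintro ⟨i, i1, rfl⟩
        omega
    rw [e2, Finset.sum_image (by intro a _ b _ hab; simpa using hab)]
  rw [e1]
  refine le_trans (le_of_eq ?_) g4
  push_cast
  ring

/-- the windows after the elements of `U` -/
def RR (h : ℕ) (U : Finset ℕ) : Finset ℕ := U.biUnion (fun u => Finset.Ioc u (u + h))

/-- separated sets -/
def Sepd (h : ℕ) (U : Finset ℕ) : Prop := ∀ u ∈ U, ∀ v ∈ U, u < v → u + h ≤ v

lemma vR_RR (W : ℕ) {h : ℕ} {U : Finset ℕ} (hU : Sepd h U) : vR W (RR h U) = ∑ u ∈ U, vR W (Finset.Ioc u (u + h)) := by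
  unfold vR RR
  rw [Finset.sum_biUnion]
  intro a ha b hb hab
  rw [Function.onFun, Finset.disjoint_left]
  intro m m1 m2
  have m1' := Finset.mem_Ioc.1 m1
  have m2' := Finset.mem_Ioc.1 m2
  rcases lt_or_gt_of_ne hab with h1 | h1
  · have := hU a ha b hb h1
    omega
  · have := hU b hb a ha h1
    omega

/-- **few clusters** -/
theorem cluster_upper (hA : ∀ n, MeasurableSet[ℱ n] (A n)) {W : ℕ} (hW : 0 < W)
    (hd : ∀ᵐ ω ∂μ, ∀ ε : ℝ, 0 < ε → ∀ᶠ n : ℕ in atTop, |dens μ ℱ A n ω - rhoW W (n + 1)| ≤ ε * rhoW W (n + 1))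
    {γ c : ℝ} (hγ0 : 0 < γ) (hγ1 : γ < 1) (hγc : γ < c) {k : ℕ} (hk : 1 - γ < (k + 1) * (c - γ)) :
    ∀ᵐ ω ∂μ, ∀ᶠ j : ℕ in atTop, ∀ U : Finset ℕ, U.card = k + 1 → (∃ q ∈ U, 2 ^ j < q ∧ q ≤ 2 ^ (j + 2) ∧
      ∀ u ∈ U, q ≤ u ∧ u ≤ q + ⌊((2 : ℝ) ^ (j + 1)) ^ γ⌋₊) → Sepd ⌊c * (j * Real.log 2) ^ 2⌋₊ U →
      ¬ ∀ m ∈ RR ⌊c * (j * Real.log 2) ^ 2⌋₊ U, ω ∉ A m := by
  classical
  have hc0 : 0 < c := by linarith
  have hl2 : 0 < Real.log 2 := Real.log_pos (by norm_num)
  have hk1 : (0 : ℝ) < (k : ℝ) + 1 := by positivity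
  -- the exponents
  obtain ⟨c₁, hc₁c, hc₁⟩ : ∃ c₁ : ℝ, c₁ < c ∧ 1 - γ < (k + 1) * (c₁ - γ) := by
    refine ⟨c - ((k + 1) * (c - γ) - (1 - γ)) / (2 * (k + 1)), ?_, ?_⟩
    · have : 0 < ((k + 1) * (c - γ) - (1 - γ)) / (2 * (k + 1)) := div_pos (by linarith only [hk]) (by positivity)
      linarith only [this]
    · have e : ((k : ℝ) + 1) * (c - ((k + 1) * (c - γ) - (1 - γ)) / (2 * (k + 1)) - γ) =
          ((k + 1) * (c - γ) + (1 - γ)) / 2 := by
        field_simp
        ring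
      rw [e]
      linarith only [hk]
  have hc₁0 : 0 < c₁ := by
    have h1 : 0 < (k + 1) * (c₁ - γ) := by linarith only [hc₁, hγ1]
    have h2 := (mul_pos_iff_of_pos_left hk1).1 h1
    linarith only [h2, hγ0]
  obtain ⟨δ, hδ0, hδ1, hδ⟩ : ∃ δ : ℝ, 0 < δ ∧ δ ≤ 1 / 4 ∧ c₁ < (1 - δ - δ * (1 + δ)) * c := by
    refine ⟨min (1 / 4) ((c - c₁) / (4 * c)), lt_min (by norm_num) (div_pos (by linarith only [hc₁c]) (by positivity)), min_le_left _ _, ?_⟩
    set δ := min (1 / 4) ((c - c₁) / (4 * c)) with hδ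
    have h0 : 0 < δ := lt_min (by norm_num) (div_pos (by linarith only [hc₁c]) (by positivity))
    have h1 : δ ≤ 1 / 4 := min_le_left _ _
    have h2 : δ ≤ (c - c₁) / (4 * c) := min_le_right _ _
    rw [le_div_iff₀ (by positivity)] at h2
    have h3 : δ * δ ≤ δ * (1 / 4) := mul_le_mul_of_nonneg_left h1 h0.le
    have h4 : (1 - 3 * δ) * c ≤ (1 - δ - δ * (1 + δ)) * c := by
      apply mul_le_mul_of_nonneg_right _ hc0.le
      linarith only [h3, h0]
    linarith only [h4, h2, hc₁c]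
  set η : ℝ := (k + 1) * (c₁ - γ) - (1 - γ) with hη
  have hη0 : 0 < η := by linarith only [hc₁, hη]
  set h : ℕ → ℕ := fun j => ⌊c * (j * Real.log 2) ^ 2⌋₊ with hh
  set D : ℕ → ℕ := fun j => ⌊((2 : ℝ) ^ (j + 1)) ^ γ⌋₊ with hD
  set Y : ℕ → Finset (ℕ × Finset ℕ) := fun j => (Finset.Ioc (2 ^ j) (2 ^ (j + 2))).biUnion
    (fun q => ((Finset.Ioc q (q + D j)).powersetCard k).image (fun T => (q, T))) with hY
  set Y' : ℕ → Finset (ℕ × Finset ℕ) := fun j => (Y j).filter (fun p => Sepd (h j) (insert p.1 p.2)) with hY'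
  set E : ℕ → Set Ω := fun j => ⋃ p ∈ Y' j, ({ω | ∀ m ∈ RR (h j) (insert p.1 p.2), ω ∉ A m} \
    WV (VB μ ℱ A (lp W δ) (up W δ)) p.1 (D j + h j)) with hE
  have hexp : Tendsto (fun j : ℕ => (1 - δ - δ * (1 + δ)) * (((c * (j * Real.log 2) ^ 2 - 1) - 2 * W) / (j * Real.log 2 + 3)) / (j * Real.log 2))
      atTop (𝓝 ((1 - δ - δ * (1 + δ)) * c)) := by
    have hx : Tendsto (fun j : ℕ => (j : ℝ) * Real.log 2) atTop atTop := tendsto_natCast_atTop_atTop.atTop_mul_const hl2
    have hr : Tendsto (fun x : ℝ => (1 - δ - δ * (1 + δ)) * (((c * x ^ 2 - 1) - 2 * W) / (x + 3)) / x) atTop (𝓝 ((1 - δ - δ * (1 + δ)) * c)) := by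
      have k1 : Tendsto (fun x : ℝ => (1 + 2 * (W : ℝ)) / x ^ 2) atTop (𝓝 0) := (tendsto_pow_atTop two_ne_zero).const_div_atTop _
      have k2 : Tendsto (fun x : ℝ => (3 : ℝ) / x) atTop (𝓝 0) := tendsto_id.const_div_atTop _
      have k3 := ((k1.const_sub c).div (k2.const_add 1) (by norm_num)).const_mul (1 - δ - δ * (1 + δ))
      rw [sub_zero, add_zero, div_one] at k3
      refine k3.congr' ?_
      filter_upwards [eventually_gt_atTop 0] with x hx
      simp only [Pi.div_apply]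
      field_simp
      ring
    exact hr.comp hx
  set Cst : ℝ := 4 * ((2 : ℝ) ^ γ) ^ k with hCst
  have hprob : ∀ᶠ j : ℕ in atTop, μ.real (E j) ≤ Cst * Real.exp (-(η * Real.log 2)) ^ j := by
    have hhs : ∀ᶠ j : ℕ in atTop, (h j : ℝ) ≤ 2 ^ j := by
      have h1 : Tendsto (fun j : ℕ => c * Real.log 2 ^ 2 * ((j : ℝ) ^ 2 / 2 ^ j)) atTop (𝓝 (c * Real.log 2 ^ 2 * 0)) :=
        (tendsto_pow_const_div_const_pow_of_one_lt 2 (by norm_num : (1 : ℝ) < 2)).const_mul _
      rw [mul_zero] at h1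
      filter_upwards [h1.eventually (eventually_lt_nhds (show (0 : ℝ) < 1 by norm_num))] with j hj
      have hp : (0 : ℝ) < 2 ^ j := by positivity
      refine (Nat.floor_le (by positivity)).trans ?_
      rw [← mul_div_assoc, div_lt_iff₀ hp] at hj
      have e : c * ((j : ℝ) * Real.log 2) ^ 2 = c * Real.log 2 ^ 2 * (j : ℝ) ^ 2 := by ring
      rw [e]
      linarith only [hj]
    have hlogj : ∀ᶠ j : ℕ in atTop, (W : ℝ) / Nat.totient W ≤ j * Real.log 2 :=
      (tendsto_natCast_atTop_atTop.atTop_mul_const hl2).eventually_ge_atTop _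
    have hWj : ∀ᶠ j : ℕ in atTop, 1 + 2 * (W : ℝ) ≤ c * (j * Real.log 2) ^ 2 := by
      have : Tendsto (fun j : ℕ => c * ((j : ℝ) * Real.log 2) ^ 2) atTop atTop :=
        ((tendsto_pow_atTop two_ne_zero).comp (tendsto_natCast_atTop_atTop.atTop_mul_const hl2)).const_mul_atTop hc0
      exact this.eventually_ge_atTop _
    filter_upwards [hexp.eventually (eventually_gt_nhds hδ), hhs, hlogj, eventually_ge_atTop 1, hWj] with j g1 g2 g3 g4 g5
    have hj : (1 : ℝ) ≤ j := by exact_mod_cast g4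
    have hp : (0 : ℝ) < 2 ^ j := by positivity
    have hp1 : (1 : ℝ) ≤ 2 ^ j := one_le_pow₀ (by norm_num)
    have hℓ : 0 < (j : ℝ) * Real.log 2 := by positivity
    rw [lt_div_iff₀ hℓ] at g1
    have hlog2j : Real.log ((2 : ℝ) ^ j) = j * Real.log 2 := Real.log_pow _ _
    have hDle : (D j : ℝ) ≤ ((2 : ℝ) ^ (j + 1)) ^ γ := Nat.floor_le (by positivity)
    have hDle2 : (D j : ℝ) ≤ 2 * 2 ^ j := by
      refine hDle.trans ?_
      calc ((2 : ℝ) ^ (j + 1)) ^ γ ≤ ((2 : ℝ) ^ (j + 1)) ^ (1 : ℝ) :=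
            Real.rpow_le_rpow_of_exponent_le (one_le_pow₀ (by norm_num)) hγ1.le
        _ = 2 * 2 ^ j := by rw [Real.rpow_one, pow_succ]; ring
    have hone : ∀ p ∈ Y' j, μ.real ({ω | ∀ m ∈ RR (h j) (insert p.1 p.2), ω ∉ A m} \
        WV (VB μ ℱ A (lp W δ) (up W δ)) p.1 (D j + h j)) ≤ Real.exp (-((k + 1) * (c₁ * (j * Real.log 2)))) := by
      intro p hp'
      obtain ⟨p1, p2⟩ := Finset.mem_filter.1 hp'
      obtain ⟨q, hq, hqT⟩ := Finset.mem_biUnion.1 p1
      obtain ⟨T, hT, hTp⟩ := Finset.mem_image.1 hqT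
      obtain ⟨hT1, hT2⟩ := Finset.mem_powersetCard.1 hT
      rw [← hTp] at p2 ⊢
      simp only at p2 ⊢
      obtain ⟨q1, q2⟩ := Finset.mem_Ioc.1 hq
      have q1' : (2 : ℝ) ^ j < q := by exact_mod_cast q1
      have q2' : (q : ℝ) ≤ 4 * 2 ^ j := by
        have : (q : ℝ) ≤ 2 ^ (j + 2) := by exact_mod_cast q2
        rw [pow_add] at this
        linarith only [this]
      have hsub : RR (h j) (insert q T) ⊆ Finset.Ioc q (q + (D j + h j)) := by
        intro m hm
        obtain ⟨u, hu, hum⟩ := Finset.mem_biUnion.1 hm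
        obtain ⟨m1, m2⟩ := Finset.mem_Ioc.1 hum
        rcases Finset.mem_insert.1 hu with rfl | hu
        · exact Finset.mem_Ioc.2 ⟨m1, by omega⟩
        · obtain ⟨u1, u2⟩ := Finset.mem_Ioc.1 (hT1 hu)
          exact Finset.mem_Ioc.2 ⟨by omega, by omega⟩
      refine (set_empty_prob hA hδ0 hδ1 hsub).trans ?_
      apply Real.exp_le_exp.2
      apply neg_le_neg
      rw [vR_RR W p2]
      have hqT' : q ∉ T := by
        intro hcon
        have := (Finset.mem_Ioc.1 (hT1 hcon)).1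
        omega
      have hcard : ((insert q T).card : ℝ) = k + 1 := by
        rw [Finset.card_insert_of_notMem hqT', hT2]
        push_cast
        ring
      have hfac : 0 ≤ 1 - δ - δ * (1 + δ) := by nlinarith only [hδ0, hδ1]
      have hwin : ∀ u ∈ insert q T, c₁ * (j * Real.log 2) ≤ (1 - δ - δ * (1 + δ)) * vR W (Finset.Ioc u (u + h j)) := by
        intro u hu
        have hu1 : (2 : ℝ) ^ j < u ∧ (u : ℝ) ≤ 6 * 2 ^ j := by
          rcases Finset.mem_insert.1 hu with rfl | hu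
          · exact ⟨q1', by linarith only [q2', hp]⟩
          · obtain ⟨u1, u2⟩ := Finset.mem_Ioc.1 (hT1 hu)
            have u1' : (q : ℝ) < u := by exact_mod_cast u1
            have u2' : (u : ℝ) ≤ q + D j := by exact_mod_cast u2
            exact ⟨by linarith only [q1', u1'], by linarith only [u2', q2', hDle2]⟩
        have hly : (j : ℝ) * Real.log 2 ≤ Real.log u := by
          rw [← hlog2j]
          exact Real.log_le_log hp hu1.1.le
        have hu1n : 1 ≤ u := by
          have : (1 : ℝ) ≤ u := by linarith only [hp1, hu1.1]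
          exact_mod_cast this
        have h6 := vR_win hW (h := h j) (g3.trans hly) hu1n
        refine g1.le.trans ?_
        apply mul_le_mul_of_nonneg_left _ hfac
        refine le_trans ?_ h6
        have hh1 : c * (j * Real.log 2) ^ 2 - 1 ≤ h j := (Nat.sub_one_lt_floor _).le
        have hh0 : (0 : ℝ) ≤ h j := Nat.cast_nonneg _
        have hlyh : Real.log ((u + h j : ℕ) : ℝ) ≤ j * Real.log 2 + 3 := by
          have e1 : ((u + h j : ℕ) : ℝ) ≤ 8 * 2 ^ j := by push_cast; linarith only [hu1.2, g2, hp]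
          have e2 := Real.log_le_log (by push_cast; linarith only [hu1.1, hp, hh0]) e1
          rw [Real.log_mul (by norm_num) (by positivity), hlog2j, show (8 : ℝ) = 2 ^ 3 by norm_num, Real.log_pow] at e2
          have := Real.log_two_lt_d9
          push_cast at e2
          push_cast
          linarith only [e2, this]
        have hlyh0 : 0 < Real.log ((u + h j : ℕ) : ℝ) := by
          apply Real.log_pos
          push_cast
          linarith only [hu1.1, hp1, hh0]
        apply div_le_div₀ (by linarith only [hh1, g5]) (by linarith only [hh1]) hlyh0 hlyh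
      have hsum := Finset.card_nsmul_le_sum (insert q T) (fun u => (1 - δ - δ * (1 + δ)) * vR W (Finset.Ioc u (u + h j)))
        (c₁ * (j * Real.log 2)) hwin
      rw [nsmul_eq_mul, hcard, ← Finset.mul_sum] at hsum
      exact hsum
    have hcardY : ((Y' j).card : ℝ) ≤ 4 * 2 ^ j * (((2 : ℝ) ^ (j + 1)) ^ γ) ^ k := by
      have e1 : (Y' j).card ≤ (Y j).card := Finset.card_filter_le _ _
      have e2 : (Y j).card ≤ ∑ q ∈ Finset.Ioc (2 ^ j) (2 ^ (j + 2)), (D j) ^ k := by
        refine Finset.card_biUnion_le.trans (Finset.sum_le_sum fun q _ => ?_)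
        refine Finset.card_image_le.trans ?_
        rw [Finset.card_powersetCard, Nat.card_Ioc, Nat.add_sub_cancel_left]
        exact Nat.choose_le_pow _ _
      rw [Finset.sum_const, Nat.card_Ioc, smul_eq_mul] at e2
      have e3 : ((Y' j).card : ℝ) ≤ ((2 ^ (j + 2) - 2 ^ j : ℕ) : ℝ) * (D j : ℝ) ^ k := by exact_mod_cast e1.trans e2
      refine e3.trans ?_
      apply mul_le_mul _ (pow_le_pow_left₀ (Nat.cast_nonneg _) hDle k) (by positivity) (by positivity)
      have e4 : ((2 ^ (j + 2) - 2 ^ j : ℕ) : ℝ) ≤ ((2 ^ (j + 2) : ℕ) : ℝ) := by exact_mod_cast Nat.sub_le _ _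
      refine e4.trans (le_of_eq ?_)
      push_cast
      rw [pow_add]
      ring
    refine (measureReal_biUnion_finset_le _ _).trans ((Finset.sum_le_sum hone).trans ?_)
    rw [Finset.sum_const, nsmul_eq_mul]
    refine (mul_le_mul_of_nonneg_right hcardY (Real.exp_pos _).le).trans (le_of_eq ?_)
    have e4 : (2 : ℝ) ^ j = Real.exp (j * Real.log 2) := by
      rw [← hlog2j, Real.exp_log hp]
    have e5 : (((2 : ℝ) ^ (j + 1)) ^ γ) ^ k = ((2 : ℝ) ^ γ) ^ k * Real.exp (k * (γ * (j * Real.log 2))) := by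
      rw [pow_succ, Real.mul_rpow (by positivity) (by norm_num), mul_pow, e4, ← Real.exp_mul, ← Real.exp_nat_mul]
      rw [mul_comm]
      congr 2
      ring
    rw [e5, e4, ← Real.exp_nat_mul, hCst]
    have e6 : 4 * Real.exp (↑j * Real.log 2) * ((2 ^ γ) ^ k * Real.exp (↑k * (γ * (↑j * Real.log 2)))) *
        Real.exp (-((↑k + 1) * (c₁ * (↑j * Real.log 2)))) = 4 * ((2 : ℝ) ^ γ) ^ k *
        (Real.exp (↑j * Real.log 2) * Real.exp (↑k * (γ * (↑j * Real.log 2))) * Real.exp (-((↑k + 1) * (c₁ * (↑j * Real.log 2))))) := by ring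
    rw [e6, ← Real.exp_add, ← Real.exp_add]
    congr 2
    rw [hη]
    ring
  -- Borel-Cantelli
  have hsum : Summable (fun j => μ.real (E j)) := by
    have hr1 : Real.exp (-(η * Real.log 2)) < 1 := by
      rw [Real.exp_lt_one_iff]
      have : 0 < η * Real.log 2 := by positivity
      linarith only [this]
    refine Summable.of_norm_bounded_eventually_nat ((summable_geometric_of_lt_one (Real.exp_pos _).le hr1).mul_left Cst) ?_
    filter_upwards [hprob] with j hj
    rw [Real.norm_of_nonneg measureReal_nonneg]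
    exact hj
  have hbc : ∀ᵐ ω ∂μ, ∀ᶠ j : ℕ in atTop, ω ∉ E j := by
    have h1 : ∑' j, μ (E j) ≠ ⊤ := by
      have h2 : ∀ j, μ (E j) = ENNReal.ofReal (μ.real (E j)) := fun j => (ofReal_measureReal (measure_ne_top _ _)).symm
      simp_rw [h2]
      exact hsum.tsum_ofReal_ne_top
    exact ae_eventually_notMem h1
  filter_upwards [hbc, hd] with ω w1 w2
  obtain ⟨n₀, hn₀⟩ := eventually_atTop.1 (w2 δ hδ0)
  have h2j : ∀ᶠ j : ℕ in atTop, n₀ ≤ 2 ^ j := by
    filter_upwards [eventually_ge_atTop n₀] with j hj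
    exact hj.trans (Nat.lt_two_pow_self).le
  have hrl : ∀ᶠ n : ℕ in atTop, (1 + δ) * rhoW W (n + 1) ≤ 1 := by
    obtain ⟨N₀, _, hN₀⟩ := exists_start W hδ0 one_pos 0
    exact eventually_atTop.2 ⟨N₀, hN₀⟩
  obtain ⟨n₁, hn₁⟩ := eventually_atTop.1 hrl
  have h2j' : ∀ᶠ j : ℕ in atTop, n₁ ≤ 2 ^ j := by
    filter_upwards [eventually_ge_atTop n₁] with j hj
    exact hj.trans (Nat.lt_two_pow_self).le
  filter_upwards [w1, h2j, h2j'] with j g1 g2 g3 U hU1 ⟨q, hqU, q1, q2, q3⟩ hU2 hcon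
  apply g1
  rw [hE]
  simp only [mem_iUnion]
  refine ⟨(q, U.erase q), ?_, ?_, ?_⟩
  · refine Finset.mem_filter.2 ⟨Finset.mem_biUnion.2 ⟨q, Finset.mem_Ioc.2 ⟨q1, q2⟩, Finset.mem_image.2 ⟨U.erase q, ?_, rfl⟩⟩, ?_⟩
    · rw [Finset.mem_powersetCard]
      refine ⟨fun u hu => ?_, ?_⟩
      · obtain ⟨u1, u2⟩ := Finset.mem_erase.1 hu
        obtain ⟨u3, u4⟩ := q3 u u2
        exact Finset.mem_Ioc.2 ⟨lt_of_le_of_ne u3 (Ne.symm u1), u4⟩
      · rw [Finset.card_erase_of_mem hqU, hU1]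
        rfl
    · simp only
      rw [Finset.insert_erase hqU]
      exact hU2
  · simp only
    rw [Finset.insert_erase hqU]
    exact hcon
  · rintro ⟨n, n1, n2, n3⟩
    simp only at n1
    apply n3
    have h3 : n₀ ≤ n := by omega
    have h4 : n₁ ≤ n := by omega
    obtain ⟨a1, a2⟩ := abs_le.1 (hn₀ n h3)
    unfold Pool.Agent.R528.RM.lp Pool.Agent.R528.RM.up
    refine ⟨by linarith only [a1], le_min ?_ (by linarith only [a2])⟩
    have := hn₁ n h4
    linarith only [a2, this]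

end Pool.Agent.R291.RMW
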