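import Mathlib
import Pool.Agent.R291.RMW.V1

set_option autoImplicit false
set_option linter.unusedSectionVars false
set_option linter.unusedVariables false

/-! # The number of long gaps in all short intervals -/

open MeasureTheory Filter Set
open scoped ENNReal Topology

namespace Pool.Agent.R291.RMW

open Pool.Agent.R528.RM

variable {Ω : Type} {m0 : MeasurableSpace Ω} {μ : Measure Ω} [IsProbabilityMeasure μ]
  {ℱ : Filtration ℕ m0} {A : ℕ → Set Ω}

/-- the left ends in `(x, x + x^γ]` of the gaps of length at least `b (log x)²` -/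
def LG (S : Set ℕ) (x : ℕ) (γ b : ℝ) : Set ℕ :=
  {q | x < q ∧ (q : ℝ) ≤ x + (x : ℝ) ^ γ ∧ ∃ q', Cons S q q' ∧ b * Real.log x ^ 2 ≤ (q' : ℝ) - q}

lemma LG_finite (S : Set ℕ) (x : ℕ) (γ b : ℝ) : (LG S x γ b).Finite := by
  refine (Set.finite_Iic ⌊(x : ℝ) + (x : ℝ) ^ γ⌋₊).subset fun q hq => ?_
  exact Nat.le_floor hq.2.1

/-- the members after a long gap -/
lemma cons_sep {S : Set ℕ} {q q' v : ℕ} (hq : Cons S q q') (hv : v ∈ S) (h : q < v) : q' ≤ v := by
  by_contra hcon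
  exact hq.2.2.2 v h (by omega) hv

/-- **few long gaps in short intervals** -/
theorem LG_few (hA : ∀ n, MeasurableSet[ℱ n] (A n)) {W : ℕ} (hW : 0 < W)
    (hd : ∀ᵐ ω ∂μ, ∀ ε : ℝ, 0 < ε → ∀ᶠ n : ℕ in atTop, |dens μ ℱ A n ω - rhoW W (n + 1)| ≤ ε * rhoW W (n + 1))
    {γ b : ℝ} (hγ0 : 0 < γ) (hγ1 : γ < 1) (hγb : γ < b) {k : ℕ} (hk : 1 - γ < (k + 1) * (b - γ)) :
    ∀ᵐ ω ∂μ, ∀ᶠ x : ℕ in atTop, (LG {m | ω ∈ A m} x γ b).ncard ≤ k := by
  classical
  have hl2 : 0 < Real.log 2 := Real.log_pos (by norm_num)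
  have hk1 : (0 : ℝ) < (k : ℝ) + 1 := by positivity
  obtain ⟨c, hcb, hc⟩ : ∃ c : ℝ, c < b ∧ 1 - γ < (k + 1) * (c - γ) := by
    refine ⟨b - ((k + 1) * (b - γ) - (1 - γ)) / (2 * (k + 1)), ?_, ?_⟩
    · have : 0 < ((k + 1) * (b - γ) - (1 - γ)) / (2 * (k + 1)) := div_pos (by linarith only [hk]) (by positivity)
      linarith only [this]
    · have e : ((k : ℝ) + 1) * (b - ((k + 1) * (b - γ) - (1 - γ)) / (2 * (k + 1)) - γ) =
          ((k + 1) * (b - γ) + (1 - γ)) / 2 := by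
        field_simp
        ring
      rw [e]
      linarith only [hk]
  have hcγ : γ < c := by
    have h1 : 0 < (k + 1) * (c - γ) := by linarith only [hc, hγ1]
    have h2 := (mul_pos_iff_of_pos_left hk1).1 h1
    linarith only [h2]
  have hc0 : 0 < c := by linarith only [hcγ, hγ0]
  filter_upwards [cluster_upper (μ := μ) (ℱ := ℱ) hA hW hd hγ0 hγ1 hcγ hc] with ω hω
  obtain ⟨J, hJ⟩ := eventually_atTop.1 hω
  filter_upwards [eventually_ge_atTop (2 ^ (J + 1))] with x hx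
  by_contra hcon
  push Not at hcon
  set j := Nat.log 2 x with hj
  have hx0 : x ≠ 0 := by
    have : 0 < 2 ^ (J + 1) := by positivity
    omega
  have hj1 : 2 ^ j ≤ x := Nat.pow_log_le_self 2 hx0
  have hj2 : x < 2 ^ (j + 1) := Nat.lt_pow_succ_log_self (by norm_num) x
  have hJj : J + 1 ≤ j := by
    have := Nat.log_mono_right (b := 2) hx
    rwa [Nat.log_pow (by norm_num)] at this
  obtain ⟨U, hU1, hU2⟩ : ∃ U : Finset ℕ, (∀ u ∈ U, u ∈ LG {m | ω ∈ A m} x γ b) ∧ U.card = k + 1 := by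
    have hfin := LG_finite {m | ω ∈ A m} x γ b
    rw [Set.ncard_eq_toFinset_card _ hfin] at hcon
    obtain ⟨U, hU, hUc⟩ := Finset.exists_subset_card_eq (show k + 1 ≤ hfin.toFinset.card by omega)
    exact ⟨U, fun u hu => hfin.mem_toFinset.1 (hU hu), hUc⟩
  have hne : U.Nonempty := Finset.card_pos.1 (by omega)
  have hxR : (1 : ℝ) ≤ x := by
    have : 1 ≤ x := by omega
    exact_mod_cast this
  have hj1R : (2 : ℝ) ^ j ≤ x := by exact_mod_cast hj1
  have hj2R : (x : ℝ) ≤ 2 ^ (j + 1) := by exact_mod_cast hj2.le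
  have hγx : (x : ℝ) ^ γ ≤ x := by
    calc (x : ℝ) ^ γ ≤ (x : ℝ) ^ (1 : ℝ) := Real.rpow_le_rpow_of_exponent_le hxR hγ1.le
      _ = x := Real.rpow_one _
  have hγ2 : (x : ℝ) ^ γ ≤ ((2 : ℝ) ^ (j + 1)) ^ γ := Real.rpow_le_rpow (by linarith only [hxR]) hj2R hγ0.le
  have hlog : (j : ℝ) * Real.log 2 ≤ Real.log x := by
    rw [← Real.log_pow]
    exact Real.log_le_log (by positivity) hj1R
  have hjp : (0 : ℝ) < (j : ℝ) * Real.log 2 := by
    have : (0 : ℝ) < j := by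
      have : 0 < j := by omega
      exact_mod_cast this
    positivity
  have hlt : c * (j * Real.log 2) ^ 2 < b * Real.log x ^ 2 := by
    have h1 : ((j : ℝ) * Real.log 2) ^ 2 ≤ Real.log x ^ 2 := pow_le_pow_left₀ hjp.le hlog 2
    have h2 : 0 < ((j : ℝ) * Real.log 2) ^ 2 := by positivity
    calc c * (j * Real.log 2) ^ 2 < b * (j * Real.log 2) ^ 2 := mul_lt_mul_of_pos_right hcb h2
      _ ≤ b * Real.log x ^ 2 := mul_le_mul_of_nonneg_left h1 (by linarith only [hγb, hγ0])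
  have hfl : ((⌊c * (j * Real.log 2) ^ 2⌋₊ : ℕ) : ℝ) ≤ c * (j * Real.log 2) ^ 2 := Nat.floor_le (by positivity)
  -- the gap after `u` is longer than the window
  have hgap : ∀ u ∈ U, ∃ u', Cons {m | ω ∈ A m} u u' ∧ u + ⌊c * (j * Real.log 2) ^ 2⌋₊ < u' := by
    intro u hu
    obtain ⟨_, _, u', hu', h3⟩ := hU1 u hu
    refine ⟨u', hu', ?_⟩
    have : ((u + ⌊c * (j * Real.log 2) ^ 2⌋₊ : ℕ) : ℝ) < u' := by
      push_cast
      linarith only [h3, hlt, hfl]
    exact_mod_cast this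
  refine hJ j (by omega) U hU2 ⟨U.min' hne, U.min'_mem hne, ?_, ?_, ?_⟩ ?_ ?_
  · have := (hU1 _ (U.min'_mem hne)).1
    omega
  · have h1 := (hU1 _ (U.min'_mem hne)).2.1
    have h2 : ((U.min' hne : ℕ) : ℝ) ≤ ((2 ^ (j + 2) : ℕ) : ℝ) := by
      push_cast
      rw [pow_succ _ (j + 1)]
      linarith only [h1, hγx, hj2R]
    exact_mod_cast h2
  · intro u hu
    have hmin := U.min'_le u hu
    refine ⟨hmin, ?_⟩
    have h1 := (hU1 u hu).2.1
    have h2 := (hU1 _ (U.min'_mem hne)).1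
    have h2' : (x : ℝ) ≤ (U.min' hne : ℕ) := by exact_mod_cast h2.le
    have h3 : u - U.min' hne ≤ ⌊((2 : ℝ) ^ (j + 1)) ^ γ⌋₊ := by
      apply Nat.le_floor
      rw [Nat.cast_sub hmin]
      linarith only [h1, h2', hγ2]
    omega
  · intro u hu v hv huv
    obtain ⟨u', hu', h3⟩ := hgap u hu
    obtain ⟨_, _, v', hv', _⟩ := hU1 v hv
    have := cons_sep hu' hv'.1 huv
    omega
  · intro m hm
    obtain ⟨u, hu, hum⟩ := Finset.mem_biUnion.1 hm
    obtain ⟨m1, m2⟩ := Finset.mem_Ioc.1 hum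
    obtain ⟨u', hu', h3⟩ := hgap u hu
    exact hu'.2.2.2 m m1 (by omega)

/-- **the upper bound for the number of long gaps** -/
theorem LG_upper (hA : ∀ n, MeasurableSet[ℱ n] (A n)) {W : ℕ} (hW : 0 < W)
    (hd : ∀ᵐ ω ∂μ, ∀ ε : ℝ, 0 < ε → ∀ᶠ n : ℕ in atTop, |dens μ ℱ A n ω - rhoW W (n + 1)| ≤ ε * rhoW W (n + 1))
    {γ b : ℝ} (hb0 : 0 < b) (hbγ : b < γ) (hγ1 : γ ≤ 1) {ε : ℝ} (hε : 0 < ε) :
    ∀ᵐ ω ∂μ, ∀ᶠ x : ℕ in atTop, ((LG {m | ω ∈ A m} x γ b).ncard : ℝ) ≤ (x : ℝ) ^ (γ - b + ε) := by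
  classical
  set a : ℝ := b - min (ε / 2) (b / 2) with ha
  have hm0 : 0 < min (ε / 2) (b / 2) := lt_min (by positivity) (by positivity)
  have hm1 : min (ε / 2) (b / 2) ≤ ε / 2 := min_le_left _ _
  have hm2 : min (ε / 2) (b / 2) ≤ b / 2 := min_le_right _ _
  have ha0 : 0 < a := by linarith only [ha, hm2, hb0]
  have hab : a < b := by linarith only [ha, hm0]
  have haε : γ - a < γ - b + ε := by linarith only [ha, hm1, hε]
  set b' : ℝ := (a + b) / 2 with hb'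
  have hab' : a < b' := by rw [hb']; linarith only [hab]
  have hb'b : b' < b := by rw [hb']; linarith only [hab]
  have ha1 : a < 1 := by linarith only [hab, hbγ, hγ1]
  obtain ⟨K, hK⟩ := exists_nat_gt ((1 - a) / (b' - a))
  have hK' : 1 - a < (K + 1) * (b' - a) := by
    rw [div_lt_iff₀ (by linarith only [hab'])] at hK
    have : (K : ℝ) * (b' - a) ≤ (K + 1) * (b' - a) := mul_le_mul_of_nonneg_right (by linarith only) (by linarith only [hab'])
    linarith only [hK, this]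
  filter_upwards [LG_few (μ := μ) (ℱ := ℱ) hA hW hd ha0 ha1 hab' hK'] with ω hω
  obtain ⟨x₀, hx₀⟩ := eventually_atTop.1 hω
  -- the comparison of the logarithms
  have hlogs : ∀ᶠ x : ℕ in atTop, b' * (Real.log x + 1) ^ 2 ≤ b * Real.log x ^ 2 := by
    have h1 : Tendsto (fun L : ℝ => b' * (1 + 1 / L) ^ 2) atTop (𝓝 (b' * (1 + 0) ^ 2)) :=
      ((((tendsto_const_nhds (x := (1 : ℝ))).div_atTop tendsto_id).const_add 1).pow 2).const_mul b'
    have h2 : b' * (1 + 0) ^ 2 < b := by rw [add_zero, one_pow, mul_one]; exact hb'b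
    have h3 := (h1.eventually (eventually_lt_nhds h2)).and (eventually_gt_atTop 0)
    have h4 : ∀ᶠ L : ℝ in atTop, b' * (L + 1) ^ 2 ≤ b * L ^ 2 := by
      filter_upwards [h3] with L ⟨g1, g2⟩
      have e : b' * (L + 1) ^ 2 = b' * (1 + 1 / L) ^ 2 * L ^ 2 := by field_simp
      rw [e]
      exact mul_le_mul_of_nonneg_right g1.le (by positivity)
    exact tendsto_log.eventually h4
  filter_upwards [eventually_ge_atTop x₀, hlogs, eventually_ge_atTop 2, ev_pow haε (5 * K + 1), ev_log 1] with x g1 g2 g3 g4 g5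
  have hxR : (2 : ℝ) ≤ x := by exact_mod_cast g3
  have hxp : (0 : ℝ) < x := by linarith only [hxR]
  have hxa : 1 ≤ (x : ℝ) ^ a := Real.one_le_rpow (by linarith only [hxR]) ha0.le
  have hγx : (x : ℝ) ^ γ ≤ x := by
    calc (x : ℝ) ^ γ ≤ (x : ℝ) ^ (1 : ℝ) := Real.rpow_le_rpow_of_exponent_le (by linarith only [hxR]) hγ1
      _ = x := Real.rpow_one _
  set D : ℕ := ⌊(x : ℝ) ^ a⌋₊ with hD
  have hD1 : 1 ≤ D := Nat.le_floor (by exact_mod_cast hxa)
  have hDle : (D : ℝ) ≤ (x : ℝ) ^ a := Nat.floor_le (by positivity)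
  have hDge : (x : ℝ) ^ a < D + 1 := Nat.lt_floor_add_one _
  have hD1R : (1 : ℝ) ≤ D := by exact_mod_cast hD1
  set M : ℕ := ⌊(x : ℝ) ^ γ⌋₊ / D + 1 with hM
  have hsub : LG {m | ω ∈ A m} x γ b ⊆ ⋃ i ∈ Finset.range M, LG {m | ω ∈ A m} (x + i * D) a b' := by
    rintro q ⟨q1, q2, q', hq', q3⟩
    simp only [mem_iUnion]
    set i := (q - x - 1) / D with hi
    have hi1 : i * D ≤ q - x - 1 := Nat.div_mul_le_self _ _
    have hi2 : q - x - 1 < i * D + D := by
      have := Nat.lt_div_mul_add (a := q - x - 1) (b := D) (by omega)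
      exact this
    have hqx : q - x - 1 ≤ ⌊(x : ℝ) ^ γ⌋₊ := by
      have : q - x ≤ ⌊(x : ℝ) ^ γ⌋₊ := by
        apply Nat.le_floor
        rw [Nat.cast_sub q1.le]
        linarith only [q2]
      omega
    have hqx2 : (i * D : ℕ) ≤ ⌊(x : ℝ) ^ γ⌋₊ := hi1.trans hqx
    have hqx3 : ((i * D : ℕ) : ℝ) ≤ (x : ℝ) ^ γ := (Nat.cast_le.2 hqx2).trans (Nat.floor_le (by positivity))
    refine ⟨i, Finset.mem_range.2 ?_, ?_, ?_, q', hq', ?_⟩
    · have : i ≤ ⌊(x : ℝ) ^ γ⌋₊ / D := Nat.div_le_div_right hqx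
      omega
    · omega
    · have h1 : q ≤ x + i * D + D := by omega
      have h2 : (q : ℝ) ≤ ((x + i * D : ℕ) : ℝ) + D := by exact_mod_cast h1
      have h3 : (x : ℝ) ^ a ≤ ((x + i * D : ℕ) : ℝ) ^ a := Real.rpow_le_rpow hxp.le (by exact_mod_cast Nat.le_add_right _ _) ha0.le
      linarith only [h2, h3, hDle]
    · refine le_trans ?_ q3
      refine le_trans ?_ g2
      apply mul_le_mul_of_nonneg_left _ (by linarith only [hab', ha0])
      apply pow_le_pow_left₀ (Real.log_natCast_nonneg _)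
      have h4 : ((x + i * D : ℕ) : ℝ) ≤ 2 * x := by
        push_cast at hqx3 ⊢
        linarith only [hqx3, hγx]
      have h5 := Real.log_le_log (by push_cast; positivity) h4
      rw [Real.log_mul (by norm_num) hxp.ne'] at h5
      have := Real.log_two_lt_d9
      linarith only [h5, this]
  have hcard : (LG {m | ω ∈ A m} x γ b).ncard ≤ M * K := by
    have hfin : (⋃ i ∈ Finset.range M, LG {m | ω ∈ A m} (x + i * D) a b').Finite :=
      Set.Finite.biUnion (Finset.finite_toSet _) fun i _ => LG_finite _ _ _ _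
    refine (Set.ncard_le_ncard hsub hfin).trans ?_
    have h1 : ∀ (s : Finset ℕ), (⋃ i ∈ s, LG {m | ω ∈ A m} (x + i * D) a b').ncard ≤ s.card * K := by
      intro s
      induction s using Finset.induction_on with
      | empty => simp
      | insert i s his ih =>
        rw [Finset.set_biUnion_insert, Finset.card_insert_of_notMem his]
        refine (Set.ncard_union_le _ _).trans ?_
        have := hx₀ (x + i * D) (by omega)
        calc _ ≤ K + s.card * K := Nat.add_le_add this ih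
          _ = (s.card + 1) * K := by ring
    have h2 := h1 (Finset.range M)
    rwa [Finset.card_range] at h2
  have hMle : (M : ℝ) ≤ 2 * (x : ℝ) ^ (γ - a) + 1 := by
    have h1 : ((⌊(x : ℝ) ^ γ⌋₊ / D : ℕ) : ℝ) ≤ (⌊(x : ℝ) ^ γ⌋₊ : ℝ) / D := Nat.cast_div_le
    have h2 : (⌊(x : ℝ) ^ γ⌋₊ : ℝ) / D ≤ (x : ℝ) ^ γ / D := div_le_div_of_nonneg_right (Nat.floor_le (by positivity)) (by positivity)
    have h3 : (x : ℝ) ^ γ / D ≤ 2 * (x : ℝ) ^ (γ - a) := by
      rw [div_le_iff₀ (by positivity), Real.rpow_sub hxp]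
      have e : 2 * ((x : ℝ) ^ γ / (x : ℝ) ^ a) * D = (x : ℝ) ^ γ * (2 * D / (x : ℝ) ^ a) := by ring
      rw [e]
      have h4 : 1 ≤ 2 * D / (x : ℝ) ^ a := by
        rw [one_le_div (by positivity)]
        linarith only [hDge, hD1R]
      exact le_mul_of_one_le_right (by positivity) h4
    rw [hM]
    push_cast
    linarith only [h1, h2, h3]
  have hcard' : ((LG {m | ω ∈ A m} x γ b).ncard : ℝ) ≤ M * K := by exact_mod_cast hcard
  have hK0 : (0 : ℝ) ≤ K := Nat.cast_nonneg _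
  have hxγa : 1 ≤ (x : ℝ) ^ (γ - a) := Real.one_le_rpow (by linarith only [hxR]) (by linarith only [hab, hbγ])
  have h5 : (M : ℝ) * K ≤ (3 * (x : ℝ) ^ (γ - a)) * K := mul_le_mul_of_nonneg_right (by linarith only [hMle, hxγa]) hK0
  have h6 : (3 * (x : ℝ) ^ (γ - a)) * K ≤ (5 * K + 1) * (Real.log x + 1) * (x : ℝ) ^ (γ - a) := by
    have h7 : 0 ≤ (x : ℝ) ^ (γ - a) := by positivity
    have h8 : 3 * (K : ℝ) ≤ (5 * K + 1) * (Real.log x + 1) := by
      have : (5 * (K : ℝ) + 1) * 1 ≤ (5 * K + 1) * (Real.log x + 1) := mul_le_mul_of_nonneg_left (by linarith only [g5]) (by positivity)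
      linarith only [this, hK0]
    calc (3 * (x : ℝ) ^ (γ - a)) * K = 3 * K * (x : ℝ) ^ (γ - a) := by ring
      _ ≤ _ := mul_le_mul_of_nonneg_right h8 h7
  linarith only [hcard', h5, h6, g4]

/-- **the lower bound for the number of long gaps** -/
theorem LG_lower (hA : ∀ n, MeasurableSet[ℱ n] (A n)) {W : ℕ} (hW : 0 < W)
    (hd : ∀ᵐ ω ∂μ, ∀ ε : ℝ, 0 < ε → ∀ᶠ n : ℕ in atTop, |dens μ ℱ A n ω - rhoW W (n + 1)| ≤ ε * rhoW W (n + 1))
    {γ b : ℝ} (hb0 : 0 < b) (hbγ : b < γ) (hγ1 : γ ≤ 1) {ε : ℝ} (hε : 0 < ε) :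
    ∀ᵐ ω ∂μ, ∀ᶠ x : ℕ in atTop, (x : ℝ) ^ (γ - b - ε) ≤ ((LG {m | ω ∈ A m} x γ b).ncard : ℝ) := by
  classical
  set g : ℝ := b + min (ε / 2) ((γ - b) / 2) with hg
  have hm0 : 0 < min (ε / 2) ((γ - b) / 2) := lt_min (by positivity) (by linarith only [hbγ])
  have hm1 : min (ε / 2) ((γ - b) / 2) ≤ ε / 2 := min_le_left _ _
  have hm2 : min (ε / 2) ((γ - b) / 2) ≤ (γ - b) / 2 := min_le_right _ _
  have hbg : b < g := by linarith only [hg, hm0]
  have hgγ : g < γ := by linarith only [hg, hm2, hbγ]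
  have hg0 : 0 < g := by linarith only [hbg, hb0]
  have hg1 : g < 1 := by linarith only [hgγ, hγ1]
  have hgε : γ - b - ε < γ - g := by linarith only [hg, hm1, hε]
  set c : ℝ := (b + g) / 2 with hc
  have hbc : b < c := by rw [hc]; linarith only [hbg]
  have hcg : c < g := by rw [hc]; linarith only [hbg]
  filter_upwards [cons_lower (μ := μ) (ℱ := ℱ) hA hW hd (by linarith only [hbc, hb0]) hcg hg1] with ω hω
  obtain ⟨x₀, hx₀⟩ := eventually_atTop.1 hω
  filter_upwards [eventually_ge_atTop x₀, eventually_ge_atTop 2, ev_pow hgε 8, ev_log 1,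
    ev_pow (a := 0) (b := γ - g) (by linarith only [hgγ]) 8] with x g1 g3 g4 g5 g6
  have hxR : (2 : ℝ) ≤ x := by exact_mod_cast g3
  have hxp : (0 : ℝ) < x := by linarith only [hxR]
  have hγx : (x : ℝ) ^ γ ≤ x := by
    calc (x : ℝ) ^ γ ≤ (x : ℝ) ^ (1 : ℝ) := Real.rpow_le_rpow_of_exponent_le (by linarith only [hxR]) hγ1
      _ = x := Real.rpow_one _
  set D : ℕ := ⌈(2 * (x : ℝ)) ^ g⌉₊ with hD
  have hDge : (2 * (x : ℝ)) ^ g ≤ D := Nat.le_ceil _
  have h2g : (1 : ℝ) ≤ (x : ℝ) ^ g := Real.one_le_rpow (by linarith only [hxR]) hg0.le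
  have hDle : (D : ℝ) ≤ 3 * (x : ℝ) ^ g := by
    have h1 : (D : ℝ) ≤ (2 * (x : ℝ)) ^ g + 1 := (Nat.ceil_lt_add_one (by positivity)).le
    have h2 : (2 * (x : ℝ)) ^ g ≤ 2 * (x : ℝ) ^ g := by
      rw [Real.mul_rpow (by norm_num) hxp.le]
      apply mul_le_mul_of_nonneg_right _ (by positivity)
      calc (2 : ℝ) ^ g ≤ 2 ^ (1 : ℝ) := Real.rpow_le_rpow_of_exponent_le (by norm_num) hg1.le
        _ = 2 := Real.rpow_one _
    linarith only [h1, h2, h2g]
  have hD0 : (0 : ℝ) < D := lt_of_lt_of_le (by positivity) hDge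
  have hD0' : 0 < D := by exact_mod_cast hD0
  set M : ℕ := ⌊(x : ℝ) ^ γ / D⌋₊ with hM
  have hMle : (M : ℝ) ≤ (x : ℝ) ^ γ / D := Nat.floor_le (by positivity)
  have hMge : (x : ℝ) ^ γ / D < M + 1 := Nat.lt_floor_add_one _
  rw [le_div_iff₀ hD0] at hMle
  have hpt : ∀ i < M, ∃ q, q ∈ LG {m | ω ∈ A m} x γ b ∧ x + i * D < q ∧ q ≤ x + (i + 1) * D := by
    intro i hi
    obtain ⟨q, q', hq, q1, q2, q3⟩ := hx₀ (x + i * D) (by omega)
    have hiM : ((i : ℝ) + 1) ≤ M := by exact_mod_cast hi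
    have h1 : ((x + i * D : ℕ) : ℝ) ≤ 2 * x := by
      push_cast
      have : (i : ℝ) * D ≤ M * D := mul_le_mul_of_nonneg_right (by linarith only [hiM]) hD0.le
      linarith only [this, hMle, hγx]
    have h2 : ((x + i * D : ℕ) : ℝ) ^ g ≤ D := (Real.rpow_le_rpow (Nat.cast_nonneg _) h1 hg0.le).trans hDge
    have h3 : (q' : ℝ) ≤ ((x + (i + 1) * D : ℕ) : ℝ) := by
      push_cast at q2 h2 ⊢
      linarith only [q2, h2]
    have h3' : q' ≤ x + (i + 1) * D := by exact_mod_cast h3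
    have h4 : q < q' := hq.2.2.1
    refine ⟨q, ⟨by nlinarith only [q1, Nat.zero_le (i * D)], ?_, q', hq, ?_⟩, q1, by omega⟩
    · have h5 : (q : ℝ) ≤ ((x + (i + 1) * D : ℕ) : ℝ) := by exact_mod_cast (h4.le.trans h3')
      push_cast at h5
      have h6 : ((i : ℝ) + 1) * D ≤ M * D := mul_le_mul_of_nonneg_right hiM hD0.le
      linarith only [h5, h6, hMle]
    · refine le_trans ?_ q3.le
      have h5 : Real.log (x : ℝ) ≤ Real.log ((x + i * D : ℕ) : ℝ) := Real.log_le_log hxp (by exact_mod_cast Nat.le_add_right _ _)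
      have h6 : Real.log (x : ℝ) ^ 2 ≤ Real.log ((x + i * D : ℕ) : ℝ) ^ 2 := pow_le_pow_left₀ (by linarith only [g5]) h5 2
      calc b * Real.log (x : ℝ) ^ 2 ≤ c * Real.log (x : ℝ) ^ 2 := mul_le_mul_of_nonneg_right hbc.le (by positivity)
        _ ≤ _ := mul_le_mul_of_nonneg_left h6 (by linarith only [hbc, hb0])
  choose! f hf using hpt
  have hinj : Set.InjOn f (Finset.range M : Set ℕ) := by
    intro i hi i' hi' hff
    have hi1 := Finset.mem_range.1 (Finset.mem_coe.1 hi)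
    have hi2 := Finset.mem_range.1 (Finset.mem_coe.1 hi')
    obtain ⟨_, a1, a2⟩ := hf i hi1
    obtain ⟨_, b1, b2⟩ := hf i' hi2
    rw [hff] at a1 a2
    rcases lt_trichotomy i i' with h | h | h
    · have : (i + 1) * D ≤ i' * D := Nat.mul_le_mul_right _ h
      omega
    · exact h
    · have : (i' + 1) * D ≤ i * D := Nat.mul_le_mul_right _ h
      omega
  have hcard : M ≤ (LG {m | ω ∈ A m} x γ b).ncard := by
    have h1 : ((Finset.range M).image f : Set ℕ) ⊆ LG {m | ω ∈ A m} x γ b := by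
      intro q hq
      obtain ⟨i, hi, rfl⟩ := Finset.mem_image.1 (Finset.mem_coe.1 hq)
      exact (hf i (Finset.mem_range.1 hi)).1
    have h2 := Set.ncard_le_ncard h1 (LG_finite _ _ _ _)
    rwa [Set.ncard_coe_finset, Finset.card_image_of_injOn hinj, Finset.card_range] at h2
  have hcard' : (M : ℝ) ≤ ((LG {m | ω ∈ A m} x γ b).ncard : ℝ) := by exact_mod_cast hcard
  have h7 : (x : ℝ) ^ (γ - g) / 3 ≤ (x : ℝ) ^ γ / D := by
    rw [Real.rpow_sub hxp, div_div]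
    apply div_le_div_of_nonneg_left (by positivity) hD0
    linarith only [hDle]
  rw [Real.rpow_zero, mul_one] at g6
  have h8 : 8 * (Real.log (x : ℝ) + 1) * (x : ℝ) ^ (γ - b - ε) ≤ (x : ℝ) ^ (γ - g) := g4
  have h9 : 8 * 1 * (x : ℝ) ^ (γ - b - ε) ≤ 8 * (Real.log (x : ℝ) + 1) * (x : ℝ) ^ (γ - b - ε) := by
    apply mul_le_mul_of_nonneg_right _ (by positivity)
    linarith only [g5]
  have h10 : (8 : ℝ) ≤ (x : ℝ) ^ (γ - g) := by
    linarith only [g6, g5]
  have h11 : 0 ≤ (x : ℝ) ^ (γ - b - ε) := by positivity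
  linarith only [hcard', hMge, h7, h8, h9, h10, h11]

end Pool.Agent.R291.RMW
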