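import Mathlib
import Pool.Agent.R291.RMW.W5

set_option autoImplicit false
set_option linter.unusedSectionVars false
set_option linter.unusedVariables false

/-! # Counts between squares -/

open MeasureTheory Filter Set
open scoped ENNReal Topology

namespace Pool.Agent.R291.RMW

open Pool.Agent.R528.RM

variable {Ω : Type} {m0 : MeasurableSpace Ω} {μ : Measure Ω} [IsProbabilityMeasure μ]
  {ℱ : Filtration ℕ m0} {A : ℕ → Set Ω}

/-- the law of large numbers between nearby squares -/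
theorem sq_count (hA : ∀ n, MeasurableSet[ℱ n] (A n)) {W : ℕ} (hW : 0 < W)
    (hd : ∀ᵐ ω ∂μ, ∀ ε : ℝ, 0 < ε → ∀ᶠ n : ℕ in atTop, |dens μ ℱ A n ω - rhoW W (n + 1)| ≤ ε * rhoW W (n + 1)) (K : ℕ) :
    ∀ᵐ ω ∂μ, ∀ ε : ℝ, 0 < ε → ∀ᶠ s : ℕ in atTop, ∀ t : ℕ, s < t → (t : ℝ) ≤ s + Real.log s ^ K →
      |Ncl A (sqw s t) ω - ((t : ℝ) ^ 2 - (s : ℝ) ^ 2) / (2 * Real.log s)| ≤ ε * (((t : ℝ) ^ 2 - (s : ℝ) ^ 2) / (2 * Real.log s)) := by
  filter_upwards [sq_upper (μ := μ) (ℱ := ℱ) hA hW hd K, hd] with ω h1 h2 ε hε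
  set η : ℝ := min (ε / 4) 1 with hη
  have hη0 : 0 < η := lt_min (by positivity) one_pos
  have hη1 : η ≤ 1 := min_le_right _ _
  have hηε : 4 * η ≤ ε := by
    have : η ≤ ε / 4 := min_le_left _ _
    linarith
  obtain ⟨n₀, hn₀⟩ := eventually_atTop.1 (h2 η hη0)
  filter_upwards [h1 1 one_pos, sqw_mean hW K hη0 hη1, ev_log 1, eventually_ge_atTop (n₀ + 1),
    (lin_log_top one_pos).eventually_ge_atTop (16 / η ^ 2)] with s g1 g2 g3 g4 g5 t hst ht
  have hl : 0 < Real.log (s : ℝ) := by linarith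
  have hs1 : (1 : ℝ) ≤ s := by exact_mod_cast (by omega : 1 ≤ s)
  have hst' : (s : ℝ) + 1 ≤ t := by exact_mod_cast hst
  obtain ⟨k1, k2⟩ := g2 t hst ht
  have k3 := g1 t hst ht
  set D : ℝ := (t : ℝ) ^ 2 - (s : ℝ) ^ 2 with hD
  have hDs : 2 * (s : ℝ) ≤ D := by rw [hD]; nlinarith
  have hDp : 0 < D := by linarith
  set E : ℝ := D / (2 * Real.log s) with hE
  have hEp : 0 < E := by positivity
  have hVS : |VS μ ℱ A (sqw s t) ω - vR W (sqw s t)| ≤ η * vR W (sqw s t) := by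
    unfold VS vR
    rw [← Finset.sum_sub_distrib, Finset.mul_sum]
    refine (Finset.abs_sum_le_sum_abs _ _).trans (Finset.sum_le_sum fun m hm => ?_)
    have g6 := (Finset.mem_Ioc.1 hm).1
    have g7 : n₀ ≤ m - 1 := by
      have : s ≤ s ^ 2 := by nlinarith
      omega
    have g8 := hn₀ (m - 1) g7
    rwa [show m - 1 + 1 = m by omega] at g8
  have hCS : |CS μ ℱ A (sqw s t) ω| ≤ η * E := by
    refine k3.trans ?_
    rw [one_mul, le_div_iff₀ (by positivity)] at g5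
    have e1 : 16 / η ^ 2 * Real.log (s : ℝ) ^ 2 ≤ D / 2 := by linarith
    have e2 : (2 : ℝ) * √D ≤ η * E := by
      have e3 : √D * √D = D := Real.mul_self_sqrt hDp.le
      have e4 : 4 * Real.log (s : ℝ) ≤ η * √D := by
        apply le_of_sq_le_sq _ (by positivity)
        rw [mul_pow, mul_pow, Real.sq_sqrt hDp.le]
        have := mul_le_mul_of_nonneg_left e1 (show 0 ≤ η ^ 2 by positivity)
        have e : η ^ 2 * (16 / η ^ 2 * Real.log (s : ℝ) ^ 2) = 4 ^ 2 * Real.log (s : ℝ) ^ 2 := by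
          field_simp
          norm_num
        nlinarith
      have e5 : √D * (4 * Real.log (s : ℝ)) ≤ √D * (η * √D) := mul_le_mul_of_nonneg_left e4 (Real.sqrt_nonneg _)
      rw [hE, mul_div_assoc', le_div_iff₀ (by positivity)]
      nlinarith
    linarith
  have h6 : Ncl A (sqw s t) ω = CS μ ℱ A (sqw s t) ω + VS μ ℱ A (sqw s t) ω := by
    rw [CS_eq]
    ring
  have h7 : η * vR W (sqw s t) ≤ η * (2 * E) := by
    apply mul_le_mul_of_nonneg_left _ hη0.le
    refine k2.trans ?_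
    apply mul_le_mul_of_nonneg_right _ hEp.le
    linarith
  rw [h6]
  have a1 := abs_le.1 hCS
  have a2 := abs_le.1 hVS
  have a3 : 4 * (η * E) ≤ ε * E := by nlinarith
  rw [abs_le]
  constructor
  · nlinarith [a1.1, a2.1]
  · nlinarith [a1.2, a2.2]

/-- windows between the squares of the terms of a sequence -/
lemma wd_seq {t : ℕ → ℕ} (ht : StrictMono t) {κ : ℝ} (hκ : 0 < κ)
    (hlog : Tendsto (fun n : ℕ => Real.log (t n) / Real.log n) atTop (𝓝 κ)) :
    Wd (fun n => t n ^ 2) (fun n => t (n + 1) ^ 2 - 1) (2 * κ) := by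
  have hge : ∀ n, n ≤ t n := ht.id_le
  have hstep : ∀ n, t n + 1 ≤ t (n + 1) := fun n => ht (Nat.lt_succ_self n)
  have hsq : ∀ n, t n ^ 2 + 2 * t n + 1 ≤ t (n + 1) ^ 2 := by
    intro n
    have := Nat.pow_le_pow_left (hstep n) 2
    have e : (t n + 1) ^ 2 = t n ^ 2 + 2 * t n + 1 := by ring
    omega
  have hcast : ∀ n, ((t (n + 1) ^ 2 - 1 : ℕ) : ℝ) = (t (n + 1) : ℝ) ^ 2 - 1 := by
    intro n
    rw [Nat.cast_sub (by have := hsq n; omega)]
    push_cast
    ring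
  have hl1 : Tendsto (fun n : ℕ => Real.log ((t n : ℝ) ^ 2) / Real.log n) atTop (𝓝 (2 * κ)) := by
    refine (hlog.const_mul 2).congr fun n => ?_
    rw [Real.log_pow]
    push_cast
    ring
  have hsucc : Tendsto (fun n : ℕ => Real.log ((n + 1 : ℕ) : ℝ) / Real.log n) atTop (𝓝 1) := by
    have h1 : Tendsto (fun n : ℕ => 1 + Real.log 2 / Real.log n) atTop (𝓝 (1 + 0)) := (tendsto_log.const_div_atTop _).const_add 1
    rw [add_zero] at h1
    refine tendsto_of_tendsto_of_tendsto_of_le_of_le' tendsto_const_nhds h1 ?_ ?_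
    · filter_upwards [tendsto_log.eventually_gt_atTop 0, eventually_gt_atTop 0] with n g1 g2
      rw [le_div_iff₀ g1, one_mul]
      exact Real.log_le_log (by exact_mod_cast g2) (by push_cast; linarith)
    · filter_upwards [tendsto_log.eventually_gt_atTop 0, eventually_gt_atTop 0] with n g1 g2
      have hn : (1 : ℝ) ≤ n := by exact_mod_cast g2
      rw [div_le_iff₀ g1, add_mul, one_mul, div_mul_cancel₀ _ g1.ne', ← Real.log_mul (by linarith) (by norm_num)]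
      apply Real.log_le_log (by positivity)
      push_cast
      linarith
  have hl2 : Tendsto (fun n : ℕ => Real.log ((t (n + 1) : ℝ) ^ 2) / Real.log n) atTop (𝓝 (2 * κ)) := by
    have h1 := (hl1.comp (tendsto_add_atTop_nat 1)).mul hsucc
    rw [mul_one] at h1
    refine h1.congr' ?_
    filter_upwards [(tendsto_log.comp (tendsto_add_atTop_nat 1)).eventually_gt_atTop 0] with n hn
    have hn : 0 < Real.log ((n + 1 : ℕ) : ℝ) := hn
    simp only [Function.comp]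
    field_simp
  refine ⟨by positivity, Eventually.of_forall fun n => ?_, ?_, ?_, ?_, Eventually.of_forall fun n => ?_⟩
  · have := hsq n
    omega
  · refine hl1.congr fun n => ?_
    push_cast
    rfl
  · apply log_ratio_of_close hl2
    filter_upwards [eventually_ge_atTop 1] with n hn
    have h2 : (2 : ℝ) ≤ t (n + 1) := by
      have := hge (n + 1)
      exact_mod_cast (by omega : 2 ≤ t (n + 1))
    rw [hcast]
    exact ⟨by positivity, by nlinarith, by nlinarith⟩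
  · refine tendsto_atTop_mono' _ ?_ (lin_log_top (show (0 : ℝ) < 2 by norm_num))
    filter_upwards [eventually_ge_atTop 1] with n hn
    rw [hcast]
    apply div_le_div_of_nonneg_right _ (by positivity)
    push_cast
    have h2 : (n : ℝ) ≤ t n := by exact_mod_cast hge n
    have h3 : (t n : ℝ) ^ 2 + 2 * t n + 1 ≤ (t (n + 1) : ℝ) ^ 2 := by exact_mod_cast hsq n
    linarith
  · show t (n + 1) ^ 2 - 1 ≤ t (n + 1) ^ 2
    omega

/-- the exact order of the extreme deviations between the squares of the terms of a sequence -/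
theorem seq_law (hA : ∀ n, MeasurableSet[ℱ n] (A n)) {W : ℕ} (hW : 0 < W)
    (hd : ∀ᵐ ω ∂μ, ∀ ε : ℝ, 0 < ε → ∀ᶠ n : ℕ in atTop, |dens μ ℱ A n ω - rhoW W (n + 1)| ≤ ε * rhoW W (n + 1))
    {t : ℕ → ℕ} (ht : StrictMono t) {κ : ℝ} (hκ : 0 < κ)
    (hlog : Tendsto (fun n : ℕ => Real.log (t n) / Real.log n) atTop (𝓝 κ)) :
    ∀ᵐ ω ∂μ, ∀ ε : ℝ, 0 < ε →
      (∀ᶠ n : ℕ in atTop, |CS μ ℱ A (sqw (t n) (t (n + 1))) ω| ≤ (1 + ε) * √(((t (n + 1) : ℝ) ^ 2 - (t n : ℝ) ^ 2) / κ)) ∧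
      (∀ᶠ j : ℕ in atTop, ∃ n : ℕ, 2 ^ j < n ∧ n ≤ 2 ^ (j + 1) ∧
        (1 - ε) * √(((t (n + 1) : ℝ) ^ 2 - (t n : ℝ) ^ 2) / κ) ≤ CS μ ℱ A (sqw (t n) (t (n + 1))) ω) := by
  have hwd := wd_seq ht hκ hlog
  have hge : ∀ n, n ≤ t n := ht.id_le
  have hstep : ∀ n, t n + 1 ≤ t (n + 1) := fun n => ht (Nat.lt_succ_self n)
  have hcast : ∀ n, ((t (n + 1) ^ 2 - 1 : ℕ) : ℝ) = (t (n + 1) : ℝ) ^ 2 - 1 := by
    intro n
    have : 1 ≤ t (n + 1) ^ 2 := by
      have := hstep n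
      nlinarith
    rw [Nat.cast_sub this]
    push_cast
    ring
  filter_upwards [wd_law (μ := μ) (ℱ := ℱ) hA hW hd hwd] with ω h1 ε hε
  have hDge : ∀ n : ℕ, 2 * (n : ℝ) + 1 ≤ (t (n + 1) : ℝ) ^ 2 - (t n : ℝ) ^ 2 := by
    intro n
    have h1 : (t n : ℝ) + 1 ≤ t (n + 1) := by exact_mod_cast hstep n
    have h2 : (n : ℝ) ≤ t n := by exact_mod_cast hge n
    have h3 : (0 : ℝ) ≤ n := Nat.cast_nonneg _
    nlinarith
  constructor
  · filter_upwards [(h1 ε hε).1] with n g1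
    refine g1.trans ?_
    apply mul_le_mul_of_nonneg_left _ (by linarith)
    apply Real.sqrt_le_sqrt
    rw [hcast]
    push_cast
    rw [show 2 / (2 * κ) * ((t (n + 1) : ℝ) ^ 2 - 1 - (t n : ℝ) ^ 2) = ((t (n + 1) : ℝ) ^ 2 - 1 - (t n : ℝ) ^ 2) / κ by field_simp]
    apply div_le_div_of_nonneg_right _ hκ.le
    linarith
  · set η : ℝ := min (ε / 2) (1 / 2) with hη
    have hη0 : 0 < η := lt_min (by positivity) (by norm_num)
    have hη1 : η ≤ 1 / 2 := min_le_right _ _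
    have hηε : 2 * η ≤ ε := by
      have : η ≤ ε / 2 := min_le_left _ _
      linarith
    have h2j : Tendsto (fun j : ℕ => 2 ^ j) atTop atTop := tendsto_pow_atTop_atTop_of_one_lt (by norm_num)
    filter_upwards [(h1 η hη0).2, h2j.eventually_ge_atTop ⌈1 / η⌉₊] with j ⟨n, g1, g2, g3⟩ g4
    refine ⟨n, g1, g2, le_trans ?_ g3⟩
    rw [hcast]
    push_cast
    rw [show 2 / (2 * κ) * ((t (n + 1) : ℝ) ^ 2 - 1 - (t n : ℝ) ^ 2) = ((t (n + 1) : ℝ) ^ 2 - 1 - (t n : ℝ) ^ 2) / κ by field_simp]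
    set D : ℝ := (t (n + 1) : ℝ) ^ 2 - (t n : ℝ) ^ 2 with hD
    have e0 : (t (n + 1) : ℝ) ^ 2 - 1 - (t n : ℝ) ^ 2 = D - 1 := by rw [hD]; ring
    rw [e0]
    have hn : 1 / η ≤ (n : ℝ) := by
      have h5 := Nat.le_ceil (1 / η)
      have h6 : ((⌈1 / η⌉₊ : ℕ) : ℝ) ≤ n := by exact_mod_cast (by omega : ⌈1 / η⌉₊ ≤ n)
      linarith
    rw [div_le_iff₀ hη0] at hn
    have h7 := hDge n
    have hn0 : (0 : ℝ) ≤ n := Nat.cast_nonneg _
    have hDp : 0 < D := by linarith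
    have e1 : (1 - η) * D ≤ D - 1 := by nlinarith
    have e2 : (1 - η) * √(D / κ) ≤ √((D - 1) / κ) := by
      apply Real.le_sqrt_of_sq_le
      rw [mul_pow, Real.sq_sqrt (by positivity)]
      have e3 : (1 - η) ^ 2 ≤ 1 - η := by nlinarith
      calc (1 - η) ^ 2 * (D / κ) ≤ (1 - η) * (D / κ) := mul_le_mul_of_nonneg_right e3 (by positivity)
        _ = (1 - η) * D / κ := by ring
        _ ≤ (D - 1) / κ := div_le_div_of_nonneg_right e1 hκ.le
    have e4 := mul_le_mul_of_nonneg_left e2 (show 0 ≤ 1 - η by linarith)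
    refine le_trans ?_ e4
    rw [← mul_assoc]
    apply mul_le_mul_of_nonneg_right _ (Real.sqrt_nonneg _)
    nlinarith

end Pool.Agent.R291.RMW
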