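import Mathlib
import Pool.Agent.R291.RMW.V1

set_option autoImplicit false
set_option linter.unusedSectionVars false
set_option linter.unusedVariables false

/-! # Sets of positions that depend on the past -/

open MeasureTheory Filter Set
open scoped ENNReal Topology

namespace Pool.Agent.R291.RMW

open Pool.Agent.R528.RM

variable {Ω : Type} {m0 : MeasurableSpace Ω} {μ : Measure Ω} [IsProbabilityMeasure μ]
  {ℱ : Filtration ℕ m0} {A : ℕ → Set Ω}

open Classical in
/-- the lower profile on `R` -/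
noncomputable def lR (W : ℕ) (δ : ℝ) (R : Finset ℕ) (n : ℕ) : ℝ := if n ∈ R then lp W δ n else 0

open Classical in
/-- the upper profile on `R` -/
noncomputable def uR (W : ℕ) (δ : ℝ) (R : Finset ℕ) (n : ℕ) : ℝ := if n ∈ R then up W δ n else 0

lemma up_nonneg (W : ℕ) {δ : ℝ} (hδ : 0 ≤ δ) (n : ℕ) : 0 ≤ up W δ n :=
  le_min zero_le_one (mul_nonneg (by linarith) (rhoW_nonneg W n))

lemma uR_nonneg (W : ℕ) {δ : ℝ} (hδ : 0 ≤ δ) (R : Finset ℕ) (n : ℕ) : 0 ≤ uR W δ R n := by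
  unfold uR
  split_ifs
  · exact up_nonneg W hδ n
  · exact le_rfl

lemma uR_le_one (W : ℕ) (δ : ℝ) (R : Finset ℕ) (n : ℕ) : uR W δ R n ≤ 1 := by
  unfold uR
  split_ifs
  · exact min_le_left _ _
  · exact zero_le_one

lemma lR_le_one (W : ℕ) {δ : ℝ} (hδ0 : 0 ≤ δ) (R : Finset ℕ) (n : ℕ) : lR W δ R n ≤ 1 := by
  unfold lR
  split_ifs
  · have h1 := rhoW_le W n
    have h2 := rhoW_nonneg W n
    unfold Pool.Agent.R528.RM.lp
    nlinarith only [h1, h2, hδ0]
  · exact zero_le_one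

lemma rA_cnt {R : Finset ℕ} {y h : ℕ} (hR : R ⊆ Finset.Ioc y (y + h)) (ω : Ω) :
    cnt (rA A R) y h ω = 0 ↔ ∀ m ∈ R, ω ∉ A m := by
  classical
  unfold cnt
  rw [Finset.sum_eq_zero_iff]
  constructor
  · intro h1 m hm hcon
    obtain ⟨m1, m2⟩ := Finset.mem_Ioc.1 (hR hm)
    have h2 := h1 (m - (y + 1)) (Finset.mem_range.2 (by omega))
    rw [show y + 1 + (m - (y + 1)) = m by omega] at h2
    have h3 : ω ∈ rA A R m := by
      unfold rA
      rw [if_pos hm]
      exact hcon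
    rw [if_pos h3] at h2
    exact one_ne_zero h2
  · intro h1 r _
    rw [if_neg]
    unfold rA
    split_ifs with h3
    · exact h1 _ h3
    · exact notMem_empty ω

lemma rA_WV {W : ℕ} {δ : ℝ} (R : Finset ℕ) (y h : ℕ) :
    WV (VB μ ℱ (rA A R) (lR W δ R) (uR W δ R)) y h ⊆ WV (VB μ ℱ A (lp W δ) (up W δ)) y h := by
  rintro ω ⟨n, n1, n2, n3⟩
  refine ⟨n, n1, n2, ?_⟩
  unfold Pool.Agent.R528.RM.VB at n3 ⊢
  simp only [mem_ofPred_eq] at n3 ⊢
  rw [dens_rA] at n3
  unfold lR uR at n3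
  by_cases h3 : n + 1 ∈ R
  · rwa [if_pos h3, if_pos h3, if_pos h3] at n3
  · rw [if_neg h3, if_neg h3, if_neg h3] at n3
    exact absurd ⟨le_rfl, le_rfl⟩ n3

lemma sum_on_R {R : Finset ℕ} {y h : ℕ} (hR : R ⊆ Finset.Ioc y (y + h)) (f : ℕ → ℝ) (hf : ∀ m, m ∉ R → f m = 0) :
    ∑ i ∈ Finset.range h, f (y + 1 + i) = ∑ m ∈ R, f m := by
  classical
  have e2 : Finset.Ioc y (y + h) = (Finset.range h).image (fun i => y + 1 + i) := by
    ext m
    simp only [Finset.mem_Ioc, Finset.mem_image, Finset.mem_range]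
    constructor
    · rintro ⟨a1, a2⟩
      exact ⟨m - (y + 1), by omega, by omega⟩
    · rintro ⟨i, i1, rfl⟩
      omega
  rw [Finset.sum_subset hR (fun m _ hm => hf m hm), e2, Finset.sum_image (by intro a _ b _ hab; simpa using hab)]

/-- the conditional probability of an empty set of positions, from above -/
theorem cond_empty_le (hA : ∀ n, MeasurableSet[ℱ n] (A n)) {W : ℕ} {δ : ℝ} (hδ0 : 0 < δ) (hδ1 : δ ≤ 1 / 4)
    {y h : ℕ} {R : Finset ℕ} (hR : R ⊆ Finset.Ioc y (y + h)) {B : Set Ω} (hB : MeasurableSet[ℱ y] B) :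
    μ.real ((B ∩ {ω | ∀ m ∈ R, ω ∉ A m}) \ WV (VB μ ℱ A (lp W δ) (up W δ)) y h) ≤
      Real.exp (-((1 - δ - δ * (1 + δ)) * vR W R)) * μ.real B := by
  classical
  have h2 := cnt_mgf (μ := μ) (ℱ := ℱ) (rA_meas hA R) (lR_le_one W hδ0.le R) (uR_nonneg W hδ0.le R) hδ0 h y B hB
  have h3 : μ.real ((B ∩ {ω | cnt (rA A R) y h ω = 0}) \ WV (VB μ ℱ (rA A R) (lR W δ R) (uR W δ R)) y h) ≤
      (∏ i ∈ Finset.range h, (1 + δ * uR W δ R (y + 1 + i) - lR W δ R (y + 1 + i))) * μ.real B := by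
    refine le_trans ?_ h2
    have h4 := Finset.single_le_sum (f := fun k => δ ^ k * μ.real ((B ∩ {ω | cnt (rA A R) y h ω = k}) \
      WV (VB μ ℱ (rA A R) (lR W δ R) (uR W δ R)) y h)) (fun k _ => mul_nonneg (pow_nonneg hδ0.le k) measureReal_nonneg)
      (Finset.mem_range.2 (Nat.succ_pos h))
    simp only [pow_zero, one_mul] at h4
    exact h4
  have h5 : μ.real ((B ∩ {ω | ∀ m ∈ R, ω ∉ A m}) \ WV (VB μ ℱ A (lp W δ) (up W δ)) y h) ≤
      μ.real ((B ∩ {ω | cnt (rA A R) y h ω = 0}) \ WV (VB μ ℱ (rA A R) (lR W δ R) (uR W δ R)) y h) := by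
    apply measureReal_mono _ (measure_ne_top _ _)
    rintro ω ⟨⟨w1, w2⟩, w3⟩
    exact ⟨⟨w1, (rA_cnt hR ω).2 w2⟩, fun h' => w3 (rA_WV R y h h')⟩
  refine h5.trans (h3.trans ?_)
  apply mul_le_mul_of_nonneg_right _ measureReal_nonneg
  have h6 : ∏ i ∈ Finset.range h, (1 + δ * uR W δ R (y + 1 + i) - lR W δ R (y + 1 + i)) ≤
      Real.exp (∑ i ∈ Finset.range h, (δ * uR W δ R (y + 1 + i) - lR W δ R (y + 1 + i))) := by
    rw [Real.exp_sum]
    apply Finset.prod_le_prod
    · intro i _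
      have g1 := lR_le_one W hδ0.le R (y + 1 + i)
      have g2 := mul_nonneg hδ0.le (uR_nonneg W hδ0.le R (y + 1 + i))
      linarith only [g1, g2]
    · intro i _
      have := Real.add_one_le_exp (δ * uR W δ R (y + 1 + i) - lR W δ R (y + 1 + i))
      linarith only [this]
  refine h6.trans ?_
  apply Real.exp_le_exp.2
  have h7 := sum_on_R hR (fun m => δ * uR W δ R m - lR W δ R m) (by
    intro m hm
    unfold uR lR
    rw [if_neg hm, if_neg hm]
    ring)
  rw [h7]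
  unfold vR
  rw [Finset.mul_sum, ← Finset.sum_neg_distrib]
  apply Finset.sum_le_sum
  intro m hm
  unfold uR lR
  rw [if_pos hm, if_pos hm]
  have g1 : up W δ m ≤ (1 + δ) * rhoW W m := min_le_right _ _
  have g2 := mul_le_mul_of_nonneg_left g1 hδ0.le
  unfold Pool.Agent.R528.RM.lp
  linarith only [g1, g2]

/-- the conditional probability of an empty set of positions, from below -/
theorem cond_empty_ge (hA : ∀ n, MeasurableSet[ℱ n] (A n)) {W : ℕ} {δ : ℝ} (hδ0 : 0 < δ)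
    {y h : ℕ} {R : Finset ℕ} (hR : R ⊆ Finset.Ioc y (y + h)) {θ : ℝ} (hθ0 : 0 ≤ θ) (hθ1 : θ ≤ 1 / 2)
    (hsm : ∀ m ∈ R, up W δ m ≤ θ) {B : Set Ω} (hB : MeasurableSet[ℱ y] B) :
    Real.exp (-((1 + 2 * θ) * (1 + δ) * vR W R)) * μ.real B ≤
      μ.real (B ∩ ({ω | ∀ m ∈ R, ω ∉ A m} ∪ WV (VB μ ℱ A (lp W δ) (up W δ)) y h)) := by
  classical
  have h2 := cnt_ge_prof (μ := μ) (ℱ := ℱ) (l := lR W δ R) (rA_meas hA R) (uR_nonneg W hδ0.le R) (uR_le_one W δ R)
    (fun _ => False) (lm := 0) le_rfl (fun n h => h.elim) (fun n h => h.elim) h y 0 B hB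
  refine le_trans ?_ (h2.trans ?_)
  · apply mul_le_mul_of_nonneg_right _ measureReal_nonneg
    unfold Pool.Agent.R528.RM.Gb
    rw [Nat.choose_zero_right, pow_zero, Nat.cast_one, one_mul, one_mul]
    have h3 : -((1 + 2 * θ) * (1 + δ) * vR W R) ≤ ∑ i ∈ Finset.range h, -((1 + 2 * θ) * uR W δ R (y + 1 + i)) := by
      have h7 := sum_on_R hR (fun m => -((1 + 2 * θ) * uR W δ R m)) (by
        intro m hm
        unfold uR
        rw [if_neg hm]
        ring)
      rw [h7]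
      unfold vR
      rw [Finset.mul_sum, ← Finset.sum_neg_distrib]
      apply Finset.sum_le_sum
      intro m hm
      unfold uR
      rw [if_pos hm]
      have g1 : up W δ m ≤ (1 + δ) * rhoW W m := min_le_right _ _
      have g2 := mul_le_mul_of_nonneg_left g1 (show 0 ≤ 1 + 2 * θ by linarith)
      linarith only [g2]
    refine (Real.exp_le_exp.2 h3).trans ?_
    rw [Real.exp_sum]
    apply Finset.prod_le_prod
    · exact fun i _ => (Real.exp_pos _).le
    · intro i _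
      have hu0 := uR_nonneg W hδ0.le R (y + 1 + i)
      have huθ : uR W δ R (y + 1 + i) ≤ θ := by
        unfold uR
        split_ifs with h4
        · exact hsm _ h4
        · exact hθ0
      generalize uR W δ R (y + 1 + i) = u at hu0 huθ
      have h5 : 0 < 1 - u := by linarith only [huθ, hθ1]
      rw [← Real.le_log_iff_exp_le h5]
      have h6 := Real.one_sub_inv_le_log_of_pos h5
      refine le_trans ?_ h6
      rw [neg_le_iff_add_nonneg, ← sub_nonneg]
      have h8 : 1 - (1 - u)⁻¹ + (1 + 2 * θ) * u - 0 = (u / (1 - u)) * ((1 + 2 * θ) * (1 - u) - 1) := by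
        field_simp
        ring
      rw [h8]
      apply mul_nonneg (div_nonneg hu0 h5.le)
      nlinarith only [hu0, huθ, hθ0, hθ1]
  · apply measureReal_mono _ (measure_ne_top _ _)
    rintro ω ⟨w1, w2⟩
    refine ⟨w1, ?_⟩
    rcases w2 with w2 | w2
    · exact Or.inl ((rA_cnt hR ω).1 w2)
    · exact Or.inr (rA_WV R y h w2)

/-! ### the history -/

/-- the members up to `y` are those of `s` -/
def Ev (A : ℕ → Set Ω) (y : ℕ) (s : Finset ℕ) : Set Ω := {ω | ∀ k ≤ y, (ω ∈ A k ↔ k ∈ s)}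

lemma Ev_meas (hA : ∀ n, MeasurableSet[ℱ n] (A n)) (y : ℕ) (s : Finset ℕ) : MeasurableSet[ℱ y] (Ev A y s) := by
  have h1 : Ev A y s = ⋂ k ∈ Finset.range (y + 1), (if k ∈ s then A k else (A k)ᶜ) := by
    ext ω
    simp only [Ev, mem_ofPred_eq, mem_iInter, Finset.mem_range]
    constructor
    · intro h k hk
      have := h k (by omega)
      split_ifs with h2
      · exact this.2 h2
      · exact fun h3 => h2 (this.1 h3)
    · intro h k hk
      have := h k (by omega)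
      split_ifs at this with h2
      · exact ⟨fun _ => h2, fun _ => this⟩
      · exact ⟨fun h3 => absurd h3 this, fun h3 => absurd h3 h2⟩
  rw [h1]
  refine Finset.measurableSet_biInter _ fun k hk => ?_
  have hk' := Finset.mem_range.1 hk
  have h2 : MeasurableSet[ℱ y] (A k) := ℱ.mono (by omega) _ (hA k)
  split_ifs
  · exact h2
  · exact h2.compl

lemma Ev_disj (y : ℕ) : (↑((Finset.range (y + 1)).powerset) : Set (Finset ℕ)).PairwiseDisjoint (Ev A y) := by
  intro s hs t ht hst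
  rw [Function.onFun, Set.disjoint_left]
  intro ω w1 w2
  apply hst
  ext k
  have hs' := Finset.mem_powerset.1 (Finset.mem_coe.1 hs)
  have ht' := Finset.mem_powerset.1 (Finset.mem_coe.1 ht)
  constructor
  · intro hk
    have := Finset.mem_range.1 (hs' hk)
    exact (w2 k (by omega)).1 ((w1 k (by omega)).2 hk)
  · intro hk
    have := Finset.mem_range.1 (ht' hk)
    exact (w1 k (by omega)).1 ((w2 k (by omega)).2 hk)

lemma Ev_cover (y : ℕ) (ω : Ω) : ∃ s ∈ (Finset.range (y + 1)).powerset, ω ∈ Ev A y s := by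
  classical
  refine ⟨(Finset.range (y + 1)).filter (fun k => ω ∈ A k), Finset.mem_powerset.2 (Finset.filter_subset _ _), ?_⟩
  intro k hk
  rw [Finset.mem_filter, Finset.mem_range]
  exact ⟨fun h => ⟨by omega, h⟩, fun h => h.2⟩

lemma sum_Ev (hA : ∀ n, MeasurableSet[ℱ n] (A n)) (y : ℕ) {B : Set Ω} (hB : MeasurableSet B) :
    μ.real B = ∑ s ∈ (Finset.range (y + 1)).powerset, μ.real (B ∩ Ev A y s) := by
  have hm : ∀ s ∈ (Finset.range (y + 1)).powerset, MeasurableSet (B ∩ Ev A y s) := fun s _ =>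
    hB.inter (ℱ.le y _ (Ev_meas hA y s))
  have hdj : (↑((Finset.range (y + 1)).powerset) : Set (Finset ℕ)).PairwiseDisjoint (fun s => B ∩ Ev A y s) := by
    intro s hs t ht hst
    exact (Ev_disj y hs ht hst).mono inter_subset_right inter_subset_right
  rw [← measureReal_biUnion_finset hdj hm (fun s _ => measure_ne_top _ _)]
  congr 1
  ext ω
  simp only [mem_iUnion]
  constructor
  · intro h
    obtain ⟨s, hs, hω⟩ := Ev_cover (A := A) y ω
    exact ⟨s, hs, h, hω⟩
  · rintro ⟨s, _, h, _⟩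
    exact h

/-- the positions `N - p`, `p ∈ s` -/
def RN (N y : ℕ) (s : Finset ℕ) : Finset ℕ := (Finset.Ioc (N - y - 1) (N - 1)).filter (fun m => N - m ∈ s)

/-- the sum of the densities over the positions -/
noncomputable def VN (A : ℕ → Set Ω) (W N y : ℕ) (ω : Ω) : ℝ := ∑ p ∈ Finset.Icc 1 y, In A p ω * rhoW W (N - p)

/-- no sum of a member `p ≤ y` and a member is `N` -/
def NH (A : ℕ → Set Ω) (N y : ℕ) : Set Ω := {ω | ∀ p, 1 ≤ p → p ≤ y → ω ∈ A p → ω ∉ A (N - p)}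

lemma VN_eq {W N y : ℕ} (hN : y + 1 ≤ N) {s : Finset ℕ} {ω : Ω} (hω : ω ∈ Ev A y s) : VN A W N y ω = vR W (RN N y s) := by
  classical
  unfold VN vR RN
  rw [Finset.sum_filter]
  refine Finset.sum_bij' (fun p _ => N - p) (fun m _ => N - m) ?_ ?_ ?_ ?_ ?_
  · intro p hp
    have := Finset.mem_Icc.1 hp
    exact Finset.mem_Ioc.2 ⟨by omega, by omega⟩
  · intro m hm
    have := Finset.mem_Ioc.1 hm
    exact Finset.mem_Icc.2 ⟨by omega, by omega⟩
  · intro p hp
    have := Finset.mem_Icc.1 hp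
    omega
  · intro m hm
    have := Finset.mem_Ioc.1 hm
    omega
  · intro p hp
    have hp' := Finset.mem_Icc.1 hp
    rw [show N - (N - p) = p by omega]
    unfold In
    have h1 := hω p hp'.2
    by_cases h2 : p ∈ s
    · rw [if_pos h2, indicator_of_mem (h1.2 h2), one_mul]
    · rw [if_neg h2, indicator_of_notMem (fun h => h2 (h1.1 h)), zero_mul]

lemma NH_iff {N y : ℕ} (hN : y + 1 ≤ N) {s : Finset ℕ} {ω : Ω} (hω : ω ∈ Ev A y s) :
    ω ∈ NH A N y ↔ ∀ m ∈ RN N y s, ω ∉ A m := by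
  constructor
  · intro h m hm
    obtain ⟨m1, m2⟩ := Finset.mem_filter.1 hm
    obtain ⟨m3, m4⟩ := Finset.mem_Ioc.1 m1
    have := h (N - m) (by omega) (by omega) ((hω _ (by omega)).2 m2)
    rwa [show N - (N - m) = m by omega] at this
  · intro h p p1 p2 p3
    refine h (N - p) (Finset.mem_filter.2 ⟨Finset.mem_Ioc.2 ⟨by omega, by omega⟩, ?_⟩)
    rw [show N - (N - p) = p by omega]
    exact (hω p p2).1 p3

lemma RN_sub {N y : ℕ} (hN : y + 1 ≤ N) (s : Finset ℕ) : RN N y s ⊆ Finset.Ioc (N - y - 1) (N - y - 1 + y) := by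
  intro m hm
  have h1 := Finset.mem_Ioc.1 (Finset.mem_filter.1 hm).1
  exact Finset.mem_Ioc.2 ⟨h1.1, by omega⟩

/-- **upper bound for the probability of no representation** -/
theorem NH_upper (hA : ∀ n, MeasurableSet[ℱ n] (A n)) {W : ℕ} {δ : ℝ} (hδ0 : 0 < δ) (hδ1 : δ ≤ 1 / 4)
    {N y : ℕ} (hN : 2 * y + 1 ≤ N) (c : ℝ) :
    μ.real ((NH A N y ∩ {ω | c ≤ VN A W N y ω}) \ WV (VB μ ℱ A (lp W δ) (up W δ)) (N - y - 1) y) ≤
      Real.exp (-((1 - δ - δ * (1 + δ)) * c)) := by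
  classical
  set P := (Finset.range (y + 1)).powerset with hP
  have hfac : 0 ≤ 1 - δ - δ * (1 + δ) := by nlinarith only [hδ0, hδ1]
  have hsub : (NH A N y ∩ {ω | c ≤ VN A W N y ω}) \ WV (VB μ ℱ A (lp W δ) (up W δ)) (N - y - 1) y ⊆
      ⋃ s ∈ P.filter (fun s => c ≤ vR W (RN N y s)), ((Ev A y s ∩ {ω | ∀ m ∈ RN N y s, ω ∉ A m}) \
        WV (VB μ ℱ A (lp W δ) (up W δ)) (N - y - 1) y) := by
    rintro ω ⟨⟨w1, w2⟩, w3⟩
    obtain ⟨s, hs, hω⟩ := Ev_cover (A := A) y ω
    simp only [mem_iUnion]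
    refine ⟨s, Finset.mem_filter.2 ⟨hs, ?_⟩, ⟨hω, (NH_iff (by omega) hω).1 w1⟩, w3⟩
    rw [← VN_eq (W := W) (by omega) hω]
    exact w2
  refine (measureReal_mono hsub (measure_ne_top _ _)).trans ((measureReal_biUnion_finset_le _ _).trans ?_)
  have h1 : ∀ s ∈ P.filter (fun s => c ≤ vR W (RN N y s)), μ.real ((Ev A y s ∩ {ω | ∀ m ∈ RN N y s, ω ∉ A m}) \
      WV (VB μ ℱ A (lp W δ) (up W δ)) (N - y - 1) y) ≤ Real.exp (-((1 - δ - δ * (1 + δ)) * c)) * μ.real (Ev A y s) := by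
    intro s hs
    have hs' := (Finset.mem_filter.1 hs).2
    refine (cond_empty_le (μ := μ) hA hδ0 hδ1 (RN_sub (by omega) s) (ℱ.mono (by omega) _ (Ev_meas hA y s))).trans ?_
    apply mul_le_mul_of_nonneg_right _ measureReal_nonneg
    apply Real.exp_le_exp.2
    exact neg_le_neg (mul_le_mul_of_nonneg_left hs' hfac)
  refine (Finset.sum_le_sum h1).trans ?_
  rw [← Finset.mul_sum]
  have h2 : ∑ s ∈ P.filter (fun s => c ≤ vR W (RN N y s)), μ.real (Ev A y s) ≤ 1 := by
    have h3 : ∑ s ∈ P.filter (fun s => c ≤ vR W (RN N y s)), μ.real (Ev A y s) ≤ ∑ s ∈ P, μ.real (Ev A y s) :=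
      Finset.sum_le_sum_of_subset_of_nonneg (Finset.filter_subset _ _) fun _ _ _ => measureReal_nonneg
    have h4 := sum_Ev (μ := μ) (ℱ := ℱ) hA y (B := univ) MeasurableSet.univ
    simp only [univ_inter] at h4
    rw [probReal_univ] at h4
    rw [h4]
    exact h3
  exact mul_le_of_le_one_right (Real.exp_pos _).le h2

/-- **lower bound for the conditional probability of no representation** -/
theorem NH_lower (hA : ∀ n, MeasurableSet[ℱ n] (A n)) {W : ℕ} {δ : ℝ} (hδ0 : 0 < δ)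
    {N y : ℕ} (hN : 2 * y + 1 ≤ N) {θ : ℝ} (hθ0 : 0 ≤ θ) (hθ1 : θ ≤ 1 / 2) (hsm : ∀ m, N - y - 1 < m → up W δ m ≤ θ) {c : ℝ} (hc : 0 ≤ c)
    {B : Set Ω} (hB : MeasurableSet[ℱ (N - y - 1)] B) :
    Real.exp (-((1 + 2 * θ) * (1 + δ) * c)) * μ.real B ≤
      μ.real (B ∩ ((NH A N y ∪ {ω | c < VN A W N y ω}) ∪ WV (VB μ ℱ A (lp W δ) (up W δ)) (N - y - 1) y)) := by
  classical
  set D : Set Ω := (NH A N y ∪ {ω | c < VN A W N y ω}) ∪ WV (VB μ ℱ A (lp W δ) (up W δ)) (N - y - 1) y with hD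
  have hDm : MeasurableSet D := by
    have hAm : ∀ n, MeasurableSet (A n) := fun n => ℱ.le n _ (hA n)
    refine (MeasurableSet.union ?_ ?_).union ((ℱ.le _ _ (WV_meas (fun n => VB_meas _ _ n) _ _)))
    · have : NH A N y = ⋂ p ∈ Finset.Icc 1 y, ((A p)ᶜ ∪ (A (N - p))ᶜ) := by
        ext ω
        simp only [NH, mem_ofPred_eq, mem_iInter, Finset.mem_Icc, mem_union, mem_compl_iff]
        constructor
        · intro h p hp
          by_cases h1 : ω ∈ A p
          · exact Or.inr (h p hp.1 hp.2 h1)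
          · exact Or.inl h1
        · intro h p p1 p2 p3
          rcases h p ⟨p1, p2⟩ with h1 | h1
          · exact absurd p3 h1
          · exact h1
      rw [this]
      exact Finset.measurableSet_biInter _ fun p _ => (hAm p).compl.union (hAm _).compl
    · apply measurableSet_lt measurable_const
      unfold VN
      apply Finset.measurable_sum
      intro p _
      exact ((measurable_const.indicator (hAm p))).mul_const _
  have hBm : MeasurableSet B := ℱ.le _ _ hB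
  rw [sum_Ev (μ := μ) (ℱ := ℱ) hA y hBm, sum_Ev (μ := μ) (ℱ := ℱ) hA y (hBm.inter hDm), Finset.mul_sum]
  apply Finset.sum_le_sum
  intro s _
  have hBs : MeasurableSet[ℱ (N - y - 1)] (B ∩ Ev A y s) := hB.inter (ℱ.mono (by omega) _ (Ev_meas hA y s))
  rcases le_or_gt (vR W (RN N y s)) c with h | h
  · have h1 := cond_empty_ge (μ := μ) hA hδ0 (RN_sub (y := y) (by omega) s) hθ0 hθ1 (fun m hm => hsm m (by
      have := Finset.mem_Ioc.1 (Finset.mem_filter.1 hm).1
      exact this.1)) hBs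
    refine le_trans ?_ (h1.trans ?_)
    · apply mul_le_mul_of_nonneg_right _ measureReal_nonneg
      apply Real.exp_le_exp.2
      exact neg_le_neg (mul_le_mul_of_nonneg_left h (by positivity))
    · apply measureReal_mono _ (measure_ne_top _ _)
      rintro ω ⟨⟨w1, w2⟩, w3⟩
      refine ⟨⟨w1, ?_⟩, w2⟩
      rcases w3 with w3 | w3
      · exact Or.inl (Or.inl ((NH_iff (by omega) w2).2 w3))
      · exact Or.inr w3
  · refine le_trans (mul_le_of_le_one_left measureReal_nonneg (Real.exp_le_one_iff.2 ?_)) ?_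
    · have : 0 ≤ (1 + 2 * θ) * (1 + δ) * c := by positivity
      linarith only [this]
    · apply measureReal_mono _ (measure_ne_top _ _)
      rintro ω ⟨w1, w2⟩
      refine ⟨⟨w1, Or.inl (Or.inr ?_)⟩, w2⟩
      show c < VN A W N y ω
      rw [VN_eq (by omega) w2]
      exact h

end Pool.Agent.R291.RMW
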