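import Mathlib
import Pool.Agent.R291.RMW.U1

set_option autoImplicit false
set_option linter.unusedSectionVars false
set_option linter.unusedVariables false

/-! # The members in residue classes -/

open MeasureTheory Filter Set
open scoped ENNReal Topology

namespace Pool.Agent.R291.RMW

open Pool.Agent.R528.RM

variable {Ω : Type} {m0 : MeasurableSpace Ω} {μ : Measure Ω} [IsProbabilityMeasure μ]
  {ℱ : Filtration ℕ m0} {A : ℕ → Set Ω}

/-- the expected number of members up to `n` in a class -/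
noncomputable def EX (W q n : ℕ) : ℝ := n / ((adm W q).card * Real.log n)

lemma sqrt_top : Tendsto Nat.sqrt atTop atTop := by
  refine tendsto_atTop.2 fun N => ?_
  filter_upwards [eventually_ge_atTop (N * N)] with n hn
  exact Nat.le_sqrt.2 hn

lemma root_win_cls {W q a : ℕ} (hW : 0 < W) (hq : 0 < q) (ha : a ∈ adm W q) : Win W (fun n => cls W q a (Nat.sqrt n) n) ∧
    Tendsto (fun n : ℕ => vR W (cls W q a (Nat.sqrt n) n) / EX W q n) atTop (𝓝 1) := by
  have hW' : (1 : ℝ) ≤ W := by exact_mod_cast hW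
  have hq' : (1 : ℝ) ≤ q := by exact_mod_cast hq
  have hκ : (0 : ℝ) < (adm W q).card := adm_pos W hq
  obtain ⟨N₁, _, hN1, hN⟩ := exists_N₁ W 0
  have hlim : Tendsto (fun n : ℕ => vR W (cls W q a (Nat.sqrt n) n) / EX W q n) atTop (𝓝 1) := by
    rw [Metric.tendsto_nhds]
    intro ε hε
    set η : ℝ := min (ε / 4) 1 with hη
    have hη0 : 0 < η := lt_min (by positivity) one_pos
    have hη1 : η ≤ 1 := min_le_right _ _
    have hηε : 4 * η ≤ ε := by
      have : η ≤ ε / 4 := min_le_left _ _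
      linarith
    have hroot : ∀ᶠ n : ℕ in atTop, (Nat.sqrt n : ℝ) + 2 * (q * W) ≤ η * n := by
      have h1 := ev_pow (a := 1 / 2) (b := 1) (by norm_num) ((2 * (q * W) + 1) / η)
      filter_upwards [h1, ev_log 0, eventually_ge_atTop 1] with n g1 g2 g3
      have hn : (1 : ℝ) ≤ n := by exact_mod_cast g3
      rw [Real.rpow_one, ← Real.sqrt_eq_rpow] at g1
      have h2 : (Nat.sqrt n : ℝ) ≤ √(n : ℝ) := Real.nat_sqrt_le_real_sqrt
      have h3 : 1 ≤ √(n : ℝ) := Real.one_le_sqrt.2 hn
      have h4 : (2 * ((q : ℝ) * W) + 1) / η * 1 * √(n : ℝ) ≤ (2 * (q * W) + 1) / η * (Real.log n + 1) * √(n : ℝ) := by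
        apply mul_le_mul_of_nonneg_right _ (by positivity)
        apply mul_le_mul_of_nonneg_left (by linarith) (by positivity)
      have h5 : (2 * ((q : ℝ) * W) + 1) / η * √(n : ℝ) ≤ n := by linarith
      rw [div_mul_eq_mul_div, div_le_iff₀ hη0] at h5
      have h6 : 2 * ((q : ℝ) * W) * 1 ≤ 2 * (q * W) * √(n : ℝ) := mul_le_mul_of_nonneg_left h3 (by positivity)
      linarith
    have hqx : ∀ᶠ n : ℕ in atTop, (q : ℝ) ≤ (n : ℝ) ^ (1 / 2 : ℝ) := by
      filter_upwards [ev_pow (a := 0) (b := 1 / 2) (by norm_num) q, ev_log 0] with n g1 g2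
      rw [Real.rpow_zero, mul_one] at g1
      have : (q : ℝ) * 1 ≤ q * (Real.log n + 1) := mul_le_mul_of_nonneg_left (by linarith) (by positivity)
      linarith
    filter_upwards [v_bounds hW (show (1 / 2 : ℝ) < 1 by norm_num) hη0 hη1 N₁ hN hN1, hroot, sqrt_top.eventually_ge_atTop N₁, ev_log 1,
      eventually_ge_atTop 1, hqx] with n g1 g2 g3 g4 g5 g6
    have hn : (1 : ℝ) ≤ n := by exact_mod_cast g5
    have hL0 : 0 < Real.log (n : ℝ) := by linarith
    have hE : 0 < EX W q n := by unfold EX; positivity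
    have hsn : Nat.sqrt n ≤ n := Nat.sqrt_le_self n
    have k1 := (rho_cls1 (W := W) (q := q) (a := a) (s := Nat.sqrt n) (t := n) hW hq ha hsn
      (hN.trans (Real.log_le_log (by exact_mod_cast hN1) (by exact_mod_cast g3))) (hN1.trans g3)).1
    have k2 := (g1 q hq g6 a ha).2
    unfold vx at k2
    have k3 : vR W (cls W q a (Nat.sqrt n) n) ≤ vR W (cls W q a N₁ n) := by
      unfold vR
      apply Finset.sum_le_sum_of_subset_of_nonneg
      · intro m hm
        obtain ⟨⟨m1, m2⟩, m3⟩ := mem_cls.1 hm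
        exact mem_cls.2 ⟨⟨by omega, m2⟩, m3⟩
      · exact fun m _ _ => rhoW_nonneg W m
    rw [Real.dist_eq, abs_lt]
    constructor
    · rw [lt_sub_iff_add_lt, lt_div_iff₀ hE]
      have e1 : (1 - η) * EX W q n ≤ vR W (cls W q a (Nat.sqrt n) n) := by
        unfold EX
        refine le_trans ?_ k1
        rw [mul_div_assoc']
        apply div_le_div_of_nonneg_right _ (by positivity)
        linarith
      nlinarith
    · rw [sub_lt_iff_lt_add, div_lt_iff₀ hE]
      have e1 : vR W (cls W q a N₁ n) ≤ (1 + η) * EX W q n := by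
        refine k2.trans (le_of_eq ?_)
        unfold EX
        ring
      nlinarith
  refine ⟨⟨fun N => ?_, ?_⟩, hlim⟩
  · filter_upwards [sqrt_top.eventually_ge_atTop N] with n hn m hm
    have := (mem_cls.1 hm).1.1
    omega
  · have h1 := hlim.pos_mul_atTop one_pos (lin_log_top (c := 1 / (adm W q).card) (by positivity))
    refine h1.congr' ?_
    filter_upwards [tendsto_log.eventually_gt_atTop 0, eventually_gt_atTop 0] with n g1 g2
    have hn : (0 : ℝ) < n := by exact_mod_cast g2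
    unfold EX
    field_simp

/-- **the number of the members in a residue class** -/
theorem class_count (hA : ∀ n, MeasurableSet[ℱ n] (A n)) {W q a : ℕ} (hW : 0 < W) (hq : 0 < q) (ha : a ∈ adm W q)
    (hd : ∀ᵐ ω ∂μ, ∀ ε : ℝ, 0 < ε → ∀ᶠ n : ℕ in atTop, |dens μ ℱ A n ω - rhoW W (n + 1)| ≤ ε * rhoW W (n + 1)) :
    ∀ᵐ ω ∂μ, Tendsto (fun n : ℕ => Ncl A (cls W q a 0 n) ω / EX W q n) atTop (𝓝 1) := by
  obtain ⟨hwin, hlim⟩ := root_win_cls hW hq ha
  have hκ : (0 : ℝ) < (adm W q).card := adm_pos W hq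
  filter_upwards [win_upper (μ := μ) (ℱ := ℱ) hA hd hwin one_pos le_rfl, hd] with ω h1 h2
  have hDpos : ∀ᶠ n : ℕ in atTop, 0 < EX W q n := by
    filter_upwards [tendsto_log.eventually_gt_atTop 0, eventually_gt_atTop 0] with n g1 g2
    have hn : (0 : ℝ) < n := by exact_mod_cast g2
    unfold EX
    positivity
  have h0 : Tendsto (fun n : ℕ => Real.log (n : ℝ) ^ 2 / n) atTop (𝓝 0) := by
    have := ((lin_log_top one_pos)).inv_tendsto_atTop
    refine this.congr fun n => ?_
    simp only [Pi.inv_apply]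
    rw [inv_div, one_mul]
  have hz : Tendsto (fun n => (VS μ ℱ A (cls W q a (Nat.sqrt n) n) ω - vR W (cls W q a (Nat.sqrt n) n)) / EX W q n) atTop (𝓝 0) := by
    rw [Metric.tendsto_nhds]
    intro ε hε
    obtain ⟨n₀, hn₀⟩ := eventually_atTop.1 (h2 (ε / 4) (by positivity))
    filter_upwards [sqrt_top.eventually_ge_atTop n₀, hlim.eventually (eventually_lt_nhds (show (1 : ℝ) < 2 by norm_num)), hDpos] with n g1 g2 g3
    rw [div_lt_iff₀ g3] at g2
    rw [Real.dist_eq, sub_zero, abs_div, abs_of_pos g3, div_lt_iff₀ g3]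
    have g4 : |VS μ ℱ A (cls W q a (Nat.sqrt n) n) ω - vR W (cls W q a (Nat.sqrt n) n)| ≤ ε / 4 * vR W (cls W q a (Nat.sqrt n) n) := by
      unfold VS vR
      rw [← Finset.sum_sub_distrib, Finset.mul_sum]
      refine (Finset.abs_sum_le_sum_abs _ _).trans (Finset.sum_le_sum fun m hm => ?_)
      have g5 := (mem_cls.1 hm).1.1
      have g6 := hn₀ (m - 1) (by omega)
      rwa [show m - 1 + 1 = m by omega] at g6
    have g5 : ε / 4 * vR W (cls W q a (Nat.sqrt n) n) ≤ ε / 4 * (2 * EX W q n) :=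
      mul_le_mul_of_nonneg_left g2.le (by positivity)
    have g6 : 0 < ε * EX W q n := by positivity
    linarith only [g4, g5, g6]
  have hc : Tendsto (fun n => CS μ ℱ A (cls W q a (Nat.sqrt n) n) ω / EX W q n) atTop (𝓝 0) := by
    have hb : Tendsto (fun n : ℕ => √(16 * (adm W q).card * (Real.log (n : ℝ) ^ 2 / n))) atTop (𝓝 0) := by
      have := (h0.const_mul (16 * ((adm W q).card : ℝ))).sqrt
      rwa [mul_zero, Real.sqrt_zero] at this
    refine squeeze_zero_norm' ?_ hb
    filter_upwards [h1, hDpos, tendsto_log.eventually_gt_atTop 0, hlim.eventually (eventually_lt_nhds (show (1 : ℝ) < 2 by norm_num)),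
      eventually_gt_atTop 0] with n g1 g2 g3 g4 g5
    have hn : (0 : ℝ) < n := by exact_mod_cast g5
    rw [Real.norm_eq_abs, abs_div, abs_of_pos g2]
    refine (div_le_div_of_nonneg_right g1.le g2.le).trans ?_
    rw [div_lt_iff₀ g2] at g4
    apply Real.le_sqrt_of_sq_le
    have hv0 : 0 ≤ vR W (cls W q a (Nat.sqrt n) n) := vR_nonneg _ _
    rw [div_pow, mul_pow, Real.sq_sqrt (by positivity)]
    rw [div_le_iff₀ (by positivity)]
    have e1 : (1 + 1 : ℝ) ^ 2 * (2 * Real.log n * vR W (cls W q a (Nat.sqrt n) n)) ≤ (1 + 1) ^ 2 * (2 * Real.log n * (2 * EX W q n)) := by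
      apply mul_le_mul_of_nonneg_left _ (by positivity)
      exact mul_le_mul_of_nonneg_left g4.le (by positivity)
    refine e1.trans (le_of_eq ?_)
    unfold EX
    field_simp
    ring
  have hsmall : Tendsto (fun n : ℕ => Ncl A (cls W q a 0 (Nat.sqrt n)) ω / EX W q n) atTop (𝓝 0) := by
    have hb : Tendsto (fun n : ℕ => √(((adm W q).card : ℝ) ^ 2 * (Real.log (n : ℝ) ^ 2 / n))) atTop (𝓝 0) := by
      have := (h0.const_mul (((adm W q).card : ℝ) ^ 2)).sqrt
      rwa [mul_zero, Real.sqrt_zero] at this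
    refine squeeze_zero_norm' ?_ hb
    filter_upwards [hDpos, tendsto_log.eventually_gt_atTop 0, eventually_gt_atTop 0] with n g2 g3 g5
    have hn : (0 : ℝ) < n := by exact_mod_cast g5
    have e0 : 0 ≤ Ncl A (cls W q a 0 (Nat.sqrt n)) ω := Finset.sum_nonneg fun m _ => In_nonneg _ _
    have e1 : Ncl A (cls W q a 0 (Nat.sqrt n)) ω ≤ √(n : ℝ) := by
      unfold Ncl
      refine (Finset.sum_le_sum fun m _ => In_le (A := A) m ω).trans ?_
      rw [Finset.sum_const, nsmul_eq_mul, mul_one]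
      have e2 : (cls W q a 0 (Nat.sqrt n)).card ≤ Nat.sqrt n := by
        unfold cls
        refine (Finset.card_filter_le _ _).trans ?_
        rw [Nat.card_Ioc, Nat.sub_zero]
      have e3 : ((cls W q a 0 (Nat.sqrt n)).card : ℝ) ≤ Nat.sqrt n := by exact_mod_cast e2
      exact e3.trans Real.nat_sqrt_le_real_sqrt
    rw [Real.norm_eq_abs, abs_div, abs_of_pos g2, abs_of_nonneg e0]
    refine (div_le_div_of_nonneg_right e1 g2.le).trans ?_
    apply Real.le_sqrt_of_sq_le
    rw [div_pow, Real.sq_sqrt hn.le]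
    apply le_of_eq
    unfold EX
    field_simp
  have h3 := ((hc.add hz).add hlim).add hsmall
  rw [zero_add, zero_add, add_zero] at h3
  refine h3.congr fun n => ?_
  have e1 : Ncl A (cls W q a 0 n) ω = Ncl A (cls W q a 0 (Nat.sqrt n)) ω + Ncl A (cls W q a (Nat.sqrt n) n) ω :=
    cls_sum (Nat.zero_le _) (Nat.sqrt_le_self n) _
  rw [e1, CS_eq]
  ring

end Pool.Agent.R291.RMW
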