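import Mathlib
import Pool.Agent.R291.RMW.X1
import Pool.Agent.R291.RMW.X2

set_option autoImplicit false
set_option linter.unusedSectionVars false
set_option linter.unusedVariables false

/-! # The sum of the densities over the positions `N - p` -/

open MeasureTheory Filter Set
open scoped ENNReal Topology

namespace Pool.Agent.R291.RMW

open Pool.Agent.R528.RM

variable {Ω : Type} {m0 : MeasurableSpace Ω} {μ : Measure Ω} [IsProbabilityMeasure μ]
  {ℱ : Filtration ℕ m0} {A : ℕ → Set Ω}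

/-- the classes `a` such that `a` and `N - a` are coprime to `W` -/
def Cset (W N : ℕ) : Finset ℕ := (Finset.range W).filter (fun a => Nat.Coprime a W ∧ Nat.Coprime (N + (W - 1) * a) W)

/-- the singular factor -/
noncomputable def sgN (W N : ℕ) : ℝ := W * (Cset W N).card / (Nat.totient W : ℝ) ^ 2

lemma adm_self_card (W : ℕ) : (adm W W).card = Nat.totient W := by
  unfold adm
  rw [Nat.totient_eq_card_coprime, Nat.gcd_self]
  congr 1
  ext a
  simp only [Finset.mem_filter]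
  rw [Nat.coprime_comm]

lemma cop_shift {W N p : ℕ} (hW : 0 < W) (hp : p ≤ N) : Nat.Coprime (N - p) W ↔ Nat.Coprime (N + (W - 1) * (p % W)) W := by
  have h1 : N + (W - 1) * (p % W) ≡ N + (W - 1) * p [MOD W] :=
    Nat.ModEq.add_left N (Nat.ModEq.mul_left _ (Nat.mod_modEq p W))
  have h2 : N + (W - 1) * p = (N - p) + W * p := by
    obtain ⟨w, rfl⟩ : ∃ w, W = w + 1 := ⟨W - 1, by omega⟩
    rw [Nat.add_sub_cancel, add_mul, one_mul]
    omega
  have h3 : N + (W - 1) * p ≡ N - p [MOD W] := by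
    rw [h2]
    exact (Nat.modEq_iff_dvd' (Nat.le_add_right _ _)).2 (by rw [Nat.add_sub_cancel_left]; exact dvd_mul_right _ _) |>.symm
  have h4 := (h1.trans h3).gcd_eq
  unfold Nat.Coprime
  rw [h4]

lemma Cset_mod {W N N' : ℕ} (h : N % W = N' % W) : Cset W N = Cset W N' := by
  unfold Cset
  apply Finset.filter_congr
  intro a _
  have h1 : N + (W - 1) * a ≡ N' + (W - 1) * a [MOD W] := Nat.ModEq.add_right _ h
  have h2 := h1.gcd_eq
  unfold Nat.Coprime
  rw [h2]

/-- the number of the members `p ≤ y` with `N - p` coprime to `W` -/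
noncomputable def KN (A : ℕ → Set Ω) (W N y : ℕ) (ω : Ω) : ℝ := ∑ a ∈ Cset W N, Ncl A (cls W W a 0 y) ω

lemma KN_eq {W : ℕ} (hW : 0 < W) (hcop : ∀ n, ¬ Nat.Coprime n W → A n = ∅) {N y : ℕ} (hN : y ≤ N) (ω : Ω) :
    KN A W N y ω = ∑ p ∈ Finset.Icc 1 y, (if Nat.Coprime (N - p) W then In A p ω else 0) := by
  classical
  unfold KN Ncl cls
  have h1 : ∀ a ∈ Cset W N, ∑ n ∈ (Finset.Ioc 0 y).filter (inC W W a), In A n ω =
      ∑ n ∈ Finset.Ioc 0 y, (if inC W W a n then In A n ω else 0) := fun a _ => Finset.sum_filter _ _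
  rw [Finset.sum_congr rfl h1, Finset.sum_comm]
  have h2 : Finset.Ioc 0 y = Finset.Icc 1 y := by
    ext p
    simp only [Finset.mem_Ioc, Finset.mem_Icc]
    omega
  rw [h2]
  refine Finset.sum_congr rfl fun p hp => ?_
  obtain ⟨p1, p2⟩ := Finset.mem_Icc.1 hp
  by_cases hpW : Nat.Coprime p W
  · have h3 : ∀ a ∈ Cset W N, (if inC W W a p then In A p ω else 0) = if p % W = a then In A p ω else 0 := by
      intro a _
      by_cases h4 : p % W = a
      · rw [if_pos h4, if_pos ⟨h4, hpW⟩]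
      · rw [if_neg h4, if_neg (fun h5 => h4 h5.1)]
    rw [Finset.sum_congr rfl h3, Finset.sum_ite_eq]
    have h4 : p % W ∈ Cset W N ↔ Nat.Coprime (N - p) W := by
      unfold Cset
      rw [Finset.mem_filter, Finset.mem_range, cop_shift hW (p2.trans hN)]
      have h5 : Nat.Coprime (p % W) W := by
        have := (Nat.mod_modEq p W).gcd_eq
        unfold Nat.Coprime
        rw [this]
        exact hpW
      exact ⟨fun h => h.2.2, fun h => ⟨Nat.mod_lt _ hW, h5, h⟩⟩
    by_cases h5 : Nat.Coprime (N - p) W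
    · rw [if_pos h5, if_pos (h4.2 h5)]
    · rw [if_neg h5, if_neg (fun h6 => h5 (h4.1 h6))]
  · have h3 : In A p ω = 0 := by
      unfold In
      rw [hcop p hpW]
      simp
    simp only [h3, ite_self, Finset.sum_const_zero]

lemma KN_nonneg (W N y : ℕ) (ω : Ω) : 0 ≤ KN A W N y ω :=
  Finset.sum_nonneg fun a _ => Finset.sum_nonneg fun p _ => In_nonneg _ _

lemma VN_le {W : ℕ} (hW : 0 < W) (hcop : ∀ n, ¬ Nat.Coprime n W → A n = ∅) {N y : ℕ} (hN : 2 * y + 2 ≤ N) (ω : Ω) :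
    VN A W N y ω ≤ KN A W N y ω * (((W : ℝ) / Nat.totient W) / Real.log ((N - y : ℕ) : ℝ)) := by
  have hφ : (0 : ℝ) < Nat.totient W := by exact_mod_cast Nat.totient_pos.2 hW
  rw [KN_eq hW hcop (by omega), Finset.sum_mul]
  unfold VN
  apply Finset.sum_le_sum
  intro p hp
  obtain ⟨p1, p2⟩ := Finset.mem_Icc.1 hp
  have hI := In_nonneg (A := A) p ω
  unfold rhoW
  by_cases h : Nat.Coprime (N - p) W
  · rw [if_pos h, if_pos h]
    apply mul_le_mul_of_nonneg_left _ hI
    refine (min_le_right _ _).trans ?_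
    have h1 : (1 : ℝ) < ((N - y : ℕ) : ℝ) := by exact_mod_cast (by omega : 1 < N - y)
    have h2 : ((N - y : ℕ) : ℝ) ≤ ((N - p : ℕ) : ℝ) := by exact_mod_cast (by omega : N - y ≤ N - p)
    exact div_le_div_of_nonneg_left (by positivity) (Real.log_pos h1) (Real.log_le_log (by linarith) h2)
  · rw [if_neg h, if_neg h, mul_zero, zero_mul]

lemma VN_ge {W : ℕ} (hW : 0 < W) (hcop : ∀ n, ¬ Nat.Coprime n W → A n = ∅) {N y : ℕ} (hN : 2 * y + 2 ≤ N)
    (hlog : (W : ℝ) / Nat.totient W ≤ Real.log N) (ω : Ω) :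
    KN A W N y ω * (((W : ℝ) / Nat.totient W) / Real.log N) ≤ VN A W N y ω := by
  have hφ : (0 : ℝ) < Nat.totient W := by exact_mod_cast Nat.totient_pos.2 hW
  have hWp : (0 : ℝ) < W := by exact_mod_cast hW
  rw [KN_eq hW hcop (by omega), Finset.sum_mul]
  unfold VN
  apply Finset.sum_le_sum
  intro p hp
  obtain ⟨p1, p2⟩ := Finset.mem_Icc.1 hp
  have hI := In_nonneg (A := A) p ω
  unfold rhoW
  by_cases h : Nat.Coprime (N - p) W
  · rw [if_pos h, if_pos h]
    apply mul_le_mul_of_nonneg_left _ hI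
    have hL : 0 < Real.log (N : ℝ) := lt_of_lt_of_le (by positivity) hlog
    have h1 : (1 : ℝ) < ((N - p : ℕ) : ℝ) := by exact_mod_cast (by omega : 1 < N - p)
    have h2 : ((N - p : ℕ) : ℝ) ≤ (N : ℝ) := by exact_mod_cast (by omega : N - p ≤ N)
    apply le_min
    · rw [div_le_one hL]
      exact hlog
    · exact div_le_div_of_nonneg_left (by positivity) (Real.log_pos h1) (Real.log_le_log (by linarith) h2)
  · rw [if_neg h, if_neg h, mul_zero, zero_mul]

lemma Cset_sub (W N : ℕ) : Cset W N ⊆ adm W W := by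
  intro a ha
  obtain ⟨a1, a2, _⟩ := Finset.mem_filter.1 ha
  rw [mem_adm, Nat.gcd_self]
  exact ⟨Finset.mem_range.1 a1, a2⟩

/-- **the number of the admissible members** -/
theorem KN_law (hA : ∀ n, MeasurableSet[ℱ n] (A n)) {W : ℕ} (hW : 0 < W)
    (hd : ∀ᵐ ω ∂μ, ∀ ε : ℝ, 0 < ε → ∀ᶠ n : ℕ in atTop, |dens μ ℱ A n ω - rhoW W (n + 1)| ≤ ε * rhoW W (n + 1)) :
    ∀ᵐ ω ∂μ, ∀ η : ℝ, 0 < η → ∀ᶠ y : ℕ in atTop, ∀ N : ℕ,
      (1 - η) * ((Cset W N).card * EX W W y) ≤ KN A W N y ω ∧ KN A W N y ω ≤ (1 + η) * ((Cset W N).card * EX W W y) := by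
  have h1 : ∀ᵐ ω ∂μ, ∀ a ∈ adm W W, Tendsto (fun n : ℕ => Ncl A (cls W W a 0 n) ω / EX W W n) atTop (𝓝 1) := by
    refine (Filter.eventually_all_finset _).2 ?_
    intro a ha
    exact class_count (μ := μ) (ℱ := ℱ) hA hW hW ha hd
  have hκ : (0 : ℝ) < (adm W W).card := adm_pos W hW
  have hDpos : ∀ᶠ n : ℕ in atTop, 0 < EX W W n := by
    filter_upwards [tendsto_log.eventually_gt_atTop 0, eventually_gt_atTop 0] with n g1 g2
    have hn : (0 : ℝ) < n := by exact_mod_cast g2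
    unfold EX
    positivity
  filter_upwards [h1] with ω hω η hη
  have h2 : ∀ᶠ y : ℕ in atTop, ∀ a ∈ adm W W, |Ncl A (cls W W a 0 y) ω / EX W W y - 1| < η := by
    rw [Filter.eventually_all_finset]
    intro a ha
    have := (Metric.tendsto_nhds.1 (hω a ha)) η hη
    simpa only [Real.dist_eq] using this
  filter_upwards [h2, hDpos] with y g1 g2 N
  have h3 : ∀ a ∈ Cset W N, (1 - η) * EX W W y ≤ Ncl A (cls W W a 0 y) ω ∧ Ncl A (cls W W a 0 y) ω ≤ (1 + η) * EX W W y := by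
    intro a ha
    obtain ⟨g3, g4⟩ := abs_lt.1 (g1 a (Cset_sub W N ha))
    have g5 : Ncl A (cls W W a 0 y) ω = (Ncl A (cls W W a 0 y) ω / EX W W y) * EX W W y := by field_simp
    constructor
    · rw [g5]
      exact mul_le_mul_of_nonneg_right (by linarith) g2.le
    · rw [g5]
      exact mul_le_mul_of_nonneg_right (by linarith) g2.le
  unfold KN
  constructor
  · have := Finset.card_nsmul_le_sum _ _ _ (fun a ha => (h3 a ha).1)
    rw [nsmul_eq_mul] at this
    linarith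
  · have := Finset.sum_le_card_nsmul _ _ _ (fun a ha => (h3 a ha).2)
    rw [nsmul_eq_mul] at this
    linarith

lemma sg_EX {W : ℕ} (hW : 0 < W) (N y : ℕ) :
    (Cset W N).card * EX W W y * ((W : ℝ) / Nat.totient W) = sgN W N * (y / Real.log y) := by
  unfold EX sgN
  rw [adm_self_card]
  have hφ : (0 : ℝ) < Nat.totient W := by exact_mod_cast Nat.totient_pos.2 hW
  rcases eq_or_ne (Real.log (y : ℝ)) 0 with h | h
  · rw [h]
    simp
  · field_simp

/-- **the sum of the densities** -/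
theorem VN_law (hA : ∀ n, MeasurableSet[ℱ n] (A n)) {W : ℕ} (hW : 0 < W) (hcop : ∀ n, ¬ Nat.Coprime n W → A n = ∅)
    (hd : ∀ᵐ ω ∂μ, ∀ ε : ℝ, 0 < ε → ∀ᶠ n : ℕ in atTop, |dens μ ℱ A n ω - rhoW W (n + 1)| ≤ ε * rhoW W (n + 1)) :
    ∀ᵐ ω ∂μ, ∀ η : ℝ, 0 < η → ∀ᶠ y : ℕ in atTop, ∀ N : ℕ, 2 * y + 2 ≤ N → (W : ℝ) / Nat.totient W ≤ Real.log N →
      (1 - η) * (sgN W N * (y / Real.log y) / Real.log N) ≤ VN A W N y ω ∧
      VN A W N y ω ≤ (1 + η) * (sgN W N * (y / Real.log y) / Real.log ((N - y : ℕ) : ℝ)) := by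
  have hφ : (0 : ℝ) < Nat.totient W := by exact_mod_cast Nat.totient_pos.2 hW
  have hWp : (0 : ℝ) < W := by exact_mod_cast hW
  filter_upwards [KN_law (μ := μ) (ℱ := ℱ) hA hW hd] with ω hω η hη
  filter_upwards [hω η hη] with y hy N hN hlog
  obtain ⟨g1, g2⟩ := hy N
  have hL : 0 < Real.log (N : ℝ) := lt_of_lt_of_le (by positivity) hlog
  have h1 : (1 : ℝ) < ((N - y : ℕ) : ℝ) := by exact_mod_cast (by omega : 1 < N - y)
  have hL' : 0 < Real.log ((N - y : ℕ) : ℝ) := Real.log_pos h1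
  constructor
  · refine le_trans ?_ (VN_ge hW hcop hN hlog ω)
    have := mul_le_mul_of_nonneg_right g1 (show 0 ≤ ((W : ℝ) / Nat.totient W) / Real.log N by positivity)
    refine le_trans (le_of_eq ?_) this
    rw [← sg_EX hW]
    ring
  · refine (VN_le hW hcop hN ω).trans ?_
    have := mul_le_mul_of_nonneg_right g2 (show 0 ≤ ((W : ℝ) / Nat.totient W) / Real.log ((N - y : ℕ) : ℝ) by positivity)
    refine this.trans (le_of_eq ?_)
    rw [← sg_EX hW]
    ring

/-! ### the length of the initial interval -/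

/-- the length `κ (log x)² log log x` -/
noncomputable def yL (κ : ℝ) (x : ℕ) : ℕ := ⌊κ * (Real.log x ^ 2 * Real.log (Real.log x))⌋₊

lemma LL_top : Tendsto (fun x : ℕ => Real.log (x : ℝ) ^ 2 * Real.log (Real.log x)) atTop atTop :=
  ((tendsto_pow_atTop two_ne_zero).comp tendsto_log).atTop_mul_atTop₀ (Real.tendsto_log_atTop.comp tendsto_log)

lemma yL_ratio {κ : ℝ} (hκ : 0 < κ) :
    Tendsto (fun x : ℕ => (yL κ x : ℝ) / (Real.log (x : ℝ) ^ 2 * Real.log (Real.log x))) atTop (𝓝 κ) :=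
  (tendsto_nat_floor_mul_div_atTop hκ.le).comp LL_top

lemma yL_top {κ : ℝ} (hκ : 0 < κ) : Tendsto (yL κ) atTop atTop :=
  tendsto_nat_floor_atTop.comp (LL_top.const_mul_atTop hκ)

lemma yL_log {κ : ℝ} (hκ : 0 < κ) :
    Tendsto (fun x : ℕ => Real.log (yL κ x : ℝ) / Real.log (Real.log x)) atTop (𝓝 2) := by
  have hl : Tendsto (fun x : ℕ => Real.log (Real.log (x : ℝ))) atTop atTop := Real.tendsto_log_atTop.comp tendsto_log
  have h1 : Tendsto (fun x : ℕ => Real.log ((yL κ x : ℝ) / (Real.log (x : ℝ) ^ 2 * Real.log (Real.log x))) / Real.log (Real.log x)) atTop (𝓝 0) :=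
    ((Real.continuousAt_log hκ.ne').tendsto.comp (yL_ratio hκ)).div_atTop hl
  have h2 : Tendsto (fun x : ℕ => Real.log (Real.log (Real.log (x : ℝ))) / Real.log (Real.log x)) atTop (𝓝 0) := by
    have h4 : Tendsto (fun x : ℝ => Real.log x / x) atTop (𝓝 0) := Real.isLittleO_log_id_atTop.tendsto_div_nhds_zero
    exact h4.comp hl
  have h3 := (h1.add h2).add_const 2
  rw [zero_add, zero_add] at h3
  refine h3.congr' ?_
  filter_upwards [hl.eventually_gt_atTop 0, tendsto_log.eventually_gt_atTop 0, (yL_top hκ).eventually_gt_atTop 0] with x g1 g2 g3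
  have hy : (0 : ℝ) < yL κ x := by exact_mod_cast g3
  rw [Real.log_div hy.ne' (by positivity), Real.log_mul (by positivity) g1.ne', Real.log_pow]
  push_cast
  field_simp
  ring

/-- the mean value -/
lemma yL_mean {κ : ℝ} (hκ : 0 < κ) :
    Tendsto (fun x : ℕ => ((yL κ x : ℝ) / Real.log (yL κ x)) / Real.log (x : ℝ) ^ 2) atTop (𝓝 (κ / 2)) := by
  have hl : Tendsto (fun x : ℕ => Real.log (Real.log (x : ℝ))) atTop atTop := Real.tendsto_log_atTop.comp tendsto_log
  have h1 := (yL_ratio hκ).div (yL_log hκ) two_ne_zero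
  refine h1.congr' ?_
  filter_upwards [hl.eventually_gt_atTop 0, tendsto_log.eventually_gt_atTop 0, (yL_top hκ).eventually_gt_atTop 1] with x g1 g2 g3
  have hy : (1 : ℝ) < yL κ x := by exact_mod_cast g3
  have hly : 0 < Real.log (yL κ x : ℝ) := Real.log_pos hy
  simp only [Pi.div_apply]
  field_simp

lemma yL_small {κ : ℝ} (hκ : 0 < κ) {c : ℝ} (hc : 0 < c) : ∀ᶠ x : ℕ in atTop, (yL κ x : ℝ) ≤ (x : ℝ) ^ c := by
  filter_upwards [(yL_ratio hκ).eventually (eventually_lt_nhds (show κ < κ + 1 by linarith)),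
    (Real.tendsto_log_atTop.comp tendsto_log).eventually_gt_atTop 0, tendsto_log.eventually_gt_atTop 0,
    tendsto_log.eventually (((isLittleO_rpow_exp_pos_mul_atTop 3 hc).bound (show (0 : ℝ) < 1 / (κ + 1) by positivity))),
    eventually_gt_atTop 0] with x g1 g2 g3 g4 g5
  have hx : (0 : ℝ) < x := by exact_mod_cast g5
  simp only [Function.comp] at g2
  rw [div_lt_iff₀ (by positivity)] at g1
  rw [Real.norm_of_nonneg (by positivity), Real.norm_of_nonneg (by positivity)] at g4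
  rw [Real.rpow_def_of_pos hx, mul_comm (Real.log _) c]
  have h1 : Real.log (Real.log (x : ℝ)) ≤ Real.log x := by
    have := Real.log_le_sub_one_of_pos g3
    linarith
  have h2 : Real.log (x : ℝ) ^ 2 * Real.log (Real.log x) ≤ Real.log (x : ℝ) ^ (3 : ℝ) := by
    rw [show (3 : ℝ) = ((3 : ℕ) : ℝ) by norm_num, Real.rpow_natCast]
    calc Real.log (x : ℝ) ^ 2 * Real.log (Real.log x) ≤ Real.log (x : ℝ) ^ 2 * Real.log x := mul_le_mul_of_nonneg_left h1 (by positivity)
      _ = _ := by ring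
  have h3 : (κ + 1) * (Real.log (x : ℝ) ^ 2 * Real.log (Real.log x)) ≤ (κ + 1) * (1 / (κ + 1) * Real.exp (c * Real.log x)) :=
    mul_le_mul_of_nonneg_left (h2.trans g4) (by positivity)
  have h4 : (κ + 1) * (1 / (κ + 1) * Real.exp (c * Real.log x)) = Real.exp (c * Real.log x) := by field_simp
  linarith

end Pool.Agent.R291.RMW
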