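import Mathlib
import Pool.Agent.R291.RMW.X1
import Pool.Agent.R291.RMW.X4

set_option autoImplicit false
set_option linter.unusedSectionVars false
set_option linter.unusedVariables false

/-! # The positions `N - F p` -/

open MeasureTheory Filter Set
open scoped ENNReal Topology

namespace Pool.Agent.R291.RMW

open Pool.Agent.R528.RM

variable {Ω : Type} {m0 : MeasurableSpace Ω} {μ : Measure Ω} [IsProbabilityMeasure μ]
  {ℱ : Filtration ℕ m0} {A : ℕ → Set Ω} {F : ℕ → ℕ} {p₀ : ℕ}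

/-- the positions `N - F p`, `p ∈ s`, `p₀ ≤ p ≤ y` -/
def RF (F : ℕ → ℕ) (p₀ N y : ℕ) (s : Finset ℕ) : Finset ℕ := ((Finset.Icc p₀ y).filter (· ∈ s)).image (fun p => N - F p)

/-- the sum of the densities over the positions -/
noncomputable def VF (A : ℕ → Set Ω) (F : ℕ → ℕ) (p₀ W N y : ℕ) (ω : Ω) : ℝ := ∑ p ∈ Finset.Icc p₀ y, In A p ω * rhoW W (N - F p)

/-- no sum of an `F p`, `p` a member, `p₀ ≤ p ≤ y`, and a member is `N` -/
def HF (A : ℕ → Set Ω) (F : ℕ → ℕ) (p₀ N y : ℕ) : Set Ω := {ω | ∀ p, p₀ ≤ p → p ≤ y → ω ∈ A p → ω ∉ A (N - F p)}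

lemma VF_eq (hF : ∀ p q, p₀ ≤ p → p < q → F p < F q) {W N y : ℕ} (hN : y + F y + 1 ≤ N) {s : Finset ℕ} {ω : Ω} (hω : ω ∈ Ev A y s) :
    VF A F p₀ W N y ω = vR W (RF F p₀ N y s) := by
  classical
  have hle : ∀ p, p₀ ≤ p → p ≤ y → F p ≤ F y := by
    intro p p1 p2
    rcases p2.lt_or_eq with h | h
    · exact (hF p y p1 h).le
    · rw [h]
  unfold VF vR RF
  rw [Finset.sum_image, Finset.sum_filter]
  · refine Finset.sum_congr rfl fun p hp => ?_
    have hp' := Finset.mem_Icc.1 hp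
    unfold In
    have h1 := hω p hp'.2
    by_cases h2 : p ∈ s
    · rw [if_pos h2, indicator_of_mem (h1.2 h2), one_mul]
    · rw [if_neg h2, indicator_of_notMem (fun h => h2 (h1.1 h)), zero_mul]
  · intro p hp q hq hpq
    obtain ⟨p1, p2⟩ := Finset.mem_Icc.1 (Finset.mem_filter.1 hp).1
    obtain ⟨q1, q2⟩ := Finset.mem_Icc.1 (Finset.mem_filter.1 hq).1
    have h1 := hle p p1 p2
    have h2 := hle q q1 q2
    have h3 : N - F p = N - F q := hpq
    rcases lt_trichotomy p q with h | h | h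
    · have := hF p q p1 h
      omega
    · exact h
    · have := hF q p q1 h
      omega

lemma HF_iff {N y : ℕ} {s : Finset ℕ} {ω : Ω} (hω : ω ∈ Ev A y s) :
    ω ∈ HF A F p₀ N y ↔ ∀ m ∈ RF F p₀ N y s, ω ∉ A m := by
  classical
  unfold RF
  constructor
  · intro h m hm
    obtain ⟨p, hp, rfl⟩ := Finset.mem_image.1 hm
    obtain ⟨p1, p2⟩ := Finset.mem_filter.1 hp
    obtain ⟨p3, p4⟩ := Finset.mem_Icc.1 p1
    exact h p p3 p4 ((hω p p4).2 p2)
  · intro h p p1 p2 p3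
    exact h (N - F p) (Finset.mem_image.2 ⟨p, Finset.mem_filter.2 ⟨Finset.mem_Icc.2 ⟨p1, p2⟩, (hω p p2).1 p3⟩, rfl⟩)

lemma RF_sub (hF : ∀ p q, p₀ ≤ p → p < q → F p < F q) {N y : ℕ} (hN : y + F y + 1 ≤ N) (s : Finset ℕ) :
    RF F p₀ N y s ⊆ Finset.Ioc (N - F y - 1) (N - F y - 1 + (F y + 1)) := by
  intro m hm
  obtain ⟨p, hp, rfl⟩ := Finset.mem_image.1 hm
  obtain ⟨p3, p4⟩ := Finset.mem_Icc.1 (Finset.mem_filter.1 hp).1
  have h1 : F p ≤ F y := by
    rcases p4.lt_or_eq with h | h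
    · exact (hF p y p3 h).le
    · rw [h]
  exact Finset.mem_Ioc.2 ⟨by omega, by omega⟩

/-- **upper bound for the probability of no representation** -/
theorem HF_upper (hA : ∀ n, MeasurableSet[ℱ n] (A n)) (hF : ∀ p q, p₀ ≤ p → p < q → F p < F q) {W : ℕ} {δ : ℝ} (hδ0 : 0 < δ) (hδ1 : δ ≤ 1 / 4)
    {N y : ℕ} (hN : y + F y + 1 ≤ N) (c : ℝ) :
    μ.real ((HF A F p₀ N y ∩ {ω | c ≤ VF A F p₀ W N y ω}) \ WV (VB μ ℱ A (lp W δ) (up W δ)) (N - F y - 1) (F y + 1)) ≤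
      Real.exp (-((1 - δ - δ * (1 + δ)) * c)) := by
  classical
  set P := (Finset.range (y + 1)).powerset with hP
  have hfac : 0 ≤ 1 - δ - δ * (1 + δ) := by nlinarith only [hδ0, hδ1]
  have hsub : (HF A F p₀ N y ∩ {ω | c ≤ VF A F p₀ W N y ω}) \ WV (VB μ ℱ A (lp W δ) (up W δ)) (N - F y - 1) (F y + 1) ⊆
      ⋃ s ∈ P.filter (fun s => c ≤ vR W (RF F p₀ N y s)), ((Ev A y s ∩ {ω | ∀ m ∈ RF F p₀ N y s, ω ∉ A m}) \
        WV (VB μ ℱ A (lp W δ) (up W δ)) (N - F y - 1) (F y + 1)) := by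
    rintro ω ⟨⟨w1, w2⟩, w3⟩
    obtain ⟨s, hs, hω⟩ := Ev_cover (A := A) y ω
    simp only [mem_iUnion]
    refine ⟨s, Finset.mem_filter.2 ⟨hs, ?_⟩, ⟨hω, (HF_iff hω).1 w1⟩, w3⟩
    rw [← VF_eq (W := W) hF hN hω]
    exact w2
  refine (measureReal_mono hsub (measure_ne_top _ _)).trans ((measureReal_biUnion_finset_le _ _).trans ?_)
  have h1 : ∀ s ∈ P.filter (fun s => c ≤ vR W (RF F p₀ N y s)), μ.real ((Ev A y s ∩ {ω | ∀ m ∈ RF F p₀ N y s, ω ∉ A m}) \
      WV (VB μ ℱ A (lp W δ) (up W δ)) (N - F y - 1) (F y + 1)) ≤ Real.exp (-((1 - δ - δ * (1 + δ)) * c)) * μ.real (Ev A y s) := by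
    intro s hs
    have hs' := (Finset.mem_filter.1 hs).2
    refine (cond_empty_le (μ := μ) hA hδ0 hδ1 (RF_sub hF hN s) (ℱ.mono (by omega) _ (Ev_meas hA y s))).trans ?_
    apply mul_le_mul_of_nonneg_right _ measureReal_nonneg
    apply Real.exp_le_exp.2
    exact neg_le_neg (mul_le_mul_of_nonneg_left hs' hfac)
  refine (Finset.sum_le_sum h1).trans ?_
  rw [← Finset.mul_sum]
  have h2 : ∑ s ∈ P.filter (fun s => c ≤ vR W (RF F p₀ N y s)), μ.real (Ev A y s) ≤ 1 := by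
    have h3 : ∑ s ∈ P.filter (fun s => c ≤ vR W (RF F p₀ N y s)), μ.real (Ev A y s) ≤ ∑ s ∈ P, μ.real (Ev A y s) :=
      Finset.sum_le_sum_of_subset_of_nonneg (Finset.filter_subset _ _) fun _ _ _ => measureReal_nonneg
    have h4 := sum_Ev (μ := μ) (ℱ := ℱ) hA y (B := univ) MeasurableSet.univ
    simp only [univ_inter] at h4
    rw [probReal_univ] at h4
    rw [h4]
    exact h3
  exact mul_le_of_le_one_right (Real.exp_pos _).le h2

lemma HF_meas (hA : ∀ n, MeasurableSet[ℱ n] (A n)) {N y : ℕ} (hN : y ≤ N) : MeasurableSet[ℱ N] (HF A F p₀ N y) := by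
  have : HF A F p₀ N y = ⋂ p ∈ Finset.Icc p₀ y, ((A p)ᶜ ∪ (A (N - F p))ᶜ) := by
    ext ω
    simp only [HF, mem_ofPred_eq, mem_iInter, Finset.mem_Icc, mem_union, mem_compl_iff]
    constructor
    · intro h p hp
      by_cases h1 : ω ∈ A p
      · exact Or.inr (h p hp.1 hp.2 h1)
      · exact Or.inl h1
    · intro h p p1 p2 p3
      rcases h p ⟨p1, p2⟩ with h1 | h1
      · exact absurd p3 h1
      · exact h1
  rw [this]
  refine Finset.measurableSet_biInter _ fun p hp => ?_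
  obtain ⟨p1, p2⟩ := Finset.mem_Icc.1 hp
  exact (ℱ.mono (by omega) _ (hA p)).compl.union (ℱ.mono (by omega) _ (hA (N - F p))).compl

lemma VF_meas (hA : ∀ n, MeasurableSet[ℱ n] (A n)) (W N y : ℕ) (c : ℝ) : MeasurableSet[ℱ y] {ω | c < VF A F p₀ W N y ω} := by
  have h2 : Measurable[ℱ y] (fun ω => VF A F p₀ W N y ω) := by
    unfold VF
    apply Finset.measurable_sum
    intro p hp
    have h1 : Measurable[ℱ y] (In A p) := (In_meas hA (Finset.mem_Icc.1 hp).2).measurable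
    exact h1.mul_const _
  exact h2 measurableSet_Ioi

/-- **lower bound for the conditional probability of no representation** -/
theorem HF_lower (hA : ∀ n, MeasurableSet[ℱ n] (A n)) (hF : ∀ p q, p₀ ≤ p → p < q → F p < F q) {W : ℕ} {δ : ℝ} (hδ0 : 0 < δ)
    {N y : ℕ} (hN : y + F y + 1 ≤ N) {θ : ℝ} (hθ0 : 0 ≤ θ) (hθ1 : θ ≤ 1 / 2) (hsm : ∀ m, N - F y - 1 < m → up W δ m ≤ θ) {c : ℝ} (hc : 0 ≤ c)
    {B : Set Ω} (hB : MeasurableSet[ℱ (N - F y - 1)] B) :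
    Real.exp (-((1 + 2 * θ) * (1 + δ) * c)) * μ.real B ≤
      μ.real (B ∩ ((HF A F p₀ N y ∪ {ω | c < VF A F p₀ W N y ω}) ∪ WV (VB μ ℱ A (lp W δ) (up W δ)) (N - F y - 1) (F y + 1))) := by
  classical
  set D : Set Ω := (HF A F p₀ N y ∪ {ω | c < VF A F p₀ W N y ω}) ∪ WV (VB μ ℱ A (lp W δ) (up W δ)) (N - F y - 1) (F y + 1) with hD
  have hDm : MeasurableSet D :=
    ((ℱ.le _ _ (HF_meas hA (by omega))).union (ℱ.le _ _ (VF_meas hA W N y c))).union ((ℱ.le _ _ (WV_meas (fun n => VB_meas _ _ n) _ _)))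
  have hBm : MeasurableSet B := ℱ.le _ _ hB
  rw [sum_Ev (μ := μ) (ℱ := ℱ) hA y hBm, sum_Ev (μ := μ) (ℱ := ℱ) hA y (hBm.inter hDm), Finset.mul_sum]
  apply Finset.sum_le_sum
  intro s _
  have hBs : MeasurableSet[ℱ (N - F y - 1)] (B ∩ Ev A y s) := hB.inter (ℱ.mono (by omega) _ (Ev_meas hA y s))
  rcases le_or_gt (vR W (RF F p₀ N y s)) c with h | h
  · have h1 := cond_empty_ge (μ := μ) hA hδ0 (RF_sub (y := y) hF hN s) hθ0 hθ1 (fun m hm => hsm m (by
      have := Finset.mem_Ioc.1 (RF_sub hF hN s hm)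
      exact this.1)) hBs
    refine le_trans ?_ (h1.trans ?_)
    · apply mul_le_mul_of_nonneg_right _ measureReal_nonneg
      apply Real.exp_le_exp.2
      exact neg_le_neg (mul_le_mul_of_nonneg_left h (by positivity))
    · apply measureReal_mono _ (measure_ne_top _ _)
      rintro ω ⟨⟨w1, w2⟩, w3⟩
      refine ⟨⟨w1, ?_⟩, w2⟩
      rcases w3 with w3 | w3
      · exact Or.inl (Or.inl ((HF_iff w2).2 w3))
      · exact Or.inr w3
  · refine le_trans (mul_le_of_le_one_left measureReal_nonneg (Real.exp_le_one_iff.2 ?_)) ?_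
    · have : 0 ≤ (1 + 2 * θ) * (1 + δ) * c := by positivity
      linarith only [this]
    · apply measureReal_mono _ (measure_ne_top _ _)
      rintro ω ⟨w1, w2⟩
      refine ⟨⟨w1, Or.inl (Or.inr ?_)⟩, w2⟩
      show c < VF A F p₀ W N y ω
      rw [VF_eq hF hN w2]
      exact h

end Pool.Agent.R291.RMW
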