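import Mathlib
import Pool.Agent.R291.RMW.Y1

set_option autoImplicit false
set_option linter.unusedSectionVars false
set_option linter.unusedVariables false

/-! # The least summand, general form -/

open MeasureTheory Filter Set
open scoped ENNReal Topology

namespace Pool.Agent.R291.RMW

open Pool.Agent.R528.RM

variable {Ω : Type} {m0 : MeasurableSpace Ω} {μ : Measure Ω} [IsProbabilityMeasure μ]
  {ℱ : Filtration ℕ m0} {A : ℕ → Set Ω} {F : ℕ → ℕ} {p₀ : ℕ}

/-- the data of the form `F p + q` -/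
structure Rep (W : ℕ) (F : ℕ → ℕ) (p₀ : ℕ) (C : ℕ → Finset ℕ) : Prop where
  one : 1 ≤ p₀
  mono : ∀ p q, p₀ ≤ p → p < q → F p < F q
  res : ∀ N p, p₀ ≤ p → F p ≤ N → Nat.Coprime p W → (Nat.Coprime (N - F p) W ↔ p % W ∈ C N)
  sub : ∀ N, C N ⊆ adm W W
  per : ∀ N N', N % W = N' % W → C N = C N'
  grow : ∀ c : ℝ, 0 < c → ∀ κ : ℝ, 0 < κ → ∀ᶠ x : ℕ in atTop, (F (yL κ x) : ℝ) ≤ (x : ℝ) ^ c

/-- the factor -/
noncomputable def sgC (W : ℕ) (C : ℕ → Finset ℕ) (N : ℕ) : ℝ := W * (C N).card / (Nat.totient W : ℝ) ^ 2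

/-- the number of the members in the classes of `C N` -/
noncomputable def KC (A : ℕ → Set Ω) (W : ℕ) (C : ℕ → Finset ℕ) (N y : ℕ) (ω : Ω) : ℝ := ∑ a ∈ C N, Ncl A (cls W W a 0 y) ω

lemma KC_eq' {W : ℕ} {C : ℕ → Finset ℕ} (N y : ℕ) (ω : Ω) :
    KC A W C N y ω = ∑ p ∈ Finset.Icc 1 y, (if p % W ∈ C N ∧ Nat.Coprime p W then In A p ω else 0) := by
  classical
  unfold KC Ncl cls
  have h1 : ∀ a ∈ C N, ∑ n ∈ (Finset.Ioc 0 y).filter (inC W W a), In A n ω =
      ∑ n ∈ Finset.Ioc 0 y, (if inC W W a n then In A n ω else 0) := fun a _ => Finset.sum_filter _ _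
  rw [Finset.sum_congr rfl h1, Finset.sum_comm]
  have h2 : Finset.Ioc 0 y = Finset.Icc 1 y := by
    ext p
    simp only [Finset.mem_Ioc, Finset.mem_Icc]
    omega
  rw [h2]
  refine Finset.sum_congr rfl fun p hp => ?_
  by_cases hpW : Nat.Coprime p W
  · have h3 : ∀ a ∈ C N, (if inC W W a p then In A p ω else 0) = if p % W = a then In A p ω else 0 := by
      intro a _
      by_cases h4 : p % W = a
      · rw [if_pos h4, if_pos ⟨h4, hpW⟩]
      · rw [if_neg h4, if_neg (fun h5 => h4 h5.1)]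
    rw [Finset.sum_congr rfl h3, Finset.sum_ite_eq]
    by_cases h4 : p % W ∈ C N
    · rw [if_pos h4, if_pos ⟨h4, hpW⟩]
    · rw [if_neg h4, if_neg (fun h => h4 h.1)]
  · rw [if_neg (fun h => hpW h.2)]
    apply Finset.sum_eq_zero
    intro a _
    rw [if_neg (fun h5 => hpW h5.2)]

lemma F_le {W : ℕ} {C : ℕ → Finset ℕ} (hR : Rep W F p₀ C) {p y : ℕ} (p1 : p₀ ≤ p) (p2 : p ≤ y) : F p ≤ F y := by
  rcases p2.lt_or_eq with h | h
  · exact (hR.mono p y p1 h).le
  · rw [h]

lemma VF_le {W : ℕ} (hW : 0 < W) (hcop : ∀ n, ¬ Nat.Coprime n W → A n = ∅) {C : ℕ → Finset ℕ} (hR : Rep W F p₀ C)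
    {N y : ℕ} (hN : F y + 2 ≤ N) (ω : Ω) :
    VF A F p₀ W N y ω ≤ KC A W C N y ω * (((W : ℝ) / Nat.totient W) / Real.log ((N - F y : ℕ) : ℝ)) := by
  classical
  have hφ : (0 : ℝ) < Nat.totient W := by exact_mod_cast Nat.totient_pos.2 hW
  have h1 : (1 : ℝ) < ((N - F y : ℕ) : ℝ) := by exact_mod_cast (by omega : 1 < N - F y)
  have hL := Real.log_pos h1
  rw [KC_eq', Finset.sum_mul]
  unfold VF
  have hsub : Finset.Icc p₀ y ⊆ Finset.Icc 1 y := Finset.Icc_subset_Icc hR.one le_rfl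
  refine le_trans (Finset.sum_le_sum (g := fun p => (if p % W ∈ C N ∧ Nat.Coprime p W then In A p ω else 0) *
    (((W : ℝ) / Nat.totient W) / Real.log ((N - F y : ℕ) : ℝ))) ?_) (Finset.sum_le_sum_of_subset_of_nonneg hsub ?_)
  · intro p hp
    obtain ⟨p1, p2⟩ := Finset.mem_Icc.1 hp
    have hFp := F_le hR p1 p2
    have hI := In_nonneg (A := A) p ω
    by_cases hpW : Nat.Coprime p W
    · have h3 := hR.res N p p1 (by omega) hpW
      unfold rhoW
      by_cases h : Nat.Coprime (N - F p) W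
      · rw [if_pos h, if_pos ⟨h3.1 h, hpW⟩]
        apply mul_le_mul_of_nonneg_left _ hI
        refine (min_le_right _ _).trans ?_
        have h2 : ((N - F y : ℕ) : ℝ) ≤ ((N - F p : ℕ) : ℝ) := by exact_mod_cast (by omega : N - F y ≤ N - F p)
        exact div_le_div_of_nonneg_left (by positivity) hL (Real.log_le_log (by linarith) h2)
      · rw [if_neg h, if_neg (fun h4 => h (h3.2 h4.1)), mul_zero, zero_mul]
    · have h3 : In A p ω = 0 := by
        unfold In
        rw [hcop p hpW]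
        simp
      rw [h3, zero_mul, ite_self, zero_mul]
  · intro p _ _
    apply mul_nonneg
    · split_ifs
      · exact In_nonneg _ _
      · exact le_rfl
    · positivity

lemma VF_ge {W : ℕ} (hW : 0 < W) (hcop : ∀ n, ¬ Nat.Coprime n W → A n = ∅) {C : ℕ → Finset ℕ} (hR : Rep W F p₀ C)
    {N y : ℕ} (hN : F y + 2 ≤ N) (hlog : (W : ℝ) / Nat.totient W ≤ Real.log N) (ω : Ω) :
    (KC A W C N y ω - p₀) * (((W : ℝ) / Nat.totient W) / Real.log N) ≤ VF A F p₀ W N y ω := by
  classical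
  have hφ : (0 : ℝ) < Nat.totient W := by exact_mod_cast Nat.totient_pos.2 hW
  have hWp : (0 : ℝ) < W := by exact_mod_cast hW
  have hL : 0 < Real.log (N : ℝ) := lt_of_lt_of_le (by positivity) hlog
  have h1 : KC A W C N y ω - p₀ ≤ ∑ p ∈ Finset.Icc p₀ y, (if p % W ∈ C N ∧ Nat.Coprime p W then In A p ω else 0) := by
    rw [KC_eq', sub_le_iff_le_add]
    have hsub : Finset.Icc 1 y ⊆ Finset.Icc p₀ y ∪ Finset.range p₀ := by
      intro p hp
      obtain ⟨p1, p2⟩ := Finset.mem_Icc.1 hp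
      rw [Finset.mem_union, Finset.mem_Icc, Finset.mem_range]
      omega
    have hnn : ∀ p, (0 : ℝ) ≤ (if p % W ∈ C N ∧ Nat.Coprime p W then In A p ω else 0) := by
      intro p
      split_ifs
      · exact In_nonneg _ _
      · exact le_rfl
    have hle1 : ∀ p, (if p % W ∈ C N ∧ Nat.Coprime p W then In A p ω else 0) ≤ (1 : ℝ) := by
      intro p
      split_ifs
      · exact In_le _ _
      · exact zero_le_one
    refine (Finset.sum_le_sum_of_subset_of_nonneg hsub fun p _ _ => hnn p).trans ?_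
    have hun : ∑ p ∈ Finset.Icc p₀ y ∪ Finset.range p₀, (if p % W ∈ C N ∧ Nat.Coprime p W then In A p ω else 0) ≤
        ∑ p ∈ Finset.Icc p₀ y, (if p % W ∈ C N ∧ Nat.Coprime p W then In A p ω else 0) +
          ∑ p ∈ Finset.range p₀, (if p % W ∈ C N ∧ Nat.Coprime p W then In A p ω else 0) := by
      have h5 := Finset.sum_union_inter (s₁ := Finset.Icc p₀ y) (s₂ := Finset.range p₀)
        (f := fun p => if p % W ∈ C N ∧ Nat.Coprime p W then In A p ω else 0)
      have h6 : 0 ≤ ∑ p ∈ Finset.Icc p₀ y ∩ Finset.range p₀, (if p % W ∈ C N ∧ Nat.Coprime p W then In A p ω else 0) :=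
        Finset.sum_nonneg fun p _ => hnn p
      linarith
    refine hun.trans ?_
    apply add_le_add le_rfl
    refine (Finset.sum_le_sum fun p _ => hle1 p).trans ?_
    rw [Finset.sum_const, Finset.card_range, nsmul_eq_mul, mul_one]
  refine (mul_le_mul_of_nonneg_right h1 (by positivity)).trans ?_
  rw [Finset.sum_mul]
  unfold VF
  apply Finset.sum_le_sum
  intro p hp
  obtain ⟨p1, p2⟩ := Finset.mem_Icc.1 hp
  have hFp := F_le hR p1 p2
  have hI := In_nonneg (A := A) p ω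
  by_cases hpW : Nat.Coprime p W
  · have h3 := hR.res N p p1 (by omega) hpW
    unfold rhoW
    by_cases h : Nat.Coprime (N - F p) W
    · rw [if_pos h, if_pos ⟨h3.1 h, hpW⟩]
      apply mul_le_mul_of_nonneg_left _ hI
      have h5 : (1 : ℝ) < ((N - F p : ℕ) : ℝ) := by exact_mod_cast (by omega : 1 < N - F p)
      have h2 : ((N - F p : ℕ) : ℝ) ≤ (N : ℝ) := by exact_mod_cast (by omega : N - F p ≤ N)
      apply le_min
      · rw [div_le_one hL]
        exact hlog
      · exact div_le_div_of_nonneg_left (by positivity) (Real.log_pos h5) (Real.log_le_log (by linarith) h2)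
    · rw [if_neg h, if_neg (fun h4 => h (h3.2 h4.1)), mul_zero, zero_mul]
  · have h3 : In A p ω = 0 := by
      unfold In
      rw [hcop p hpW]
      simp
    rw [h3, zero_mul, ite_self, zero_mul]

/-- **the number of the admissible members** -/
theorem KC_law (hA : ∀ n, MeasurableSet[ℱ n] (A n)) {W : ℕ} (hW : 0 < W)
    (hd : ∀ᵐ ω ∂μ, ∀ ε : ℝ, 0 < ε → ∀ᶠ n : ℕ in atTop, |dens μ ℱ A n ω - rhoW W (n + 1)| ≤ ε * rhoW W (n + 1))
    {C : ℕ → Finset ℕ} (hC : ∀ N, C N ⊆ adm W W) :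
    ∀ᵐ ω ∂μ, ∀ η : ℝ, 0 < η → ∀ᶠ y : ℕ in atTop, ∀ N : ℕ,
      (1 - η) * ((C N).card * EX W W y) ≤ KC A W C N y ω ∧ KC A W C N y ω ≤ (1 + η) * ((C N).card * EX W W y) := by
  have h1 : ∀ᵐ ω ∂μ, ∀ a ∈ adm W W, Tendsto (fun n : ℕ => Ncl A (cls W W a 0 n) ω / EX W W n) atTop (𝓝 1) := by
    refine (Filter.eventually_all_finset _).2 ?_
    intro a ha
    exact class_count (μ := μ) (ℱ := ℱ) hA hW hW ha hd
  have hκ : (0 : ℝ) < (adm W W).card := adm_pos W hW
  have hDpos : ∀ᶠ n : ℕ in atTop, 0 < EX W W n := by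
    filter_upwards [tendsto_log.eventually_gt_atTop 0, eventually_gt_atTop 0] with n g1 g2
    have hn : (0 : ℝ) < n := by exact_mod_cast g2
    unfold EX
    positivity
  filter_upwards [h1] with ω hω η hη
  have h2 : ∀ᶠ y : ℕ in atTop, ∀ a ∈ adm W W, |Ncl A (cls W W a 0 y) ω / EX W W y - 1| < η := by
    rw [Filter.eventually_all_finset]
    intro a ha
    have := (Metric.tendsto_nhds.1 (hω a ha)) η hη
    simpa only [Real.dist_eq] using this
  filter_upwards [h2, hDpos] with y g1 g2 N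
  have h3 : ∀ a ∈ C N, (1 - η) * EX W W y ≤ Ncl A (cls W W a 0 y) ω ∧ Ncl A (cls W W a 0 y) ω ≤ (1 + η) * EX W W y := by
    intro a ha
    obtain ⟨g3, g4⟩ := abs_lt.1 (g1 a (hC N ha))
    have g5 : Ncl A (cls W W a 0 y) ω = (Ncl A (cls W W a 0 y) ω / EX W W y) * EX W W y := by field_simp
    constructor
    · rw [g5]
      exact mul_le_mul_of_nonneg_right (by linarith) g2.le
    · rw [g5]
      exact mul_le_mul_of_nonneg_right (by linarith) g2.le
  unfold KC
  constructor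
  · have := Finset.card_nsmul_le_sum _ _ _ (fun a ha => (h3 a ha).1)
    rw [nsmul_eq_mul] at this
    linarith
  · have := Finset.sum_le_card_nsmul _ _ _ (fun a ha => (h3 a ha).2)
    rw [nsmul_eq_mul] at this
    linarith

lemma sgC_EX {W : ℕ} (hW : 0 < W) (C : ℕ → Finset ℕ) (N y : ℕ) :
    (C N).card * EX W W y * ((W : ℝ) / Nat.totient W) = sgC W C N * (y / Real.log y) := by
  unfold EX sgC
  rw [adm_self_card]
  have hφ : (0 : ℝ) < Nat.totient W := by exact_mod_cast Nat.totient_pos.2 hW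
  rcases eq_or_ne (Real.log (y : ℝ)) 0 with h | h
  · rw [h]
    simp
  · field_simp

/-- **the sum of the densities** -/
theorem VF_law (hA : ∀ n, MeasurableSet[ℱ n] (A n)) {W : ℕ} (hW : 0 < W) (hcop : ∀ n, ¬ Nat.Coprime n W → A n = ∅)
    (hd : ∀ᵐ ω ∂μ, ∀ ε : ℝ, 0 < ε → ∀ᶠ n : ℕ in atTop, |dens μ ℱ A n ω - rhoW W (n + 1)| ≤ ε * rhoW W (n + 1))
    {C : ℕ → Finset ℕ} (hR : Rep W F p₀ C) :
    ∀ᵐ ω ∂μ, ∀ η : ℝ, 0 < η → ∀ᶠ y : ℕ in atTop, ∀ N : ℕ, F y + 2 ≤ N → (W : ℝ) / Nat.totient W ≤ Real.log N →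
      (1 - η) * (sgC W C N * (y / Real.log y) / Real.log N) ≤ VF A F p₀ W N y ω ∧
      VF A F p₀ W N y ω ≤ (1 + η) * (sgC W C N * (y / Real.log y) / Real.log ((N - F y : ℕ) : ℝ)) := by
  have hφ : (0 : ℝ) < Nat.totient W := by exact_mod_cast Nat.totient_pos.2 hW
  have hWp : (0 : ℝ) < W := by exact_mod_cast hW
  have hκ : (0 : ℝ) < (adm W W).card := adm_pos W hW
  have hEX : Tendsto (fun y => EX W W y) atTop atTop := by
    have h1 : Tendsto (fun x : ℝ => x / Real.log x) atTop atTop := by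
      have h2 : Tendsto (fun x : ℝ => Real.log x / x) atTop (𝓝 0) := Real.isLittleO_log_id_atTop.tendsto_div_nhds_zero
      have h3 : Tendsto (fun x : ℝ => Real.log x / x) atTop (𝓝[>] 0) := by
        rw [tendsto_nhdsWithin_iff]
        refine ⟨h2, ?_⟩
        filter_upwards [eventually_gt_atTop 1] with x hx
        exact div_pos (Real.log_pos hx) (by linarith)
      refine (h3.inv_tendsto_nhdsGT_zero).congr fun x => ?_
      simp only [Pi.inv_apply, inv_div]
    have h4 := (h1.comp tendsto_natCast_atTop_atTop).const_mul_atTop (show 0 < 1 / ((adm W W).card : ℝ) by positivity)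
    refine h4.congr fun y => ?_
    unfold EX
    simp only [Function.comp]
    rw [div_mul_div_comm, one_mul]
  filter_upwards [KC_law (μ := μ) (ℱ := ℱ) hA hW hd hR.sub] with ω hω η hη
  filter_upwards [hω (η / 2) (by positivity), hEX.eventually_ge_atTop (p₀ / (η / 2))] with y hy hEXy N hN hlog
  obtain ⟨g1, g2⟩ := hy N
  have hEX0 : 0 ≤ EX W W y := by
    refine le_trans ?_ hEXy
    positivity
  have hL : 0 < Real.log (N : ℝ) := lt_of_lt_of_le (by positivity) hlog
  have h1 : (1 : ℝ) < ((N - F y : ℕ) : ℝ) := by exact_mod_cast (by omega : 1 < N - F y)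
  have hL' : 0 < Real.log ((N - F y : ℕ) : ℝ) := Real.log_pos h1
  constructor
  · rcases Nat.eq_zero_or_pos (C N).card with h0 | h0
    · unfold sgC
      rw [h0, Nat.cast_zero, mul_zero, zero_div, zero_mul, zero_div, mul_zero]
      unfold VF
      exact Finset.sum_nonneg fun p _ => mul_nonneg (In_nonneg _ _) (rhoW_nonneg _ _)
    · refine le_trans ?_ (VF_ge hW hcop hR hN hlog ω)
      have h2 : (1 : ℝ) ≤ (C N).card := by exact_mod_cast h0
      rw [div_le_iff₀ (by positivity)] at hEXy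
      have h3 : 1 * EX W W y ≤ (C N).card * EX W W y := mul_le_mul_of_nonneg_right h2 hEX0
      have h5 : EX W W y * (η / 2) ≤ ((C N).card * EX W W y) * (η / 2) := mul_le_mul_of_nonneg_right (by linarith) (by positivity)
      have h4 : (1 - η) * ((C N).card * EX W W y) ≤ KC A W C N y ω - p₀ := by linarith
      have := mul_le_mul_of_nonneg_right h4 (show 0 ≤ ((W : ℝ) / Nat.totient W) / Real.log N by positivity)
      refine le_trans (le_of_eq ?_) this
      rw [← sgC_EX hW]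
      ring
  · refine (VF_le hW hcop hR hN ω).trans ?_
    have h2 : 0 ≤ η / 2 * ((C N).card * EX W W y) := by positivity
    have h3 : KC A W C N y ω ≤ (1 + η) * ((C N).card * EX W W y) := by linarith
    have := mul_le_mul_of_nonneg_right h3 (show 0 ≤ ((W : ℝ) / Nat.totient W) / Real.log ((N - F y : ℕ) : ℝ) by positivity)
    refine this.trans (le_of_eq ?_)
    rw [← sgC_EX hW]
    ring

end Pool.Agent.R291.RMW
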