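import Mathlib
import Pool.Agent.R291.RMW.Y2

set_option autoImplicit false
set_option linter.unusedSectionVars false
set_option linter.unusedVariables false

/-! # The least argument in `N = F p + q` -/

open MeasureTheory Filter Set
open scoped ENNReal Topology

namespace Pool.Agent.R291.RMW

open Pool.Agent.R528.RM

variable {Ω : Type} {m0 : MeasurableSpace Ω} {μ : Measure Ω} [IsProbabilityMeasure μ]
  {ℱ : Filtration ℕ m0} {A : ℕ → Set Ω} {F : ℕ → ℕ} {p₀ : ℕ}

lemma sgC_per {W : ℕ} {C : ℕ → Finset ℕ} (hR : Rep W F p₀ C) {N N' : ℕ} (h : N % W = N' % W) : sgC W C N = sgC W C N' := by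
  unfold sgC
  rw [hR.per N N' h]

lemma small_sum {W : ℕ} {C : ℕ → Finset ℕ} (hR : Rep W F p₀ C) {κ : ℝ} (hκ0 : 0 < κ) :
    ∀ᶠ x : ℕ in atTop, 2 * (yL κ x + F (yL κ x)) + 4 ≤ x := by
  filter_upwards [yL_small hκ0 (show (0 : ℝ) < 1 / 2 by norm_num), hR.grow (1 / 2) (by norm_num) κ hκ0, eventually_ge_atTop 36] with N g1 g1' g2
  have hN : (36 : ℝ) ≤ N := by exact_mod_cast g2
  rw [← Real.sqrt_eq_rpow] at g1 g1'
  have h1 : 6 ≤ √(N : ℝ) := by
    apply Real.le_sqrt_of_sq_le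
    linarith
  have h2 : √(N : ℝ) * √(N : ℝ) = N := Real.mul_self_sqrt (by linarith)
  have : ((2 * (yL κ N + F (yL κ N)) + 4 : ℕ) : ℝ) ≤ N := by
    push_cast
    nlinarith
  exact_mod_cast this

/-- **every large integer has a representation with a small argument** -/
theorem rep_upper (hA : ∀ n, MeasurableSet[ℱ n] (A n)) {W : ℕ} (hW : 0 < W) (hcop : ∀ n, ¬ Nat.Coprime n W → A n = ∅)
    (hd : ∀ᵐ ω ∂μ, ∀ ε : ℝ, 0 < ε → ∀ᶠ n : ℕ in atTop, |dens μ ℱ A n ω - rhoW W (n + 1)| ≤ ε * rhoW W (n + 1))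
    {C : ℕ → Finset ℕ} (hR : Rep W F p₀ C)
    {r : ℕ} (hr : 0 < sgC W C r) {ε : ℝ} (hε : 0 < ε) :
    ∀ᵐ ω ∂μ, ∀ᶠ N : ℕ in atTop, N % W = r % W → ∃ p : ℕ, p₀ ≤ p ∧ F p < N ∧
      (p : ℝ) ≤ (1 + ε) * (2 / sgC W C r) * (Real.log N ^ 2 * Real.log (Real.log N)) ∧ ω ∈ A p ∧ ω ∈ A (N - F p) := by
  set σ := sgC W C r with hσ
  set κ : ℝ := (1 + ε) * (2 / σ) with hκ
  have hκ0 : 0 < κ := by positivity
  have hσκ : σ * (κ / 2) = 1 + ε := by rw [hκ]; field_simp
  set δ : ℝ := min (1 / 4) (ε / (12 * (1 + ε))) with hδ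
  have hδ0 : 0 < δ := lt_min (by norm_num) (by positivity)
  have hδ1 : δ ≤ 1 / 4 := min_le_left _ _
  have hδ2 : 1 + ε / 4 ≤ (1 - δ - δ * (1 + δ)) * (1 + ε / 2) := by
    have h1 : δ ≤ ε / (12 * (1 + ε)) := min_le_right _ _
    rw [le_div_iff₀ (by positivity)] at h1
    have h2 : 1 - 3 * δ ≤ 1 - δ - δ * (1 + δ) := by nlinarith only [hδ0, hδ1]
    have h3 := mul_le_mul_of_nonneg_right h2 (show 0 ≤ 1 + ε / 2 by positivity)
    have h4 : 0 < δ * ε := by positivity
    nlinarith only [h1, h3, h4, hδ0]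
  set η : ℝ := ε / (4 * (1 + ε)) with hη
  have hη0 : 0 < η := by positivity
  have hη1 : 1 + ε / 2 < (1 - η) * (1 + ε) := by
    have h1 : η * (1 + ε) = ε / 4 := by rw [hη]; field_simp
    linarith only [h1, hε]
  set E : ℕ → Set Ω := fun N => (HF A F p₀ N (yL κ N) ∩ {ω | (1 + ε / 2) * Real.log N ≤ VF A F p₀ W N (yL κ N) ω}) \
    WV (VB μ ℱ A (lp W δ) (up W δ)) (N - F (yL κ N) - 1) (F (yL κ N) + 1) with hE
  have hy2 := small_sum hR hκ0
  have hbc : ∀ᵐ ω ∂μ, ∀ᶠ N : ℕ in atTop, ω ∉ E N := by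
    have hsum : Summable (fun n : ℕ => (n : ℝ) ^ (-(1 + ε / 4))) := by
      have := Real.summable_nat_rpow_inv.2 (show 1 < 1 + ε / 4 by linarith)
      refine this.congr fun n => ?_
      rw [Real.rpow_neg (Nat.cast_nonneg _)]
    refine bc_real (μ := μ) hsum ?_
    filter_upwards [hy2, eventually_ge_atTop 1] with N g1 g2
    have hN : (1 : ℝ) ≤ N := by exact_mod_cast g2
    have hL : 0 ≤ Real.log (N : ℝ) := Real.log_natCast_nonneg N
    refine (HF_upper (μ := μ) hA hR.mono hδ0 hδ1 (by omega) _).trans ?_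
    rw [Real.rpow_def_of_pos (by linarith)]
    apply Real.exp_le_exp.2
    have := mul_le_mul_of_nonneg_right hδ2 hL
    linarith
  have hy0 : Tendsto (yL κ) atTop atTop := yL_top hκ0
  filter_upwards [hbc, VF_law (μ := μ) (ℱ := ℱ) hA hW hcop hd hR, hd] with ω w1 w2 w3
  obtain ⟨n₀, hn₀⟩ := not_WV hδ0 w3
  have hlim : Tendsto (fun N : ℕ => (1 - η) * (σ * (((yL κ N : ℝ) / Real.log (yL κ N)) / Real.log (N : ℝ) ^ 2))) atTop (𝓝 ((1 - η) * (σ * (κ / 2)))) :=
    ((yL_mean hκ0).const_mul σ).const_mul (1 - η)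
  rw [hσκ] at hlim
  filter_upwards [w1, hy0.eventually (w2 η hη0), hy2, tendsto_log.eventually_ge_atTop ((W : ℝ) / Nat.totient W),
    tendsto_log.eventually_gt_atTop 0, hlim.eventually (eventually_gt_nhds hη1), eventually_ge_atTop (2 * n₀ + 2),
    (Real.tendsto_log_atTop.comp tendsto_log).eventually_gt_atTop 0] with N g1 g2 g3 g4 g5 g6 g7 g8 hNr
  have h1 := (g2 N (by omega) g4).1
  rw [sgC_per hR hNr, ← hσ] at h1
  have h2 : (1 + ε / 2) * Real.log N ≤ VF A F p₀ W N (yL κ N) ω := by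
    refine le_trans ?_ h1
    have h3 := mul_le_mul_of_nonneg_right g6.le g5.le
    refine h3.trans (le_of_eq ?_)
    field_simp
  have h3 : ω ∉ WV (VB μ ℱ A (lp W δ) (up W δ)) (N - F (yL κ N) - 1) (F (yL κ N) + 1) := hn₀ _ _ (by omega)
  have h4 : ω ∉ HF A F p₀ N (yL κ N) := fun h => g1 ⟨⟨h, h2⟩, h3⟩
  unfold HF at h4
  simp only [mem_ofPred_eq, not_forall, not_not, exists_prop] at h4
  obtain ⟨p, p1, p2, p3, p4⟩ := h4
  have hFp := F_le hR p1 p2
  refine ⟨p, p1, by omega, ?_, p3, p4⟩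
  have h5 : ((yL κ N : ℕ) : ℝ) ≤ κ * (Real.log N ^ 2 * Real.log (Real.log N)) := by
    apply Nat.floor_le
    have : 0 < Real.log (Real.log (N : ℝ)) := g8
    positivity
  have h6 : (p : ℝ) ≤ yL κ N := by exact_mod_cast p2
  linarith

/-- **integers without a representation with a small argument** -/
theorem rep_lower (hA : ∀ n, MeasurableSet[ℱ n] (A n)) {W : ℕ} (hW : 0 < W) (hcop : ∀ n, ¬ Nat.Coprime n W → A n = ∅)
    (hd : ∀ᵐ ω ∂μ, ∀ ε : ℝ, 0 < ε → ∀ᶠ n : ℕ in atTop, |dens μ ℱ A n ω - rhoW W (n + 1)| ≤ ε * rhoW W (n + 1))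
    {C : ℕ → Finset ℕ} (hR : Rep W F p₀ C)
    {r : ℕ} (hr : 0 < sgC W C r) {ε : ℝ} (hε0 : 0 < ε) (hε1 : ε < 1) :
    ∀ᵐ ω ∂μ, ∀ᶠ k : ℕ in atTop, ∃ N : ℕ, N % W = r % W ∧ 2 ^ k < N ∧ N ≤ r + 3 * W * 2 ^ k ∧
      ω ∈ HF A F p₀ N (yL ((1 - ε) * (2 / sgC W C r)) (2 ^ k)) := by
  classical
  have hW' : (1 : ℝ) ≤ W := by exact_mod_cast hW
  set σ := sgC W C r with hσ
  set κ : ℝ := (1 - ε) * (2 / σ) with hκ
  have h1ε : 0 < 1 - ε := by linarith
  have hκ0 : 0 < κ := by positivity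
  have hσκ : σ * (κ / 2) = 1 - ε := by rw [hκ]; field_simp
  set δ : ℝ := ε / 16 with hδ
  have hδ0 : 0 < δ := by positivity
  have hδ1 : δ ≤ 1 / 16 := by rw [hδ]; linarith
  have hδ2 : (1 + 2 * δ) * (1 + δ) * (1 - ε / 2) ≤ 1 - ε / 4 := by
    have h1 : (1 + 2 * δ) * (1 + δ) ≤ 1 + 4 * δ := by nlinarith only [hδ0, hδ1]
    have h2 := mul_le_mul_of_nonneg_right h1 (show 0 ≤ 1 - ε / 2 by linarith)
    have h3 : 0 < δ * ε := by positivity
    nlinarith only [h2, h3, hδ]
  have hη1 : (1 + ε / 4) * (1 - ε) < 1 - ε / 2 := by nlinarith only [hε0]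
  set X : ℕ → ℕ := fun k => 2 ^ k with hX
  set y : ℕ → ℕ := fun k => yL κ (X k) with hy
  set G : ℕ → ℕ := fun k => F (y k) with hG
  set NN' : ℕ → ℕ → ℕ := fun k j => r + W * (2 * X k + j * (G k + 1)) with hNN'
  set c : ℕ → ℝ := fun k => (1 - ε / 2) * Real.log (X k) with hc
  set D : ℕ → ℕ → Set Ω := fun k j => (HF A F p₀ (NN' k j) (y k) ∪ {ω | c k < VF A F p₀ W (NN' k j) (y k) ω}) ∪
    WV (VB μ ℱ A (lp W δ) (up W δ)) (NN' k j - G k - 1) (G k + 1) with hD
  have hXt : Tendsto X atTop atTop := tendsto_pow_atTop_atTop_of_one_lt (by norm_num : 1 < 2)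
  have hyt : Tendsto y atTop atTop := (yL_top hκ0).comp hXt
  have hysm : ∀ᶠ k : ℕ in atTop, (G k : ℝ) ≤ (X k : ℝ) ^ (ε / 16) := hXt.eventually (hR.grow (ε / 16) (by positivity) κ hκ0)
  have hyX : ∀ᶠ k : ℕ in atTop, 2 * (y k + G k) + 4 ≤ X k := hXt.eventually (small_sum hR hκ0)
  have hNX : ∀ k j, 2 * X k ≤ NN' k j := by
    intro k j
    have h1 : 1 * (2 * X k + j * (G k + 1)) ≤ W * (2 * X k + j * (G k + 1)) := Nat.mul_le_mul_right _ hW
    have h2 : NN' k j = r + W * (2 * X k + j * (G k + 1)) := rfl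
    have h3 : 0 ≤ j * (G k + 1) := Nat.zero_le _
    omega
  -- smallness of the upper profile
  obtain ⟨n₁, _, hn₁⟩ := exists_start W hδ0 hδ0 0
  have hsmall : ∀ m, n₁ < m → up W δ m ≤ δ := by
    intro m hm
    have := hn₁ (m - 1) (by omega)
    rw [show m - 1 + 1 = m by omega] at this
    exact (min_le_right _ _).trans this
  have hbound : ∀ᶠ k : ℕ in atTop, μ.real {ω | ∀ j, 0 ≤ j → j < 0 + X k / (G k + 1) → ω ∉ D k j} ≤ Real.exp (-1) ^ k := by
    -- the exponential growth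
    have hgrow : ∀ᶠ k : ℕ in atTop, 4 * (k : ℝ) ≤ Real.exp ((ε / 8) * (k * Real.log 2)) := by
      have h1 : Tendsto (fun x : ℝ => x ^ 1 * Real.exp (-(ε / 8 * Real.log 2) * x)) atTop (𝓝 0) := by
        have hl2 : 0 < Real.log 2 := Real.log_pos (by norm_num)
        have := Real.tendsto_pow_mul_exp_neg_atTop_nhds_zero 1
        have h2 : Tendsto (fun x : ℝ => (ε / 8 * Real.log 2) * x) atTop atTop := tendsto_id.const_mul_atTop (by positivity)
        have h3 := (this.comp h2).const_mul ((ε / 8 * Real.log 2)⁻¹)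
        rw [mul_zero] at h3
        refine h3.congr fun x => ?_
        simp only [Function.comp, pow_one]
        rw [← neg_mul]
        field_simp
      have h2 := (h1.comp tendsto_natCast_atTop_atTop).eventually (eventually_lt_nhds (show (0 : ℝ) < 1 / 4 by norm_num))
      filter_upwards [h2] with k hk
      simp only [Function.comp, pow_one] at hk
      have h3 : Real.exp ((ε / 8) * (k * Real.log 2)) * Real.exp (-(ε / 8 * Real.log 2) * k) = 1 := by
        rw [← Real.exp_add]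
        rw [show (ε / 8) * (k * Real.log 2) + -(ε / 8 * Real.log 2) * k = 0 by ring, Real.exp_zero]
      have h4 := mul_lt_mul_of_pos_left hk (Real.exp_pos ((ε / 8) * (k * Real.log 2)))
      have h5 : Real.exp ((ε / 8) * (k * Real.log 2)) * ((k : ℝ) * Real.exp (-(ε / 8 * Real.log 2) * k)) = k := by
        calc _ = (k : ℝ) * (Real.exp ((ε / 8) * (k * Real.log 2)) * Real.exp (-(ε / 8 * Real.log 2) * k)) := by ring
          _ = k := by rw [h3, mul_one]
      rw [h5] at h4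
      linarith
    filter_upwards [hysm, hyX, hgrow, hXt.eventually_ge_atTop (n₁ + 2), eventually_ge_atTop 1] with k g1 g2 g3 g4 g5
    have hXk : (X k : ℝ) = 2 ^ k := by rw [hX]; push_cast; rfl
    have hlX : Real.log (X k : ℝ) = k * Real.log 2 := by rw [hXk, Real.log_pow]
    have hX1 : (1 : ℝ) ≤ X k := by rw [hXk]; exact one_le_pow₀ (by norm_num)
    have hXp : (0 : ℝ) < X k := by linarith
    have hl0 : 0 ≤ Real.log (X k : ℝ) := Real.log_natCast_nonneg _
    have hc0 : 0 ≤ c k := mul_nonneg (by linarith) hl0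
    have hbig : ∀ j, y k + G k + 1 ≤ NN' k j ∧ n₁ + 1 ≤ NN' k j - G k - 1 := by
      intro j
      have := hNX k j
      constructor <;> omega
    have hnone := (seq_none (μ := μ) (ℱ := ℱ) (T := fun j => NN' k j - G k - 1) (h := fun _ => G k + 1) (J₀ := 0)
      (by
        intro j _
        have h1 := (hbig j).1
        have h2 : NN' k (j + 1) = NN' k j + W * (G k + 1) := by
          show r + W * (2 * X k + (j + 1) * (G k + 1)) = r + W * (2 * X k + j * (G k + 1)) + W * (G k + 1)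
          ring
        have h3 : 1 * (G k + 1) ≤ W * (G k + 1) := Nat.mul_le_mul_right _ hW
        show NN' k j - G k - 1 + (G k + 1) ≤ NN' k (j + 1) - G k - 1
        omega) (D := D k)
      (by
        intro j _
        have h1 := (hbig j).1
        have e1 : NN' k j - G k - 1 + (G k + 1) = NN' k j := by omega
        have h2 : MeasurableSet[ℱ (NN' k j - G k - 1 + (G k + 1))] (HF A F p₀ (NN' k j) (y k)) := by
          rw [e1]
          exact HF_meas hA (by omega)
        have h3 : MeasurableSet[ℱ (NN' k j - G k - 1 + (G k + 1))] {ω | c k < VF A F p₀ W (NN' k j) (y k) ω} :=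
          ℱ.mono (by omega) _ (VF_meas hA W _ _ _)
        exact (h2.union h3).union (WV_meas (fun n => VB_meas _ _ n) _ _))
      (p := fun _ => Real.exp (-((1 + 2 * δ) * (1 + δ) * c k)))
      (by
        intro j _
        rw [Real.exp_le_one_iff]
        have : 0 ≤ (1 + 2 * δ) * (1 + δ) * c k := by positivity
        linarith)
      (by
        intro j _ B hB
        have h1 := hbig j
        have hGF : G k = F (y k) := rfl
        exact HF_lower (μ := μ) hA hR.mono hδ0 h1.1 hδ0.le (by linarith) (fun m hm => hsmall m (by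
          have hm' : NN' k j - G k - 1 < m := hm
          omega)) hc0 hB)
      0 le_rfl (X k / (G k + 1))).1
    refine hnone.trans ?_
    rw [Finset.sum_const, Nat.card_Ico, zero_add, Nat.sub_zero, nsmul_eq_mul, ← Real.exp_nat_mul]
    apply Real.exp_le_exp.2
    -- M p ≥ k
    set M : ℕ := X k / (G k + 1) with hM
    have hyp : (0 : ℝ) < (G k : ℝ) + 1 := by positivity
    have hM1 : (X k : ℝ) ≤ 2 * M * (G k + 1) := by
      have h1 : X k < (M + 1) * (G k + 1) := by
        rw [hM, add_mul, one_mul]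
        exact Nat.lt_div_mul_add (Nat.succ_pos _)
      have h2 : 1 ≤ M := by
        rw [hM]
        exact (Nat.one_le_div_iff (Nat.succ_pos _)).2 (by omega)
      have h1' : (X k : ℝ) ≤ (M + 1) * ((G k : ℝ) + 1) := by exact_mod_cast h1.le
      have h2' : (1 : ℝ) ≤ M := by exact_mod_cast h2
      have h3 : ((M : ℝ) + 1) * ((G k : ℝ) + 1) ≤ (2 * M) * ((G k : ℝ) + 1) := mul_le_mul_of_nonneg_right (by linarith) hyp.le
      linarith
    have hy1 : (G k : ℝ) + 1 ≤ 2 * Real.exp (ε / 16 * (k * Real.log 2)) := by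
      have h1 : (X k : ℝ) ^ (ε / 16) = Real.exp (ε / 16 * (k * Real.log 2)) := by
        rw [Real.rpow_def_of_pos hXp, hlX]
        congr 1
        ring
      rw [h1] at g1
      have h2 : 1 ≤ Real.exp (ε / 16 * (k * Real.log 2)) := Real.one_le_exp (by rw [hlX] at hl0; positivity)
      linarith
    have hXe : (X k : ℝ) = Real.exp (k * Real.log 2) := by rw [← hlX, Real.exp_log hXp]
    have hp : Real.exp (-((1 - ε / 4) * (k * Real.log 2))) ≤ Real.exp (-((1 + 2 * δ) * (1 + δ) * c k)) := by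
      apply Real.exp_le_exp.2
      apply neg_le_neg
      show (1 + 2 * δ) * (1 + δ) * ((1 - ε / 2) * Real.log (X k)) ≤ (1 - ε / 4) * (k * Real.log 2)
      rw [hlX] at hl0 ⊢
      calc (1 + 2 * δ) * (1 + δ) * ((1 - ε / 2) * (k * Real.log 2)) = ((1 + 2 * δ) * (1 + δ) * (1 - ε / 2)) * (k * Real.log 2) := by ring
        _ ≤ _ := mul_le_mul_of_nonneg_right hδ2 hl0
    have hMlow : Real.exp ((1 - ε / 16) * (k * Real.log 2)) ≤ 4 * M := by
      have h1 : (X k : ℝ) ≤ 2 * M * (2 * Real.exp (ε / 16 * (k * Real.log 2))) :=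
        hM1.trans (mul_le_mul_of_nonneg_left hy1 (by positivity))
      rw [hXe] at h1
      have h2 : Real.exp ((1 - ε / 16) * (k * Real.log 2)) * Real.exp (ε / 16 * (k * Real.log 2)) = Real.exp (k * Real.log 2) := by
        rw [← Real.exp_add]
        congr 1
        ring
      rw [← h2] at h1
      have h3 : 2 * (M : ℝ) * (2 * Real.exp (ε / 16 * (k * Real.log 2))) = 4 * M * Real.exp (ε / 16 * (k * Real.log 2)) := by ring
      rw [h3] at h1
      exact le_of_mul_le_mul_right h1 (Real.exp_pos _)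
    have hMp : (k : ℝ) ≤ M * Real.exp (-((1 + 2 * δ) * (1 + δ) * c k)) := by
      have h1 : (M : ℝ) * Real.exp (-((1 - ε / 4) * (k * Real.log 2))) ≤ M * Real.exp (-((1 + 2 * δ) * (1 + δ) * c k)) :=
        mul_le_mul_of_nonneg_left hp (Nat.cast_nonneg _)
      have h2 := mul_le_mul_of_nonneg_right hMlow (Real.exp_pos (-((1 - ε / 4) * (k * Real.log 2)))).le
      rw [← Real.exp_add] at h2
      have h3 : Real.exp (ε / 8 * (k * Real.log 2)) ≤ Real.exp ((1 - ε / 16) * (k * Real.log 2) + -((1 - ε / 4) * (k * Real.log 2))) := by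
        apply Real.exp_le_exp.2
        rw [hlX] at hl0
        have : 0 ≤ ε / 16 * (k * Real.log 2) := by positivity
        linarith
      linarith
    linarith
  have hsum : Summable (fun k : ℕ => Real.exp (-1) ^ k) := summable_geometric_of_lt_one (Real.exp_pos _).le (by rw [Real.exp_lt_one_iff]; norm_num)
  filter_upwards [bc_real (μ := μ) hsum hbound, VF_law (μ := μ) (ℱ := ℱ) hA hW hcop hd hR, hd] with ω w1 w2 w3
  obtain ⟨n₀, hn₀⟩ := not_WV hδ0 w3
  have hlim : Tendsto (fun k : ℕ => (1 + ε / 4) * (σ * (((y k : ℝ) / Real.log (y k)) / Real.log (X k : ℝ) ^ 2))) atTop (𝓝 ((1 + ε / 4) * (σ * (κ / 2)))) :=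
    ((((yL_mean hκ0).comp hXt)).const_mul σ).const_mul (1 + ε / 4)
  rw [hσκ] at hlim
  filter_upwards [w1, hyt.eventually (w2 (ε / 4) (by positivity)), hyX, (tendsto_log.comp hXt).eventually_ge_atTop ((W : ℝ) / Nat.totient W),
    (tendsto_log.comp hXt).eventually_gt_atTop 0, hlim.eventually (eventually_lt_nhds hη1), hXt.eventually_ge_atTop (n₀ + 2),
    hyt.eventually_gt_atTop 1] with k g1 g2 g3 g4 g5 g6 g7 g8
  simp only [Function.comp] at g4 g5
  have g1' : ¬ ∀ j, 0 ≤ j → j < 0 + X k / (G k + 1) → ω ∉ D k j := g1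
  push Not at g1'
  obtain ⟨j, _, hj, hjD⟩ := g1'
  have hNXj := hNX k j
  have hX1 : (1 : ℝ) < X k := by
    have : 1 < X k := by omega
    exact_mod_cast this
  refine ⟨NN' k j, ?_, ?_, ?_, ?_⟩
  · show (r + W * (2 * X k + j * (G k + 1))) % W = r % W
    rw [Nat.add_mul_mod_self_left]
  · show 2 ^ k < NN' k j
    have : X k = 2 ^ k := rfl
    omega
  · have h1 : j * (G k + 1) ≤ X k := by
      have : j + 1 ≤ X k / (G k + 1) := by omega
      calc j * (G k + 1) ≤ (X k / (G k + 1)) * (G k + 1) := Nat.mul_le_mul_right _ (by omega)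
        _ ≤ X k := Nat.div_mul_le_self _ _
    have h2 : W * (2 * X k + j * (G k + 1)) ≤ W * (3 * X k) := Nat.mul_le_mul_left _ (by omega)
    show r + W * (2 * X k + j * (G k + 1)) ≤ r + 3 * W * 2 ^ k
    have h3 : W * (3 * X k) = 3 * W * 2 ^ k := by
      show W * (3 * 2 ^ k) = 3 * W * 2 ^ k
      ring
    omega
  · rcases hjD with (h | h) | h
    · exact h
    · exfalso
      have h' : c k < VF A F p₀ W (NN' k j) (y k) ω := h
      have hGF : G k = F (y k) := rfl
      have h0 : (X k : ℝ) ≤ ((NN' k j - F (y k) : ℕ) : ℝ) := by exact_mod_cast (by omega : X k ≤ NN' k j - F (y k))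
      have h00 : (X k : ℝ) ≤ ((NN' k j : ℕ) : ℝ) := by exact_mod_cast (by omega : X k ≤ NN' k j)
      have h1 := (g2 (NN' k j) (by omega) (g4.trans (Real.log_le_log (by linarith) h00))).2
      have hmod : NN' k j % W = r % W := by
        show (r + W * (2 * X k + j * (G k + 1))) % W = r % W
        rw [Nat.add_mul_mod_self_left]
      rw [sgC_per hR hmod, ← hσ] at h1
      have hly : (0 : ℝ) < Real.log (y k : ℝ) := Real.log_pos (by exact_mod_cast g8)
      have h2 : σ * ((y k : ℝ) / Real.log (y k)) / Real.log ((NN' k j - F (y k) : ℕ) : ℝ) ≤ σ * ((y k : ℝ) / Real.log (y k)) / Real.log (X k : ℝ) :=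
        div_le_div_of_nonneg_left (by positivity) g5 (Real.log_le_log (by linarith) h0)
      have h3 : (1 + ε / 4) * (σ * ((y k : ℝ) / Real.log (y k)) / Real.log (X k : ℝ)) ≤ (1 - ε / 2) * Real.log (X k) := by
        have h4 := mul_le_mul_of_nonneg_right g6.le g5.le
        refine le_trans (le_of_eq ?_) h4
        field_simp
      have h4 := mul_le_mul_of_nonneg_left h2 (show 0 ≤ 1 + ε / 4 by positivity)
      have h5 : c k = (1 - ε / 2) * Real.log (X k) := rfl
      linarith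
    · exfalso
      exact hn₀ _ _ (by omega) h

end Pool.Agent.R291.RMW
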