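import Mathlib
import Pool.Agent.R291.RMW.Y3

set_option autoImplicit false
set_option linter.unusedSectionVars false
set_option linter.unusedVariables false

/-! # The laws in terms of `N`, and the quadratic case -/

open MeasureTheory Filter Set
open scoped ENNReal Topology

namespace Pool.Agent.R291.RMW

open Pool.Agent.R528.RM

variable {Ω : Type} {m0 : MeasurableSpace Ω} {μ : Measure Ω} [IsProbabilityMeasure μ]
  {ℱ : Filtration ℕ m0} {A : ℕ → Set Ω} {F : ℕ → ℕ} {p₀ : ℕ}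

lemma phi_cmp' {a b C : ℝ} (hab : a < b) (hC : 0 ≤ C) : ∀ᶠ L : ℝ in atTop,
    a * ((L + C) ^ 2 * Real.log (L + C)) + 1 ≤ b * (L ^ 2 * Real.log L) := by
  have h0 : Tendsto (fun L : ℝ => C / L) atTop (𝓝 0) := tendsto_id.const_div_atTop C
  have h1 : Tendsto (fun L : ℝ => 1 + C / L) atTop (𝓝 1) := by
    have := h0.const_add 1
    rwa [add_zero] at this
  have h2 : Tendsto (fun L : ℝ => Real.log (1 + C / L) / Real.log L) atTop (𝓝 0) := by
    have h3 := (Real.continuousAt_log one_ne_zero).tendsto.comp h1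
    exact h3.div_atTop Real.tendsto_log_atTop
  have h3 : Tendsto (fun L : ℝ => L ^ 2 * Real.log L) atTop atTop :=
    (tendsto_pow_atTop two_ne_zero).atTop_mul_atTop₀ Real.tendsto_log_atTop
  have h4 : Tendsto (fun L : ℝ => (1 : ℝ) / (L ^ 2 * Real.log L)) atTop (𝓝 0) := h3.const_div_atTop 1
  have h5 := (((h1.pow 2).mul (h2.const_add 1)).const_mul a).add h4
  rw [add_zero, one_pow, add_zero, one_mul, mul_one] at h5
  filter_upwards [h5.eventually (eventually_lt_nhds hab), h3.eventually_gt_atTop 0, eventually_gt_atTop 1] with L g1 g2 g3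
  have hL : 0 < L := by linarith
  have hlL : 0 < Real.log L := Real.log_pos g3
  have e1 : Real.log (L + C) = Real.log L + Real.log (1 + C / L) := by
    rw [← Real.log_mul hL.ne' (by positivity)]
    congr 1
    field_simp
  have e2 : a * ((L + C) ^ 2 * Real.log (L + C)) + 1 =
      (a * ((1 + C / L) ^ 2 * (1 + Real.log (1 + C / L) / Real.log L)) + 1 / (L ^ 2 * Real.log L)) * (L ^ 2 * Real.log L) := by
    rw [e1]
    field_simp
  rw [e2]
  exact mul_le_mul_of_nonneg_right g1.le g2.le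

lemma ll_top : Tendsto (fun N : ℕ => Real.log (Real.log (N : ℝ))) atTop atTop := Real.tendsto_log_atTop.comp tendsto_log

/-- **the upper law for all `N`** -/
theorem rep_upper_all (hA : ∀ n, MeasurableSet[ℱ n] (A n)) {W : ℕ} (hW : 0 < W) (hcop : ∀ n, ¬ Nat.Coprime n W → A n = ∅)
    (hd : ∀ᵐ ω ∂μ, ∀ ε : ℝ, 0 < ε → ∀ᶠ n : ℕ in atTop, |dens μ ℱ A n ω - rhoW W (n + 1)| ≤ ε * rhoW W (n + 1))
    {C : ℕ → Finset ℕ} (hR : Rep W F p₀ C) :
    ∀ᵐ ω ∂μ, ∀ ε : ℝ, 0 < ε → ∀ᶠ N : ℕ in atTop, 0 < sgC W C N → ∃ p : ℕ, p₀ ≤ p ∧ F p < N ∧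
      (p : ℝ) ≤ (1 + ε) * (2 / sgC W C N) * (Real.log N ^ 2 * Real.log (Real.log N)) ∧ ω ∈ A p ∧ ω ∈ A (N - F p) := by
  have h1 : ∀ᵐ ω ∂μ, ∀ r n : ℕ, 0 < sgC W C r → ∀ᶠ N : ℕ in atTop, N % W = r % W → ∃ p : ℕ, p₀ ≤ p ∧ F p < N ∧
      (p : ℝ) ≤ (1 + 1 / ((n : ℝ) + 1)) * (2 / sgC W C r) * (Real.log N ^ 2 * Real.log (Real.log N)) ∧ ω ∈ A p ∧ ω ∈ A (N - F p) := by
    refine ae_all_iff.2 fun r => ae_all_iff.2 fun n => ?_
    by_cases hr : 0 < sgC W C r
    · filter_upwards [rep_upper (μ := μ) (ℱ := ℱ) hA hW hcop hd hR hr (ε := 1 / ((n : ℝ) + 1)) (by positivity)] with ω hω _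
      exact hω
    · exact Eventually.of_forall fun ω h => absurd h hr
  filter_upwards [h1] with ω hω ε hε
  obtain ⟨n, hn⟩ := exists_nat_gt (1 / ε)
  have hnε : 1 / ((n : ℝ) + 1) ≤ ε := by
    rw [div_lt_iff₀ hε] at hn
    rw [div_le_iff₀ (by positivity)]
    nlinarith
  have h2 : ∀ᶠ N : ℕ in atTop, ∀ r ∈ Finset.range W, 0 < sgC W C r → N % W = r % W → ∃ p : ℕ, p₀ ≤ p ∧ F p < N ∧
      (p : ℝ) ≤ (1 + 1 / ((n : ℝ) + 1)) * (2 / sgC W C r) * (Real.log N ^ 2 * Real.log (Real.log N)) ∧ ω ∈ A p ∧ ω ∈ A (N - F p) := by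
    rw [Filter.eventually_all_finset]
    intro r _
    by_cases hr : 0 < sgC W C r
    · filter_upwards [hω r n hr] with N hN _
      exact hN
    · exact Eventually.of_forall fun N h => absurd h hr
  filter_upwards [h2, ll_top.eventually_gt_atTop 0] with N g1 g2 hN
  have hmod : sgC W C (N % W) = sgC W C N := sgC_per hR (Nat.mod_mod _ _)
  obtain ⟨p, p1, p2, p3, p4⟩ := g1 (N % W) (Finset.mem_range.2 (Nat.mod_lt _ hW)) (by rw [hmod]; exact hN) (Nat.mod_mod _ _).symm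
  refine ⟨p, p1, p2, ?_, p4⟩
  rw [hmod] at p3
  refine p3.trans ?_
  apply mul_le_mul_of_nonneg_right _ (by positivity)
  exact mul_le_mul_of_nonneg_right (by linarith) (by positivity)

/-- **the lower law in all ranges** -/
theorem rep_lower_all (hA : ∀ n, MeasurableSet[ℱ n] (A n)) {W : ℕ} (hW : 0 < W) (hcop : ∀ n, ¬ Nat.Coprime n W → A n = ∅)
    (hd : ∀ᵐ ω ∂μ, ∀ ε : ℝ, 0 < ε → ∀ᶠ n : ℕ in atTop, |dens μ ℱ A n ω - rhoW W (n + 1)| ≤ ε * rhoW W (n + 1))
    {C : ℕ → Finset ℕ} (hR : Rep W F p₀ C) :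
    ∀ᵐ ω ∂μ, ∀ r : ℕ, 0 < sgC W C r → ∀ ε : ℝ, 0 < ε → ∀ᶠ x : ℕ in atTop, ∃ N : ℕ, N ≤ x ∧
      N % W = r % W ∧ x ≤ 8 * W * N ∧ ∀ p : ℕ, p₀ ≤ p →
        (p : ℝ) ≤ (1 - ε) * (2 / sgC W C r) * (Real.log x ^ 2 * Real.log (Real.log x)) →
        F p < N ∧ (ω ∈ A p → ω ∉ A (N - F p)) := by
  have h1 : ∀ᵐ ω ∂μ, ∀ r n : ℕ, 0 < sgC W C r → ∀ᶠ k : ℕ in atTop, ∃ N : ℕ, N % W = r % W ∧ 2 ^ k < N ∧ N ≤ r + 3 * W * 2 ^ k ∧
      ω ∈ HF A F p₀ N (yL ((1 - 1 / ((n : ℝ) + 2)) * (2 / sgC W C r)) (2 ^ k)) := by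
    refine ae_all_iff.2 fun r => ae_all_iff.2 fun n => ?_
    by_cases hr : 0 < sgC W C r
    · filter_upwards [rep_lower (μ := μ) (ℱ := ℱ) hA hW hcop hd hR hr (ε := 1 / ((n : ℝ) + 2)) (by positivity) (by
        rw [div_lt_one (by positivity)]
        have : (0 : ℝ) ≤ n := Nat.cast_nonneg n
        linarith)] with ω hω _
      exact hω
    · exact Eventually.of_forall fun ω h => absurd h hr
  filter_upwards [h1] with ω hω r hr ε hε
  set σ := sgC W C r with hσ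
  obtain ⟨n, hn⟩ := exists_nat_gt (1 / ε)
  have hnε : 1 / ((n : ℝ) + 2) < ε := by
    rw [div_lt_iff₀ hε] at hn
    rw [div_lt_iff₀ (by positivity)]
    nlinarith
  have hn1 : 1 / ((n : ℝ) + 2) < 1 := by
    rw [div_lt_one (by positivity)]
    have : (0 : ℝ) ≤ n := Nat.cast_nonneg n
    linarith
  set κ : ℝ := (1 - 1 / ((n : ℝ) + 2)) * (2 / σ) with hκ
  have hκ0 : 0 < κ := mul_pos (by linarith) (by positivity)
  have hab : (1 - ε) * (2 / σ) < κ := mul_lt_mul_of_pos_right (by linarith) (by positivity)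
  set K : ℝ := Real.log (8 * W) with hK
  have hW1 : (1 : ℝ) ≤ W := by exact_mod_cast hW
  have hK0 : 0 ≤ K := Real.log_nonneg (by linarith)
  have hkt : Tendsto (fun x : ℕ => Nat.log 2 (x / (4 * W))) atTop atTop := by
    refine tendsto_atTop.2 fun K => ?_
    filter_upwards [eventually_ge_atTop (4 * W * 2 ^ K)] with x hx
    have h2 : 2 ^ K ≤ x / (4 * W) := (Nat.le_div_iff_mul_le (by omega)).2 (by rw [mul_comm]; exact hx)
    have h3 := Nat.log_mono_right (b := 2) h2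
    rwa [Nat.log_pow (by norm_num)] at h3
  have hXt : Tendsto (fun k : ℕ => 2 ^ k) atTop atTop := tendsto_pow_atTop_atTop_of_one_lt (by norm_num : 1 < 2)
  have hLt : Tendsto (fun k : ℕ => Real.log ((2 ^ k : ℕ) : ℝ)) atTop atTop := tendsto_log.comp hXt
  filter_upwards [hkt.eventually (hω r n hr), hkt.eventually (hLt.eventually (phi_cmp' hab hK0)),
    hkt.eventually (hXt.eventually_ge_atTop r), hkt.eventually (hXt.eventually (small_sum hR hκ0)), eventually_ge_atTop (4 * W),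
    ll_top.eventually_gt_atTop 0, tendsto_log.eventually_gt_atTop 0, hkt.eventually (hLt.eventually_gt_atTop 1)] with
    x ⟨N, N1, N2, N3, N4⟩ g2 g3 g4 g5 g6 g7 g8
  set k := Nat.log 2 (x / (4 * W)) with hk
  have hx0 : x / (4 * W) ≠ 0 := by
    have := (Nat.one_le_div_iff (show 0 < 4 * W by omega)).2 g5
    omega
  have hk1 : 2 ^ k ≤ x / (4 * W) := Nat.pow_log_le_self 2 hx0
  have hk2 : x / (4 * W) < 2 ^ (k + 1) := Nat.lt_pow_succ_log_self (by norm_num) _
  have hk1' : 2 ^ k * (4 * W) ≤ x := (Nat.le_div_iff_mul_le (by omega)).1 hk1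
  have hk2' : x < 2 ^ (k + 1) * (4 * W) := (Nat.div_lt_iff_lt_mul (by omega)).1 hk2
  refine ⟨N, ?_, N1, ?_, fun p hp hpx => ?_⟩
  · have h2 : 2 ^ k * 1 ≤ 2 ^ k * W := Nat.mul_le_mul_left _ hW
    calc N ≤ r + 3 * W * 2 ^ k := N3
      _ ≤ 2 ^ k * W + 3 * W * 2 ^ k := Nat.add_le_add_right (by omega) _
      _ = 2 ^ k * (4 * W) := by ring
      _ ≤ x := hk1'
  · calc x ≤ 2 ^ (k + 1) * (4 * W) := hk2'.le
      _ = 8 * W * 2 ^ k := by rw [pow_succ]; ring
      _ ≤ 8 * W * N := Nat.mul_le_mul_left _ N2.le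
  · have hx8 : (x : ℝ) ≤ 8 * W * ((2 ^ k : ℕ) : ℝ) := by
      have h2 : (x : ℝ) ≤ ((2 ^ (k + 1) * (4 * W) : ℕ) : ℝ) := by exact_mod_cast hk2'.le
      push_cast at h2 ⊢
      rw [pow_succ] at h2
      linarith
    have hxp : (0 : ℝ) < x := by
      have : 0 < x := by omega
      exact_mod_cast this
    have hlx : Real.log (x : ℝ) ≤ Real.log ((2 ^ k : ℕ) : ℝ) + K := by
      have h2 := Real.log_le_log hxp hx8
      rw [Real.log_mul (by positivity) (by positivity)] at h2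
      linarith
    have hone := hR.one
    set L := Real.log ((2 ^ k : ℕ) : ℝ) with hL
    have h3 : (1 - ε) * (2 / σ) * (Real.log x ^ 2 * Real.log (Real.log x)) + 1 ≤ κ * (L ^ 2 * Real.log L) := by
      rcases le_or_gt ((1 - ε) * (2 / σ)) 0 with hneg | hpos
      · have h4 : (1 - ε) * (2 / σ) * (Real.log x ^ 2 * Real.log (Real.log x)) ≤ 0 :=
          mul_nonpos_of_nonpos_of_nonneg hneg (by positivity)
        have h6 : (1 : ℝ) ≤ p := by exact_mod_cast hone.trans hp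
        linarith
      · refine le_trans ?_ g2
        have h4 : Real.log (x : ℝ) ^ 2 ≤ (L + K) ^ 2 := pow_le_pow_left₀ g7.le hlx 2
        have h5 : Real.log (Real.log (x : ℝ)) ≤ Real.log (L + K) := Real.log_le_log g7 hlx
        have h6 : Real.log (x : ℝ) ^ 2 * Real.log (Real.log x) ≤ (L + K) ^ 2 * Real.log (L + K) :=
          mul_le_mul h4 h5 g6.le (by positivity)
        have := mul_le_mul_of_nonneg_left h6 hpos.le
        linarith
    have hpy : p ≤ yL κ (2 ^ k) := by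
      apply Nat.le_floor
      have h4 : (p : ℝ) ≤ κ * (L ^ 2 * Real.log L) := by linarith
      exact h4
    have hFp := F_le hR hp hpy
    refine ⟨by omega, fun h => N4 p hp hpy h⟩

/-! ### quadratic polynomials -/

lemma gcd_congr {u v : ℤ} {W : ℕ} (h : (W : ℤ) ∣ u - v) : Int.gcd u W = Int.gcd v W := by
  obtain ⟨t, ht⟩ := h
  have : u = v + W * t := by linarith
  rw [this, Int.gcd_add_mul_left_left]

/-- the quadratic polynomial -/
def qf (b c : ℤ) (p : ℕ) : ℤ := (p : ℤ) ^ 2 + b * p + c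

/-- the admissible classes -/
def Cq (W : ℕ) (b c : ℤ) (N : ℕ) : Finset ℕ :=
  (Finset.range W).filter (fun a => Nat.Coprime a W ∧ Int.gcd ((N : ℤ) - qf b c a) W = 1)

lemma qf_mono {b c : ℤ} {p q : ℕ} (hp : b.natAbs + c.natAbs + 1 ≤ p) (hpq : p < q) : qf b c p < qf b c q := by
  have h1 : (p : ℤ) < q := by exact_mod_cast hpq
  have h2 : |b| + |c| + 1 ≤ (p : ℤ) := by
    have : ((b.natAbs + c.natAbs + 1 : ℕ) : ℤ) ≤ p := by exact_mod_cast hp
    push_cast at this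
    exact this
  have h3 := neg_abs_le b
  have h4 := abs_nonneg c
  have h5 : qf b c q - qf b c p = (q - p) * (q + p + b) := by unfold qf; ring
  have h6 : 0 < ((q : ℤ) - p) * (q + p + b) := mul_pos (by linarith) (by linarith)
  linarith

lemma qf_pos {b c : ℤ} {p : ℕ} (hp : b.natAbs + c.natAbs + 1 ≤ p) : 0 < qf b c p := by
  have h2 : |b| + |c| + 1 ≤ (p : ℤ) := by
    have : ((b.natAbs + c.natAbs + 1 : ℕ) : ℤ) ≤ p := by exact_mod_cast hp
    push_cast at this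
    exact this
  have h3 := neg_abs_le b
  have h4 := neg_abs_le c
  have h5 := abs_nonneg b
  have h6 := abs_nonneg c
  have h7 : qf b c p = p * (p + b) + c := by unfold qf; ring
  have h8 : 1 * (|c| + 1) ≤ (p : ℤ) * (p + b) := mul_le_mul (by linarith) (by linarith) (by linarith) (by linarith)
  linarith

lemma qf_rep {W : ℕ} (hW : 0 < W) (b c : ℤ) :
    Rep W (fun p => (qf b c p).toNat) (b.natAbs + c.natAbs + 1) (Cq W b c) where
  one := by omega
  mono := by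
    intro p q hp hpq
    have h1 := qf_mono hp hpq
    have h2 := qf_pos hp
    show (qf b c p).toNat < (qf b c q).toNat
    omega
  res := by
    intro N p hp hF hpW
    have h2 := qf_pos hp
    have hF' : (qf b c p).toNat ≤ N := hF
    have h3 : ((N - (qf b c p).toNat : ℕ) : ℤ) = (N : ℤ) - qf b c p := by omega
    have h4 : Nat.Coprime (N - (qf b c p).toNat) W ↔ Int.gcd ((N : ℤ) - qf b c p) W = 1 := by
      rw [← h3, Int.gcd_natCast_natCast]
    have h5 : (W : ℤ) ∣ ((N : ℤ) - qf b c p) - ((N : ℤ) - qf b c (p % W)) := by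
      have h6 : (W : ℤ) ∣ (((p % W : ℕ) : ℤ) - p) := Nat.modEq_iff_dvd.1 (Nat.mod_modEq p W).symm
      have h7 : ((N : ℤ) - qf b c p) - ((N : ℤ) - qf b c (p % W)) = (((p % W : ℕ) : ℤ) - p) * (((p % W : ℕ) : ℤ) + p + b) := by
        unfold qf
        ring
      rw [h7]
      exact Dvd.dvd.mul_right h6 _
    show Nat.Coprime (N - (qf b c p).toNat) W ↔ p % W ∈ Cq W b c N
    rw [h4, gcd_congr h5]
    unfold Cq
    rw [Finset.mem_filter, Finset.mem_range]
    have h8 : Nat.Coprime (p % W) W := by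
      have := (Nat.mod_modEq p W).gcd_eq
      unfold Nat.Coprime
      rw [this]
      exact hpW
    exact ⟨fun h => ⟨Nat.mod_lt _ hW, h8, h⟩, fun h => h.2.2⟩
  sub := by
    intro N a ha
    obtain ⟨a1, a2, _⟩ := Finset.mem_filter.1 ha
    rw [mem_adm, Nat.gcd_self]
    exact ⟨Finset.mem_range.1 a1, a2⟩
  per := by
    intro N N' h
    unfold Cq
    apply Finset.filter_congr
    intro a _
    have h1 : (W : ℤ) ∣ ((N : ℤ) - qf b c a) - ((N' : ℤ) - qf b c a) := by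
      have h2 : (W : ℤ) ∣ (N : ℤ) - N' := (Nat.modEq_iff_dvd.1 (show N' ≡ N [MOD W] from h.symm))
      have h3 : ((N : ℤ) - qf b c a) - ((N' : ℤ) - qf b c a) = (N : ℤ) - N' := by ring
      rw [h3]
      exact h2
    rw [gcd_congr h1]
  grow := by
    intro e he κ hκ
    set K : ℝ := 1 + |(b : ℝ)| + |(c : ℝ)| with hK
    have hK0 : 0 < K := by positivity
    filter_upwards [yL_small hκ (show 0 < e / 4 by positivity), ev_pow (a := e / 2) (b := e) (by linarith) K, ev_log 0,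
      eventually_ge_atTop 1, (yL_top hκ).eventually_ge_atTop 1] with x g1 g2 g3 g4 g5
    have hx : (1 : ℝ) ≤ x := by exact_mod_cast g4
    have hxp : (0 : ℝ) < x := by linarith
    set y := yL κ x with hy
    have hy1 : (1 : ℝ) ≤ y := by exact_mod_cast g5
    have h1 : (((qf b c y).toNat : ℕ) : ℝ) ≤ K * (y : ℝ) ^ 2 := by
      have h2 : (((qf b c y).toNat : ℕ) : ℝ) ≤ |((qf b c y : ℤ) : ℝ)| := by
        have h3 : (((qf b c y).toNat : ℕ) : ℤ) ≤ |qf b c y| := by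
          rcases le_total 0 (qf b c y) with h | h
          · rw [Int.toNat_of_nonneg h]
            exact le_abs_self _
          · rw [Int.toNat_of_nonpos h]
            exact abs_nonneg _
        have h4 : ((((qf b c y).toNat : ℕ) : ℤ) : ℝ) ≤ ((|qf b c y| : ℤ) : ℝ) := by exact_mod_cast h3
        rw [Int.cast_abs] at h4
        exact_mod_cast h4
      refine h2.trans ?_
      unfold qf
      push_cast
      have h5 : |(y : ℝ) ^ 2 + b * y + c| ≤ (y : ℝ) ^ 2 + |(b : ℝ)| * y + |(c : ℝ)| := by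
        refine (abs_add_le _ _).trans ?_
        apply add_le_add _ le_rfl
        refine (abs_add_le _ _).trans ?_
        rw [abs_of_nonneg (show (0 : ℝ) ≤ (y : ℝ) ^ 2 by positivity), abs_mul, abs_of_nonneg (show (0 : ℝ) ≤ (y : ℝ) by positivity)]
      refine h5.trans ?_
      have h6 : (y : ℝ) ≤ (y : ℝ) ^ 2 := by nlinarith
      have h7 : |(b : ℝ)| * y ≤ |(b : ℝ)| * (y : ℝ) ^ 2 := mul_le_mul_of_nonneg_left h6 (abs_nonneg _)
      have h8 : |(c : ℝ)| * 1 ≤ |(c : ℝ)| * (y : ℝ) ^ 2 := mul_le_mul_of_nonneg_left (by nlinarith) (abs_nonneg _)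
      rw [hK]
      linarith
    show (((qf b c y).toNat : ℕ) : ℝ) ≤ (x : ℝ) ^ e
    refine h1.trans ?_
    have h2 : (y : ℝ) ^ 2 ≤ (x : ℝ) ^ (e / 2) := by
      have h3 := pow_le_pow_left₀ (show (0 : ℝ) ≤ y by positivity) g1 2
      rw [← Real.rpow_natCast ((x : ℝ) ^ (e / 4)), ← Real.rpow_mul hxp.le] at h3
      have e1 : e / 4 * ((2 : ℕ) : ℝ) = e / 2 := by push_cast; ring
      rwa [e1] at h3
    have h3 : K * (y : ℝ) ^ 2 ≤ K * (x : ℝ) ^ (e / 2) := mul_le_mul_of_nonneg_left h2 hK0.le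
    have h4 : K * 1 * (x : ℝ) ^ (e / 2) ≤ K * (Real.log x + 1) * (x : ℝ) ^ (e / 2) := by
      apply mul_le_mul_of_nonneg_right _ (by positivity)
      apply mul_le_mul_of_nonneg_left (by linarith) hK0.le
    linarith

end Pool.Agent.R291.RMW
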