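import Mathlib
import Pool.Agent.R291.RMW.Y4

set_option autoImplicit false
set_option linter.unusedSectionVars false
set_option linter.unusedVariables false

/-! # Representations `N = F m + q` with arbitrary `m` -/

open MeasureTheory Filter Set
open scoped ENNReal Topology

namespace Pool.Agent.R291.RMW

open Pool.Agent.R528.RM

variable {Ω : Type} {m0 : MeasurableSpace Ω} {μ : Measure Ω} [IsProbabilityMeasure μ]
  {ℱ : Filtration ℕ m0} {A : ℕ → Set Ω} {F : ℕ → ℕ}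

/-- the number of `1 ≤ m ≤ M` in the classes of `C` -/
def cC (W : ℕ) (C : Finset ℕ) (M : ℕ) : ℕ := ((Finset.Icc 1 M).filter (fun m => m % W ∈ C)).card

lemma cls_one {W a M : ℕ} (hW : 0 < W) (ha : a < W) :
    |(((Finset.Icc 1 M).filter (fun m => m % W = a)).card : ℝ) - (M : ℝ) / W| ≤ 2 := by
  classical
  have hW' : (0 : ℝ) < W := by exact_mod_cast hW
  have hW1 : (1 : ℝ) ≤ W := by exact_mod_cast hW
  have h1 := Nat.count_modEq_card (b := M + 1) hW a
  rw [Nat.count_eq_card_filter_range] at h1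
  have h2 : ((Finset.Icc 1 M).filter (fun m => m % W = a)).card ≤ ((Finset.range (M + 1)).filter (fun m => m ≡ a [MOD W])).card := by
    apply Finset.card_le_card
    intro m hm
    obtain ⟨m1, m2⟩ := Finset.mem_filter.1 hm
    obtain ⟨m3, m4⟩ := Finset.mem_Icc.1 m1
    rw [Finset.mem_filter, Finset.mem_range]
    refine ⟨by omega, ?_⟩
    show m % W = a % W
    rw [Nat.mod_eq_of_lt ha, m2]
  have h3 : ((Finset.range (M + 1)).filter (fun m => m ≡ a [MOD W])).card ≤ ((Finset.Icc 1 M).filter (fun m => m % W = a)).card + 1 := by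
    have : (Finset.range (M + 1)).filter (fun m => m ≡ a [MOD W]) ⊆ insert 0 ((Finset.Icc 1 M).filter (fun m => m % W = a)) := by
      intro m hm
      obtain ⟨m1, m2⟩ := Finset.mem_filter.1 hm
      have m3 := Finset.mem_range.1 m1
      rw [Finset.mem_insert, Finset.mem_filter, Finset.mem_Icc]
      rcases Nat.eq_zero_or_pos m with h | h
      · exact Or.inl h
      · refine Or.inr ⟨⟨h, by omega⟩, ?_⟩
        have : m % W = a % W := m2
        rwa [Nat.mod_eq_of_lt ha] at this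
    exact (Finset.card_le_card this).trans (Finset.card_insert_le _ _)
  have h4 : (M + 1) / W ≤ ((Finset.range (M + 1)).filter (fun m => m ≡ a [MOD W])).card ∧
      ((Finset.range (M + 1)).filter (fun m => m ≡ a [MOD W])).card ≤ (M + 1) / W + 1 := by
    rw [h1]
    split_ifs <;> omega
  have h5 : (((M + 1) / W : ℕ) : ℝ) ≤ ((M + 1 : ℕ) : ℝ) / W := Nat.cast_div_le
  have h6 : ((M + 1 : ℕ) : ℝ) / W < (((M + 1) / W : ℕ) : ℝ) + 1 := by
    rw [div_lt_iff₀ hW']
    have := Nat.lt_div_mul_add (a := M + 1) hW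
    have h7 : M + 1 < ((M + 1) / W + 1) * W := by rw [add_mul, one_mul]; exact this
    exact_mod_cast h7
  have h7 : ((M + 1 : ℕ) : ℝ) / W = (M : ℝ) / W + 1 / W := by push_cast; rw [add_div]
  have h8 : (0 : ℝ) ≤ 1 / W := by positivity
  have h9 : (1 : ℝ) / W ≤ 1 := by rw [div_le_one hW']; exact hW1
  have a1 : (((Finset.Icc 1 M).filter (fun m => m % W = a)).card : ℝ) ≤ (((M + 1) / W : ℕ) : ℝ) + 1 := by
    exact_mod_cast h2.trans h4.2
  have a2 : (((M + 1) / W : ℕ) : ℝ) ≤ (((Finset.Icc 1 M).filter (fun m => m % W = a)).card : ℝ) + 1 := by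
    exact_mod_cast h4.1.trans h3
  rw [abs_le]
  constructor <;> linarith

lemma cC_bounds {W : ℕ} (hW : 0 < W) {C : Finset ℕ} (hC : C ⊆ Finset.range W) (M : ℕ) :
    |(cC W C M : ℝ) - C.card * ((M : ℝ) / W)| ≤ 2 * W := by
  classical
  have h1 : cC W C M = ∑ a ∈ C, ((Finset.Icc 1 M).filter (fun m => m % W = a)).card := by
    unfold cC
    rw [← Finset.card_biUnion]
    · congr 1
      ext m
      simp only [Finset.mem_filter, Finset.mem_biUnion]
      constructor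
      · rintro ⟨h1, h2⟩
        exact ⟨m % W, h2, h1, rfl⟩
      · rintro ⟨a, ha, h1, h2⟩
        exact ⟨h1, by rw [h2]; exact ha⟩
    · intro a _ a' _ haa
      rw [Function.onFun, Finset.disjoint_left]
      intro m m1 m2
      exact haa ((Finset.mem_filter.1 m1).2.symm.trans (Finset.mem_filter.1 m2).2)
  have h2 : (cC W C M : ℝ) - C.card * ((M : ℝ) / W) =
      ∑ a ∈ C, ((((Finset.Icc 1 M).filter (fun m => m % W = a)).card : ℝ) - (M : ℝ) / W) := by
    rw [Finset.sum_sub_distrib, Finset.sum_const, nsmul_eq_mul, h1]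
    push_cast
    rfl
  rw [h2]
  refine (Finset.abs_sum_le_sum_abs _ _).trans ?_
  refine (Finset.sum_le_sum fun a ha => cls_one hW (Finset.mem_range.1 (hC ha))).trans ?_
  rw [Finset.sum_const, nsmul_eq_mul]
  have h3 : (C.card : ℝ) ≤ W := by
    have := Finset.card_le_card hC
    rw [Finset.card_range] at this
    exact_mod_cast this
  linarith

/-- the length `κ (log x)²` -/
noncomputable def mL (κ : ℝ) (x : ℕ) : ℕ := ⌊κ * Real.log x ^ 2⌋₊

lemma l2_top : Tendsto (fun x : ℕ => Real.log (x : ℝ) ^ 2) atTop atTop := (tendsto_pow_atTop two_ne_zero).comp tendsto_log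

lemma mL_ratio {κ : ℝ} (hκ : 0 < κ) : Tendsto (fun x : ℕ => (mL κ x : ℝ) / Real.log (x : ℝ) ^ 2) atTop (𝓝 κ) :=
  (tendsto_nat_floor_mul_div_atTop hκ.le).comp l2_top

lemma mL_top {κ : ℝ} (hκ : 0 < κ) : Tendsto (mL κ) atTop atTop :=
  tendsto_nat_floor_atTop.comp (l2_top.const_mul_atTop hκ)

/-- the data of the form `F m + q` -/
structure RepD (W : ℕ) (F : ℕ → ℕ) (C : ℕ → Finset ℕ) : Prop where
  mono : ∀ p q, 1 ≤ p → p < q → F p < F q
  res : ∀ N m, 1 ≤ m → F m ≤ N → (Nat.Coprime (N - F m) W ↔ m % W ∈ C N)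
  sub : ∀ N, C N ⊆ Finset.range W
  per : ∀ N N', N % W = N' % W → C N = C N'
  grow : ∀ c : ℝ, 0 < c → ∀ κ : ℝ, 0 < κ → ∀ᶠ x : ℕ in atTop, (F (mL κ x) : ℝ) ≤ (x : ℝ) ^ c

/-- the factor -/
noncomputable def sgD (W : ℕ) (C : ℕ → Finset ℕ) (N : ℕ) : ℝ := (C N).card / (Nat.totient W : ℝ)

/-- the positions `N - F m`, `1 ≤ m ≤ M` -/
def RD (F : ℕ → ℕ) (N M : ℕ) : Finset ℕ := (Finset.Icc 1 M).image (fun m => N - F m)

lemma FD_le {W : ℕ} {C : ℕ → Finset ℕ} (hR : RepD W F C) {p y : ℕ} (p1 : 1 ≤ p) (p2 : p ≤ y) : F p ≤ F y := by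
  rcases p2.lt_or_eq with h | h
  · exact (hR.mono p y p1 h).le
  · rw [h]

lemma RD_sub {W : ℕ} {C : ℕ → Finset ℕ} (hR : RepD W F C) {N M : ℕ} (hN : F M + 1 ≤ N) :
    RD F N M ⊆ Finset.Ioc (N - F M - 1) (N - F M - 1 + (F M + 1)) := by
  intro m hm
  obtain ⟨p, hp, rfl⟩ := Finset.mem_image.1 hm
  obtain ⟨p3, p4⟩ := Finset.mem_Icc.1 hp
  have h1 := FD_le hR p3 p4
  exact Finset.mem_Ioc.2 ⟨by omega, by omega⟩

lemma vR_RD {W : ℕ} {C : ℕ → Finset ℕ} (hR : RepD W F C) {N M : ℕ} (hN : F M ≤ N) :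
    vR W (RD F N M) = ∑ m ∈ Finset.Icc 1 M, rhoW W (N - F m) := by
  unfold vR RD
  rw [Finset.sum_image]
  intro p hp q hq hpq
  obtain ⟨p1, p2⟩ := Finset.mem_Icc.1 hp
  obtain ⟨q1, q2⟩ := Finset.mem_Icc.1 hq
  have h1 := FD_le hR p1 p2
  have h2 := FD_le hR q1 q2
  have h3 : N - F p = N - F q := hpq
  rcases lt_trichotomy p q with h | h | h
  · have := hR.mono p q p1 h
    omega
  · exact h
  · have := hR.mono q p q1 h
    omega

/-- the mean of the number of representations -/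
lemma vD_bounds {W : ℕ} (hW : 0 < W) {C : ℕ → Finset ℕ} (hR : RepD W F C) {N M : ℕ} (hN : F M + 2 ≤ N)
    (hlog : (W : ℝ) / Nat.totient W ≤ Real.log N) :
    (sgD W C N * M - 2 * W * ((W : ℝ) / Nat.totient W)) / Real.log N ≤ vR W (RD F N M) ∧
      vR W (RD F N M) ≤ (sgD W C N * M + 2 * W * ((W : ℝ) / Nat.totient W)) / Real.log ((N - F M : ℕ) : ℝ) := by
  classical
  have hφ : (0 : ℝ) < Nat.totient W := by exact_mod_cast Nat.totient_pos.2 hW
  have hWp : (0 : ℝ) < W := by exact_mod_cast hW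
  have hL : 0 < Real.log (N : ℝ) := lt_of_lt_of_le (by positivity) hlog
  have h1 : (1 : ℝ) < ((N - F M : ℕ) : ℝ) := by exact_mod_cast (by omega : 1 < N - F M)
  have hL' := Real.log_pos h1
  obtain ⟨c1, c2⟩ := abs_le.1 (cC_bounds hW (hR.sub N) M)
  set κ : ℝ := (W : ℝ) / Nat.totient W with hκ
  have hκ0 : 0 < κ := by positivity
  have e1 : (C N).card * ((M : ℝ) / W) * κ = sgD W C N * M := by
    rw [hκ]
    unfold sgD
    field_simp
  rw [vR_RD hR (by omega)]
  constructor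
  · have h2 : (cC W (C N) M : ℝ) * (κ / Real.log N) ≤ ∑ m ∈ Finset.Icc 1 M, rhoW W (N - F m) := by
      unfold cC
      rw [← nsmul_eq_mul, ← Finset.sum_const, Finset.sum_filter]
      apply Finset.sum_le_sum
      intro m hm
      obtain ⟨m1, m2⟩ := Finset.mem_Icc.1 hm
      have hFm := FD_le hR m1 m2
      split_ifs with h3
      · unfold rhoW
        rw [if_pos ((hR.res N m m1 (by omega)).2 h3)]
        have h5 : (1 : ℝ) < ((N - F m : ℕ) : ℝ) := by exact_mod_cast (by omega : 1 < N - F m)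
        have h2 : ((N - F m : ℕ) : ℝ) ≤ (N : ℝ) := by exact_mod_cast (by omega : N - F m ≤ N)
        apply le_min
        · rw [div_le_one hL]
          exact hlog
        · exact div_le_div_of_nonneg_left hκ0.le (Real.log_pos h5) (Real.log_le_log (by linarith) h2)
      · exact rhoW_nonneg _ _
    refine le_trans ?_ h2
    have e2 : (cC W (C N) M : ℝ) * (κ / Real.log N) = (cC W (C N) M : ℝ) * κ / Real.log N := by ring
    rw [e2]
    apply div_le_div_of_nonneg_right _ hL.le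
    have h9 := mul_le_mul_of_nonneg_right (show (C N).card * ((M : ℝ) / W) - 2 * W ≤ cC W (C N) M by linarith) hκ0.le
    rw [sub_mul, e1] at h9
    exact h9
  · have h2 : ∑ m ∈ Finset.Icc 1 M, rhoW W (N - F m) ≤ (cC W (C N) M : ℝ) * (κ / Real.log ((N - F M : ℕ) : ℝ)) := by
      unfold cC
      rw [← nsmul_eq_mul, ← Finset.sum_const, Finset.sum_filter]
      apply Finset.sum_le_sum
      intro m hm
      obtain ⟨m1, m2⟩ := Finset.mem_Icc.1 hm
      have hFm := FD_le hR m1 m2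
      split_ifs with h3
      · unfold rhoW
        rw [if_pos ((hR.res N m m1 (by omega)).2 h3)]
        refine (min_le_right _ _).trans ?_
        have h2 : ((N - F M : ℕ) : ℝ) ≤ ((N - F m : ℕ) : ℝ) := by exact_mod_cast (by omega : N - F M ≤ N - F m)
        exact div_le_div_of_nonneg_left hκ0.le hL' (Real.log_le_log (by linarith) h2)
      · unfold rhoW
        rw [if_neg (fun h => h3 ((hR.res N m m1 (by omega)).1 h))]
    refine h2.trans ?_
    have e2 : (cC W (C N) M : ℝ) * (κ / Real.log ((N - F M : ℕ) : ℝ)) = (cC W (C N) M : ℝ) * κ / Real.log ((N - F M : ℕ) : ℝ) := by ring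
    rw [e2]
    apply div_le_div_of_nonneg_right _ hL'.le
    have h9 := mul_le_mul_of_nonneg_right (show (cC W (C N) M : ℝ) ≤ (C N).card * ((M : ℝ) / W) + 2 * W by linarith) hκ0.le
    rw [add_mul, e1] at h9
    exact h9

lemma sgD_per {W : ℕ} {C : ℕ → Finset ℕ} (hR : RepD W F C) {N N' : ℕ} (h : N % W = N' % W) : sgD W C N = sgD W C N' := by
  unfold sgD
  rw [hR.per N N' h]

lemma small_sumD {W : ℕ} {C : ℕ → Finset ℕ} (hR : RepD W F C) {κ : ℝ} (hκ0 : 0 < κ) :
    ∀ᶠ x : ℕ in atTop, 2 * F (mL κ x) + 4 ≤ x := by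
  filter_upwards [hR.grow (1 / 2) (by norm_num) κ hκ0, eventually_ge_atTop 36] with N g1' g2
  have hN : (36 : ℝ) ≤ N := by exact_mod_cast g2
  rw [← Real.sqrt_eq_rpow] at g1'
  have h1 : 6 ≤ √(N : ℝ) := by
    apply Real.le_sqrt_of_sq_le
    linarith
  have h2 : √(N : ℝ) * √(N : ℝ) = N := Real.mul_self_sqrt (by linarith)
  have : ((2 * F (mL κ N) + 4 : ℕ) : ℝ) ≤ N := by
    push_cast
    nlinarith
  exact_mod_cast this

/-- **every large integer has a representation with small `m`** -/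
theorem repD_upper (hA : ∀ n, MeasurableSet[ℱ n] (A n)) {W : ℕ} (hW : 0 < W)
    (hd : ∀ᵐ ω ∂μ, ∀ ε : ℝ, 0 < ε → ∀ᶠ n : ℕ in atTop, |dens μ ℱ A n ω - rhoW W (n + 1)| ≤ ε * rhoW W (n + 1))
    {C : ℕ → Finset ℕ} (hR : RepD W F C)
    {r : ℕ} (hr : 0 < sgD W C r) {ε : ℝ} (hε : 0 < ε) :
    ∀ᵐ ω ∂μ, ∀ᶠ N : ℕ in atTop, N % W = r % W → ∃ m : ℕ, 1 ≤ m ∧ F m < N ∧
      (m : ℝ) ≤ (1 + ε) * (1 / sgD W C r) * Real.log N ^ 2 ∧ ω ∈ A (N - F m) := by
  set σ := sgD W C r with hσ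
  set κ : ℝ := (1 + ε) * (1 / σ) with hκ
  have hκ0 : 0 < κ := by positivity
  have hσκ : σ * κ = 1 + ε := by rw [hκ]; field_simp
  set δ : ℝ := min (1 / 4) (ε / (12 * (1 + ε))) with hδ
  have hδ0 : 0 < δ := lt_min (by norm_num) (by positivity)
  have hδ1 : δ ≤ 1 / 4 := min_le_left _ _
  have hδ2 : 1 + ε / 4 ≤ (1 - δ - δ * (1 + δ)) * (1 + ε / 2) := by
    have h1 : δ ≤ ε / (12 * (1 + ε)) := min_le_right _ _
    rw [le_div_iff₀ (by positivity)] at h1
    have h2 : 1 - 3 * δ ≤ 1 - δ - δ * (1 + δ) := by nlinarith only [hδ0, hδ1]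
    have h3 := mul_le_mul_of_nonneg_right h2 (show 0 ≤ 1 + ε / 2 by positivity)
    have h4 : 0 < δ * ε := by positivity
    nlinarith only [h1, h3, h4, hδ0]
  have hfac : 0 ≤ 1 - δ - δ * (1 + δ) := by nlinarith only [hδ0, hδ1]
  set K : ℝ := 2 * W * ((W : ℝ) / Nat.totient W) with hK
  have hlim : Tendsto (fun N : ℕ => σ * ((mL κ N : ℝ) / Real.log (N : ℝ) ^ 2) - K / Real.log (N : ℝ) ^ 2) atTop (𝓝 (σ * κ - 0)) :=
    ((mL_ratio hκ0).const_mul σ).sub (l2_top.const_div_atTop K)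
  rw [hσκ, sub_zero] at hlim
  have hsum : Summable (fun n : ℕ => (n : ℝ) ^ (-(1 + ε / 4))) := by
    have := Real.summable_nat_rpow_inv.2 (show 1 < 1 + ε / 4 by linarith)
    refine this.congr fun n => ?_
    rw [Real.rpow_neg (Nat.cast_nonneg _)]
  have hbc : ∀ᵐ ω ∂μ, ∀ᶠ N : ℕ in atTop, ω ∉ (if N % W = r % W then ({ω | ∀ m ∈ RD F N (mL κ N), ω ∉ A m} \
      WV (VB μ ℱ A (lp W δ) (up W δ)) (N - F (mL κ N) - 1) (F (mL κ N) + 1)) else ∅) := by
    refine bc_real (μ := μ) hsum ?_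
    filter_upwards [small_sumD hR hκ0, tendsto_log.eventually_ge_atTop ((W : ℝ) / Nat.totient W),
      hlim.eventually (eventually_gt_nhds (show 1 + ε / 2 < 1 + ε by linarith)), tendsto_log.eventually_gt_atTop 0,
      eventually_ge_atTop 1] with N g1 g2 g3 g4 g5
    have hN : (1 : ℝ) ≤ N := by exact_mod_cast g5
    split_ifs with hNr
    · refine (set_empty_prob hA hδ0 hδ1 (RD_sub hR (by omega))).trans ?_
      rw [Real.rpow_def_of_pos (by linarith)]
      apply Real.exp_le_exp.2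
      have h1 := (vD_bounds hW hR (N := N) (M := mL κ N) (by omega) g2).1
      rw [sgD_per hR hNr, ← hσ, ← hK] at h1
      have h2 : (1 + ε / 2) * Real.log N ≤ vR W (RD F N (mL κ N)) := by
        refine le_trans ?_ h1
        have h3 := mul_le_mul_of_nonneg_right g3.le g4.le
        refine h3.trans (le_of_eq ?_)
        field_simp
      have h3 := mul_le_mul_of_nonneg_left h2 hfac
      have h4 := mul_le_mul_of_nonneg_right hδ2 g4.le
      linarith
    · rw [measureReal_empty]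
      positivity
  filter_upwards [hbc, hd] with ω w1 w3
  obtain ⟨n₀, hn₀⟩ := not_WV hδ0 w3
  filter_upwards [w1, small_sumD hR hκ0, eventually_ge_atTop (2 * n₀ + 2)] with N g1 g3 g7 hNr
  rw [if_pos hNr] at g1
  have h3 : ω ∉ WV (VB μ ℱ A (lp W δ) (up W δ)) (N - F (mL κ N) - 1) (F (mL κ N) + 1) := hn₀ _ _ (by omega)
  have h4 : ¬ ∀ m ∈ RD F N (mL κ N), ω ∉ A m := fun h => g1 ⟨h, h3⟩
  push Not at h4
  obtain ⟨n, hn1, hn2⟩ := h4
  obtain ⟨m, hm, rfl⟩ := Finset.mem_image.1 hn1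
  obtain ⟨m1, m2⟩ := Finset.mem_Icc.1 hm
  have hFm := FD_le hR m1 m2
  refine ⟨m, m1, by omega, ?_, hn2⟩
  have h5 : ((mL κ N : ℕ) : ℝ) ≤ κ * Real.log N ^ 2 := Nat.floor_le (by positivity)
  have h6 : (m : ℝ) ≤ mL κ N := by exact_mod_cast m2
  linarith

end Pool.Agent.R291.RMW
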