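import Mathlib
import Pool.Agent.R291.RMW.Z1

set_option autoImplicit false
set_option linter.unusedSectionVars false
set_option linter.unusedVariables false

/-! # Representations `N = F m + q` with arbitrary `m`: the lower law -/

open MeasureTheory Filter Set
open scoped ENNReal Topology

namespace Pool.Agent.R291.RMW

open Pool.Agent.R528.RM

variable {Ω : Type} {m0 : MeasurableSpace Ω} {μ : Measure Ω} [IsProbabilityMeasure μ]
  {ℱ : Filtration ℕ m0} {A : ℕ → Set Ω} {F : ℕ → ℕ}

/-- no representation with `m ≤ M` -/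
def HD (A : ℕ → Set Ω) (F : ℕ → ℕ) (N M : ℕ) : Set Ω := {ω | ∀ n ∈ RD F N M, ω ∉ A n}

lemma HD_meas (hA : ∀ n, MeasurableSet[ℱ n] (A n)) (N M : ℕ) : MeasurableSet[ℱ N] (HD A F N M) := by
  have : HD A F N M = ⋂ n ∈ RD F N M, (A n)ᶜ := by
    ext ω
    simp only [HD, Set.mem_setOf_eq, Set.mem_iInter, Set.mem_compl_iff]
  rw [this]
  apply Finset.measurableSet_biInter
  intro n hn
  obtain ⟨m, _, rfl⟩ := Finset.mem_image.1 hn
  exact (ℱ.mono (Nat.sub_le _ _) _ (hA _)).compl

/-- **in every residue class some integer has no representation with small `m`** -/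
theorem repD_lower (hA : ∀ n, MeasurableSet[ℱ n] (A n)) {W : ℕ} (hW : 0 < W)
    (hd : ∀ᵐ ω ∂μ, ∀ ε : ℝ, 0 < ε → ∀ᶠ n : ℕ in atTop, |dens μ ℱ A n ω - rhoW W (n + 1)| ≤ ε * rhoW W (n + 1))
    {C : ℕ → Finset ℕ} (hR : RepD W F C)
    {r : ℕ} (hr : 0 < sgD W C r) {ε : ℝ} (hε0 : 0 < ε) (hε1 : ε < 1) :
    ∀ᵐ ω ∂μ, ∀ᶠ k : ℕ in atTop, ∃ N : ℕ, N % W = r % W ∧ 2 ^ k < N ∧ N ≤ r + 3 * W * 2 ^ k ∧
      ω ∈ HD A F N (mL ((1 - ε) * (1 / sgD W C r)) (2 ^ k)) := by
  classical
  have hW' : (1 : ℝ) ≤ W := by exact_mod_cast hW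
  set σ := sgD W C r with hσ
  set κ : ℝ := (1 - ε) * (1 / σ) with hκ
  have h1ε : 0 < 1 - ε := by linarith
  have hκ0 : 0 < κ := by positivity
  have hσκ : σ * κ = 1 - ε := by rw [hκ]; field_simp
  set δ : ℝ := ε / 16 with hδ
  have hδ0 : 0 < δ := by positivity
  have hδ1 : δ ≤ 1 / 16 := by rw [hδ]; linarith
  have hδ2 : (1 + 2 * δ) * (1 + δ) * (1 - ε / 2) ≤ 1 - ε / 4 := by
    have h1 : (1 + 2 * δ) * (1 + δ) ≤ 1 + 4 * δ := by nlinarith only [hδ0, hδ1]
    have h2 := mul_le_mul_of_nonneg_right h1 (show 0 ≤ 1 - ε / 2 by linarith)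
    have h3 : 0 < δ * ε := by positivity
    nlinarith only [h2, h3, hδ]
  set K₀ : ℝ := 2 * W * ((W : ℝ) / Nat.totient W) with hK₀
  set X : ℕ → ℕ := fun k => 2 ^ k with hX
  set y : ℕ → ℕ := fun k => mL κ (X k) with hy
  set G : ℕ → ℕ := fun k => F (y k) with hG
  set NN' : ℕ → ℕ → ℕ := fun k j => r + W * (2 * X k + j * (G k + 1)) with hNN'
  set c : ℕ → ℝ := fun k => (1 - ε / 2) * Real.log (X k) with hc
  set D : ℕ → ℕ → Set Ω := fun k j => HD A F (NN' k j) (y k) ∪
    WV (VB μ ℱ A (lp W δ) (up W δ)) (NN' k j - G k - 1) (G k + 1) with hD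
  have hXt : Tendsto X atTop atTop := tendsto_pow_atTop_atTop_of_one_lt (by norm_num : 1 < 2)
  have hyt : Tendsto y atTop atTop := (mL_top hκ0).comp hXt
  have hysm : ∀ᶠ k : ℕ in atTop, (G k : ℝ) ≤ (X k : ℝ) ^ (ε / 16) := hXt.eventually (hR.grow (ε / 16) (by positivity) κ hκ0)
  have hyX : ∀ᶠ k : ℕ in atTop, 2 * G k + 4 ≤ X k := hXt.eventually (small_sumD hR hκ0)
  have hNX : ∀ k j, 2 * X k ≤ NN' k j := by
    intro k j
    have h1 : 1 * (2 * X k + j * (G k + 1)) ≤ W * (2 * X k + j * (G k + 1)) := Nat.mul_le_mul_right _ hW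
    have h2 : NN' k j = r + W * (2 * X k + j * (G k + 1)) := rfl
    have h3 : 0 ≤ j * (G k + 1) := Nat.zero_le _
    omega
  -- smallness of the upper profile
  obtain ⟨n₁, _, hn₁⟩ := exists_start W hδ0 hδ0 0
  have hsmall : ∀ m, n₁ < m → up W δ m ≤ δ := by
    intro m hm
    have := hn₁ (m - 1) (by omega)
    rw [show m - 1 + 1 = m by omega] at this
    exact (min_le_right _ _).trans this
  have hlim : Tendsto (fun k : ℕ => σ * ((y k : ℝ) / Real.log (X k : ℝ) ^ 2) + K₀ / Real.log (X k : ℝ) ^ 2) atTop (𝓝 (σ * κ + 0)) :=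
    (((mL_ratio hκ0).comp hXt).const_mul σ).add ((l2_top.const_div_atTop K₀).comp hXt)
  rw [hσκ, add_zero] at hlim
  have hbound : ∀ᶠ k : ℕ in atTop, μ.real {ω | ∀ j, 0 ≤ j → j < 0 + X k / (G k + 1) → ω ∉ D k j} ≤ Real.exp (-1) ^ k := by
    -- the exponential growth
    have hgrow : ∀ᶠ k : ℕ in atTop, 4 * (k : ℝ) ≤ Real.exp ((ε / 8) * (k * Real.log 2)) := by
      have h1 : Tendsto (fun x : ℝ => x ^ 1 * Real.exp (-(ε / 8 * Real.log 2) * x)) atTop (𝓝 0) := by
        have hl2 : 0 < Real.log 2 := Real.log_pos (by norm_num)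
        have := Real.tendsto_pow_mul_exp_neg_atTop_nhds_zero 1
        have h2 : Tendsto (fun x : ℝ => (ε / 8 * Real.log 2) * x) atTop atTop := tendsto_id.const_mul_atTop (by positivity)
        have h3 := (this.comp h2).const_mul ((ε / 8 * Real.log 2)⁻¹)
        rw [mul_zero] at h3
        refine h3.congr fun x => ?_
        simp only [Function.comp, pow_one]
        rw [← neg_mul]
        field_simp
      have h2 := (h1.comp tendsto_natCast_atTop_atTop).eventually (eventually_lt_nhds (show (0 : ℝ) < 1 / 4 by norm_num))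
      filter_upwards [h2] with k hk
      simp only [Function.comp, pow_one] at hk
      have h3 : Real.exp ((ε / 8) * (k * Real.log 2)) * Real.exp (-(ε / 8 * Real.log 2) * k) = 1 := by
        rw [← Real.exp_add]
        rw [show (ε / 8) * (k * Real.log 2) + -(ε / 8 * Real.log 2) * k = 0 by ring, Real.exp_zero]
      have h4 := mul_lt_mul_of_pos_left hk (Real.exp_pos ((ε / 8) * (k * Real.log 2)))
      have h5 : Real.exp ((ε / 8) * (k * Real.log 2)) * ((k : ℝ) * Real.exp (-(ε / 8 * Real.log 2) * k)) = k := by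
        calc _ = (k : ℝ) * (Real.exp ((ε / 8) * (k * Real.log 2)) * Real.exp (-(ε / 8 * Real.log 2) * k)) := by ring
          _ = k := by rw [h3, mul_one]
      rw [h5] at h4
      linarith
    filter_upwards [hysm, hyX, hgrow, hXt.eventually_ge_atTop (n₁ + 2), eventually_ge_atTop 1,
      (tendsto_log.comp hXt).eventually_ge_atTop ((W : ℝ) / Nat.totient W), (tendsto_log.comp hXt).eventually_gt_atTop 0,
      hlim.eventually (eventually_lt_nhds (show 1 - ε < 1 - ε / 2 by linarith))] with k g1 g2 g3 g4 g5 g6 g7 g8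
    simp only [Function.comp] at g6 g7
    have hXk : (X k : ℝ) = 2 ^ k := by rw [hX]; push_cast; rfl
    have hlX : Real.log (X k : ℝ) = k * Real.log 2 := by rw [hXk, Real.log_pow]
    have hX1 : (1 : ℝ) ≤ X k := by rw [hXk]; exact one_le_pow₀ (by norm_num)
    have hXp : (0 : ℝ) < X k := by linarith
    have hl0 : 0 ≤ Real.log (X k : ℝ) := Real.log_natCast_nonneg _
    have hc0 : 0 ≤ c k := mul_nonneg (by linarith) hl0
    have hbig : ∀ j, G k + 2 ≤ NN' k j ∧ n₁ + 1 ≤ NN' k j - G k - 1 := by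
      intro j
      have := hNX k j
      constructor <;> omega
    have hV : ∀ j, vR W (RD F (NN' k j) (y k)) ≤ c k := by
      intro j
      have hj := hbig j
      have hNXj := hNX k j
      have hGF : G k = F (y k) := rfl
      have h0 : (X k : ℝ) ≤ ((NN' k j - F (y k) : ℕ) : ℝ) := by exact_mod_cast (by omega : X k ≤ NN' k j - F (y k))
      have h00 : (X k : ℝ) ≤ ((NN' k j : ℕ) : ℝ) := by exact_mod_cast (by omega : X k ≤ NN' k j)
      have h1 := (vD_bounds hW hR (N := NN' k j) (M := y k) (by omega) (g6.trans (Real.log_le_log (by linarith) h00))).2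
      have hmod : NN' k j % W = r % W := by
        show (r + W * (2 * X k + j * (G k + 1))) % W = r % W
        rw [Nat.add_mul_mod_self_left]
      rw [sgD_per hR hmod, ← hσ, ← hK₀] at h1
      have h2 : (σ * (y k : ℝ) + K₀) / Real.log ((NN' k j - F (y k) : ℕ) : ℝ) ≤ (σ * (y k : ℝ) + K₀) / Real.log (X k : ℝ) :=
        div_le_div_of_nonneg_left (by positivity) g7 (Real.log_le_log (by linarith) h0)
      have h3 : (σ * (y k : ℝ) + K₀) / Real.log (X k : ℝ) ≤ (1 - ε / 2) * Real.log (X k) := by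
        have h4 := mul_le_mul_of_nonneg_right g8.le g7.le
        refine le_trans (le_of_eq ?_) h4
        field_simp
      exact (h1.trans h2).trans h3
    have hnone := (seq_none (μ := μ) (ℱ := ℱ) (T := fun j => NN' k j - G k - 1) (h := fun _ => G k + 1) (J₀ := 0)
      (by
        intro j _
        have h1 := (hbig j).1
        have h2 : NN' k (j + 1) = NN' k j + W * (G k + 1) := by
          show r + W * (2 * X k + (j + 1) * (G k + 1)) = r + W * (2 * X k + j * (G k + 1)) + W * (G k + 1)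
          ring
        have h3 : 1 * (G k + 1) ≤ W * (G k + 1) := Nat.mul_le_mul_right _ hW
        show NN' k j - G k - 1 + (G k + 1) ≤ NN' k (j + 1) - G k - 1
        omega) (D := D k)
      (by
        intro j _
        have h1 := (hbig j).1
        have e1 : NN' k j - G k - 1 + (G k + 1) = NN' k j := by omega
        have h2 : MeasurableSet[ℱ (NN' k j - G k - 1 + (G k + 1))] (HD A F (NN' k j) (y k)) := by
          rw [e1]
          exact HD_meas hA _ _
        exact h2.union (WV_meas (fun n => VB_meas _ _ n) _ _))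
      (p := fun _ => Real.exp (-((1 + 2 * δ) * (1 + δ) * c k)))
      (by
        intro j _
        rw [Real.exp_le_one_iff]
        have : 0 ≤ (1 + 2 * δ) * (1 + δ) * c k := by positivity
        linarith)
      (by
        intro j _ B hB
        have h1 := hbig j
        have hGF : G k = F (y k) := rfl
        have h2 := cond_empty_ge (μ := μ) hA hδ0 (y := NN' k j - G k - 1) (h := G k + 1)
          (RD_sub hR (N := NN' k j) (M := y k) (by omega)) (θ := δ) hδ0.le (by linarith) (fun m hm => hsmall m (by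
            have := Finset.mem_Ioc.1 (RD_sub hR (N := NN' k j) (M := y k) (by omega) hm)
            omega)) hB
        refine le_trans ?_ h2
        apply mul_le_mul_of_nonneg_right _ measureReal_nonneg
        apply Real.exp_le_exp.2
        exact neg_le_neg (mul_le_mul_of_nonneg_left (hV j) (by positivity)))
      0 le_rfl (X k / (G k + 1))).1
    refine hnone.trans ?_
    rw [Finset.sum_const, Nat.card_Ico, zero_add, Nat.sub_zero, nsmul_eq_mul, ← Real.exp_nat_mul]
    apply Real.exp_le_exp.2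
    -- M p ≥ k
    set M : ℕ := X k / (G k + 1) with hM
    have hyp : (0 : ℝ) < (G k : ℝ) + 1 := by positivity
    have hM1 : (X k : ℝ) ≤ 2 * M * (G k + 1) := by
      have h1 : X k < (M + 1) * (G k + 1) := by
        rw [hM, add_mul, one_mul]
        exact Nat.lt_div_mul_add (Nat.succ_pos _)
      have h2 : 1 ≤ M := by
        rw [hM]
        exact (Nat.one_le_div_iff (Nat.succ_pos _)).2 (by omega)
      have h1' : (X k : ℝ) ≤ (M + 1) * ((G k : ℝ) + 1) := by exact_mod_cast h1.le
      have h2' : (1 : ℝ) ≤ M := by exact_mod_cast h2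
      have h3 : ((M : ℝ) + 1) * ((G k : ℝ) + 1) ≤ (2 * M) * ((G k : ℝ) + 1) := mul_le_mul_of_nonneg_right (by linarith) hyp.le
      linarith
    have hy1 : (G k : ℝ) + 1 ≤ 2 * Real.exp (ε / 16 * (k * Real.log 2)) := by
      have h1 : (X k : ℝ) ^ (ε / 16) = Real.exp (ε / 16 * (k * Real.log 2)) := by
        rw [Real.rpow_def_of_pos hXp, hlX]
        congr 1
        ring
      rw [h1] at g1
      have h2 : 1 ≤ Real.exp (ε / 16 * (k * Real.log 2)) := Real.one_le_exp (by rw [hlX] at hl0; positivity)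
      linarith
    have hXe : (X k : ℝ) = Real.exp (k * Real.log 2) := by rw [← hlX, Real.exp_log hXp]
    have hp : Real.exp (-((1 - ε / 4) * (k * Real.log 2))) ≤ Real.exp (-((1 + 2 * δ) * (1 + δ) * c k)) := by
      apply Real.exp_le_exp.2
      apply neg_le_neg
      show (1 + 2 * δ) * (1 + δ) * ((1 - ε / 2) * Real.log (X k)) ≤ (1 - ε / 4) * (k * Real.log 2)
      rw [hlX] at hl0 ⊢
      calc (1 + 2 * δ) * (1 + δ) * ((1 - ε / 2) * (k * Real.log 2)) = ((1 + 2 * δ) * (1 + δ) * (1 - ε / 2)) * (k * Real.log 2) := by ring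
        _ ≤ _ := mul_le_mul_of_nonneg_right hδ2 hl0
    have hMlow : Real.exp ((1 - ε / 16) * (k * Real.log 2)) ≤ 4 * M := by
      have h1 : (X k : ℝ) ≤ 2 * M * (2 * Real.exp (ε / 16 * (k * Real.log 2))) :=
        hM1.trans (mul_le_mul_of_nonneg_left hy1 (by positivity))
      rw [hXe] at h1
      have h2 : Real.exp ((1 - ε / 16) * (k * Real.log 2)) * Real.exp (ε / 16 * (k * Real.log 2)) = Real.exp (k * Real.log 2) := by
        rw [← Real.exp_add]
        congr 1
        ring
      rw [← h2] at h1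
      have h3 : 2 * (M : ℝ) * (2 * Real.exp (ε / 16 * (k * Real.log 2))) = 4 * M * Real.exp (ε / 16 * (k * Real.log 2)) := by ring
      rw [h3] at h1
      exact le_of_mul_le_mul_right h1 (Real.exp_pos _)
    have hMp : (k : ℝ) ≤ M * Real.exp (-((1 + 2 * δ) * (1 + δ) * c k)) := by
      have h1 : (M : ℝ) * Real.exp (-((1 - ε / 4) * (k * Real.log 2))) ≤ M * Real.exp (-((1 + 2 * δ) * (1 + δ) * c k)) :=
        mul_le_mul_of_nonneg_left hp (Nat.cast_nonneg _)
      have h2 := mul_le_mul_of_nonneg_right hMlow (Real.exp_pos (-((1 - ε / 4) * (k * Real.log 2)))).le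
      rw [← Real.exp_add] at h2
      have h3 : Real.exp (ε / 8 * (k * Real.log 2)) ≤ Real.exp ((1 - ε / 16) * (k * Real.log 2) + -((1 - ε / 4) * (k * Real.log 2))) := by
        apply Real.exp_le_exp.2
        rw [hlX] at hl0
        have : 0 ≤ ε / 16 * (k * Real.log 2) := by positivity
        linarith
      linarith
    linarith
  have hsum : Summable (fun k : ℕ => Real.exp (-1) ^ k) := summable_geometric_of_lt_one (Real.exp_pos _).le (by rw [Real.exp_lt_one_iff]; norm_num)
  filter_upwards [bc_real (μ := μ) hsum hbound, hd] with ω w1 w3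
  obtain ⟨n₀, hn₀⟩ := not_WV hδ0 w3
  filter_upwards [w1, hyX, hXt.eventually_ge_atTop (n₀ + 2)] with k g1 g3 g7
  have g1' : ¬ ∀ j, 0 ≤ j → j < 0 + X k / (G k + 1) → ω ∉ D k j := g1
  push Not at g1'
  obtain ⟨j, _, hj, hjD⟩ := g1'
  have hNXj := hNX k j
  refine ⟨NN' k j, ?_, ?_, ?_, ?_⟩
  · show (r + W * (2 * X k + j * (G k + 1))) % W = r % W
    rw [Nat.add_mul_mod_self_left]
  · show 2 ^ k < NN' k j
    have : X k = 2 ^ k := rfl
    omega
  · have h1 : j * (G k + 1) ≤ X k := by
      have : j + 1 ≤ X k / (G k + 1) := by omega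
      calc j * (G k + 1) ≤ (X k / (G k + 1)) * (G k + 1) := Nat.mul_le_mul_right _ (by omega)
        _ ≤ X k := Nat.div_mul_le_self _ _
    have h2 : W * (2 * X k + j * (G k + 1)) ≤ W * (3 * X k) := Nat.mul_le_mul_left _ (by omega)
    show r + W * (2 * X k + j * (G k + 1)) ≤ r + 3 * W * 2 ^ k
    have h3 : W * (3 * X k) = 3 * W * 2 ^ k := by
      show W * (3 * 2 ^ k) = 3 * W * 2 ^ k
      ring
    omega
  · rcases hjD with h | h
    · exact h
    · exfalso
      exact hn₀ _ _ (by omega) h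

end Pool.Agent.R291.RMW
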