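import Mathlib
import Pool.Agent.R291.RMW.Z2

set_option autoImplicit false
set_option linter.unusedSectionVars false
set_option linter.unusedVariables false

/-! # Representations `N = F m + q`: the laws in terms of `N`, and the case of squares -/

open MeasureTheory Filter Set
open scoped ENNReal Topology

namespace Pool.Agent.R291.RMW

open Pool.Agent.R528.RM

variable {Ω : Type} {m0 : MeasurableSpace Ω} {μ : Measure Ω} [IsProbabilityMeasure μ]
  {ℱ : Filtration ℕ m0} {A : ℕ → Set Ω} {F : ℕ → ℕ}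

lemma l2_cmp {a b C : ℝ} (hab : a < b) (hC : 0 ≤ C) : ∀ᶠ L : ℝ in atTop,
    a * (L + C) ^ 2 + 1 ≤ b * L ^ 2 := by
  have h0 : Tendsto (fun L : ℝ => C / L) atTop (𝓝 0) := tendsto_id.const_div_atTop C
  have h1 : Tendsto (fun L : ℝ => 1 + C / L) atTop (𝓝 1) := by
    have := h0.const_add 1
    rwa [add_zero] at this
  have h3 : Tendsto (fun L : ℝ => L ^ 2) atTop atTop := tendsto_pow_atTop two_ne_zero
  have h4 : Tendsto (fun L : ℝ => (1 : ℝ) / L ^ 2) atTop (𝓝 0) := h3.const_div_atTop 1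
  have h5 := ((h1.pow 2).const_mul a).add h4
  rw [add_zero, one_pow, mul_one] at h5
  filter_upwards [h5.eventually (eventually_lt_nhds hab), eventually_gt_atTop 1] with L g1 g3
  have hL : 0 < L := by linarith
  have e2 : a * (L + C) ^ 2 + 1 = (a * (1 + C / L) ^ 2 + 1 / L ^ 2) * L ^ 2 := by
    field_simp
  rw [e2]
  exact mul_le_mul_of_nonneg_right g1.le (by positivity)

/-- **the upper law for all `N`** -/
theorem repD_upper_all (hA : ∀ n, MeasurableSet[ℱ n] (A n)) {W : ℕ} (hW : 0 < W)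
    (hd : ∀ᵐ ω ∂μ, ∀ ε : ℝ, 0 < ε → ∀ᶠ n : ℕ in atTop, |dens μ ℱ A n ω - rhoW W (n + 1)| ≤ ε * rhoW W (n + 1))
    {C : ℕ → Finset ℕ} (hR : RepD W F C) :
    ∀ᵐ ω ∂μ, ∀ ε : ℝ, 0 < ε → ∀ᶠ N : ℕ in atTop, 0 < sgD W C N → ∃ m : ℕ, 1 ≤ m ∧ F m < N ∧
      (m : ℝ) ≤ (1 + ε) * (1 / sgD W C N) * Real.log N ^ 2 ∧ ω ∈ A (N - F m) := by
  have h1 : ∀ᵐ ω ∂μ, ∀ r n : ℕ, 0 < sgD W C r → ∀ᶠ N : ℕ in atTop, N % W = r % W → ∃ m : ℕ, 1 ≤ m ∧ F m < N ∧
      (m : ℝ) ≤ (1 + 1 / ((n : ℝ) + 1)) * (1 / sgD W C r) * Real.log N ^ 2 ∧ ω ∈ A (N - F m) := by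
    refine ae_all_iff.2 fun r => ae_all_iff.2 fun n => ?_
    by_cases hr : 0 < sgD W C r
    · filter_upwards [repD_upper (μ := μ) (ℱ := ℱ) hA hW hd hR hr (ε := 1 / ((n : ℝ) + 1)) (by positivity)] with ω hω _
      exact hω
    · exact Eventually.of_forall fun ω h => absurd h hr
  filter_upwards [h1] with ω hω ε hε
  obtain ⟨n, hn⟩ := exists_nat_gt (1 / ε)
  have hnε : 1 / ((n : ℝ) + 1) ≤ ε := by
    rw [div_lt_iff₀ hε] at hn
    rw [div_le_iff₀ (by positivity)]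
    nlinarith
  have h2 : ∀ᶠ N : ℕ in atTop, ∀ r ∈ Finset.range W, 0 < sgD W C r → N % W = r % W → ∃ m : ℕ, 1 ≤ m ∧ F m < N ∧
      (m : ℝ) ≤ (1 + 1 / ((n : ℝ) + 1)) * (1 / sgD W C r) * Real.log N ^ 2 ∧ ω ∈ A (N - F m) := by
    rw [Filter.eventually_all_finset]
    intro r _
    by_cases hr : 0 < sgD W C r
    · filter_upwards [hω r n hr] with N hN _
      exact hN
    · exact Eventually.of_forall fun N h => absurd h hr
  filter_upwards [h2] with N g1 hN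
  have hmod : sgD W C (N % W) = sgD W C N := sgD_per hR (Nat.mod_mod _ _)
  obtain ⟨p, p1, p2, p3, p4⟩ := g1 (N % W) (Finset.mem_range.2 (Nat.mod_lt _ hW)) (by rw [hmod]; exact hN) (Nat.mod_mod _ _).symm
  refine ⟨p, p1, p2, ?_, p4⟩
  rw [hmod] at p3
  refine p3.trans ?_
  apply mul_le_mul_of_nonneg_right _ (by positivity)
  exact mul_le_mul_of_nonneg_right (by linarith) (by positivity)

/-- **the lower law in all ranges** -/
theorem repD_lower_all (hA : ∀ n, MeasurableSet[ℱ n] (A n)) {W : ℕ} (hW : 0 < W)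
    (hd : ∀ᵐ ω ∂μ, ∀ ε : ℝ, 0 < ε → ∀ᶠ n : ℕ in atTop, |dens μ ℱ A n ω - rhoW W (n + 1)| ≤ ε * rhoW W (n + 1))
    {C : ℕ → Finset ℕ} (hR : RepD W F C) :
    ∀ᵐ ω ∂μ, ∀ r : ℕ, 0 < sgD W C r → ∀ ε : ℝ, 0 < ε → ∀ᶠ x : ℕ in atTop, ∃ N : ℕ, N ≤ x ∧
      N % W = r % W ∧ x ≤ 8 * W * N ∧ ∀ m : ℕ, 1 ≤ m →
        (m : ℝ) ≤ (1 - ε) * (1 / sgD W C r) * Real.log x ^ 2 → F m < N ∧ ω ∉ A (N - F m) := by
  have h1 : ∀ᵐ ω ∂μ, ∀ r n : ℕ, 0 < sgD W C r → ∀ᶠ k : ℕ in atTop, ∃ N : ℕ, N % W = r % W ∧ 2 ^ k < N ∧ N ≤ r + 3 * W * 2 ^ k ∧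
      ω ∈ HD A F N (mL ((1 - 1 / ((n : ℝ) + 2)) * (1 / sgD W C r)) (2 ^ k)) := by
    refine ae_all_iff.2 fun r => ae_all_iff.2 fun n => ?_
    by_cases hr : 0 < sgD W C r
    · filter_upwards [repD_lower (μ := μ) (ℱ := ℱ) hA hW hd hR hr (ε := 1 / ((n : ℝ) + 2)) (by positivity) (by
        rw [div_lt_one (by positivity)]
        have : (0 : ℝ) ≤ n := Nat.cast_nonneg n
        linarith)] with ω hω _
      exact hω
    · exact Eventually.of_forall fun ω h => absurd h hr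
  filter_upwards [h1] with ω hω r hr ε hε
  set σ := sgD W C r with hσ
  obtain ⟨n, hn⟩ := exists_nat_gt (1 / ε)
  have hnε : 1 / ((n : ℝ) + 2) < ε := by
    rw [div_lt_iff₀ hε] at hn
    rw [div_lt_iff₀ (by positivity)]
    nlinarith
  have hn1 : 1 / ((n : ℝ) + 2) < 1 := by
    rw [div_lt_one (by positivity)]
    have : (0 : ℝ) ≤ n := Nat.cast_nonneg n
    linarith
  set κ : ℝ := (1 - 1 / ((n : ℝ) + 2)) * (1 / σ) with hκ
  have hκ0 : 0 < κ := mul_pos (by linarith) (by positivity)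
  have hab : (1 - ε) * (1 / σ) < κ := mul_lt_mul_of_pos_right (by linarith) (by positivity)
  set K : ℝ := Real.log (8 * W) with hK
  have hW1 : (1 : ℝ) ≤ W := by exact_mod_cast hW
  have hK0 : 0 ≤ K := Real.log_nonneg (by linarith)
  have hkt : Tendsto (fun x : ℕ => Nat.log 2 (x / (4 * W))) atTop atTop := by
    refine tendsto_atTop.2 fun K => ?_
    filter_upwards [eventually_ge_atTop (4 * W * 2 ^ K)] with x hx
    have h2 : 2 ^ K ≤ x / (4 * W) := (Nat.le_div_iff_mul_le (by omega)).2 (by rw [mul_comm]; exact hx)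
    have h3 := Nat.log_mono_right (b := 2) h2
    rwa [Nat.log_pow (by norm_num)] at h3
  have hXt : Tendsto (fun k : ℕ => 2 ^ k) atTop atTop := tendsto_pow_atTop_atTop_of_one_lt (by norm_num : 1 < 2)
  have hLt : Tendsto (fun k : ℕ => Real.log ((2 ^ k : ℕ) : ℝ)) atTop atTop := tendsto_log.comp hXt
  filter_upwards [hkt.eventually (hω r n hr), hkt.eventually (hLt.eventually (l2_cmp hab hK0)),
    hkt.eventually (hXt.eventually_ge_atTop r), hkt.eventually (hXt.eventually (small_sumD hR hκ0)), eventually_ge_atTop (4 * W),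
    tendsto_log.eventually_gt_atTop 0, hkt.eventually (hLt.eventually_gt_atTop 1)] with
    x ⟨N, N1, N2, N3, N4⟩ g2 g3 g4 g5 g7 g8
  set k := Nat.log 2 (x / (4 * W)) with hk
  have hx0 : x / (4 * W) ≠ 0 := by
    have := (Nat.one_le_div_iff (show 0 < 4 * W by omega)).2 g5
    omega
  have hk1 : 2 ^ k ≤ x / (4 * W) := Nat.pow_log_le_self 2 hx0
  have hk2 : x / (4 * W) < 2 ^ (k + 1) := Nat.lt_pow_succ_log_self (by norm_num) _
  have hk1' : 2 ^ k * (4 * W) ≤ x := (Nat.le_div_iff_mul_le (by omega)).1 hk1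
  have hk2' : x < 2 ^ (k + 1) * (4 * W) := (Nat.div_lt_iff_lt_mul (by omega)).1 hk2
  refine ⟨N, ?_, N1, ?_, fun p hp hpx => ?_⟩
  · have h2 : 2 ^ k * 1 ≤ 2 ^ k * W := Nat.mul_le_mul_left _ hW
    calc N ≤ r + 3 * W * 2 ^ k := N3
      _ ≤ 2 ^ k * W + 3 * W * 2 ^ k := Nat.add_le_add_right (by omega) _
      _ = 2 ^ k * (4 * W) := by ring
      _ ≤ x := hk1'
  · calc x ≤ 2 ^ (k + 1) * (4 * W) := hk2'.le
      _ = 8 * W * 2 ^ k := by rw [pow_succ]; ring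
      _ ≤ 8 * W * N := Nat.mul_le_mul_left _ N2.le
  · have hx8 : (x : ℝ) ≤ 8 * W * ((2 ^ k : ℕ) : ℝ) := by
      have h2 : (x : ℝ) ≤ ((2 ^ (k + 1) * (4 * W) : ℕ) : ℝ) := by exact_mod_cast hk2'.le
      push_cast at h2 ⊢
      rw [pow_succ] at h2
      linarith
    have hxp : (0 : ℝ) < x := by
      have : 0 < x := by omega
      exact_mod_cast this
    have hlx : Real.log (x : ℝ) ≤ Real.log ((2 ^ k : ℕ) : ℝ) + K := by
      have h2 := Real.log_le_log hxp hx8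
      rw [Real.log_mul (by positivity) (by positivity)] at h2
      linarith
    set L := Real.log ((2 ^ k : ℕ) : ℝ) with hL
    have h3 : (1 - ε) * (1 / σ) * Real.log x ^ 2 + 1 ≤ κ * L ^ 2 := by
      rcases le_or_gt ((1 - ε) * (1 / σ)) 0 with hneg | hpos
      · have h4 : (1 - ε) * (1 / σ) * Real.log x ^ 2 ≤ 0 :=
          mul_nonpos_of_nonpos_of_nonneg hneg (by positivity)
        have h6 : (1 : ℝ) ≤ p := by exact_mod_cast hp
        linarith
      · refine le_trans ?_ g2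
        have h4 : Real.log (x : ℝ) ^ 2 ≤ (L + K) ^ 2 := pow_le_pow_left₀ g7.le hlx 2
        have := mul_le_mul_of_nonneg_left h4 hpos.le
        linarith
    have hpy : p ≤ mL κ (2 ^ k) := by
      apply Nat.le_floor
      have h4 : (p : ℝ) ≤ κ * L ^ 2 := by linarith
      exact h4
    have hFp := FD_le hR hp hpy
    refine ⟨by omega, N4 _ (Finset.mem_image.2 ⟨p, Finset.mem_Icc.2 ⟨hp, hpy⟩, rfl⟩)⟩

/-! ### squares -/

/-- the admissible classes -/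
def Csq (W : ℕ) (N : ℕ) : Finset ℕ :=
  (Finset.range W).filter (fun a => Int.gcd ((N : ℤ) - (a : ℤ) ^ 2) W = 1)

lemma sq_rep {W : ℕ} (hW : 0 < W) : RepD W (fun m => m ^ 2) (Csq W) where
  mono := fun p q _ hpq => Nat.pow_lt_pow_left hpq two_ne_zero
  res := by
    intro N p hp hF
    have hF' : p ^ 2 ≤ N := hF
    have h3 : ((N - p ^ 2 : ℕ) : ℤ) = (N : ℤ) - (p : ℤ) ^ 2 := by
      rw [Nat.cast_sub hF', Nat.cast_pow]
    have h4 : Nat.Coprime (N - p ^ 2) W ↔ Int.gcd ((N : ℤ) - (p : ℤ) ^ 2) W = 1 := by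
      rw [← h3, Int.gcd_natCast_natCast]
    have h5 : (W : ℤ) ∣ ((N : ℤ) - (p : ℤ) ^ 2) - ((N : ℤ) - ((p % W : ℕ) : ℤ) ^ 2) := by
      have h6 : (W : ℤ) ∣ (((p % W : ℕ) : ℤ) - p) := Nat.modEq_iff_dvd.1 (Nat.mod_modEq p W).symm
      have h7 : ((N : ℤ) - (p : ℤ) ^ 2) - ((N : ℤ) - ((p % W : ℕ) : ℤ) ^ 2) = (((p % W : ℕ) : ℤ) - p) * (((p % W : ℕ) : ℤ) + p) := by
        ring
      rw [h7]
      exact Dvd.dvd.mul_right h6 _
    show Nat.Coprime (N - p ^ 2) W ↔ p % W ∈ Csq W N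
    rw [h4, gcd_congr h5]
    unfold Csq
    rw [Finset.mem_filter, Finset.mem_range]
    exact ⟨fun h => ⟨Nat.mod_lt _ hW, h⟩, fun h => h.2⟩
  sub := fun N => Finset.filter_subset _ _
  per := by
    intro N N' h
    unfold Csq
    apply Finset.filter_congr
    intro a _
    have h1 : (W : ℤ) ∣ ((N : ℤ) - (a : ℤ) ^ 2) - ((N' : ℤ) - (a : ℤ) ^ 2) := by
      have h2 : (W : ℤ) ∣ (N : ℤ) - N' := (Nat.modEq_iff_dvd.1 (show N' ≡ N [MOD W] from h.symm))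
      have h3 : ((N : ℤ) - (a : ℤ) ^ 2) - ((N' : ℤ) - (a : ℤ) ^ 2) = (N : ℤ) - N' := by ring
      rw [h3]
      exact h2
    rw [gcd_congr h1]
  grow := by
    intro e he κ hκ
    -- `(log x)^4` is smaller than any power
    have h1 : Tendsto (fun x : ℕ => (x : ℝ) ^ (e / 4) / Real.log (x : ℝ)) atTop atTop := by
      have h2 := (isLittleO_log_rpow_atTop (show 0 < e / 4 by positivity)).tendsto_div_nhds_zero
      have h3 := h2.comp tendsto_natCast_atTop_atTop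
      have h4 : ∀ᶠ x : ℕ in atTop, 0 < Real.log (x : ℝ) / (x : ℝ) ^ (e / 4) := by
        filter_upwards [eventually_gt_atTop 1] with x hx
        have hx' : (1 : ℝ) < x := by exact_mod_cast hx
        have := Real.log_pos hx'
        positivity
      have h5 := (tendsto_nhdsWithin_iff.2 ⟨h3, h4⟩).inv_tendsto_nhdsGT_zero
      refine h5.congr fun x => ?_
      simp only [Function.comp, Pi.inv_apply, inv_div]
    have h2 : Tendsto (fun x : ℕ => Real.log (x : ℝ) / (x : ℝ) ^ (e / 4)) atTop (𝓝 0) :=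
      ((isLittleO_log_rpow_atTop (show 0 < e / 4 by positivity)).tendsto_div_nhds_zero).comp tendsto_natCast_atTop_atTop
    have h3 : Tendsto (fun x : ℕ => κ ^ 2 * (Real.log (x : ℝ) / (x : ℝ) ^ (e / 4)) ^ 4) atTop (𝓝 (κ ^ 2 * 0 ^ 4)) :=
      (h2.pow 4).const_mul _
    have h4 : κ ^ 2 * (0 : ℝ) ^ 4 < 1 := by norm_num
    filter_upwards [h3.eventually (eventually_lt_nhds h4), eventually_ge_atTop 1] with x g1 g2
    have hx : (1 : ℝ) ≤ x := by exact_mod_cast g2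
    have hxp : (0 : ℝ) < x := by linarith
    have h5 : ((mL κ x : ℕ) : ℝ) ≤ κ * Real.log x ^ 2 := Nat.floor_le (by positivity)
    show (((mL κ x) ^ 2 : ℕ) : ℝ) ≤ (x : ℝ) ^ e
    push_cast
    have h6 : ((mL κ x : ℕ) : ℝ) ^ 2 ≤ (κ * Real.log x ^ 2) ^ 2 := pow_le_pow_left₀ (Nat.cast_nonneg _) h5 2
    refine h6.trans ?_
    have h7 : ((x : ℝ) ^ (e / 4)) ^ 4 = (x : ℝ) ^ e := by
      rw [← Real.rpow_natCast, ← Real.rpow_mul hxp.le]
      congr 1
      push_cast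
      ring
    have h8 : (κ * Real.log (x : ℝ) ^ 2) ^ 2 = (κ ^ 2 * (Real.log (x : ℝ) / (x : ℝ) ^ (e / 4)) ^ 4) * ((x : ℝ) ^ (e / 4)) ^ 4 := by
      have h9 : (0 : ℝ) < (x : ℝ) ^ (e / 4) := Real.rpow_pos_of_pos hxp _
      field_simp
    rw [h8, h7]
    have h9 : (0 : ℝ) < (x : ℝ) ^ e := Real.rpow_pos_of_pos hxp _
    nlinarith

end Pool.Agent.R291.RMW
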