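import Mathlib
import Pool.Agent.R291.RMW.Z3

set_option autoImplicit false
set_option linter.unusedSectionVars false
set_option linter.unusedVariables false

/-! # The number of the representations `N = c m ^ k + q` -/

open MeasureTheory Filter Set
open scoped ENNReal Topology

namespace Pool.Agent.R291.RMW

open Pool.Agent.R528.RM

variable {Ω : Type} {m0 : MeasurableSpace Ω} {μ : Measure Ω} [IsProbabilityMeasure μ]
  {ℱ : Filtration ℕ m0} {A : ℕ → Set Ω} {F : ℕ → ℕ}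

/-- **counts over windows with large mean** -/
theorem win_count (hA : ∀ n, MeasurableSet[ℱ n] (A n)) {W : ℕ}
    (hd : ∀ᵐ ω ∂μ, ∀ ε : ℝ, 0 < ε → ∀ᶠ n : ℕ in atTop, |dens μ ℱ A n ω - rhoW W (n + 1)| ≤ ε * rhoW W (n + 1))
    {R : ℕ → Finset ℕ} (hwin : Win W R) {E : ℕ → ℝ} (hDpos : ∀ᶠ n : ℕ in atTop, 0 < E n)
    (hlim : Tendsto (fun n : ℕ => vR W (R n) / E n) atTop (𝓝 1))
    (hEL : Tendsto (fun n : ℕ => Real.log (n : ℝ) / E n) atTop (𝓝 0)) :
    ∀ᵐ ω ∂μ, Tendsto (fun n : ℕ => Ncl A (R n) ω / E n) atTop (𝓝 1) := by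
  filter_upwards [win_upper (μ := μ) (ℱ := ℱ) hA hd hwin one_pos le_rfl, hd] with ω h1 h2
  have hz : Tendsto (fun n => (VS μ ℱ A (R n) ω - vR W (R n)) / E n) atTop (𝓝 0) := by
    rw [Metric.tendsto_nhds]
    intro ε hε
    obtain ⟨n₀, hn₀⟩ := eventually_atTop.1 (h2 (ε / 4) (by positivity))
    filter_upwards [hwin.far n₀, hlim.eventually (eventually_lt_nhds (show (1 : ℝ) < 2 by norm_num)), hDpos] with n g1 g2 g3
    rw [div_lt_iff₀ g3] at g2
    rw [Real.dist_eq, sub_zero, abs_div, abs_of_pos g3, div_lt_iff₀ g3]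
    have g4 : |VS μ ℱ A (R n) ω - vR W (R n)| ≤ ε / 4 * vR W (R n) := by
      unfold VS vR
      rw [← Finset.sum_sub_distrib, Finset.mul_sum]
      refine (Finset.abs_sum_le_sum_abs _ _).trans (Finset.sum_le_sum fun m hm => ?_)
      have g5 := g1 m hm
      have g6 := hn₀ (m - 1) (by omega)
      rwa [show m - 1 + 1 = m by omega] at g6
    have g5 : ε / 4 * vR W (R n) ≤ ε / 4 * (2 * E n) :=
      mul_le_mul_of_nonneg_left g2.le (by positivity)
    have g6 : 0 < ε * E n := by positivity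
    linarith only [g4, g5, g6]
  have hc : Tendsto (fun n => CS μ ℱ A (R n) ω / E n) atTop (𝓝 0) := by
    have hb : Tendsto (fun n : ℕ => √(16 * (Real.log (n : ℝ) / E n))) atTop (𝓝 0) := by
      have := (hEL.const_mul 16).sqrt
      rwa [mul_zero, Real.sqrt_zero] at this
    refine squeeze_zero_norm' ?_ hb
    filter_upwards [h1, hDpos, tendsto_log.eventually_gt_atTop 0, hlim.eventually (eventually_lt_nhds (show (1 : ℝ) < 2 by norm_num)),
      eventually_gt_atTop 0] with n g1 g2 g3 g4 g5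
    have hn : (0 : ℝ) < n := by exact_mod_cast g5
    rw [Real.norm_eq_abs, abs_div, abs_of_pos g2]
    refine (div_le_div_of_nonneg_right g1.le g2.le).trans ?_
    rw [div_lt_iff₀ g2] at g4
    apply Real.le_sqrt_of_sq_le
    have hv0 : 0 ≤ vR W (R n) := vR_nonneg _ _
    rw [div_pow, mul_pow, Real.sq_sqrt (by positivity)]
    rw [div_le_iff₀ (by positivity)]
    have e1 : (1 + 1 : ℝ) ^ 2 * (2 * Real.log n * vR W (R n)) ≤ (1 + 1) ^ 2 * (2 * Real.log n * (2 * E n)) := by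
      apply mul_le_mul_of_nonneg_left _ (by positivity)
      exact mul_le_mul_of_nonneg_left g4.le (by positivity)
    refine e1.trans (le_of_eq ?_)
    field_simp
    ring
  have h3 := (hc.add hz).add hlim
  rw [zero_add, zero_add] at h3
  refine h3.congr fun n => ?_
  rw [CS_eq]
  ring

/-! ### the forms `c m ^ k` -/

/-- the admissible classes -/
def Cpk (W c k : ℕ) (N : ℕ) : Finset ℕ :=
  (Finset.range W).filter (fun a => Int.gcd ((N : ℤ) - c * (a : ℤ) ^ k) W = 1)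

lemma pk_dvd (W c k N a b : ℕ) (h : a ≡ b [MOD W]) : (W : ℤ) ∣ ((N : ℤ) - c * (a : ℤ) ^ k) - ((N : ℤ) - c * (b : ℤ) ^ k) := by
  have h6 : (W : ℤ) ∣ ((b : ℤ) - (a : ℤ)) := Nat.modEq_iff_dvd.1 h
  have h7 : ((N : ℤ) - c * (a : ℤ) ^ k) - ((N : ℤ) - c * (b : ℤ) ^ k) = c * ((b : ℤ) ^ k - (a : ℤ) ^ k) := by
    ring
  rw [h7]
  exact Dvd.dvd.mul_left (h6.trans (sub_dvd_pow_sub_pow _ _ k)) _

lemma pk_rep {W c k : ℕ} (hW : 0 < W) (hc : 0 < c) (hk : 0 < k) : RepD W (fun m => c * m ^ k) (Cpk W c k) where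
  mono := fun p q _ hpq => Nat.mul_lt_mul_of_pos_left (Nat.pow_lt_pow_left hpq hk.ne') hc
  res := by
    intro N p hp hF
    have hF' : c * p ^ k ≤ N := hF
    have h3 : ((N - c * p ^ k : ℕ) : ℤ) = (N : ℤ) - c * (p : ℤ) ^ k := by
      rw [Nat.cast_sub hF', Nat.cast_mul, Nat.cast_pow]
    have h4 : Nat.Coprime (N - c * p ^ k) W ↔ Int.gcd ((N : ℤ) - c * (p : ℤ) ^ k) W = 1 := by
      rw [← h3, Int.gcd_natCast_natCast]
    show Nat.Coprime (N - c * p ^ k) W ↔ p % W ∈ Cpk W c k N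
    rw [h4, gcd_congr (pk_dvd W c k N p (p % W) (Nat.mod_modEq p W).symm)]
    unfold Cpk
    rw [Finset.mem_filter, Finset.mem_range]
    exact ⟨fun h => ⟨Nat.mod_lt _ hW, h⟩, fun h => h.2⟩
  sub := fun N => Finset.filter_subset _ _
  per := by
    intro N N' h
    unfold Cpk
    apply Finset.filter_congr
    intro a _
    have h1 : (W : ℤ) ∣ ((N : ℤ) - c * (a : ℤ) ^ k) - ((N' : ℤ) - c * (a : ℤ) ^ k) := by
      have h2 : (W : ℤ) ∣ (N : ℤ) - N' := (Nat.modEq_iff_dvd.1 (show N' ≡ N [MOD W] from h.symm))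
      have h3 : ((N : ℤ) - c * (a : ℤ) ^ k) - ((N' : ℤ) - c * (a : ℤ) ^ k) = (N : ℤ) - N' := by ring
      rw [h3]
      exact h2
    rw [gcd_congr h1]
  grow := by
    intro e he κ hκ
    have hkp : (0 : ℝ) < k := by exact_mod_cast hk
    have h2 : Tendsto (fun x : ℕ => Real.log (x : ℝ) / (x : ℝ) ^ (e / (2 * k))) atTop (𝓝 0) :=
      ((isLittleO_log_rpow_atTop (show 0 < e / (2 * k) by positivity)).tendsto_div_nhds_zero).comp tendsto_natCast_atTop_atTop
    have h3 : Tendsto (fun x : ℕ => c * κ ^ k * (Real.log (x : ℝ) / (x : ℝ) ^ (e / (2 * k))) ^ (2 * k)) atTop (𝓝 (c * κ ^ k * 0 ^ (2 * k))) :=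
      (h2.pow (2 * k)).const_mul _
    have h4 : c * κ ^ k * (0 : ℝ) ^ (2 * k) < 1 := by
      rw [zero_pow (by omega), mul_zero]
      exact one_pos
    filter_upwards [h3.eventually (eventually_lt_nhds h4), eventually_ge_atTop 1] with x g1 g2
    have hx : (1 : ℝ) ≤ x := by exact_mod_cast g2
    have hxp : (0 : ℝ) < x := by linarith
    have h5 : ((mL κ x : ℕ) : ℝ) ≤ κ * Real.log x ^ 2 := Nat.floor_le (by positivity)
    show ((c * (mL κ x) ^ k : ℕ) : ℝ) ≤ (x : ℝ) ^ e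
    push_cast
    have h6 : ((mL κ x : ℕ) : ℝ) ^ k ≤ (κ * Real.log x ^ 2) ^ k := pow_le_pow_left₀ (Nat.cast_nonneg _) h5 k
    have h6' := mul_le_mul_of_nonneg_left h6 (show (0 : ℝ) ≤ c from Nat.cast_nonneg _)
    refine h6'.trans ?_
    have h7 : ((x : ℝ) ^ (e / (2 * k))) ^ (2 * k) = (x : ℝ) ^ e := by
      rw [← Real.rpow_natCast, ← Real.rpow_mul hxp.le]
      congr 1
      push_cast
      field_simp
    have h9 : (0 : ℝ) < (x : ℝ) ^ (e / (2 * k)) := Real.rpow_pos_of_pos hxp _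
    have h8 : (c : ℝ) * (κ * Real.log (x : ℝ) ^ 2) ^ k = (c * κ ^ k * (Real.log (x : ℝ) / (x : ℝ) ^ (e / (2 * k))) ^ (2 * k)) * ((x : ℝ) ^ (e / (2 * k))) ^ (2 * k) := by
      rw [div_pow, mul_pow, ← pow_mul]
      field_simp
    rw [h8, h7]
    have h10 : (0 : ℝ) < (x : ℝ) ^ e := Real.rpow_pos_of_pos hxp _
    nlinarith

/-! ### the local densities are positive -/

lemma Cpk_nonempty {W c k : ℕ} (hW : 0 < W) (hk : 0 < k) {N : ℕ} (hN : Nat.gcd N (Nat.gcd c W) = 1) : (Cpk W c k N).Nonempty := by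
  classical
  set a : ℕ := ∏ p ∈ W.primeFactors.filter (fun p => ¬ p ∣ N), p with ha
  refine ⟨a % W, ?_⟩
  unfold Cpk
  rw [Finset.mem_filter, Finset.mem_range]
  refine ⟨Nat.mod_lt _ hW, ?_⟩
  rw [gcd_congr (pk_dvd W c k N (a % W) a (Nat.mod_modEq a W))]
  by_contra hne
  obtain ⟨p, hp, hpd⟩ := Nat.exists_prime_and_dvd hne
  have hp1 : (p : ℤ) ∣ (N : ℤ) - c * (a : ℤ) ^ k := (Int.natCast_dvd_natCast.2 hpd).trans (Int.gcd_dvd_left _ _)
  have hp2 : (p : ℤ) ∣ (W : ℤ) := (Int.natCast_dvd_natCast.2 hpd).trans (Int.gcd_dvd_right _ _)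
  have hpW : p ∣ W := Int.natCast_dvd_natCast.1 hp2
  by_cases hpN : p ∣ N
  · have h8 : (p : ℤ) ∣ c * (a : ℤ) ^ k := by
      have h9 : c * (a : ℤ) ^ k = N - ((N : ℤ) - c * (a : ℤ) ^ k) := by ring
      rw [h9]
      exact dvd_sub (Int.natCast_dvd_natCast.2 hpN) hp1
    have h10 : p ∣ c * a ^ k := by
      have : ((p : ℕ) : ℤ) ∣ ((c * a ^ k : ℕ) : ℤ) := by push_cast; exact h8
      exact Int.natCast_dvd_natCast.1 this
    rcases hp.dvd_mul.1 h10 with h11 | h11
    · have : p ∣ Nat.gcd N (Nat.gcd c W) := Nat.dvd_gcd hpN (Nat.dvd_gcd h11 hpW)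
      rw [hN] at this
      exact hp.one_lt.ne' (Nat.dvd_one.1 this)
    · have h11 : p ∣ a := hp.dvd_of_dvd_pow h11
      rw [ha] at h11
      obtain ⟨q, hq1, hq2⟩ := (Prime.dvd_finsetProd_iff hp.prime (fun p => p)).1 h11
      obtain ⟨hq3, hq4⟩ := Finset.mem_filter.1 hq1
      have hq5 := (Nat.mem_primeFactors.1 hq3).1
      have : p = q := (Nat.prime_dvd_prime_iff_eq hp hq5).1 hq2
      rw [← this] at hq4
      exact hq4 hpN
  · have h8 : p ∣ a := by
      rw [ha]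
      exact Finset.dvd_prod_of_mem (fun p => p) (Finset.mem_filter.2 ⟨Nat.mem_primeFactors.2 ⟨hp, hpW, hW.ne'⟩, hpN⟩)
    have h9 : (p : ℤ) ∣ c * (a : ℤ) ^ k := Dvd.dvd.mul_left (Dvd.dvd.pow (Int.natCast_dvd_natCast.2 h8) hk.ne') _
    have h10 : (p : ℤ) ∣ (N : ℤ) := by
      have h11 : (N : ℤ) = ((N : ℤ) - c * (a : ℤ) ^ k) + c * (a : ℤ) ^ k := by ring
      rw [h11]
      exact dvd_add hp1 h9
    exact hpN (Int.natCast_dvd_natCast.1 h10)

lemma pk_ge {W c k : ℕ} (hW : 0 < W) (hk : 0 < k) {N : ℕ} (hN : Nat.gcd N (Nat.gcd c W) = 1) :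
    1 / (Nat.totient W : ℝ) ≤ sgD W (Cpk W c k) N := by
  unfold sgD
  apply div_le_div_of_nonneg_right _ (Nat.cast_nonneg _)
  exact_mod_cast Finset.card_pos.2 (Cpk_nonempty hW hk hN)

lemma pk_pos {W c k : ℕ} (hW : 0 < W) (hk : 0 < k) {N : ℕ} (hN : Nat.gcd N (Nat.gcd c W) = 1) : 0 < sgD W (Cpk W c k) N := by
  refine lt_of_lt_of_le ?_ (pk_ge hW hk hN)
  have : (0 : ℝ) < Nat.totient W := by exact_mod_cast Nat.totient_pos.2 hW
  positivity

/-! ### the windows -/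

/-- the distance to the end -/
noncomputable def TT (N : ℕ) : ℕ := ⌊(N : ℝ) / Real.log N ^ 2⌋₊ + 2

/-- the number of the `m` with `c m ^ k ≤ x` -/
noncomputable def rt (c k : ℕ) (x : ℝ) : ℝ := (x / c) ^ ((k : ℝ)⁻¹)

/-- the last `m` of the window -/
noncomputable def Ms (c k N : ℕ) : ℕ := ⌊rt c k ((N - TT N : ℕ) : ℝ)⌋₊

lemma rt_pow {c k : ℕ} (hc : 0 < c) (hk : 0 < k) {x : ℝ} (hx : 0 ≤ x) : c * (rt c k x) ^ k = x := by
  have hcp : (0 : ℝ) < c := by exact_mod_cast hc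
  unfold rt
  rw [Real.rpow_inv_natCast_pow (by positivity) hk.ne']
  field_simp

lemma rt_nonneg (c k : ℕ) {x : ℝ} (hx : 0 ≤ x) : 0 ≤ rt c k x := Real.rpow_nonneg (by positivity) _

lemma rt_pos {c k : ℕ} (hc : 0 < c) {x : ℝ} (hx : 0 < x) : 0 < rt c k x := by
  have hcp : (0 : ℝ) < c := by exact_mod_cast hc
  exact Real.rpow_pos_of_pos (by positivity) _

lemma rt_mono {c k : ℕ} {x y : ℝ} (hx : 0 ≤ x) (hxy : x ≤ y) : rt c k x ≤ rt c k y :=
  Real.rpow_le_rpow (by positivity) (div_le_div_of_nonneg_right hxy (Nat.cast_nonneg _)) (by positivity)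

lemma le_rt {c k : ℕ} (hc : 0 < c) (hk : 0 < k) {m : ℕ} {x : ℝ} (hx : 0 ≤ x) : (m : ℝ) ≤ rt c k x ↔ ((c * m ^ k : ℕ) : ℝ) ≤ x := by
  have hcp : (0 : ℝ) < c := by exact_mod_cast hc
  have h1 := rt_pow hc hk hx
  push_cast
  constructor
  · intro h
    have h2 := pow_le_pow_left₀ (Nat.cast_nonneg m) h k
    have h3 := mul_le_mul_of_nonneg_left h2 hcp.le
    linarith
  · intro h
    rw [← h1] at h
    have h2 := le_of_mul_le_mul_left h hcp
    exact (pow_le_pow_iff_left₀ (Nat.cast_nonneg m) (rt_nonneg c k hx) hk.ne').1 h2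

lemma log2_div' {c k : ℕ} (hc : 0 < c) (hk : 0 < k) : Tendsto (fun N : ℕ => Real.log (N : ℝ) ^ 2 / rt c k N) atTop (𝓝 0) := by
  have hkp : (0 : ℝ) < k := by exact_mod_cast hk
  have hcp : (0 : ℝ) < c := by exact_mod_cast hc
  have h2 : Tendsto (fun x : ℕ => Real.log (x : ℝ) / (x : ℝ) ^ ((1 : ℝ) / (2 * k))) atTop (𝓝 0) :=
    ((isLittleO_log_rpow_atTop (show (0 : ℝ) < 1 / (2 * k) by positivity)).tendsto_div_nhds_zero).comp tendsto_natCast_atTop_atTop
  have h3 := (h2.pow 2).const_mul ((c : ℝ) ^ ((k : ℝ)⁻¹))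
  rw [zero_pow two_ne_zero, mul_zero] at h3
  refine h3.congr' ?_
  filter_upwards [eventually_gt_atTop 0] with N hN
  have hNp : (0 : ℝ) < N := by exact_mod_cast hN
  unfold rt
  rw [div_pow, ← Real.rpow_natCast ((N : ℝ) ^ ((1 : ℝ) / (2 * k))), ← Real.rpow_mul hNp.le, Real.div_rpow hNp.le hcp.le]
  have e1 : (1 : ℝ) / (2 * k) * ((2 : ℕ) : ℝ) = (k : ℝ)⁻¹ := by
    push_cast
    field_simp
  rw [e1]
  have h4 : (0 : ℝ) < (c : ℝ) ^ ((k : ℝ)⁻¹) := Real.rpow_pos_of_pos hcp _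
  have h5 : (0 : ℝ) < (N : ℝ) ^ ((k : ℝ)⁻¹) := Real.rpow_pos_of_pos hNp _
  field_simp

lemma Ms_bounds {c k : ℕ} (hc : 0 < c) (hk : 0 < k) : ∀ᶠ N : ℕ in atTop, 2 * TT N ≤ N ∧ (Ms c k N : ℝ) ≤ rt c k N ∧
    1 - (Ms c k N : ℝ) / rt c k N ≤ 1 / Real.log N ^ 2 + 2 / N + 1 / rt c k N := by
  filter_upwards [tendsto_log.eventually_ge_atTop 2, eventually_ge_atTop 16] with N g1 g2
  have hN : (16 : ℝ) ≤ N := by exact_mod_cast g2
  have hNp : (0 : ℝ) < N := by linarith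
  have hkp : (0 : ℝ) < k := by exact_mod_cast hk
  have hl2 : 4 ≤ Real.log (N : ℝ) ^ 2 := by nlinarith
  have hT1 : (TT N : ℝ) ≤ (N : ℝ) / Real.log N ^ 2 + 2 := by
    unfold TT
    push_cast
    have := Nat.floor_le (show 0 ≤ (N : ℝ) / Real.log N ^ 2 by positivity)
    linarith
  have hT2 : (N : ℝ) / Real.log N ^ 2 ≤ N / 4 := div_le_div_of_nonneg_left hNp.le (by norm_num) hl2
  have hT3 : 2 * TT N ≤ N := by
    have : 2 * (TT N : ℝ) ≤ N := by linarith
    exact_mod_cast this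
  have hs : 0 < rt c k (N : ℝ) := rt_pos hc hNp
  have h2 : ((N - TT N : ℕ) : ℝ) = (N : ℝ) - TT N := by
    rw [Nat.cast_sub (by omega)]
  refine ⟨hT3, ?_, ?_⟩
  · have h1 : (Ms c k N : ℝ) ≤ rt c k ((N - TT N : ℕ) : ℝ) := Nat.floor_le (rt_nonneg _ _ (Nat.cast_nonneg _))
    refine h1.trans (rt_mono (Nat.cast_nonneg _) ?_)
    exact_mod_cast Nat.sub_le _ _
  · have h1 : rt c k ((N - TT N : ℕ) : ℝ) < Ms c k N + 1 := Nat.lt_floor_add_one _
    have hT0 : (0 : ℝ) ≤ (TT N : ℝ) / N := by positivity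
    have hT4 : (TT N : ℝ) / N ≤ 1 := by
      rw [div_le_one hNp]
      have : TT N ≤ N := by omega
      exact_mod_cast this
    have hT5 : (TT N : ℝ) / N ≤ 1 / 2 := by
      rw [div_le_iff₀ hNp]
      have : 2 * (TT N : ℝ) ≤ N := by exact_mod_cast hT3
      linarith
    have h3 : (1 - (TT N : ℝ) / N) * rt c k (N : ℝ) ≤ rt c k ((N - TT N : ℕ) : ℝ) := by
      have e1 : ((N - TT N : ℕ) : ℝ) / c = (1 - (TT N : ℝ) / N) * ((N : ℝ) / c) := by
        rw [h2]
        field_simp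
      unfold rt
      rw [e1, Real.mul_rpow (by linarith) (by positivity)]
      apply mul_le_mul_of_nonneg_right _ (Real.rpow_nonneg (by positivity) _)
      have h4 : (1 - (TT N : ℝ) / N) ^ (1 : ℝ) ≤ (1 - (TT N : ℝ) / N) ^ ((k : ℝ)⁻¹) := by
        apply Real.rpow_le_rpow_of_exponent_ge (by linarith) (by linarith)
        apply inv_le_one_of_one_le₀
        exact_mod_cast hk
      rwa [Real.rpow_one] at h4
    have h4 : (TT N : ℝ) / N ≤ 1 / Real.log N ^ 2 + 2 / N := by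
      have h5 : (TT N : ℝ) / N ≤ ((N : ℝ) / Real.log N ^ 2 + 2) / N := div_le_div_of_nonneg_right hT1 hNp.le
      have h6 : ((N : ℝ) / Real.log N ^ 2 + 2) / N = 1 / Real.log N ^ 2 + 2 / N := by field_simp
      linarith
    have h6 : (1 - (TT N : ℝ) / N) * rt c k (N : ℝ) - 1 ≤ Ms c k N := by linarith
    have h7 := div_le_div_of_nonneg_right h6 hs.le
    have h8 : ((1 - (TT N : ℝ) / N) * rt c k (N : ℝ) - 1) / rt c k (N : ℝ) = 1 - (TT N : ℝ) / N - 1 / rt c k (N : ℝ) := by field_simp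
    linarith

lemma log_div_self : Tendsto (fun N : ℕ => Real.log (N : ℝ) / N) atTop (𝓝 0) :=
  (Real.isLittleO_log_id_atTop.tendsto_div_nhds_zero).comp tendsto_natCast_atTop_atTop

lemma log_div_rt {c k : ℕ} (hc : 0 < c) (hk : 0 < k) : Tendsto (fun N : ℕ => Real.log (N : ℝ) / rt c k N) atTop (𝓝 0) := by
  refine squeeze_zero' ?_ ?_ (log2_div' hc hk)
  · filter_upwards [tendsto_log.eventually_ge_atTop 1, eventually_gt_atTop 0] with N g1 g2
    have hNp : (0 : ℝ) < N := by exact_mod_cast g2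
    have hs := rt_pos (k := k) hc hNp
    positivity
  · filter_upwards [tendsto_log.eventually_ge_atTop 1, eventually_gt_atTop 0] with N g1 g2
    have hNp : (0 : ℝ) < N := by exact_mod_cast g2
    have hs := rt_pos (k := k) hc hNp
    apply div_le_div_of_nonneg_right _ hs.le
    nlinarith

lemma Ms_log {c k : ℕ} (hc : 0 < c) (hk : 0 < k) : Tendsto (fun N : ℕ => (1 - (Ms c k N : ℝ) / rt c k N) * Real.log N) atTop (𝓝 0) := by
  have h1 : Tendsto (fun N : ℕ => 1 / Real.log (N : ℝ) + 2 * (Real.log (N : ℝ) / N) + Real.log (N : ℝ) / rt c k N) atTop (𝓝 (0 + 2 * 0 + 0)) :=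
    ((tendsto_log.const_div_atTop 1).add (log_div_self.const_mul 2)).add (log_div_rt hc hk)
  rw [mul_zero, add_zero, add_zero] at h1
  refine squeeze_zero' ?_ ?_ h1
  · filter_upwards [Ms_bounds hc hk, tendsto_log.eventually_gt_atTop 0, eventually_gt_atTop 0] with N ⟨_, g1, _⟩ g2 g3
    have hNp : (0 : ℝ) < N := by exact_mod_cast g3
    have : (Ms c k N : ℝ) / rt c k (N : ℝ) ≤ 1 := by
      rw [div_le_one (rt_pos hc hNp)]
      exact g1
    exact mul_nonneg (by linarith) g2.le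
  · filter_upwards [Ms_bounds hc hk, tendsto_log.eventually_ge_atTop 1, eventually_gt_atTop 0] with N ⟨_, _, g1⟩ g2 g3
    have hNp : (0 : ℝ) < N := by exact_mod_cast g3
    have hs := rt_pos (k := k) hc hNp
    have h2 := mul_le_mul_of_nonneg_right g1 (show 0 ≤ Real.log (N : ℝ) by linarith)
    refine h2.trans (le_of_eq ?_)
    have : Real.log (N : ℝ) ≠ 0 := by linarith
    field_simp

lemma Ms_ratio {c k : ℕ} (hc : 0 < c) (hk : 0 < k) : Tendsto (fun N : ℕ => (Ms c k N : ℝ) / rt c k N) atTop (𝓝 1) := by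
  have h1 : Tendsto (fun N : ℕ => 1 - (Ms c k N : ℝ) / rt c k N) atTop (𝓝 0) := by
    refine squeeze_zero' ?_ ?_ (Ms_log hc hk)
    · filter_upwards [Ms_bounds hc hk, eventually_gt_atTop 0] with N ⟨_, g1, _⟩ g3
      have hNp : (0 : ℝ) < N := by exact_mod_cast g3
      have : (Ms c k N : ℝ) / rt c k (N : ℝ) ≤ 1 := by
        rw [div_le_one (rt_pos hc hNp)]
        exact g1
      linarith
    · filter_upwards [Ms_bounds hc hk, tendsto_log.eventually_ge_atTop 1, eventually_gt_atTop 0] with N ⟨_, g1, _⟩ g2 g3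
      have hNp : (0 : ℝ) < N := by exact_mod_cast g3
      have : (Ms c k N : ℝ) / rt c k (N : ℝ) ≤ 1 := by
        rw [div_le_one (rt_pos hc hNp)]
        exact g1
      nlinarith
  have h2 := h1.const_sub 1
  rw [sub_zero] at h2
  refine h2.congr fun N => ?_
  ring

/-- the window `m ≤ min (M, Ms)` -/
noncomputable def Mm (c k : ℕ) (M : ℕ → ℕ) (N : ℕ) : ℕ := min (M N) (Ms c k N)

/-- the ranges -/
structure Rng (c k : ℕ) (M : ℕ → ℕ) : Prop where
  le : ∀ᶠ N : ℕ in atTop, c * M N ^ k ≤ N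
  big : Tendsto (fun N : ℕ => Real.log (N : ℝ) ^ 2 / M N) atTop (𝓝 0)
  pos : ∀ᶠ N : ℕ in atTop, 0 < M N

lemma Mm_bounds {c k : ℕ} (hc : 0 < c) (hk : 0 < k) {M : ℕ → ℕ} (hM : Rng c k M) :
    ∀ᶠ N : ℕ in atTop, 0 ≤ 1 - (Mm c k M N : ℝ) / M N ∧ 1 - (Mm c k M N : ℝ) / M N ≤ 1 - (Ms c k N : ℝ) / rt c k N := by
  filter_upwards [Ms_bounds hc hk, hM.le, hM.pos, eventually_gt_atTop 0] with N ⟨_, g1, _⟩ g2 g3 g4
  have hNp : (0 : ℝ) < N := by exact_mod_cast g4
  have hMp : (0 : ℝ) < M N := by exact_mod_cast g3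
  have hs := rt_pos (k := k) hc hNp
  have hMr : (M N : ℝ) ≤ rt c k N := (le_rt hc hk hNp.le).2 (by exact_mod_cast g2)
  have h1 : (Ms c k N : ℝ) / rt c k (N : ℝ) ≤ 1 := by
    rw [div_le_one hs]
    exact g1
  have h2 : (Mm c k M N : ℝ) / M N ≤ 1 := by
    rw [div_le_one hMp]
    exact_mod_cast min_le_left (M N) (Ms c k N)
  refine ⟨by linarith, ?_⟩
  have h3 : (Ms c k N : ℝ) / rt c k (N : ℝ) ≤ (Mm c k M N : ℝ) / M N := by
    rcases le_total (M N) (Ms c k N) with h | h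
    · have : Mm c k M N = M N := min_eq_left h
      rw [this, div_self hMp.ne']
      exact h1
    · have : Mm c k M N = Ms c k N := min_eq_right h
      rw [this]
      exact div_le_div_of_nonneg_left (Nat.cast_nonneg _) hMp hMr
  linarith

lemma Mm_log {c k : ℕ} (hc : 0 < c) (hk : 0 < k) {M : ℕ → ℕ} (hM : Rng c k M) :
    Tendsto (fun N : ℕ => (1 - (Mm c k M N : ℝ) / M N) * Real.log N) atTop (𝓝 0) := by
  refine squeeze_zero' ?_ ?_ (Ms_log hc hk)
  · filter_upwards [Mm_bounds hc hk hM, tendsto_log.eventually_gt_atTop 0] with N ⟨g1, _⟩ g2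
    exact mul_nonneg g1 g2.le
  · filter_upwards [Mm_bounds hc hk hM, tendsto_log.eventually_gt_atTop 0] with N ⟨_, g1⟩ g2
    exact mul_le_mul_of_nonneg_right g1 g2.le

lemma Mm_ratio {c k : ℕ} (hc : 0 < c) (hk : 0 < k) {M : ℕ → ℕ} (hM : Rng c k M) :
    Tendsto (fun N : ℕ => (Mm c k M N : ℝ) / M N) atTop (𝓝 1) := by
  have h1 : Tendsto (fun N : ℕ => 1 - (Mm c k M N : ℝ) / M N) atTop (𝓝 0) := by
    refine squeeze_zero' ?_ ?_ (Mm_log hc hk hM)
    · filter_upwards [Mm_bounds hc hk hM] with N ⟨g1, _⟩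
      exact g1
    · filter_upwards [Mm_bounds hc hk hM, tendsto_log.eventually_ge_atTop 1] with N ⟨g1, _⟩ g2
      nlinarith
  have h2 := h1.const_sub 1
  rw [sub_zero] at h2
  refine h2.congr fun N => ?_
  ring

/-- the expected number -/
noncomputable def EQ (W c k : ℕ) (M : ℕ → ℕ) (N : ℕ) : ℝ := sgD W (Cpk W c k) N * (M N / Real.log N)

/-- the admissible integers -/
def S0 (W c : ℕ) : Set ℕ := {N | Nat.gcd N (Nat.gcd c W) = 1}

lemma EQ_ge {W c k : ℕ} (hW : 0 < W) (hc : 0 < c) (hk : 0 < k) {M : ℕ → ℕ} (hM : Rng c k M) :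
    ∀ᶠ N : ℕ in atTop ⊓ 𝓟 (S0 W c), 0 < (M N : ℝ) / Real.log N ∧
    1 / (Nat.totient W : ℝ) * (M N / Real.log N) ≤ EQ W c k M N ∧ 0 < EQ W c k M N := by
  rw [eventually_inf_principal]
  filter_upwards [tendsto_log.eventually_gt_atTop 0, hM.pos] with N g1 g2 hN
  have hs : (0 : ℝ) < M N := by exact_mod_cast g2
  have hφ : (0 : ℝ) < Nat.totient W := by exact_mod_cast Nat.totient_pos.2 hW
  have h1 : 0 < (M N : ℝ) / Real.log N := by positivity
  have h2 : 1 / (Nat.totient W : ℝ) * (M N / Real.log N) ≤ EQ W c k M N := mul_le_mul_of_nonneg_right (pk_ge hW hk hN) h1.le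
  exact ⟨h1, h2, lt_of_lt_of_le (by positivity) h2⟩

lemma EQ_log {W c k : ℕ} (hW : 0 < W) (hc : 0 < c) (hk : 0 < k) {M : ℕ → ℕ} (hM : Rng c k M) :
    Tendsto (fun N : ℕ => Real.log (N : ℝ) / EQ W c k M N) (atTop ⊓ 𝓟 (S0 W c)) (𝓝 0) := by
  have hφ : (0 : ℝ) < Nat.totient W := by exact_mod_cast Nat.totient_pos.2 hW
  have h1 := (hM.big.const_mul (Nat.totient W : ℝ)).mono_left (inf_le_left (b := 𝓟 (S0 W c)))
  rw [mul_zero] at h1
  have hlog : ∀ᶠ N : ℕ in atTop ⊓ 𝓟 (S0 W c), 0 < Real.log (N : ℝ) := (tendsto_log.eventually_gt_atTop 0).filter_mono inf_le_left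
  refine squeeze_zero' ?_ ?_ h1
  · filter_upwards [EQ_ge hW hc hk hM, hlog] with N ⟨g1, g2, g4⟩ g3
    positivity
  · filter_upwards [EQ_ge hW hc hk hM, hlog] with N ⟨g1, g2, g4⟩ g3
    have h3 : 0 < 1 / (Nat.totient W : ℝ) * (M N / Real.log N) := by positivity
    refine (div_le_div_of_nonneg_left g3.le h3 g2).trans (le_of_eq ?_)
    have hs : (M N : ℝ) ≠ 0 := by
      intro h
      rw [h, zero_div] at g1
      exact lt_irrefl _ g1
    field_simp

lemma log_div_M {c k : ℕ} {M : ℕ → ℕ} (hM : Rng c k M) : Tendsto (fun N : ℕ => Real.log (N : ℝ) / M N) atTop (𝓝 0) := by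
  refine squeeze_zero' ?_ ?_ hM.big
  · filter_upwards [tendsto_log.eventually_ge_atTop 1] with N g1
    positivity
  · filter_upwards [tendsto_log.eventually_ge_atTop 1] with N g1
    apply div_le_div_of_nonneg_right _ (Nat.cast_nonneg _)
    nlinarith

lemma Ms_pow {c k : ℕ} (hc : 0 < c) (hk : 0 < k) (N : ℕ) : c * (Ms c k N) ^ k ≤ N - TT N := by
  have h1 := (le_rt (m := Ms c k N) hc hk (Nat.cast_nonneg (N - TT N))).1 (Nat.floor_le (rt_nonneg _ _ (Nat.cast_nonneg _)))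
  exact_mod_cast h1

lemma Mm_pow {c k : ℕ} (hc : 0 < c) (hk : 0 < k) (M : ℕ → ℕ) (N : ℕ) : c * (Mm c k M N) ^ k ≤ N - TT N :=
  (Nat.mul_le_mul_left _ (Nat.pow_le_pow_left (min_le_right _ _) k)).trans (Ms_pow hc hk N)

lemma pk_vR {W c k : ℕ} (hW : 0 < W) (hc : 0 < c) (hk : 0 < k) {M : ℕ → ℕ} (hM : Rng c k M) :
    Tendsto (fun N : ℕ => vR W (RD (fun m => c * m ^ k) N (Mm c k M N)) / EQ W c k M N) (atTop ⊓ 𝓟 (S0 W c)) (𝓝 1) := by
  have hφ : (0 : ℝ) < Nat.totient W := by exact_mod_cast Nat.totient_pos.2 hW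
  set K : ℝ := 2 * W * ((W : ℝ) / Nat.totient W) with hK
  have hK0 : 0 ≤ K := by positivity
  have hsq : Tendsto (fun N : ℕ => (K * Nat.totient W) / M N) atTop (𝓝 0) := by
    have h1 := (log_div_M hM).const_mul (K * Nat.totient W)
    rw [mul_zero] at h1
    refine squeeze_zero' ?_ ?_ h1
    · filter_upwards [eventually_gt_atTop 0] with N g2
      positivity
    · filter_upwards [tendsto_log.eventually_ge_atTop 1, eventually_gt_atTop 0] with N g1 g2
      rw [mul_div_assoc']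
      apply div_le_div_of_nonneg_right _ (Nat.cast_nonneg _)
      have : 0 ≤ K * Nat.totient W := by positivity
      nlinarith
  have hlow : Tendsto (fun N : ℕ => (Mm c k M N : ℝ) / M N - (K * Nat.totient W) / M N) atTop (𝓝 1) := by
    have := (Mm_ratio hc hk hM).sub hsq
    rwa [sub_zero] at this
  have hll : Tendsto (fun N : ℕ => (Real.log (N : ℝ) - 2 * Real.log (Real.log (N : ℝ))) / Real.log (N : ℝ)) atTop (𝓝 1) := by
    have h1 : Tendsto (fun x : ℝ => Real.log x / x) atTop (𝓝 0) := Real.isLittleO_log_id_atTop.tendsto_div_nhds_zero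
    have h2 := ((h1.comp tendsto_log).const_mul 2).const_sub 1
    rw [mul_zero, sub_zero] at h2
    refine h2.congr' ?_
    filter_upwards [tendsto_log.eventually_gt_atTop 0] with N hN
    simp only [Function.comp]
    field_simp
  have hup : Tendsto (fun N : ℕ => ((Mm c k M N : ℝ) / M N + (K * Nat.totient W) / M N) *
      ((Real.log (N : ℝ) - 2 * Real.log (Real.log (N : ℝ))) / Real.log (N : ℝ))⁻¹) atTop (𝓝 1) := by
    have := ((Mm_ratio hc hk hM).add hsq).mul (hll.inv₀ one_ne_zero)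
    rwa [add_zero, one_mul, inv_one] at this
  have hboth : ∀ᶠ N : ℕ in atTop ⊓ 𝓟 (S0 W c),
      (Mm c k M N : ℝ) / M N - (K * Nat.totient W) / M N ≤ vR W (RD (fun m => c * m ^ k) N (Mm c k M N)) / EQ W c k M N ∧
      vR W (RD (fun m => c * m ^ k) N (Mm c k M N)) / EQ W c k M N ≤ ((Mm c k M N : ℝ) / M N + (K * Nat.totient W) / M N) *
      ((Real.log (N : ℝ) - 2 * Real.log (Real.log (N : ℝ))) / Real.log (N : ℝ))⁻¹ := by
    have hle : ∀ {p : ℕ → Prop}, (∀ᶠ N : ℕ in atTop, p N) → ∀ᶠ N : ℕ in atTop ⊓ 𝓟 (S0 W c), p N := fun h => h.filter_mono inf_le_left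
    have hmem : ∀ᶠ N : ℕ in atTop ⊓ 𝓟 (S0 W c), N ∈ S0 W c := mem_inf_of_right (mem_principal_self _)
    filter_upwards [hle (Ms_bounds hc hk), hmem, hle (tendsto_log.eventually_gt_atTop 1), hle (eventually_gt_atTop 0),
      hle (tendsto_log.eventually_ge_atTop ((W : ℝ) / Nat.totient W)),
      hle (hll.eventually (eventually_gt_nhds (show (1 / 2 : ℝ) < 1 by norm_num))), hle hM.pos] with N ⟨g1, g2, _⟩ hN g5 g6 g7 g8 g9
    have hNp : (0 : ℝ) < N := by exact_mod_cast g6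
    have hs : (0 : ℝ) < M N := by exact_mod_cast g9
    have hL : 0 < Real.log (N : ℝ) := by linarith
    have hMM' : c * (Mm c k M N) ^ k ≤ N - TT N := Mm_pow hc hk M N
    have hT2 : 2 ≤ TT N := by unfold TT; omega
    obtain ⟨v1, v2⟩ := vD_bounds hW (pk_rep hW hc hk) (N := N) (M := Mm c k M N) (by
      show c * (Mm c k M N) ^ k + 2 ≤ N
      omega) g7
    rw [← hK] at v1 v2
    set σ := sgD W (Cpk W c k) N with hσ
    have hσ1 : 1 / (Nat.totient W : ℝ) ≤ σ := pk_ge hW hk hN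
    have hσ0 : 0 < σ := pk_pos hW hk hN
    have hσφ : 1 ≤ Nat.totient W * σ := by
      rw [div_le_iff₀ hφ] at hσ1
      linarith
    have hKσ : K / σ ≤ K * Nat.totient W := by
      rw [div_le_iff₀ hσ0]
      nlinarith
    have hE : EQ W c k M N = σ * (M N / Real.log N) := rfl
    have hE0 : 0 < EQ W c k M N := by rw [hE]; positivity
    constructor
    · have h1 : (σ * (Mm c k M N : ℝ) - K) / Real.log N / EQ W c k M N ≤ vR W (RD (fun m => c * m ^ k) N (Mm c k M N)) / EQ W c k M N :=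
        div_le_div_of_nonneg_right v1 hE0.le
      refine le_trans ?_ h1
      have h2 : (σ * (Mm c k M N : ℝ) - K) / Real.log N / EQ W c k M N = (Mm c k M N : ℝ) / M N - (K / σ) / M N := by
        rw [hE]
        field_simp
      rw [h2]
      have h3 := div_le_div_of_nonneg_right hKσ hs.le
      linarith
    · have hl2 : 0 < Real.log (N : ℝ) ^ 2 := by positivity
      have hTN : (N : ℝ) / Real.log N ^ 2 ≤ ((N - c * (Mm c k M N) ^ k : ℕ) : ℝ) := by
        have h1 : (N : ℝ) / Real.log N ^ 2 < TT N := by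
          unfold TT
          push_cast
          have := Nat.lt_floor_add_one ((N : ℝ) / Real.log N ^ 2)
          linarith
        have h2 : (TT N : ℝ) ≤ ((N - c * (Mm c k M N) ^ k : ℕ) : ℝ) := by exact_mod_cast (by omega : TT N ≤ N - c * (Mm c k M N) ^ k)
        linarith
      have hlog : Real.log (N : ℝ) - 2 * Real.log (Real.log (N : ℝ)) ≤ Real.log ((N - c * (Mm c k M N) ^ k : ℕ) : ℝ) := by
        refine le_trans (le_of_eq ?_) (Real.log_le_log (by positivity) hTN)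
        rw [Real.log_div hNp.ne' hl2.ne', Real.log_pow]
        push_cast
        ring
      have hq0 : 0 < Real.log (N : ℝ) - 2 * Real.log (Real.log (N : ℝ)) := by
        rw [lt_div_iff₀ hL] at g8
        linarith
      have v3 : vR W (RD (fun m => c * m ^ k) N (Mm c k M N)) ≤ (σ * (Mm c k M N : ℝ) + K) / (Real.log (N : ℝ) - 2 * Real.log (Real.log (N : ℝ))) :=
        v2.trans (div_le_div_of_nonneg_left (by positivity) hq0 hlog)
      refine (div_le_div_of_nonneg_right v3 hE0.le).trans ?_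
      have h2 : (σ * (Mm c k M N : ℝ) + K) / (Real.log (N : ℝ) - 2 * Real.log (Real.log (N : ℝ))) / EQ W c k M N =
          ((Mm c k M N : ℝ) / M N + (K / σ) / M N) * ((Real.log (N : ℝ) - 2 * Real.log (Real.log (N : ℝ))) / Real.log (N : ℝ))⁻¹ := by
        rw [hE, inv_div]
        field_simp
      rw [h2]
      apply mul_le_mul_of_nonneg_right _ (by positivity)
      have h3 := div_le_div_of_nonneg_right hKσ hs.le
      linarith
  exact tendsto_of_tendsto_of_tendsto_of_le_of_le' (hlow.mono_left inf_le_left) (hup.mono_left inf_le_left)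
    (hboth.mono fun N h => h.1) (hboth.mono fun N h => h.2)

lemma pk_far {c k : ℕ} (hc : 0 < c) (hk : 0 < k) (M : ℕ → ℕ) (K : ℕ) :
    ∀ᶠ N : ℕ in atTop, ∀ n ∈ RD (fun m => c * m ^ k) N (Mm c k M N), K < n := by
  have h1 : Tendsto (fun N : ℕ => (N : ℝ) / Real.log N ^ 2) atTop atTop := by
    have := lin_log_top one_pos
    refine this.congr fun n => ?_
    rw [one_mul]
  filter_upwards [h1.eventually_ge_atTop (K : ℝ), Ms_bounds hc hk] with N g1 ⟨g2, _, _⟩ n hn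
  obtain ⟨m, hm, rfl⟩ := Finset.mem_image.1 hn
  obtain ⟨m1, m2⟩ := Finset.mem_Icc.1 hm
  have hMM : c * (Mm c k M N) ^ k ≤ N - TT N := Mm_pow hc hk M N
  have hm2 : c * m ^ k ≤ c * (Mm c k M N) ^ k := Nat.mul_le_mul_left _ (Nat.pow_le_pow_left m2 k)
  have hT : K + 2 ≤ TT N := by
    unfold TT
    have := Nat.le_floor g1
    omega
  show K < N - c * m ^ k
  omega

/-- **the number of the members in the windows** -/
lemma pk_win_count (hA : ∀ n, MeasurableSet[ℱ n] (A n)) {W c k : ℕ} (hW : 0 < W) (hc : 0 < c) (hk : 0 < k)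
    (hd : ∀ᵐ ω ∂μ, ∀ ε : ℝ, 0 < ε → ∀ᶠ n : ℕ in atTop, |dens μ ℱ A n ω - rhoW W (n + 1)| ≤ ε * rhoW W (n + 1))
    {M : ℕ → ℕ} (hM : Rng c k M) :
    ∀ᵐ ω ∂μ, Tendsto (fun N : ℕ => Ncl A (RD (fun m => c * m ^ k) N (Mm c k M N)) ω / EQ W c k M N) (atTop ⊓ 𝓟 (S0 W c)) (𝓝 1) := by
  classical
  have hφ : (0 : ℝ) < Nat.totient W := by exact_mod_cast Nat.totient_pos.2 hW
  set g : ℕ → ℕ := fun N => if N ∈ S0 W c then N else W * (N / W) + 1 with hg
  have hgS : ∀ N, g N ∈ S0 W c := by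
    intro N
    show (if N ∈ S0 W c then N else W * (N / W) + 1) ∈ S0 W c
    split_ifs with h
    · exact h
    · show Nat.gcd (W * (N / W) + 1) (Nat.gcd c W) = 1
      have h1 : Nat.Coprime (W * (N / W) + 1) W := by
        rw [Nat.coprime_mul_left_add_left]
        exact Nat.coprime_one_left _
      exact Nat.Coprime.coprime_dvd_right (Nat.gcd_dvd_right c W) h1
  have hgN : ∀ N, N - W ≤ g N := by
    intro N
    show N - W ≤ (if N ∈ S0 W c then N else W * (N / W) + 1)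
    split_ifs
    · omega
    · have := Nat.lt_mul_div_succ N hW
      have h2 : W * (N / W + 1) = W * (N / W) + W := by ring
      omega
  have hgt : Tendsto g atTop atTop := tendsto_atTop_mono hgN (tendsto_sub_atTop_nat W)
  have hgt' : Tendsto g atTop (atTop ⊓ 𝓟 (S0 W c)) := tendsto_inf.2 ⟨hgt, tendsto_principal.2 (Eventually.of_forall hgS)⟩
  have hE0 : ∀ᶠ N : ℕ in atTop, 0 < EQ W c k M (g N) := (hgt'.eventually (EQ_ge hW hc hk hM)).mono fun N h => h.2.2
  have hEL : Tendsto (fun N : ℕ => Real.log (N : ℝ) / EQ W c k M (g N)) atTop (𝓝 0) := by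
    have h1 := ((EQ_log hW hc hk hM).comp hgt').const_mul 2
    rw [mul_zero] at h1
    refine squeeze_zero' ?_ ?_ h1
    · filter_upwards [hE0, tendsto_log.eventually_gt_atTop 0] with N g1 g2
      positivity
    · filter_upwards [hE0, eventually_ge_atTop (4 * W + 4)] with N g1 g2
      simp only [Function.comp]
      rw [mul_div_assoc']
      apply div_le_div_of_nonneg_right _ g1.le
      have h2 := hgN N
      have h31 : N ≤ 2 * g N := by omega
      have h32 : 2 ≤ g N := by omega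
      have h3 : N ≤ g N ^ 2 := by
        rw [sq]
        exact h31.trans (Nat.mul_le_mul_right _ h32)
      have h4 : (N : ℝ) ≤ (g N : ℝ) ^ 2 := by exact_mod_cast h3
      have hNp : (0 : ℝ) < N := by
        have : 0 < N := by omega
        exact_mod_cast this
      have h5 := Real.log_le_log hNp h4
      rw [Real.log_pow] at h5
      exact_mod_cast h5
  have hlim : Tendsto (fun N : ℕ => vR W (RD (fun m => c * m ^ k) (g N) (Mm c k M (g N))) / EQ W c k M (g N)) atTop (𝓝 1) :=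
    (pk_vR hW hc hk hM).comp hgt'
  have hwin : Win W (fun N => RD (fun m => c * m ^ k) (g N) (Mm c k M (g N))) := by
    refine ⟨fun K => hgt.eventually (pk_far hc hk M K), ?_⟩
    have h2 : Tendsto (fun N : ℕ => EQ W c k M (g N) / Real.log (N : ℝ)) atTop atTop := by
      have h3 : ∀ᶠ N : ℕ in atTop, 0 < Real.log (N : ℝ) / EQ W c k M (g N) := by
        filter_upwards [hE0, tendsto_log.eventually_gt_atTop 0] with N g1 g3
        positivity
      have h5 := (tendsto_nhdsWithin_iff.2 ⟨hEL, h3⟩).inv_tendsto_nhdsGT_zero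
      refine h5.congr fun x => ?_
      simp only [Pi.inv_apply, inv_div]
    have h3 := hlim.pos_mul_atTop one_pos h2
    refine h3.congr' ?_
    filter_upwards [hE0, tendsto_log.eventually_gt_atTop 0] with N g1 g3
    field_simp
  filter_upwards [win_count (μ := μ) (ℱ := ℱ) hA hd hwin hE0 hlim hEL] with ω hω
  refine (hω.mono_left (inf_le_left (b := 𝓟 (S0 W c)))).congr' ?_
  have hmem : ∀ᶠ N : ℕ in atTop ⊓ 𝓟 (S0 W c), N ∈ S0 W c := mem_inf_of_right (mem_principal_self _)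
  filter_upwards [hmem] with N hN
  have : g N = N := by
    show (if N ∈ S0 W c then N else W * (N / W) + 1) = N
    rw [if_pos hN]
  rw [this]

lemma Ncl_RD {c k N M : ℕ} (hc : 0 < c) (hk : 0 < k) (hN : c * M ^ k ≤ N) (ω : Ω) :
    Ncl A (RD (fun m => c * m ^ k) N M) ω = ∑ m ∈ Finset.Icc 1 M, In A (N - c * m ^ k) ω := by
  unfold Ncl RD
  rw [Finset.sum_image]
  intro p hp q hq hpq
  obtain ⟨p1, p2⟩ := Finset.mem_Icc.1 hp
  obtain ⟨q1, q2⟩ := Finset.mem_Icc.1 hq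
  have h1 : c * p ^ k ≤ c * M ^ k := Nat.mul_le_mul_left _ (Nat.pow_le_pow_left p2 k)
  have h2 : c * q ^ k ≤ c * M ^ k := Nat.mul_le_mul_left _ (Nat.pow_le_pow_left q2 k)
  have h3 : N - c * p ^ k = N - c * q ^ k := hpq
  have h4 : c * p ^ k = c * q ^ k := by omega
  exact Nat.pow_left_injective hk.ne' (Nat.eq_of_mul_eq_mul_left hc h4)

/-- the number of the representations with `m ≤ M` -/
noncomputable def rN (A : ℕ → Set Ω) (ω : Ω) (c k M N : ℕ) : ℝ :=
  ∑ m ∈ (Finset.range (M + 1)).filter (fun m => c * m ^ k < N), In A (N - c * m ^ k) ω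

/-- **the number of the representations `N = c m ^ k + q`** -/
theorem pk_count (hA : ∀ n, MeasurableSet[ℱ n] (A n)) {W c k : ℕ} (hW : 0 < W) (hc : 0 < c) (hk : 0 < k)
    (hd : ∀ᵐ ω ∂μ, ∀ ε : ℝ, 0 < ε → ∀ᶠ n : ℕ in atTop, |dens μ ℱ A n ω - rhoW W (n + 1)| ≤ ε * rhoW W (n + 1))
    {M : ℕ → ℕ} (hM : Rng c k M) :
    ∀ᵐ ω ∂μ, Tendsto (fun N : ℕ => rN A ω c k (M N) N / EQ W c k M N) (atTop ⊓ 𝓟 (S0 W c)) (𝓝 1) := by
  have hφ : (0 : ℝ) < Nat.totient W := by exact_mod_cast Nat.totient_pos.2 hW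
  have hcp : (0 : ℝ) < c := by exact_mod_cast hc
  filter_upwards [pk_win_count (μ := μ) (ℱ := ℱ) hA hW hc hk hd hM] with ω hω
  have htail : Tendsto (fun N : ℕ => (rN A ω c k (M N) N - Ncl A (RD (fun m => c * m ^ k) N (Mm c k M N)) ω) / EQ W c k M N) (atTop ⊓ 𝓟 (S0 W c)) (𝓝 0) := by
    have h1 := ((((Mm_log hc hk hM).add (log_div_M hM)).const_mul (Nat.totient W : ℝ))).mono_left (inf_le_left (b := 𝓟 (S0 W c)))
    rw [add_zero, mul_zero] at h1
    refine squeeze_zero_norm' ?_ h1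
    have hle : ∀ {p : ℕ → Prop}, (∀ᶠ N : ℕ in atTop, p N) → ∀ᶠ N : ℕ in atTop ⊓ 𝓟 (S0 W c), p N := fun h => h.filter_mono inf_le_left
    filter_upwards [hle (Ms_bounds hc hk), EQ_ge hW hc hk hM, hle (tendsto_log.eventually_gt_atTop 0), hle (eventually_gt_atTop 0), hle hM.pos] with N ⟨g1, g2, _⟩ ⟨g3, g4, hE0⟩ g5 g6 g7
    have hNp : (0 : ℝ) < N := by exact_mod_cast g6
    have hs : (0 : ℝ) < M N := by exact_mod_cast g7
    have hMM' : c * (Mm c k M N) ^ k ≤ N - TT N := Mm_pow hc hk M N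
    have hT2 : 2 ≤ TT N := by unfold TT; omega
    have hmM : Mm c k M N ≤ M N := min_le_left _ _
    rw [Ncl_RD hc hk (by omega)]
    have hsub : Finset.Icc 1 (Mm c k M N) ⊆ (Finset.range (M N + 1)).filter (fun m => c * m ^ k < N) := by
      intro m hm
      obtain ⟨m1, m2⟩ := Finset.mem_Icc.1 hm
      have h1 : c * m ^ k ≤ c * (Mm c k M N) ^ k := Nat.mul_le_mul_left _ (Nat.pow_le_pow_left m2 k)
      rw [Finset.mem_filter, Finset.mem_range]
      constructor <;> omega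
    have h2 : rN A ω c k (M N) N - ∑ m ∈ Finset.Icc 1 (Mm c k M N), In A (N - c * m ^ k) ω =
        ∑ m ∈ (Finset.range (M N + 1)).filter (fun m => c * m ^ k < N) \ Finset.Icc 1 (Mm c k M N), In A (N - c * m ^ k) ω := by
      unfold rN
      rw [← Finset.sum_sdiff hsub, add_sub_cancel_right]
    rw [h2]
    have h3 : 0 ≤ ∑ m ∈ (Finset.range (M N + 1)).filter (fun m => c * m ^ k < N) \ Finset.Icc 1 (Mm c k M N), In A (N - c * m ^ k) ω :=
      Finset.sum_nonneg fun m _ => In_nonneg _ _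
    have h4 : ∑ m ∈ (Finset.range (M N + 1)).filter (fun m => c * m ^ k < N) \ Finset.Icc 1 (Mm c k M N), In A (N - c * m ^ k) ω ≤ (M N : ℝ) - Mm c k M N + 1 := by
      refine (Finset.sum_le_sum fun m _ => In_le (A := A) (N - c * m ^ k) ω).trans ?_
      rw [Finset.sum_const, nsmul_eq_mul, mul_one]
      have h5 : (Finset.range (M N + 1)).filter (fun m => c * m ^ k < N) \ Finset.Icc 1 (Mm c k M N) ⊆ insert 0 (Finset.Ioc (Mm c k M N) (M N)) := by
        intro m hm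
        rw [Finset.mem_sdiff, Finset.mem_filter, Finset.mem_Icc, Finset.mem_range] at hm
        obtain ⟨⟨hm1, _⟩, hm3⟩ := hm
        rw [Finset.mem_insert, Finset.mem_Ioc]
        omega
      have h6 := (Finset.card_le_card h5).trans (Finset.card_insert_le _ _)
      rw [Nat.card_Ioc] at h6
      have h7 : ((((Finset.range (M N + 1)).filter (fun m => c * m ^ k < N) \ Finset.Icc 1 (Mm c k M N)).card : ℕ) : ℝ) ≤ ((M N - Mm c k M N + 1 : ℕ) : ℝ) := by
        exact_mod_cast h6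
      push_cast [Nat.cast_sub hmM] at h7
      linarith
    rw [Real.norm_eq_abs, abs_div, abs_of_pos hE0, abs_of_nonneg h3]
    have hmM' : (Mm c k M N : ℝ) ≤ M N := by exact_mod_cast hmM
    have h6 : 0 ≤ (M N : ℝ) - Mm c k M N + 1 := by linarith
    have h5 : 0 < 1 / (Nat.totient W : ℝ) * ((M N : ℝ) / Real.log N) := by positivity
    calc _ ≤ ((M N : ℝ) - Mm c k M N + 1) / EQ W c k M N := div_le_div_of_nonneg_right h4 hE0.le
      _ ≤ ((M N : ℝ) - Mm c k M N + 1) / (1 / (Nat.totient W : ℝ) * ((M N : ℝ) / Real.log N)) := div_le_div_of_nonneg_left h6 h5 g4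
      _ = _ := by field_simp
  have h3 := htail.add hω
  rw [zero_add] at h3
  refine h3.congr fun N => ?_
  ring

/-- the number of the representations as a cardinality -/
lemma rN_card {c k M N : ℕ} (ω : Ω) :
    (({m : ℕ | m ≤ M ∧ c * m ^ k < N ∧ ω ∈ A (N - c * m ^ k)}.ncard : ℕ) : ℝ) = rN A ω c k M N := by
  classical
  have h1 : {m : ℕ | m ≤ M ∧ c * m ^ k < N ∧ ω ∈ A (N - c * m ^ k)} =
      ((((Finset.range (M + 1)).filter (fun m => c * m ^ k < N)).filter (fun m => ω ∈ A (N - c * m ^ k)) : Finset ℕ) : Set ℕ) := by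
    ext m
    simp only [Finset.coe_filter, Finset.mem_filter, Finset.mem_range, Set.mem_ofPred_eq]
    constructor
    · rintro ⟨h0, h1, h2⟩
      exact ⟨⟨by omega, h1⟩, h2⟩
    · rintro ⟨⟨h0, h1⟩, h2⟩
      exact ⟨by omega, h1, h2⟩
  rw [h1, Set.ncard_coe_finset]
  unfold rN
  rw [Finset.card_filter]
  push_cast
  apply Finset.sum_congr rfl
  intro m _
  unfold Pool.Agent.R528.RM.In
  by_cases h : ω ∈ A (N - c * m ^ k)
  · rw [if_pos h, Set.indicator_of_mem h]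
  · rw [if_neg h, Set.indicator_of_notMem h]

end Pool.Agent.R291.RMW
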